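import Pool.Agent.W25.UB.Stm7
import Pool.Agent.W150.UBC1a

/-!
# Any number of classes of shifts: all other shifts blocked
-/

set_option autoImplicit false

namespace Pool.Agent.W473.UBCB

open Finset Filter Topology
open Pool.Agent.W25.UN (Fm uB wB)
open Pool.Agent.H410R2 (WW)
open Pool.Agent.W59.GB Pool.Agent.H947R3.GM Pool.Agent.H732R3.BigQ Pool.Agent.W25.UB
open Pool.Agent.W150.UBC1a (dvdWW)

/-- the residue class -/
theorem crt {T K : ℕ} {N a : ℕ} (hN : 0 < N) (ha : a.Coprime N) (hsq : Squarefree N)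
    (H : Fin T → Fin K → ℕ) (hH : AdmN N H) {M : ℕ} (hM : ∀ g i, N * H g i ≤ M) (m0 : ℕ)
    (hm0 : ∃ g i, N * H g i = m0) (q : ℕ → ℕ) (hqp : ∀ t, (q t).Prime)
    (hqM : ∀ t, M + N + t < q t) (hqinj : Function.Injective q) (D : ℕ) (hD : N ≤ D) :
    ∃ v : ℕ, ∀ n : ℤ, n ≡ v [ZMOD (WW D)] →
      (∀ p : ℕ, p.Prime → p ≤ D → ∀ g i, ¬ (p : ℤ) ∣ n - m0 + (N * H g i : ℕ)) ∧
      n ≡ a [ZMOD N] ∧
      ∀ t ≤ M, (∀ g i, N * H g i ≠ t) → q t ≤ D → (q t : ℤ) ∣ n - m0 + t := by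
  classical
  have hND : N ∣ WW D := dvdWW hN hsq hD
  -- residues
  have hres : ∀ p : ℕ, ∃ r : ℕ, p.Prime → ¬ p ∣ N → ∀ n : ℤ, n ≡ r [ZMOD p] →
      (∀ g i, ¬ (p : ℤ) ∣ n - m0 + (N * H g i : ℕ)) ∧
      ∀ t ≤ M, (∀ g i, N * H g i ≠ t) → q t = p → (p : ℤ) ∣ n - m0 + t := by
    intro p
    by_cases hp : p.Prime
    swap
    · exact ⟨0, fun h => absurd h hp⟩
    by_cases hpN : p ∣ N
    · exact ⟨0, fun _ h => absurd hpN h⟩
    by_cases hex : ∃ t ≤ M, (∀ g i, N * H g i ≠ t) ∧ q t = p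
    · obtain ⟨t, htM, hne, rfl⟩ := hex
      refine ⟨m0 + (q t - t), fun _ _ n hn => ?_⟩
      have h1 : (q t : ℤ) ∣ n - m0 + t := by
        have h2 := (Int.modEq_iff_dvd.1 hn.symm)
        have h3 : (((m0 + (q t - t) : ℕ)) : ℤ) = m0 + (q t - t) := by
          rw [Nat.cast_add, Nat.cast_sub (by have := hqM t; omega)]
        rw [h3] at h2
        have e : n - m0 + t = (n - (m0 + (q t - t))) + q t := by ring
        rw [e]
        exact dvd_add h2 dvd_rfl
      refine ⟨fun g i hd => ?_, fun t' _ _ h => ?_⟩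
      · have h2 : (q t : ℤ) ∣ ((N * H g i : ℕ) : ℤ) - t := by
          have := dvd_sub hd h1
          have e : n - m0 + ((N * H g i : ℕ) : ℤ) - (n - m0 + t) = ((N * H g i : ℕ) : ℤ) - t := by
            ring
          rwa [e] at this
        have h4 : |((N * H g i : ℕ) : ℤ) - t| < q t := by
          have := hqM t
          have h5 := hM g i
          rw [abs_lt]
          constructor <;> omega
        have h6 := Int.eq_zero_of_abs_lt_dvd h2 h4
        exact hne g i (by omega)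
      · rw [hqinj h]; exact h1
    · obtain ⟨n₀, hn₀⟩ := hH.2 p hp hpN
      have hp0 : (0 : ℤ) < p := by exact_mod_cast hp.pos
      refine ⟨((N * n₀ + m0) % p).toNat, fun _ _ n hn => ⟨fun g i hd => ?_, fun t h1 h2 h3 => ?_⟩⟩
      · have h1 : n ≡ N * n₀ + m0 [ZMOD p] := by
          refine hn.trans ?_
          rw [Int.toNat_of_nonneg (Int.emod_nonneg _ hp0.ne')]
          exact Int.mod_modEq _ _
        have h2 : (p : ℤ) ∣ N * n₀ + m0 - n := Int.modEq_iff_dvd.1 h1
        have h3 : (p : ℤ) ∣ N * (n₀ + H g i) := by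
          have e : (N : ℤ) * (n₀ + H g i) = (N * n₀ + m0 - n) + (n - m0 + ((N * H g i : ℕ) : ℤ)) := by
            push_cast; ring
          rw [e]; exact dvd_add h2 hd
        rcases (Nat.prime_iff_prime_int.1 hp).dvd_or_dvd h3 with h4 | h4
        · exact hpN (by exact_mod_cast h4)
        · exact hn₀ g i h4
      · exact absurd ⟨t, h1, h2, h3⟩ hex
  choose r hr using hres
  set S : Finset ℕ := ((Icc 1 D).filter Nat.Prime).filter fun p => ¬ p ∣ N with hS
  have hSp : ∀ p ∈ S, p.Prime ∧ ¬ p ∣ N := fun p hp => by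
    simp only [hS, mem_filter] at hp; exact ⟨hp.1.2, hp.2⟩
  have hpair : Set.Pairwise (S : Set ℕ) (Function.onFun Nat.Coprime fun p => p) := by
    intro s hs t ht hst
    exact (Nat.coprime_primes (hSp s hs).1 (hSp t ht).1).2 hst
  obtain ⟨r₀, hr₀⟩ := Nat.chineseRemainderOfFinset r (fun p => p) S
    (fun t ht => (hSp t ht).1.ne_zero) hpair
  have hcopN : Nat.Coprime (∏ p ∈ S, p) N := by
    refine Nat.Coprime.prod_left fun t ht => ?_
    rw [Nat.Prime.coprime_iff_not_dvd (hSp t ht).1]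
    exact (hSp t ht).2
  obtain ⟨v, hvS, hvN⟩ := Nat.chineseRemainder hcopN r₀ a
  refine ⟨v, fun n hn => ?_⟩
  have hnN : n ≡ a [ZMOD N] :=
    (hn.of_dvd (by exact_mod_cast hND)).trans (Int.natCast_modEq_iff.2 hvN)
  have hnp : ∀ p ∈ S, n ≡ r p [ZMOD p] := by
    intro p hp
    have hpD : p ∣ WW D := by
      rw [WW]
      exact dvd_prod_of_mem _ (mem_filter.1 hp).1
    refine (hn.of_dvd (by exact_mod_cast hpD)).trans (Int.natCast_modEq_iff.2 ?_)
    exact (hvS.of_dvd (dvd_prod_of_mem _ hp)).trans (hr₀ p hp)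
  refine ⟨fun p hp hpD g i hd => ?_, hnN, fun t ht hne hq => ?_⟩
  · by_cases hpN : p ∣ N
    · obtain ⟨g0, i0, hm⟩ := hm0
      have h1 : (p : ℤ) ∣ n := by
        have e : n = (n - m0 + ((N * H g i : ℕ) : ℤ)) + (N : ℤ) * (H g0 i0 - H g i) := by
          rw [← hm]; push_cast; ring
        rw [e]
        exact dvd_add hd ((Int.natCast_dvd_natCast.2 hpN).mul_right _)
      have h2 : (p : ℤ) ∣ a := by
        have h3 := Int.modEq_iff_dvd.1 (hnN.of_dvd (Int.natCast_dvd_natCast.2 hpN))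
        have := dvd_add h3 h1
        rwa [sub_add_cancel] at this
      have h4 : p ∣ Nat.gcd a N := Nat.dvd_gcd (by exact_mod_cast h2) hpN
      rw [ha] at h4
      exact hp.one_lt.ne' (Nat.dvd_one.1 h4)
    · have hpS : p ∈ S := by
        simp only [hS, mem_filter, mem_Icc]
        exact ⟨⟨⟨hp.one_le, hpD⟩, hp⟩, hpN⟩
      exact (hr p hp hpN n (hnp p hpS)).1 g i hd
  · have hqN : ¬ q t ∣ N := fun h => by
      have := Nat.le_of_dvd hN h
      have := hqM t
      omega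
    have hpS : q t ∈ S := by
      simp only [hS, mem_filter, mem_Icc]
      exact ⟨⟨⟨(hqp t).one_le, hq⟩, hqp t⟩, hqN⟩
    exact (hr (q t) (hqp t) hqN n (hnp _ hpS)).2 t ht hne rfl

theorem card_cl {T K : ℕ} (g : Fin T) :
    (univ.filter (fun j : Fin (T * K) => (finProdFinEquiv.symm j).1 = g)).card = K := by
  have h1 : (univ.filter (fun j : Fin (T * K) => (finProdFinEquiv.symm j).1 = g)).card =
      (({g} : Finset (Fin T)) ×ˢ (univ : Finset (Fin K))).card := by
    apply Finset.card_equiv finProdFinEquiv.symm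
    intro j
    simp [eq_comm]
  rw [h1, card_product]
  simp

/-- pulling back along an affine map -/
theorem big_pull {F : Set ℕ} (hF : Big F) {Q r : ℕ} (hQ : 0 < Q) (hr : ∀ b ∈ F, ∃ m, b = Q * m + r) :
    Big {m : ℕ | Q * m + r ∈ F} := by
  intro η hη
  refine (hF η hη).mono fun y hy => hy.trans ?_
  refine Nat.cast_le.2 ?_
  have hsub : {n : ℕ | n ∈ F ∧ (n : ℝ) ≤ y} ⊆
      (fun m : ℕ => Q * m + r) '' {m : ℕ | m ∈ {m : ℕ | Q * m + r ∈ F} ∧ (m : ℝ) ≤ y} := by
    rintro n ⟨hn, hny⟩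
    obtain ⟨m, rfl⟩ := hr n hn
    refine ⟨m, ⟨hn, le_trans ?_ hny⟩, rfl⟩
    refine Nat.cast_le.2 ?_
    have := Nat.le_mul_of_pos_left m hQ
    omega
  have hfin := fin_le {m : ℕ | Q * m + r ∈ F} y
  exact (Set.ncard_le_ncard hsub (hfin.image _)).trans (Set.ncard_image_le hfin)

open Classical in
theorem main (hV : ThmVG) : St_CB := by
  obtain ⟨c1, hc0, hc1, hV⟩ := hV
  refine ⟨c1, hc0, hc1, fun T M' hT hTM => ?_⟩
  obtain ⟨K, hK2, hV⟩ := hV T M' hT hTM
  refine ⟨K, by omega, fun N a hN _ hsq ha H hH => ?_⟩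
  have hK0 : 0 < K := by omega
  set H' : Fin T → Fin K → ℕ := fun g i => N * H g i with hH'
  have hinjH' : Function.Injective (fun x : Fin T × Fin K => H' x.1 x.2) := by
    intro x y hxy
    exact hH.1 (Nat.eq_of_mul_eq_mul_left hN hxy)
  obtain ⟨M, hM⟩ : ∃ M, ∀ g i, H' g i ≤ M :=
    ⟨univ.sup fun x : Fin T × Fin K => H' x.1 x.2, fun g i =>
      le_sup (f := fun x : Fin T × Fin K => H' x.1 x.2) (mem_univ (g, i))⟩
  set q : ℕ → ℕ := fun t => Nat.nth Nat.Prime (M + N + t) with hq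
  have hqp : ∀ t, (q t).Prime := fun t => Nat.prime_nth_prime _
  have hqM : ∀ t, M + N + t < q t := fun t => by
    have := Nat.add_two_le_nth_prime (M + N + t)
    simp only [hq]; omega
  have hqinj : Function.Injective q := by
    intro s t hst
    have := Nat.nth_injective Nat.infinite_setOfPred_prime hst
    omega
  set g00 : Fin T := ⟨0, hT⟩ with hg00
  obtain ⟨m0, hm0⟩ : ∃ m0, H' g00 ⟨0, hK0⟩ = m0 := ⟨_, rfl⟩
  set e : Fin (T * K) ≃ Fin T × Fin K := finProdFinEquiv.symm with he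
  set h : Fin (T * K) → ℤ := fun j => (H' (e j).1 (e j).2 : ℤ) - m0 with hh
  obtain ⟨D₀, hD₀⟩ := hV (fun _ => 1) h (fun j => (e j).1) (fun g => by
      convert card_cl (K := K) g) (fun _ => Or.inl rfl) (by
      rintro i j hij ⟨-, h1⟩
      apply hij
      apply e.injective
      apply hinjH'
      simp only [hh] at h1
      simp only
      omega)
  obtain ⟨D, hDD, hDN, hDq⟩ : ∃ D, D₀ ≤ D ∧ N ≤ D ∧ ∀ t ≤ M, q t ≤ D := by
    refine ⟨D₀ + N + ∑ t ∈ range (M + 1), q t, by omega, by omega, fun t ht => ?_⟩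
    have : q t ≤ ∑ t ∈ range (M + 1), q t :=
      single_le_sum (f := q) (fun i _ => Nat.zero_le _) (mem_range.2 (Nat.lt_succ_of_le ht))
    omega
  obtain ⟨v, hv⟩ := crt hN ha hsq H hH hM m0 ⟨g00, ⟨0, hK0⟩, hm0⟩ q hqp hqM hqinj D hDN
  have hNW := dvdWW hN hsq hDN
  have hW : 0 < WW D := by
    rw [WW]; exact prod_pos fun p hp => (mem_filter.1 hp).2.pos
  obtain ⟨r, hrdef⟩ : ∃ r, r + m0 = v + WW D * m0 := by
    have := Nat.le_mul_of_pos_left m0 hW
    exact ⟨v + WW D * m0 - m0, by omega⟩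
  have hNm0 : N ∣ m0 := by rw [← hm0]; exact dvd_mul_right _ _
  have hra : r ≡ a [MOD N] := by
    obtain ⟨-, hva, -⟩ := hv v (Int.ModEq.refl _)
    have h1 : r + m0 ≡ v + 0 [MOD N] := by
      rw [hrdef]
      exact Nat.ModEq.add_left v (Nat.modEq_zero_iff_dvd.2 (hNW.mul_right _))
    have h2 : r + m0 ≡ r + 0 [MOD N] :=
      Nat.ModEq.add_left r (Nat.modEq_zero_iff_dvd.2 hNm0)
    have h3 : v ≡ a [MOD N] := Int.natCast_modEq_iff.1 hva
    exact (h2.symm.trans h1).trans h3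
  set G : Set ℕ := {b | (∃ m, b = WW D * m + r) ∧
    (∀ t ≤ M, (∀ g i, H' g i ≠ t) → ¬ (b + t).Prime) ∧
    M' + 1 ≤ (univ.filter (fun g : Fin T => ∃ i, (b + H' g i).Prime)).card} with hGdef
  have hG : Big G := by
    intro η hη
    have hev := hD₀ D hDD (η / 2) (by linarith)
    have ht : Tendsto (fun m : ℕ => WW D * m) atTop atTop :=
      tendsto_atTop_mono (fun m => Nat.le_mul_of_pos_left m hW) tendsto_id
    have ht1 : Tendsto (fun m : ℕ => ((WW D * m : ℕ) : ℝ)) atTop atTop :=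
      tendsto_natCast_atTop_atTop.comp ht
    have ht2 : Tendsto (fun m : ℕ => 2 * ((WW D * m : ℕ) : ℝ)) atTop atTop :=
      ht1.const_mul_atTop two_pos
    refine ht2.frequently (Eventually.frequently ?_)
    filter_upwards [ht.eventually hev, ht.eventually (eventually_ge_atTop (m0 + D + 1 + r)),
      ((tendsto_rpow_atTop (show 0 < η / 2 by linarith)).comp ht1).eventually_ge_atTop 2]
      with m h1 h2 h3
    simp only [Function.comp] at h3
    have hWm : WW D ∣ WW D * m := dvd_mul_right _ _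
    generalize WW D * m = Nn at h1 h2 h3 hWm
    have hcop : CopAt (fun _ => 1) h D Nn v := by
      intro j n hn
      obtain ⟨hA, -, -⟩ := hv n hn
      have eW : ((WW D : ℕ) : ℤ) = ∏ p ∈ (Icc 1 D).filter Nat.Prime, (p : ℤ) := by
        rw [WW]; push_cast; rfl
      rw [eW]
      refine IsCoprime.prod_right fun p hp => ?_
      have hpW : (p : ℤ) ∣ (Nn : ℤ) := by
        refine Int.natCast_dvd_natCast.2 (dvd_trans ?_ hWm)
        rw [WW]; exact dvd_prod_of_mem _ hp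
      rw [mem_filter, mem_Icc] at hp
      have hpp := Nat.prime_iff_prime_int.1 hp.2
      have key := hA p hp.2 hp.1.2
      refine (hpp.coprime_iff_not_dvd.2 ?_).symm
      rcases j with _ | i
      · intro hd
        apply key g00 ⟨0, hK0⟩
        have e1 : n - m0 + ((N * H g00 ⟨0, hK0⟩ : ℕ) : ℤ) =
            uB (fun _ : Fin (T * K) => 1) none * n + wB h Nn none := by
          have : ((N * H g00 ⟨0, hK0⟩ : ℕ) : ℤ) = m0 := by rw [← hm0]
          rw [this]
          show _ = 1 * n + 0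
          ring
        rw [e1]; exact hd
      · intro hd
        apply key (e i).1 (e i).2
        have e1 : n - m0 + ((N * H (e i).1 (e i).2 : ℕ) : ℤ) =
            (uB (fun _ : Fin (T * K) => 1) (some i) * n + wB h Nn (some i)) - Nn := by
          show _ = (1 * n + (Nn + h i)) - Nn
          simp only [hh, hH']
          ring
        rw [e1]; exact dvd_sub hd hpW
    have h4 := h1 v hcop
    have hNn1 : (1 : ℝ) ≤ Nn := by exact_mod_cast (by omega : 1 ≤ Nn)
    have hNn0 : (0 : ℝ) < Nn := by linarith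
    have h5 : (2 * (Nn : ℝ)) ^ (1 - η) ≤ (Nn : ℝ) ^ (1 - η / 2) := by
      rw [Real.mul_rpow two_pos.le hNn0.le]
      have h6 : (2 : ℝ) ^ (1 - η) ≤ 2 := by
        calc (2 : ℝ) ^ (1 - η) ≤ 2 ^ (1 : ℝ) :=
              Real.rpow_le_rpow_of_exponent_le (by norm_num) (by linarith)
          _ = 2 := Real.rpow_one 2
      calc (2 : ℝ) ^ (1 - η) * (Nn : ℝ) ^ (1 - η) ≤ (Nn : ℝ) ^ (η / 2) * (Nn : ℝ) ^ (1 - η) :=
            mul_le_mul_of_nonneg_right (h6.trans h3) (Real.rpow_nonneg hNn0.le _)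
        _ = (Nn : ℝ) ^ (1 - η / 2) := by
            rw [← Real.rpow_add hNn0]; congr 1; ring
    refine h5.trans (h4.trans ?_)
    generalize hSdef : ((Icc 1 Nn).filter (fun n : ℕ => n ≡ v [MOD (WW D)] ∧
        (Nn : ℝ) / 16 ≤ n ∧ (n : ℝ) ≤ Nn / 2 ∧
        M' + 1 ≤ (univ.filter (fun g : Fin T => ∃ i, (e i).1 = g ∧
          (Fm (fun _ => 1) h Nn i n).toNat.Prime)).card)) = S
    have hinj : Set.InjOn (fun n : ℕ => Nn + n - m0) (S : Set ℕ) := by
      intro n _ n' _ hnn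
      simp only at hnn
      omega
    have hcard : S.card = ((S.image (fun n : ℕ => Nn + n - m0) : Finset ℕ) : Set ℕ).ncard := by
      rw [Set.ncard_coe_finset, card_image_of_injOn hinj]
    rw [hcard]
    refine Nat.cast_le.2 (Set.ncard_le_ncard ?_ (fin_le G _))
    intro b hb
    rw [mem_coe, mem_image] at hb
    obtain ⟨n, hn, rfl⟩ := hb
    rw [← hSdef, mem_filter, mem_Icc] at hn
    obtain ⟨⟨hn1, hn2⟩, hnv, -, hnN, hn3⟩ := hn
    obtain ⟨-, hB, hC⟩ := hv n (Int.natCast_modEq_iff.2 hnv)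
    have hbc : ((Nn + n - m0 : ℕ) : ℤ) = Nn + n - m0 := by
      rw [Nat.cast_sub (by omega)]; push_cast; rfl
    refine ⟨⟨?_, ?_, ?_⟩, ?_⟩
    · -- the residue class modulo `WW D`
      have hge : r ≤ Nn + n - m0 := by omega
      have hmod : r ≡ Nn + n - m0 [MOD (WW D)] := by
        have h7 : r + m0 ≡ (Nn + n - m0) + m0 [MOD (WW D)] := by
          have e2 : (Nn + n - m0) + m0 = n + Nn := by omega
          rw [e2, hrdef]
          have h8 : v + WW D * m0 ≡ v + 0 [MOD (WW D)] :=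
            Nat.ModEq.add_left v (Nat.modEq_zero_iff_dvd.2 (dvd_mul_right _ _))
          have h9 : n + Nn ≡ n + 0 [MOD (WW D)] :=
            Nat.ModEq.add_left n (Nat.modEq_zero_iff_dvd.2 hWm)
          exact (h8.trans hnv.symm).trans h9.symm
        exact Nat.ModEq.add_right_cancel' m0 h7
      obtain ⟨k, hk⟩ := (Nat.modEq_iff_dvd' hge).1 hmod
      exact ⟨k, by omega⟩
    · intro t ht1 hne hpr
      have hd := hC t ht1 hne (hDq t ht1)
      have hqW : (q t : ℤ) ∣ (Nn : ℤ) := by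
        refine Int.natCast_dvd_natCast.2 (dvd_trans ?_ hWm)
        rw [WW]
        exact dvd_prod_of_mem _ (mem_filter.2 ⟨mem_Icc.2 ⟨(hqp t).one_le, hDq t ht1⟩, hqp t⟩)
      have hd2 : q t ∣ Nn + n - m0 + t := by
        rw [← Int.natCast_dvd_natCast]
        have e1 : ((Nn + n - m0 + t : ℕ) : ℤ) = (n - m0 + t) + Nn := by
          rw [Nat.cast_add, hbc]; ring
        rw [e1]
        exact dvd_add hd hqW
      have h7 := (Nat.prime_dvd_prime_iff_eq (hqp t) hpr).1 hd2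
      have h8 := hDq t ht1
      omega
    · refine hn3.trans (card_le_card ?_)
      intro g hg
      rw [mem_filter] at hg ⊢
      obtain ⟨-, i, hi, hp⟩ := hg
      refine ⟨mem_univ _, (e i).2, ?_⟩
      have hF : (Fm (fun _ => 1) h Nn i n).toNat = Nn + n - m0 + H' (e i).1 (e i).2 := by
        have e1 : Fm (fun _ => 1) h Nn i n = ((Nn + n - m0 + H' (e i).1 (e i).2 : ℕ) : ℤ) := by
          rw [Nat.cast_add, hbc]
          simp only [Fm, hh]
          ring
        rw [e1, Int.toNat_natCast]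
      rw [hF, hi] at hp
      exact hp
    · have h9 : ((Nn + n - m0 : ℕ) : ℝ) ≤ ((Nn + n : ℕ) : ℝ) :=
        Nat.cast_le.2 (Nat.sub_le _ _)
      push_cast at h9
      have h10 : ((Nn + n - m0 : ℕ) : ℝ) ≤ (Nn : ℝ) + n := h9
      linarith
  -- pigeonhole over the classes and the choices
  set Y : (Finset (Fin T) × (Fin T → Fin K)) → Set ℕ := fun x =>
    {b | M' + 1 ≤ x.1.card ∧ (∃ m, b = WW D * m + r) ∧ (∀ g ∈ x.1, (b + H' g (x.2 g)).Prime) ∧
      ∀ t ≤ M, (∀ g i, H' g i ≠ t) → ¬ (b + t).Prime} with hY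
  have hcover : G ⊆ ⋃ x, Y x := by
    rintro b ⟨hb1, hb2, hb3⟩
    rw [Set.mem_iUnion]
    refine ⟨(univ.filter (fun g : Fin T => ∃ i, (b + H' g i).Prime),
      fun g => if hg : ∃ i, (b + H' g i).Prime then hg.choose else ⟨0, hK0⟩), hb3, hb1, ?_, hb2⟩
    intro g hg
    have hg' : ∃ i, (b + H' g i).Prime := (mem_filter.1 hg).2
    simp only [dif_pos hg']
    exact hg'.choose_spec
  obtain ⟨x, hx⟩ := big_cover Y G hG hcover
  obtain ⟨n₀, hn₀⟩ := hx.infinite.nonempty
  refine ⟨WW D, r, M, x.1, x.2, hW, hNW, hra, hM, hn₀.1, ?_⟩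
  refine (big_pull hx hW (fun b hb => hb.2.1)).mono ?_
  rintro m ⟨-, -, hm1, hm2⟩
  exact ⟨hm1, hm2⟩

end Pool.Agent.W473.UBCB
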