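import Pool.Agent.W473.Group2

open MvPolynomial DirectSum AlgebraicGeometry CategoryTheory Limits MonoidalCategory
  CartesianMonoidalCategory MonObj

namespace Pool.Agent.W473

open Pool.Agent.Helper198.Sch

attribute [local instance] MvPolynomial.gradedAlgebra

section alg

variable {B : Type*} [CommRing B]

/-- scaling the first coordinate. -/
def sc (r : B) (u : Fin 3 → B) : Fin 3 → B := ![r * u 0, u 1, u 2]

lemma law_sc (a b r : B) (h : b * r ^ 3 = a) (l : Bool) (u v : Fin 3 → B) (i : Fin 3) :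
    law b l (sc r u) (sc r v) i = (if l then r else 1) * sc r (law a l u v) i := by
  subst h
  cases l
  · fin_cases i
    · simp only [law, law2, sc]
      simp only [Fin.zero_eta, Matrix.cons_val]
      simp
      ring
    · simp only [law, law2, sc]
      simp only [Fin.mk_one, Matrix.cons_val]
      simp
      ring
    · simp only [law, law2, sc]
      simp only [Fin.reduceFinMk, Matrix.cons_val]
      simp
      ring
  · fin_cases i
    · simp only [law, law1, sc]
      simp only [Fin.zero_eta, Matrix.cons_val]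
      simp
      ring
    · simp only [law, law1, sc]
      simp only [Fin.mk_one, Matrix.cons_val]
      simp
      ring
    · simp only [law, law1, sc]
      simp only [Fin.reduceFinMk, Matrix.cons_val]
      simp
      ring

lemma sc_smul (r s : B) (u : Fin 3 → B) : sc r (fun i => s * u i) = fun i => s * sc r u i := by
  funext i
  fin_cases i
  · simp [sc]; ring
  · rfl
  · rfl

lemma sc_mul (r s : B) (u : Fin 3 → B) : sc r (sc s u) = sc (r * s) u := by
  funext i
  fin_cases i
  · simp [sc]; ring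
  · rfl
  · rfl

lemma sc_one (u : Fin 3 → B) : sc 1 u = u := by
  funext i
  fin_cases i
  · simp [sc]
  · rfl
  · rfl

lemma sc_e0 (r : B) : sc r (e0 : Fin 3 → B) = e0 := by
  funext i
  fin_cases i <;> simp [sc, e0]

end alg

variable {R R' : Type} [CommRing R] [CommRing R']

section pt

variable {a : R'ˣ} {b : Rˣ} (P : Op (a : R') (b : R)) {T : Scheme.{0}} (t : T ⟶ Spec (.of R'))

/-- the map on points of an operation. -/
noncomputable def opPt (x : Over.mk t ⟶ Eo a) :
    Over.mk (t ≫ Spec.map (CommRingCat.ofHom P.θ)) ⟶ Eo b :=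
  Over.homMk (x.left ≫ P.hom) (by
    have h : x.left ≫ V.str (JF (a : R')) = t := Over.w x
    change (x.left ≫ P.hom) ≫ V.str (JF (b : R)) = t ≫ Spec.map (CommRingCat.ofHom P.θ)
    rw [Category.assoc, P.hom_str, ← Category.assoc, h])

@[simp] lemma opPt_left (x : Over.mk t ⟶ Eo a) : (opPt P t x).left = x.left ≫ P.hom := rfl

end pt

variable [h3 : Three R] [h3' : Three R']

lemma mul_eq {T : Over (Spec (.of R))} {a : Rˣ} (f g : T ⟶ Eo a) :
    f * g = lift f g ≫ mulMap a := rfl

/-- scaling operations are homomorphisms. -/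
theorem opPt_scale_mul (θ : R →+* R') (a : R'ˣ) (b : Rˣ) (α : R'ˣ)
    (h : θ b * (α : R') ^ 3 = a) {T : Scheme.{0}} (t : T ⟶ Spec (.of R'))
    (x y : Over.mk t ⟶ Eo a) :
    opPt (scaleOp θ (a : R') (b : R) α h) t (x * y) =
      opPt (scaleOp θ (a : R') (b : R) α h) t x * opPt (scaleOp θ (a : R') (b : R) α h) t y := by
  set P := scaleOp θ (a : R') (b : R) α h with hP
  apply hom_ext_over
  apply hom_ext_local
  intro w
  obtain ⟨C, i, hi, y1, z1, ⟨w1, rfl⟩, hy, hz, hyz⟩ := exists_local₂ x y w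
  obtain ⟨D, _, φ, x1, l, hφ, hw, hxρ, hxu⟩ := exists_sum y1 z1 hyz w1
  refine ⟨.of D, Spec.map (CommRingCat.ofHom φ) ≫ i, inferInstance, comp_range i φ w1 hw, ?_⟩
  have h2 := lift_mulMap x y (Spec.map (CommRingCat.ofHom φ) ≫ i)
    (y1.map φ) (z1.map φ) x1 l (coord_map hy φ) (coord_map hz φ) (by simp [hyz]) hxρ hxu
  have hL : (Spec.map (CommRingCat.ofHom φ) ≫ i) ≫ (opPt P t (x * y)).left = (P.co x1).pt := by
    rw [opPt_left, ← Category.assoc, mul_eq, h2, P.pt_hom']
  have hx : (Spec.map (CommRingCat.ofHom φ) ≫ i) ≫ (opPt P t x).left = (P.co (y1.map φ)).pt := by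
    rw [opPt_left, ← Category.assoc, coord_map hy φ, P.pt_hom']
  have hy' : (Spec.map (CommRingCat.ofHom φ) ≫ i) ≫ (opPt P t y).left = (P.co (z1.map φ)).pt := by
    rw [opPt_left, ← Category.assoc, coord_map hz φ, P.pt_hom']
  set r : D := (y1.map φ).ρ α with hr
  have hru : IsUnit r := α.isUnit.map _
  have hsu : IsUnit ((if l then r else 1 : D)) := by
    cases l
    · exact isUnit_one
    · exact hru
  have hrel : ((y1.map φ).ρ.comp θ) b * r ^ 3 = (y1.map φ).ρ a := by
    have := congrArg (y1.map φ).ρ h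
    rw [map_mul, map_pow] at this
    exact this
  have hρ2 : (P.co (y1.map φ)).ρ = (y1.map φ).ρ.comp θ := rfl
  have hzρ : (z1.map φ).ρ = (y1.map φ).ρ := by simp [hyz]
  have hu1 : (P.co (y1.map φ)).u = sc r (fun i => φ (y1.u i)) := rfl
  have hu2 : (P.co (z1.map φ)).u = sc r (fun i => φ (z1.u i)) := by
    change sc ((z1.map φ).ρ α) _ = _
    rw [hzρ]
    rfl
  have hlaw : law ((P.co (y1.map φ)).ρ b) l (P.co (y1.map φ)).u (P.co (z1.map φ)).u =
      fun i => (if l then r else 1) * sc r x1.u i := by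
    funext i
    rw [hu1, hu2, hxu]
    exact law_sc _ _ r hrel l _ _ i
  have hx1ρ : (P.co x1).ρ = (P.co (y1.map φ)).ρ := by
    rw [P.co_ρ, hxρ]
    rfl
  have hx1u : (P.co x1).u = sc r x1.u := by
    change sc (x1.ρ α) x1.u = _
    rw [hxρ]
    rfl
  let X : Co (JF (b : R)) D := Co.mkF (b : R) (P.co (y1.map φ)).ρ
    (law ((P.co (y1.map φ)).ρ b) l (P.co (y1.map φ)).u (P.co (z1.map φ)).u) (P.co x1).c (by
      rw [hlaw]
      have := (P.co x1).hc
      rw [hx1u] at this
      exact hsu.mul this) (by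
      apply FF_law
      · exact (P.co (y1.map φ)).FF_eq
      · have := (P.co (z1.map φ)).FF_eq
        rw [P.co_ρ, hzρ] at this
        exact this)
  have h4 := lift_mulMap (opPt P t x) (opPt P t y) (Spec.map (CommRingCat.ofHom φ) ≫ i)
    (P.co (y1.map φ)) (P.co (z1.map φ)) X l hx hy' (by rw [P.co_ρ, P.co_ρ, hzρ]) rfl rfl
  refine hL.trans (Eq.trans ?_ h4.symm)
  apply Co.pt_congr
  · exact hx1ρ
  · intro i j
    change (P.co x1).u i * law _ l _ _ j = (P.co x1).u j * law _ l _ _ i
    rw [hlaw, hx1u]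
    ring

end Pool.Agent.W473
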