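import Pool.Agent.W473.Smooth2
import Pool.Agent.W473.Hom

open AlgebraicGeometry CategoryTheory Limits MonoidalCategory CartesianMonoidalCategory MonObj

namespace Pool.Agent.W473

open Pool.Agent.Helper198.Sch

attribute [local instance] MvPolynomial.gradedAlgebra

section general

variable {X Y Z : Scheme.{0}}

lemma isLocallyNoetherian_spec (A : Type) [CommRing A] [IsNoetherianRing A] :
    IsLocallyNoetherian (Spec (.of A)) := by
  have : IsNoetherianRing (CommRingCat.of A) := ‹_›
  infer_instance

theorem geomIntegral_comp (f : X ⟶ Y) (g : Y ⟶ Z) [GeometricallyIntegral f]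
    [GeometricallyIntegral g] [Flat f] [UniversallyOpen f] [LocallyOfFiniteType g] :
    GeometricallyIntegral (f ≫ g) := by
  constructor
  intro K _ y W p q h
  have h1 := IsPullback.of_hasPullback g y
  have hN : IsLocallyNoetherian (Spec (.of K)) := isLocallyNoetherian_spec K
  have h2 : IsLocallyNoetherian (pullback g y) :=
    LocallyOfFiniteType.isLocallyNoetherian (pullback.snd g y)
  have h3 : IsIntegral (pullback g y) :=
    GeometricallyIntegral.geometrically_isIntegral _ _ _ h1
  have h4 : IsIntegral (pullback f (pullback.fst g y)) := inferInstance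
  let e : pullback f (pullback.fst g y) ≅ W :=
    pullbackRightPullbackFstIso g y f ≪≫ h.isoPullback.symm
  have h5 : Nonempty (pullback f (pullback.fst g y) : Scheme) := inferInstance
  have h6 : Nonempty W := ⟨e.hom h5.some⟩
  exact isIntegral_of_isOpenImmersion e.inv

end general

/-- the geometric properties of an abelian scheme. -/
structure AbSch (g : ℕ) {S : Scheme.{0}} (A : Over S) : Prop where
  proper : IsProper A.hom
  smooth : SmoothOfRelativeDimension g A.hom
  integral : GeometricallyIntegral A.hom

lemma AbSch.prod {g h : ℕ} {S : Scheme.{0}} {A B : Over S} (hA : AbSch g A) (hB : AbSch h B) :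
    AbSch (h + g) (A ⊗ B) := by
  obtain ⟨a1, a2, a3⟩ := hA
  obtain ⟨b1, b2, b3⟩ := hB
  have hs : Smooth B.hom := b2.smooth
  refine ⟨?_, ?_, ?_⟩
  · rw [Over.tensorObj_hom]
    infer_instance
  · rw [Over.tensorObj_hom]
    have : SmoothOfRelativeDimension h (pullback.fst A.hom B.hom) :=
      (smoothOfRelativeDimension_isStableUnderBaseChange h).of_isPullback
        (IsPullback.of_hasPullback A.hom B.hom).flip b2
    infer_instance
  · rw [Over.tensorObj_hom]
    exact geomIntegral_comp _ _

variable {R : Type} [CommRing R] [h3 : Three R]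

lemma abSch_Eo (a : Rˣ) : AbSch 1 (Eo a) where
  proper := isProper_str (JF (a : R))
  smooth := smooth_EV h3.isUnit a.isUnit
  integral := geomIntegral_EV h3.isUnit a.isUnit

/-- the product of four curves -/
noncomputable abbrev A4 (a : Fin 4 → Rˣ) : Over (Spec (.of R)) :=
  Eo (a 0) ⊗ (Eo (a 1) ⊗ (Eo (a 2) ⊗ Eo (a 3)))

lemma abSch_A4 (a : Fin 4 → Rˣ) : AbSch 4 (A4 a) :=
  (abSch_Eo (a 0)).prod ((abSch_Eo (a 1)).prod ((abSch_Eo (a 2)).prod (abSch_Eo (a 3))))

noncomputable example (a : Fin 4 → Rˣ) : GrpObj (A4 a) := inferInstance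

end Pool.Agent.W473
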