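import Pool.Agent.W473.Curve

open MvPolynomial DirectSum AlgebraicGeometry CategoryTheory Limits

namespace Pool.Agent.W473

open Pool.Agent.Helper198.Sch

attribute [local instance] MvPolynomial.gradedAlgebra

variable {R : Type} [CommRing R]

/-- the polynomial `a X^3 + Y^3 + Z^3`. -/
noncomputable def fF (a : R) : MvPolynomial (Fin 3) R := C a * X 0 ^ 3 + X 1 ^ 3 + X 2 ^ 3

lemma fF_hom (a : R) : (fF a).IsHomogeneous 3 := by
  unfold fF
  have h (i : Fin 3) : (X i ^ 3 : MvPolynomial (Fin 3) R).IsHomogeneous 3 := by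
    have := (isHomogeneous_X R i).pow 3
    simpa using this
  refine ((?_ : (C a * X 0 ^ 3 : MvPolynomial (Fin 3) R).IsHomogeneous 3).add (h 1)).add (h 2)
  have := (isHomogeneous_C (Fin 3) a).mul (h 0)
  simpa using this

/-- the homogeneous ideal of the curve. -/
noncomputable def JF (a : R) : HI (Fin 3) R :=
  HI.ofSet {fF a} (by rintro f rfl; exact ⟨3, fF_hom a⟩)

lemma JF_iff (a : R) {B : Type*} [CommRing B] (ρ : R →+* B) (u : Fin 3 → B) :
    (∀ f ∈ (JF a).toIdeal, eval₂ ρ u f = 0) ↔ FF (ρ a) u = 0 := by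
  have h0 : eval₂ ρ u (fF a) = FF (ρ a) u := by
    simp [fF, FF]
  constructor
  · intro h
    rw [← h0]
    exact h _ (mem_ofSet rfl)
  · intro h
    let _ := ρ.toAlgebra
    refine aeval_ofSet (R := R) (E := B) u ?_
    rintro f rfl
    exact h0.trans h

/-- the projective cubic curve over `Spec R`. -/
noncomputable abbrev EV (a : R) : Scheme.{0} := V (JF a)

variable {a : R}

namespace Co

variable {C : Type} [CommRing C]

lemma FF_eq (x : Co (JF a) C) : FF (x.ρ a) x.u = 0 := (JF_iff a x.ρ x.u).1 x.hu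

/-- coordinates on the cubic curve -/
@[simps] noncomputable def mkF (a : R) {C : Type} [CommRing C] (ρ : R →+* C) (u : Fin 3 → C)
    (c : Fin 3) (hc : IsUnit (u c)) (h : FF (ρ a) u = 0) : Co (JF a) C where
  ρ := ρ
  u := u
  c := c
  hc := hc
  hu := (JF_iff a ρ u).2 h

lemma exists_smul {σ : Type} {J : HI σ R} (x y : Co J C)
    (h : ∀ i j, x.u i * y.u j = x.u j * y.u i) : ∃ s : C, y.u = fun i => s * x.u i := by
  refine ⟨y.u x.c * ((x.hc.unit⁻¹ : Cˣ) : C), ?_⟩
  funext i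
  apply x.hc.mul_left_cancel
  rw [h x.c i]
  calc x.u i * y.u x.c = x.u i * y.u x.c * (x.u x.c * ((x.hc.unit⁻¹ : Cˣ) : C)) := by
        rw [IsUnit.mul_val_inv, mul_one]
    _ = _ := by ring

end Co

/-- `r = p + q` by one of the laws -/
def AddRel (a : R) {C : Type} [CommRing C] (p q r : Spec (.of C) ⟶ EV a) : Prop :=
  ∃ (y z x : Co (JF a) C) (l : Bool), z.ρ = y.ρ ∧ x.ρ = y.ρ ∧ p = y.pt ∧ q = z.pt ∧ r = x.pt ∧
    x.u = law (y.ρ a) l y.u z.u

lemma AddRel.unique {C : Type} [CommRing C] {p q r r' : Spec (.of C) ⟶ EV a}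
    (h : AddRel a p q r) (h' : AddRel a p q r') : r = r' := by
  obtain ⟨y, z, x, l, hz, hx, hp, hq, hr, hu⟩ := h
  obtain ⟨y', z', x', l', hz', hx', hp', hq', hr', hu'⟩ := h'
  obtain ⟨e1, e2⟩ := Co.par_of_pt_eq y y' (hp.symm.trans hp')
  obtain ⟨e3, e4⟩ := Co.par_of_pt_eq z z' (hq.symm.trans hq')
  rw [hr, hr']
  apply Co.pt_congr
  · rw [hx, hx', e1]
  · obtain ⟨s, hs⟩ := Co.exists_smul y y' e2
    obtain ⟨t, ht⟩ := Co.exists_smul z z' e4
    have hy := y.FF_eq
    have hz1 := z.FF_eq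
    rw [hz] at hz1
    intro i j
    rw [hu', hu, ← e1, hs, ht, law_scale, law_scale]
    have := par_laws l l' hy hz1 i j
    linear_combination (s ^ 2 * t ^ 2) * this

lemma AddRel.map {C : Type} [CommRing C] {p q r : Spec (.of C) ⟶ EV a}
    (h : AddRel a p q r) {D : Type} [CommRing D] (φ : C →+* D) :
    AddRel a (Spec.map (CommRingCat.ofHom φ) ≫ p) (Spec.map (CommRingCat.ofHom φ) ≫ q)
      (Spec.map (CommRingCat.ofHom φ) ≫ r) := by
  obtain ⟨y, z, x, l, hz, hx, hp, hq, hr, hu⟩ := h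
  refine ⟨y.map φ, z.map φ, x.map φ, l, ?_, ?_, ?_, ?_, ?_, ?_⟩
  · simp [hz]
  · simp [hx]
  · rw [hp, Co.map_pt]
  · rw [hq, Co.map_pt]
  · rw [hr, Co.map_pt]
  · funext i
    change φ (x.u i) = law (φ (y.ρ a)) l (fun i => φ (y.u i)) (fun i => φ (z.u i)) i
    rw [hu, law_map]

lemma law_notMem {D : Type*} [CommRing D] (P : Ideal D) [P.IsPrime] (h3 : IsUnit (3 : D)) {a : D}
    (ha : IsUnit a) {u v : Fin 3 → D} (hu : FF a u = 0) (hv : FF a v = 0)
    (hu0 : ∃ c, IsUnit (u c)) (hv0 : ∃ c, IsUnit (v c)) : ∃ l c, law a l u v c ∉ P := by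
  let κ := P.ResidueField
  have hu : FF (algebraMap D κ a) (fun i => algebraMap D κ (u i)) = 0 := by
    have := congrArg (algebraMap D κ) hu
    simpa [FF] using this
  have hv : FF (algebraMap D κ a) (fun i => algebraMap D κ (v i)) = 0 := by
    have := congrArg (algebraMap D κ) hv
    simpa [FF] using this
  have h3' : (3 : κ) ≠ 0 := by
    have h1 : IsUnit (algebraMap D κ 3) := h3.map (algebraMap D κ)
    have h2 : algebraMap D κ 3 = 3 := map_ofNat _ _
    rw [← h2]
    exact h1.ne_zero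
  have ha' : algebraMap D κ a ≠ 0 := (ha.map (algebraMap D κ)).ne_zero
  obtain ⟨c1, hc1⟩ := hu0
  obtain ⟨c2, hc2⟩ := hv0
  obtain ⟨l, c, hlc⟩ := law_complete h3' ha' hu hv ⟨c1, (hc1.map _).ne_zero⟩
    ⟨c2, (hc2.map _).ne_zero⟩
  rw [law_map] at hlc
  refine ⟨l, c, fun h => hlc ?_⟩
  exact Ideal.algebraMap_residueField_eq_zero.2 h

/-- local existence -/
lemma exists_addRel (h3 : IsUnit (3 : R)) (ha : IsUnit a) {W : Scheme.{0}} (p q : W ⟶ EV a)
    (hpq : p ≫ V.str (JF a) = q ≫ V.str (JF a)) (w : W) :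
    ∃ (C : CommRingCat.{0}) (i : Spec C ⟶ W) (f : Spec C ⟶ EV a),
      IsOpenImmersion i ∧ w ∈ Set.range i ∧ AddRel a (i ≫ p) (i ≫ q) f := by
  obtain ⟨C, i, hi, y, ⟨w1, rfl⟩, hy⟩ := exists_local p w
  obtain ⟨D, j, hj, z, ⟨w2, rfl⟩, hz⟩ := exists_local (i ≫ q) w1
  let y1 : Co (JF a) D := y.map (Spec.preimage j).hom
  have hy1 : j ≫ i ≫ p = y1.pt := by
    have h1 : y1.pt = Spec.map (CommRingCat.ofHom (Spec.preimage j).hom) ≫ y.pt :=
      (Co.map_pt y _).symm
    rw [h1, ← hy]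
    congr 1
    exact (Spec.map_preimage j).symm
  have hρ : z.ρ = y1.ρ := by
    have h1 := z.pt_str
    have h2 := y1.pt_str
    rw [← hz, Category.assoc, Category.assoc, ← hpq, ← Category.assoc i, ← Category.assoc j, hy1,
      h2] at h1
    exact (congrArg (fun f => f.hom) (Spec.map_injective h1)).symm
  have hv : FF (y1.ρ a) z.u = 0 := by
    rw [← hρ]
    exact z.FF_eq
  have h3' : IsUnit (3 : D) := by
    have := h3.map y1.ρ
    rwa [map_ofNat] at this
  have hprime : w2.asIdeal.IsPrime := PrimeSpectrum.isPrime w2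
  obtain ⟨l, c, hlc⟩ := law_notMem w2.asIdeal h3' (ha.map y1.ρ) y1.FF_eq hv ⟨y1.c, y1.hc⟩
    ⟨z.c, z.hc⟩
  set g : D := law (y1.ρ a) l y1.u z.u c with hg
  have hgw : g ∉ w2.asIdeal := hlc
  let L := Localization.Away g
  let x : Co (JF a) L := Co.mkF a ((algebraMap D L).comp y1.ρ)
    (fun i => algebraMap D L (law (y1.ρ a) l y1.u z.u i)) c
    (IsLocalization.Away.algebraMap_isUnit g) (by
      have h1 := FF_law l y1.FF_eq (by rw [← hρ]; exact z.FF_eq)
      have := congrArg (algebraMap D L) h1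
      simpa [FF] using this)
  refine ⟨.of L, Spec.map (CommRingCat.ofHom (algebraMap D L)) ≫ j ≫ i, x.pt, ?_, ?_, ?_⟩
  · have : IsOpenImmersion (Spec.map (CommRingCat.ofHom (algebraMap D L))) :=
      IsOpenImmersion.of_isLocalization g
    infer_instance
  · have h1 : w2 ∈ Set.range (Spec.map (CommRingCat.ofHom (algebraMap D L))) := by
      have := PrimeSpectrum.localization_away_comap_range L g
      change w2 ∈ Set.range (PrimeSpectrum.comap (algebraMap D L))
      rw [this]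
      exact hgw
    obtain ⟨w3, hw3⟩ := h1
    refine ⟨w3, ?_⟩
    change i (j (Spec.map (CommRingCat.ofHom (algebraMap D L)) w3)) = i (j w2)
    rw [hw3]
  · refine ⟨y1.map (algebraMap D L), z.map (algebraMap D L), x, l, ?_, rfl, ?_, ?_, rfl, ?_⟩
    · simp [hρ]
    · rw [← Co.map_pt, ← hy1]
      simp only [Category.assoc]
    · rw [← Co.map_pt, ← hz]
      simp only [Category.assoc]
    · funext i
      change algebraMap D L (law (y1.ρ a) l y1.u z.u i) = law (algebraMap D L (y1.ρ a)) l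
        (fun i => algebraMap D L (y1.u i)) (fun i => algebraMap D L (z.u i)) i
      rw [law_map]

/-- the sum of two morphisms -/
theorem exists_add (h3 : IsUnit (3 : R)) (ha : IsUnit a) {W : Scheme.{0}} (p q : W ⟶ EV a)
    (hpq : p ≫ V.str (JF a) = q ≫ V.str (JF a)) :
    ∃ r : W ⟶ EV a, ∀ (C : CommRingCat.{0}) (i : Spec C ⟶ W) (f : Spec C ⟶ EV a),
      AddRel a (i ≫ p) (i ≫ q) f → i ≫ r = f := by
  apply glue (fun C i f => AddRel a (C := C) (i ≫ p) (i ≫ q) f)
  · exact exists_addRel h3 ha p q hpq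
  · intro C C' i i' f f' h h' D j j' hj
    have h1 := h.map (Spec.preimage j).hom
    have h2 := h'.map (Spec.preimage j').hom
    have e1 : Spec.map (CommRingCat.ofHom (Spec.preimage j).hom) = j := Spec.map_preimage j
    have e2 : Spec.map (CommRingCat.ofHom (Spec.preimage j').hom) = j' := Spec.map_preimage j'
    rw [e1] at h1
    rw [e2] at h2
    rw [← Category.assoc, ← Category.assoc, ← hj, Category.assoc, Category.assoc] at h2
    exact AddRel.unique h1 h2

end Pool.Agent.W473
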