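import Pool.Agent.W473.Law

namespace Pool.Agent.W473

variable {B : Type*} [CommRing B]

lemma assoc_2111 {a : B} {u v w : Fin 3 → B} (hu : FF a u = 0) (hv : FF a v = 0)
    (hw : FF a w = 0) : Par (law1 (law2 a u v) w) (law1 u (law1 v w)) := by
  unfold FF at *
  apply Par.mk' <;> simp only [law1, law2, Matrix.cons_val] <;>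
  generalize u 0 = x1 at * <;>
  generalize u 1 = y1 at * <;>
  generalize u 2 = z1 at * <;>
  generalize v 0 = x2 at * <;>
  generalize v 1 = y2 at * <;>
  generalize v 2 = z2 at * <;>
  generalize w 0 = x3 at * <;>
  generalize w 1 = y3 at * <;>
  generalize w 2 = z3 at * <;>
  have h1 := hu <;>
  have h2 := hv <;>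
  have h3 := hw
  · linear_combination (-a * x1 ^ 2 * y1 * x2 ^ 5 * y2 * z2 ^ 2 * y3 ^ 3 * z3 ^ 3 + a * x1 ^ 2 *
      y1 * x2 ^ 4 * z2 ^ 4 * x3 * y3 ^ 4 * z3 - a * x1 ^ 2 * y1 * x2 ^ 3 * y2 ^ 2 * z2 ^ 3 * x3
      ^ 2 * y3 ^ 2 * z3 ^ 2 + 2 * a * x1 ^ 2 * y1 * x2 ^ 2 * y2 ^ 4 * z2 ^ 2 * x3 ^ 3 * z3 ^ 3
      + a * x1 ^ 2 * y1 * x2 ^ 2 * y2 * z2 ^ 5 * x3 ^ 3 * y3 ^ 3 - 2 * a * x1 ^ 2 * y1 * x2 *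
      y2 ^ 3 * z2 ^ 4 * x3 ^ 4 * y3 * z3 + x1 ^ 2 * y1 * x2 ^ 2 * y2 ^ 4 * z2 ^ 2 * z3 ^ 6 + x1
      ^ 2 * y1 * x2 ^ 2 * y2 * z2 ^ 5 * y3 ^ 6 - 2 * x1 ^ 2 * y1 * x2 * y2 ^ 3 * z2 ^ 4 * x3 *
      y3 ^ 4 * z3 - 2 * x1 ^ 2 * y1 * x2 * y2 ^ 3 * z2 ^ 4 * x3 * y3 * z3 ^ 4 + x1 ^ 2 * y1 *
      y2 ^ 5 * z2 ^ 3 * x3 ^ 2 * y3 ^ 2 * z3 ^ 2 + x1 ^ 2 * y1 * y2 ^ 2 * z2 ^ 6 * x3 ^ 2 * y3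
      ^ 2 * z3 ^ 2 + x1 * z1 ^ 2 * x2 ^ 3 * y2 ^ 2 * z2 ^ 3 * y3 ^ 3 * z3 ^ 3 - x1 * z1 ^ 2 *
      x2 ^ 2 * y2 ^ 4 * z2 ^ 2 * x3 * y3 * z3 ^ 4 - x1 * z1 ^ 2 * x2 ^ 2 * y2 * z2 ^ 5 * x3 *
      y3 ^ 4 * z3 + x1 * z1 ^ 2 * x2 * y2 ^ 3 * z2 ^ 4 * x3 ^ 2 * y3 ^ 2 * z3 ^ 2 - y1 ^ 2 * z1
      * x2 ^ 4 * y2 ^ 3 * z2 * y3 ^ 3 * z3 ^ 3 + y1 ^ 2 * z1 * x2 ^ 3 * y2 ^ 5 * x3 * y3 * z3 ^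
      4 + y1 ^ 2 * z1 * x2 ^ 2 * y2 ^ 4 * z2 ^ 2 * x3 ^ 2 * y3 ^ 2 * z3 ^ 2 - y1 ^ 2 * z1 * x2
      * y2 ^ 6 * z2 * x3 ^ 3 * z3 ^ 3) * h1 + (-a ^ 2 * x1 ^ 5 * y1 * x2 ^ 2 * y2 * z2 ^ 2 * x3
      ^ 3 * y3 ^ 3 + 2 * a ^ 2 * x1 ^ 5 * y1 * x2 * y2 ^ 3 * z2 * x3 ^ 4 * y3 * z3 - a ^ 2 * x1
      ^ 4 * z1 ^ 2 * x2 ^ 3 * y2 ^ 2 * x3 ^ 3 * z3 ^ 3 + a ^ 2 * x1 ^ 4 * z1 ^ 2 * x2 ^ 2 * y2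
      * z2 ^ 2 * x3 ^ 4 * y3 * z3 - a ^ 2 * x1 ^ 3 * y1 ^ 2 * z1 * x2 ^ 4 * z2 * x3 ^ 3 * y3 ^
      3 - a * x1 ^ 5 * y1 * x2 ^ 2 * y2 * z2 ^ 2 * y3 ^ 6 + 2 * a * x1 ^ 5 * y1 * x2 * y2 ^ 3 *
      z2 * x3 * y3 ^ 4 * z3 + 2 * a * x1 ^ 5 * y1 * x2 * y2 ^ 3 * z2 * x3 * y3 * z3 ^ 4 - a *
      x1 ^ 5 * y1 * y2 ^ 2 * z2 ^ 3 * x3 ^ 2 * y3 ^ 2 * z3 ^ 2 - a * x1 ^ 4 * z1 ^ 2 * x2 ^ 3 *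
      y2 ^ 2 * y3 ^ 3 * z3 ^ 3 - a * x1 ^ 4 * z1 ^ 2 * x2 ^ 3 * y2 ^ 2 * z3 ^ 6 + a * x1 ^ 4 *
      z1 ^ 2 * x2 ^ 2 * y2 * z2 ^ 2 * x3 * y3 ^ 4 * z3 + 2 * a * x1 ^ 4 * z1 ^ 2 * x2 ^ 2 * y2
      * z2 ^ 2 * x3 * y3 * z3 ^ 4 - a * x1 ^ 4 * z1 ^ 2 * x2 * z2 ^ 4 * x3 ^ 2 * y3 ^ 2 * z3 ^
      2 - a * x1 ^ 3 * y1 ^ 2 * z1 * x2 ^ 4 * z2 * y3 ^ 6 - a * x1 ^ 3 * y1 ^ 2 * z1 * x2 ^ 4 *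
      z2 * y3 ^ 3 * z3 ^ 3 - a * x1 ^ 3 * y1 ^ 2 * z1 * x2 ^ 3 * y2 ^ 2 * x3 * y3 * z3 ^ 4 + 2
      * a * x1 ^ 3 * y1 ^ 2 * z1 * x2 ^ 2 * y2 * z2 ^ 2 * x3 ^ 2 * y3 ^ 2 * z3 ^ 2 - a * x1 ^ 3
      * y1 ^ 2 * z1 * x2 * y2 ^ 3 * z2 * x3 ^ 3 * z3 ^ 3 - a * x1 ^ 2 * y1 ^ 4 * x2 ^ 4 * z2 *
      x3 * y3 ^ 4 * z3 + a * x1 ^ 2 * y1 ^ 4 * x2 ^ 3 * y2 ^ 2 * x3 ^ 2 * y3 ^ 2 * z3 ^ 2 - a *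
      x1 ^ 2 * y1 ^ 4 * x2 ^ 2 * y2 * z2 ^ 2 * x3 ^ 3 * y3 ^ 3 + 2 * a * x1 ^ 2 * y1 ^ 4 * x2 *
      y2 ^ 3 * z2 * x3 ^ 4 * y3 * z3 - a * x1 * y1 ^ 3 * z1 ^ 2 * x2 ^ 3 * y2 ^ 2 * x3 ^ 3 * y3
      ^ 3 - x1 ^ 2 * y1 ^ 4 * x2 ^ 2 * y2 * z2 ^ 2 * y3 ^ 6 + 2 * x1 ^ 2 * y1 ^ 4 * x2 * y2 ^ 3
      * z2 * x3 * y3 ^ 4 * z3 + 2 * x1 ^ 2 * y1 ^ 4 * x2 * y2 ^ 3 * z2 * x3 * y3 * z3 ^ 4 - x1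
      ^ 2 * y1 ^ 4 * y2 ^ 2 * z2 ^ 3 * x3 ^ 2 * y3 ^ 2 * z3 ^ 2 - x1 * y1 ^ 3 * z1 ^ 2 * x2 ^ 3
      * y2 ^ 2 * y3 ^ 6 + x1 * y1 ^ 3 * z1 ^ 2 * x2 ^ 2 * y2 * z2 ^ 2 * x3 * y3 ^ 4 * z3 - 3 *
      x1 * y1 ^ 3 * z1 ^ 2 * x2 * y2 ^ 3 * z2 * x3 ^ 2 * y3 ^ 2 * z3 ^ 2 + x1 * y1 ^ 3 * z1 ^ 2
      * y2 ^ 5 * x3 ^ 3 * z3 ^ 3) * h2 + (a ^ 2 * x1 ^ 5 * y1 * x2 ^ 5 * y2 * z2 ^ 2 * y3 ^ 3 -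
      2 * a ^ 2 * x1 ^ 5 * y1 * x2 ^ 4 * y2 ^ 3 * z2 * x3 * y3 * z3 + a ^ 2 * x1 ^ 4 * z1 ^ 2 *
      x2 ^ 6 * y2 ^ 2 * z3 ^ 3 - a ^ 2 * x1 ^ 4 * z1 ^ 2 * x2 ^ 5 * y2 * z2 ^ 2 * x3 * y3 * z3
      + a ^ 2 * x1 ^ 3 * y1 ^ 2 * z1 * x2 ^ 7 * z2 * y3 ^ 3 + a * x1 ^ 5 * y1 * x2 ^ 2 * y2 ^ 4
      * z2 ^ 2 * y3 ^ 3 - a * x1 ^ 5 * y1 * x2 ^ 2 * y2 ^ 4 * z2 ^ 2 * z3 ^ 3 - 2 * a * x1 ^ 5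
      * y1 * x2 * y2 ^ 6 * z2 * x3 * y3 * z3 + a * x1 ^ 4 * z1 ^ 2 * x2 ^ 3 * y2 ^ 5 * z3 ^ 3 -
      a * x1 ^ 4 * z1 ^ 2 * x2 ^ 2 * y2 ^ 4 * z2 ^ 2 * x3 * y3 * z3 + a * x1 ^ 3 * y1 ^ 2 * z1
      * x2 ^ 4 * y2 ^ 3 * z2 * y3 ^ 3 + a * x1 ^ 3 * y1 ^ 2 * z1 * x2 ^ 4 * y2 ^ 3 * z2 * z3 ^
      3 + 2 * a * x1 ^ 2 * y1 ^ 4 * x2 ^ 5 * y2 * z2 ^ 2 * y3 ^ 3 - 3 * a * x1 ^ 2 * y1 ^ 4 *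
      x2 ^ 4 * y2 ^ 3 * z2 * x3 * y3 * z3 + a * x1 * y1 ^ 3 * z1 ^ 2 * x2 ^ 6 * y2 ^ 2 * y3 ^ 3
      + x1 ^ 2 * y1 ^ 4 * x2 ^ 2 * y2 ^ 4 * z2 ^ 2 * y3 ^ 3 - x1 ^ 2 * y1 ^ 4 * x2 ^ 2 * y2 ^ 4
      * z2 ^ 2 * z3 ^ 3 - 2 * x1 ^ 2 * y1 ^ 4 * x2 * y2 ^ 6 * z2 * x3 * y3 * z3 + x1 * y1 ^ 3 *
      z1 ^ 2 * x2 ^ 3 * y2 ^ 5 * y3 ^ 3 - x1 * y1 ^ 3 * z1 ^ 2 * x2 ^ 3 * y2 ^ 5 * z3 ^ 3 + 2 *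
      x1 * y1 ^ 3 * z1 ^ 2 * x2 ^ 2 * y2 ^ 4 * z2 ^ 2 * x3 * y3 * z3) * h3
  · linear_combination (-a * x1 ^ 3 * x2 ^ 3 * y2 ^ 3 * z2 ^ 2 * x3 ^ 2 * z3 ^ 4 + 2 * a * x1 ^ 3
      * x2 ^ 2 * y2 ^ 2 * z2 ^ 4 * x3 ^ 3 * y3 * z3 ^ 2 - a * x1 ^ 3 * x2 * y2 * z2 ^ 6 * x3 ^
      4 * y3 ^ 2 + x1 ^ 3 * x2 ^ 2 * y2 ^ 2 * z2 ^ 4 * y3 ^ 4 * z3 ^ 2 + x1 ^ 3 * x2 ^ 2 * y2 ^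
      2 * z2 ^ 4 * y3 * z3 ^ 5 - x1 ^ 3 * x2 * y2 ^ 4 * z2 ^ 3 * x3 * y3 ^ 2 * z3 ^ 3 - x1 ^ 3
      * x2 * y2 * z2 ^ 6 * x3 * y3 ^ 5 - 2 * x1 ^ 3 * x2 * y2 * z2 ^ 6 * x3 * y3 ^ 2 * z3 ^ 3 +
      x1 ^ 3 * y2 ^ 3 * z2 ^ 5 * x3 ^ 2 * y3 ^ 3 * z3 + x1 ^ 3 * z2 ^ 8 * x3 ^ 2 * y3 ^ 3 * z3
      - x1 * y1 * z1 * x2 ^ 4 * y2 * z2 ^ 3 * y3 ^ 4 * z3 ^ 2 + x1 * y1 * z1 * x2 ^ 2 * y2 ^ 5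
      * z2 * x3 ^ 2 * z3 ^ 4 + 2 * x1 * y1 * z1 * x2 ^ 2 * y2 ^ 2 * z2 ^ 4 * x3 ^ 2 * y3 ^ 3 *
      z3 - 2 * x1 * y1 * z1 * x2 * y2 ^ 4 * z2 ^ 3 * x3 ^ 3 * y3 * z3 ^ 2 + y1 ^ 3 * x2 ^ 5 *
      y2 ^ 2 * z2 * y3 ^ 4 * z3 ^ 2 - y1 ^ 3 * x2 ^ 4 * y2 ^ 4 * x3 * y3 ^ 2 * z3 ^ 3 - y1 ^ 3
      * x2 ^ 3 * y2 ^ 3 * z2 ^ 2 * x3 ^ 2 * y3 ^ 3 * z3 + y1 ^ 3 * x2 ^ 2 * y2 ^ 5 * z2 * x3 ^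
      3 * y3 * z3 ^ 2) * h1 + (-a ^ 3 * x1 ^ 6 * x2 ^ 4 * y2 * x3 ^ 4 * y3 ^ 2 - a ^ 2 * x1 ^ 6
      * x2 ^ 4 * y2 * x3 * y3 ^ 5 - a ^ 2 * x1 ^ 6 * x2 ^ 4 * y2 * x3 * y3 ^ 2 * z3 ^ 3 - a ^ 2
      * x1 ^ 6 * x2 ^ 2 * y2 ^ 2 * z2 * x3 ^ 3 * y3 * z3 ^ 2 - a ^ 2 * x1 ^ 6 * x2 * y2 ^ 4 *
      x3 ^ 4 * y3 ^ 2 + a ^ 2 * x1 ^ 6 * x2 * y2 * z2 ^ 3 * x3 ^ 4 * y3 ^ 2 + a ^ 2 * x1 ^ 4 *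
      y1 * z1 * x2 ^ 3 * z2 ^ 2 * x3 ^ 4 * y3 ^ 2 - a ^ 2 * x1 ^ 4 * y1 * z1 * x2 ^ 2 * y2 ^ 2
      * z2 * x3 ^ 5 * z3 - 2 * a ^ 2 * x1 ^ 3 * y1 ^ 3 * x2 ^ 4 * y2 * x3 ^ 4 * y3 ^ 2 - a * x1
      ^ 6 * x2 ^ 2 * y2 ^ 2 * z2 * y3 ^ 4 * z3 ^ 2 - a * x1 ^ 6 * x2 ^ 2 * y2 ^ 2 * z2 * y3 *
      z3 ^ 5 - a * x1 ^ 6 * x2 * y2 ^ 4 * x3 * y3 ^ 5 - a * x1 ^ 6 * x2 * y2 ^ 4 * x3 * y3 ^ 2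
      * z3 ^ 3 + a * x1 ^ 6 * x2 * y2 * z2 ^ 3 * x3 * y3 ^ 5 + 2 * a * x1 ^ 6 * x2 * y2 * z2 ^
      3 * x3 * y3 ^ 2 * z3 ^ 3 - a * x1 ^ 6 * z2 ^ 5 * x3 ^ 2 * y3 ^ 3 * z3 + a * x1 ^ 4 * y1 *
      z1 * x2 ^ 3 * z2 ^ 2 * x3 * y3 ^ 5 - a * x1 ^ 4 * y1 * z1 * x2 ^ 2 * y2 ^ 2 * z2 * x3 ^ 2
      * y3 ^ 3 * z3 - 2 * a * x1 ^ 3 * y1 ^ 3 * x2 ^ 4 * y2 * x3 * y3 ^ 5 - 2 * a * x1 ^ 3 * y1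
      ^ 3 * x2 ^ 4 * y2 * x3 * y3 ^ 2 * z3 ^ 3 + a * x1 ^ 3 * y1 ^ 3 * x2 ^ 3 * z2 ^ 2 * x3 ^ 2
      * y3 ^ 3 * z3 - 2 * a * x1 ^ 3 * y1 ^ 3 * x2 ^ 2 * y2 ^ 2 * z2 * x3 ^ 3 * y3 * z3 ^ 2 - a
      * x1 ^ 3 * y1 ^ 3 * x2 * y2 ^ 4 * x3 ^ 4 * y3 ^ 2 + a * x1 ^ 3 * y1 ^ 3 * x2 * y2 * z2 ^
      3 * x3 ^ 4 * y3 ^ 2 + a * x1 ^ 2 * y1 ^ 2 * z1 ^ 2 * x2 ^ 2 * y2 ^ 2 * z2 * x3 ^ 4 * y3 ^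
      2 + a * x1 ^ 2 * y1 ^ 2 * z1 ^ 2 * x2 * y2 ^ 4 * x3 ^ 5 * z3 - x1 ^ 3 * y1 ^ 3 * x2 ^ 2 *
      y2 ^ 2 * z2 * y3 ^ 4 * z3 ^ 2 - x1 ^ 3 * y1 ^ 3 * x2 ^ 2 * y2 ^ 2 * z2 * y3 * z3 ^ 5 - x1
      ^ 3 * y1 ^ 3 * x2 * y2 ^ 4 * x3 * y3 ^ 5 - x1 ^ 3 * y1 ^ 3 * x2 * y2 ^ 4 * x3 * y3 ^ 2 *
      z3 ^ 3 + x1 ^ 3 * y1 ^ 3 * x2 * y2 * z2 ^ 3 * x3 * y3 ^ 5 + 2 * x1 ^ 3 * y1 ^ 3 * x2 * y2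
      * z2 ^ 3 * x3 * y3 ^ 2 * z3 ^ 3 - x1 ^ 3 * y1 ^ 3 * z2 ^ 5 * x3 ^ 2 * y3 ^ 3 * z3 + x1 ^
      2 * y1 ^ 2 * z1 ^ 2 * x2 ^ 3 * z2 ^ 2 * y3 ^ 4 * z3 ^ 2 + x1 ^ 2 * y1 ^ 2 * z1 ^ 2 * x2 ^
      2 * y2 ^ 2 * z2 * x3 * y3 ^ 5 + 3 * x1 ^ 2 * y1 ^ 2 * z1 ^ 2 * x2 ^ 2 * y2 ^ 2 * z2 * x3
      * y3 ^ 2 * z3 ^ 3 + x1 ^ 2 * y1 ^ 2 * z1 ^ 2 * x2 * y2 ^ 4 * x3 ^ 2 * y3 ^ 3 * z3 - 3 *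
      x1 ^ 2 * y1 ^ 2 * z1 ^ 2 * x2 * y2 * z2 ^ 3 * x3 ^ 2 * y3 ^ 3 * z3 + x1 ^ 2 * y1 ^ 2 * z1
      ^ 2 * y2 ^ 3 * z2 ^ 2 * x3 ^ 3 * y3 * z3 ^ 2 - x1 * y1 ^ 4 * z1 * x2 ^ 4 * y2 * y3 ^ 4 *
      z3 ^ 2 + x1 * y1 ^ 4 * z1 * x2 ^ 2 * y2 ^ 2 * z2 * x3 ^ 2 * y3 ^ 3 * z3) * h2 + (a ^ 3 *
      x1 ^ 6 * x2 ^ 7 * y2 * x3 * y3 ^ 2 + a ^ 2 * x1 ^ 6 * x2 ^ 5 * y2 ^ 2 * z2 * y3 * z3 ^ 2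
      + 2 * a ^ 2 * x1 ^ 6 * x2 ^ 4 * y2 ^ 4 * x3 * y3 ^ 2 - a ^ 2 * x1 ^ 4 * y1 * z1 * x2 ^ 6
      * z2 ^ 2 * x3 * y3 ^ 2 + a ^ 2 * x1 ^ 4 * y1 * z1 * x2 ^ 5 * y2 ^ 2 * z2 * x3 ^ 2 * z3 +
      2 * a ^ 2 * x1 ^ 3 * y1 ^ 3 * x2 ^ 7 * y2 * x3 * y3 ^ 2 + a * x1 ^ 6 * x2 ^ 2 * y2 ^ 5 *
      z2 * y3 * z3 ^ 2 + a * x1 ^ 6 * x2 * y2 ^ 7 * x3 * y3 ^ 2 - a * x1 ^ 4 * y1 * z1 * x2 ^ 3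
      * y2 ^ 3 * z2 ^ 2 * x3 * y3 ^ 2 + a * x1 ^ 4 * y1 * z1 * x2 ^ 2 * y2 ^ 5 * z2 * x3 ^ 2 *
      z3 + a * x1 ^ 3 * y1 ^ 3 * x2 ^ 5 * y2 ^ 2 * z2 * y3 * z3 ^ 2 + 3 * a * x1 ^ 3 * y1 ^ 3 *
      x2 ^ 4 * y2 ^ 4 * x3 * y3 ^ 2 + a * x1 ^ 3 * y1 ^ 3 * x2 ^ 3 * y2 ^ 3 * z2 ^ 2 * x3 ^ 2 *
      z3 - a * x1 ^ 2 * y1 ^ 2 * z1 ^ 2 * x2 ^ 5 * y2 ^ 2 * z2 * x3 * y3 ^ 2 - a * x1 ^ 2 * y1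
      ^ 2 * z1 ^ 2 * x2 ^ 4 * y2 ^ 4 * x3 ^ 2 * z3 + x1 ^ 3 * y1 ^ 3 * x2 ^ 2 * y2 ^ 5 * z2 *
      y3 * z3 ^ 2 + x1 ^ 3 * y1 ^ 3 * x2 * y2 ^ 7 * x3 * y3 ^ 2 - 2 * x1 ^ 2 * y1 ^ 2 * z1 ^ 2
      * x2 ^ 3 * y2 ^ 3 * z2 ^ 2 * y3 * z3 ^ 2 - x1 ^ 2 * y1 ^ 2 * z1 ^ 2 * x2 ^ 2 * y2 ^ 5 *
      z2 * x3 * y3 ^ 2 - x1 ^ 2 * y1 ^ 2 * z1 ^ 2 * x2 * y2 ^ 7 * x3 ^ 2 * z3 + x1 * y1 ^ 4 *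
      z1 * x2 ^ 4 * y2 ^ 4 * y3 * z3 ^ 2 - x1 * y1 ^ 4 * z1 * x2 ^ 2 * y2 ^ 5 * z2 * x3 ^ 2 *
      z3) * h3
  · linear_combination (a * x1 ^ 2 * z1 * x2 ^ 4 * y2 ^ 2 * z2 ^ 2 * x3 ^ 2 * y3 * z3 ^ 3 - a *
      x1 ^ 2 * z1 * x2 ^ 3 * y2 * z2 ^ 4 * x3 ^ 3 * y3 ^ 2 * z3 - a * x1 ^ 2 * z1 * x2 ^ 2 * y2
      ^ 3 * z2 ^ 3 * x3 ^ 4 * z3 ^ 2 + a * x1 ^ 2 * z1 * x2 * y2 ^ 2 * z2 ^ 5 * x3 ^ 5 * y3 - 2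
      * a * x1 * y1 ^ 2 * x2 ^ 6 * y2 * z2 * x3 * y3 ^ 3 * z3 ^ 2 + a * x1 * y1 ^ 2 * x2 ^ 5 *
      y2 ^ 3 * x3 ^ 2 * y3 * z3 ^ 3 + 3 * a * x1 * y1 ^ 2 * x2 ^ 4 * y2 ^ 2 * z2 ^ 2 * x3 ^ 3 *
      y3 ^ 2 * z3 - a * x1 * y1 ^ 2 * x2 ^ 3 * y2 ^ 4 * z2 * x3 ^ 4 * z3 ^ 2 - a * x1 * y1 ^ 2
      * x2 ^ 2 * y2 ^ 3 * z2 ^ 3 * x3 ^ 5 * y3 - x1 ^ 2 * z1 * x2 ^ 3 * y2 * z2 ^ 4 * y3 ^ 2 *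
      z3 ^ 4 - x1 ^ 2 * z1 * x2 ^ 2 * y2 ^ 3 * z2 ^ 3 * x3 * y3 ^ 3 * z3 ^ 2 + x1 ^ 2 * z1 * x2
      ^ 2 * z2 ^ 6 * x3 * y3 ^ 3 * z3 ^ 2 + x1 ^ 2 * z1 * x2 * y2 ^ 5 * z2 ^ 2 * x3 ^ 2 * y3 *
      z3 ^ 3 + x1 ^ 2 * z1 * x2 * y2 ^ 2 * z2 ^ 5 * x3 ^ 2 * y3 ^ 4 + x1 ^ 2 * z1 * x2 * y2 ^ 2
      * z2 ^ 5 * x3 ^ 2 * y3 * z3 ^ 3 - x1 ^ 2 * z1 * y2 ^ 4 * z2 ^ 4 * x3 ^ 3 * y3 ^ 2 * z3 -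
      x1 ^ 2 * z1 * y2 * z2 ^ 7 * x3 ^ 3 * y3 ^ 2 * z3 + x1 * y1 ^ 2 * x2 ^ 4 * y2 ^ 2 * z2 ^ 2
      * y3 ^ 2 * z3 ^ 4 - 2 * x1 * y1 ^ 2 * x2 ^ 3 * y2 * z2 ^ 4 * x3 * y3 ^ 3 * z3 ^ 2 - x1 *
      y1 ^ 2 * x2 ^ 2 * y2 ^ 3 * z2 ^ 3 * x3 ^ 2 * y3 ^ 4 + 2 * x1 * y1 ^ 2 * x2 * y2 ^ 5 * z2
      ^ 2 * x3 ^ 3 * y3 ^ 2 * z3 + 2 * x1 * y1 ^ 2 * x2 * y2 ^ 2 * z2 ^ 5 * x3 ^ 3 * y3 ^ 2 *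
      z3 - x1 * y1 ^ 2 * y2 ^ 7 * z2 * x3 ^ 4 * z3 ^ 2 - x1 * y1 ^ 2 * y2 ^ 4 * z2 ^ 4 * x3 ^ 4
      * z3 ^ 2 + y1 * z1 ^ 2 * x2 ^ 4 * y2 ^ 2 * z2 ^ 2 * x3 * y3 ^ 3 * z3 ^ 2 - y1 * z1 ^ 2 *
      x2 ^ 3 * y2 ^ 4 * z2 * x3 ^ 2 * y3 * z3 ^ 3 - y1 * z1 ^ 2 * x2 ^ 2 * y2 ^ 3 * z2 ^ 3 * x3
      ^ 3 * y3 ^ 2 * z3 + y1 * z1 ^ 2 * x2 * y2 ^ 5 * z2 ^ 2 * x3 ^ 4 * z3 ^ 2) * h1 + (a ^ 2 *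
      x1 ^ 5 * z1 * x2 ^ 2 * y2 ^ 3 * x3 ^ 4 * z3 ^ 2 - a ^ 2 * x1 ^ 5 * z1 * x2 * y2 ^ 2 * z2
      ^ 2 * x3 ^ 5 * y3 + a ^ 2 * x1 ^ 4 * y1 ^ 2 * x2 ^ 2 * y2 ^ 3 * x3 ^ 5 * y3 + a ^ 2 * x1
      ^ 3 * y1 * z1 ^ 2 * x2 ^ 5 * x3 ^ 3 * y3 ^ 2 * z3 - a ^ 2 * x1 ^ 3 * y1 * z1 ^ 2 * x2 ^ 3
      * y2 * z2 * x3 ^ 5 * y3 + a * x1 ^ 5 * z1 * x2 ^ 2 * y2 ^ 3 * x3 * y3 ^ 3 * z3 ^ 2 + a *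
      x1 ^ 5 * z1 * x2 ^ 2 * y2 ^ 3 * x3 * z3 ^ 5 - a * x1 ^ 5 * z1 * x2 * y2 ^ 2 * z2 ^ 2 * x3
      ^ 2 * y3 ^ 4 - 2 * a * x1 ^ 5 * z1 * x2 * y2 ^ 2 * z2 ^ 2 * x3 ^ 2 * y3 * z3 ^ 3 + a * x1
      ^ 5 * z1 * y2 * z2 ^ 4 * x3 ^ 3 * y3 ^ 2 * z3 + a * x1 ^ 4 * y1 ^ 2 * x2 ^ 3 * y2 * z2 *
      x3 * y3 ^ 3 * z3 ^ 2 + a * x1 ^ 4 * y1 ^ 2 * x2 ^ 2 * y2 ^ 3 * x3 ^ 2 * y3 ^ 4 + a * x1 ^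
      4 * y1 ^ 2 * x2 ^ 2 * y2 ^ 3 * x3 ^ 2 * y3 * z3 ^ 3 - 2 * a * x1 ^ 4 * y1 ^ 2 * x2 * y2 ^
      2 * z2 ^ 2 * x3 ^ 3 * y3 ^ 2 * z3 + a * x1 ^ 4 * y1 ^ 2 * y2 ^ 4 * z2 * x3 ^ 4 * z3 ^ 2 +
      a * x1 ^ 3 * y1 * z1 ^ 2 * x2 ^ 5 * y3 ^ 5 * z3 + a * x1 ^ 3 * y1 * z1 ^ 2 * x2 ^ 5 * y3
      ^ 2 * z3 ^ 4 - a * x1 ^ 3 * y1 * z1 ^ 2 * x2 ^ 3 * y2 * z2 * x3 ^ 2 * y3 ^ 4 - 2 * a * x1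
      ^ 3 * y1 * z1 ^ 2 * x2 ^ 3 * y2 * z2 * x3 ^ 2 * y3 * z3 ^ 3 + a * x1 ^ 3 * y1 * z1 ^ 2 *
      x2 ^ 2 * y2 ^ 3 * x3 ^ 3 * y3 ^ 2 * z3 + a * x1 ^ 3 * y1 * z1 ^ 2 * x2 * y2 ^ 2 * z2 ^ 2
      * x3 ^ 4 * z3 ^ 2 + a * x1 ^ 2 * y1 ^ 3 * z1 * x2 ^ 5 * x3 * y3 ^ 3 * z3 ^ 2 - a * x1 ^ 2
      * y1 ^ 3 * z1 * x2 * y2 ^ 2 * z2 ^ 2 * x3 ^ 5 * y3 + a * x1 * y1 ^ 5 * x2 ^ 2 * y2 ^ 3 *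
      x3 ^ 5 * y3 + x1 ^ 3 * y1 * z1 ^ 2 * x2 ^ 2 * y2 ^ 3 * y3 ^ 5 * z3 + x1 ^ 3 * y1 * z1 ^ 2
      * x2 ^ 2 * y2 ^ 3 * y3 ^ 2 * z3 ^ 4 - x1 ^ 3 * y1 * z1 ^ 2 * x2 ^ 2 * z2 ^ 3 * y3 ^ 5 *
      z3 + x1 ^ 3 * y1 * z1 ^ 2 * x2 * y2 ^ 2 * z2 ^ 2 * x3 * y3 ^ 3 * z3 ^ 2 + 2 * x1 ^ 2 * y1
      ^ 3 * z1 * x2 ^ 3 * y2 * z2 * y3 ^ 5 * z3 + x1 ^ 2 * y1 ^ 3 * z1 * x2 ^ 3 * y2 * z2 * y3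
      ^ 2 * z3 ^ 4 - x1 ^ 2 * y1 ^ 3 * z1 * x2 ^ 2 * y2 ^ 3 * x3 * y3 ^ 3 * z3 ^ 2 - x1 ^ 2 *
      y1 ^ 3 * z1 * x2 ^ 2 * z2 ^ 3 * x3 * y3 ^ 3 * z3 ^ 2 - x1 ^ 2 * y1 ^ 3 * z1 * x2 * y2 ^ 2
      * z2 ^ 2 * x3 ^ 2 * y3 ^ 4 - x1 ^ 2 * y1 ^ 3 * z1 * x2 * y2 ^ 2 * z2 ^ 2 * x3 ^ 2 * y3 *
      z3 ^ 3 + x1 ^ 2 * y1 ^ 3 * z1 * y2 * z2 ^ 4 * x3 ^ 3 * y3 ^ 2 * z3 + 2 * x1 * y1 ^ 5 * x2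
      ^ 3 * y2 * z2 * x3 * y3 ^ 3 * z3 ^ 2 + x1 * y1 ^ 5 * x2 ^ 2 * y2 ^ 3 * x3 ^ 2 * y3 ^ 4 -
      2 * x1 * y1 ^ 5 * x2 * y2 ^ 2 * z2 ^ 2 * x3 ^ 3 * y3 ^ 2 * z3 + x1 * y1 ^ 5 * y2 ^ 4 * z2
      * x3 ^ 4 * z3 ^ 2) * h2 + (-a ^ 2 * x1 ^ 5 * z1 * x2 ^ 5 * y2 ^ 3 * x3 * z3 ^ 2 + a ^ 2 *
      x1 ^ 5 * z1 * x2 ^ 4 * y2 ^ 2 * z2 ^ 2 * x3 ^ 2 * y3 - a ^ 2 * x1 ^ 4 * y1 ^ 2 * x2 ^ 5 *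
      y2 ^ 3 * x3 ^ 2 * y3 - a ^ 2 * x1 ^ 3 * y1 * z1 ^ 2 * x2 ^ 8 * y3 ^ 2 * z3 + a ^ 2 * x1 ^
      3 * y1 * z1 ^ 2 * x2 ^ 6 * y2 * z2 * x3 ^ 2 * y3 - a * x1 ^ 5 * z1 * x2 ^ 2 * y2 ^ 6 * x3
      * z3 ^ 2 + a * x1 ^ 5 * z1 * x2 * y2 ^ 5 * z2 ^ 2 * x3 ^ 2 * y3 - a * x1 ^ 4 * y1 ^ 2 *
      x2 ^ 3 * y2 ^ 4 * z2 * x3 * z3 ^ 2 - a * x1 ^ 4 * y1 ^ 2 * x2 ^ 2 * y2 ^ 6 * x3 ^ 2 * y3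
      - 2 * a * x1 ^ 3 * y1 * z1 ^ 2 * x2 ^ 5 * y2 ^ 3 * y3 ^ 2 * z3 + a * x1 ^ 3 * y1 * z1 ^ 2
      * x2 ^ 3 * y2 ^ 4 * z2 * x3 ^ 2 * y3 - 2 * a * x1 ^ 2 * y1 ^ 3 * z1 * x2 ^ 6 * y2 * z2 *
      y3 ^ 2 * z3 + 2 * a * x1 ^ 2 * y1 ^ 3 * z1 * x2 ^ 4 * y2 ^ 2 * z2 ^ 2 * x3 ^ 2 * y3 - a *
      x1 * y1 ^ 5 * x2 ^ 5 * y2 ^ 3 * x3 ^ 2 * y3 - x1 ^ 3 * y1 * z1 ^ 2 * x2 ^ 2 * y2 ^ 6 * y3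
      ^ 2 * z3 - x1 ^ 3 * y1 * z1 ^ 2 * x2 * y2 ^ 5 * z2 ^ 2 * x3 * z3 ^ 2 - 2 * x1 ^ 2 * y1 ^
      3 * z1 * x2 ^ 3 * y2 ^ 4 * z2 * y3 ^ 2 * z3 + x1 ^ 2 * y1 ^ 3 * z1 * x2 ^ 2 * y2 ^ 6 * x3
      * z3 ^ 2 + x1 ^ 2 * y1 ^ 3 * z1 * x2 * y2 ^ 5 * z2 ^ 2 * x3 ^ 2 * y3 - x1 * y1 ^ 5 * x2 ^
      4 * y2 ^ 2 * z2 ^ 2 * y3 ^ 2 * z3 - x1 * y1 ^ 5 * x2 ^ 2 * y2 ^ 6 * x3 ^ 2 * y3) * h3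

lemma assoc_2112 {a : B} {u v w : Fin 3 → B} (hu : FF a u = 0) (hv : FF a v = 0)
    (hw : FF a w = 0) : Par (law1 (law2 a u v) w) (law2 a u (law1 v w)) := by
  unfold FF at *
  apply Par.mk' <;> simp only [law1, law2, Matrix.cons_val] <;>
  generalize u 0 = x1 at * <;>
  generalize u 1 = y1 at * <;>
  generalize u 2 = z1 at * <;>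
  generalize v 0 = x2 at * <;>
  generalize v 1 = y2 at * <;>
  generalize v 2 = z2 at * <;>
  generalize w 0 = x3 at * <;>
  generalize w 1 = y3 at * <;>
  generalize w 2 = z3 at * <;>
  have h1 := hu <;>
  have h2 := hv <;>
  have h3 := hw
  · linear_combination (-a * x1 ^ 3 * x2 ^ 3 * y2 * z2 ^ 4 * y3 ^ 5 * z3 - a * x1 ^ 3 * x2 ^ 3 *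
      y2 * z2 ^ 4 * y3 ^ 2 * z3 ^ 4 + 2 * a * x1 ^ 3 * x2 ^ 2 * y2 ^ 3 * z2 ^ 3 * x3 * y3 ^ 3 *
      z3 ^ 2 + a * x1 ^ 3 * x2 ^ 2 * y2 ^ 3 * z2 ^ 3 * x3 * z3 ^ 5 + a * x1 ^ 3 * x2 ^ 2 * z2 ^
      6 * x3 * y3 ^ 3 * z3 ^ 2 - a * x1 ^ 3 * x2 * y2 ^ 5 * z2 ^ 2 * x3 ^ 2 * y3 * z3 ^ 3 - a *
      x1 ^ 3 * x2 * y2 ^ 2 * z2 ^ 5 * x3 ^ 2 * y3 * z3 ^ 3 + 3 * a * x1 * y1 * z1 * x2 ^ 4 * y2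
      ^ 2 * z2 ^ 2 * x3 * y3 ^ 3 * z3 ^ 2 - 2 * a * x1 * y1 * z1 * x2 ^ 3 * y2 ^ 4 * z2 * x3 ^
      2 * y3 * z3 ^ 3 - 2 * a * x1 * y1 * z1 * x2 ^ 3 * y2 * z2 ^ 4 * x3 ^ 2 * y3 ^ 4 + a * x1
      * y1 * z1 * y2 ^ 4 * z2 ^ 4 * x3 ^ 5 * y3 - x1 * y1 * z1 * x2 * y2 ^ 5 * z2 ^ 2 * x3 * z3
      ^ 5 + x1 * y1 * z1 * x2 * y2 ^ 2 * z2 ^ 5 * x3 * y3 ^ 3 * z3 ^ 2 + x1 * y1 * z1 * y2 ^ 4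
      * z2 ^ 4 * x3 ^ 2 * y3 * z3 ^ 3 - x1 * y1 * z1 * y2 * z2 ^ 7 * x3 ^ 2 * y3 ^ 4 - z1 ^ 3 *
      x2 ^ 2 * y2 ^ 3 * z2 ^ 3 * x3 * y3 ^ 3 * z3 ^ 2 + z1 ^ 3 * x2 * y2 ^ 5 * z2 ^ 2 * x3 ^ 2
      * y3 * z3 ^ 3 + z1 ^ 3 * x2 * y2 ^ 2 * z2 ^ 5 * x3 ^ 2 * y3 ^ 4 - z1 ^ 3 * y2 ^ 4 * z2 ^
      4 * x3 ^ 3 * y3 ^ 2 * z3) * h1 + (a ^ 3 * x1 ^ 6 * x2 ^ 3 * y2 * z2 * x3 ^ 3 * y3 ^ 2 *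
      z3 - a ^ 3 * x1 ^ 6 * x2 ^ 2 * y2 ^ 3 * x3 ^ 4 * z3 ^ 2 + a ^ 3 * x1 ^ 4 * y1 * z1 * x2 ^
      5 * x3 ^ 3 * y3 ^ 2 * z3 + a ^ 2 * x1 ^ 6 * x2 ^ 3 * y2 * z2 * y3 ^ 5 * z3 + a ^ 2 * x1 ^
      6 * x2 ^ 3 * y2 * z2 * y3 ^ 2 * z3 ^ 4 - a ^ 2 * x1 ^ 6 * x2 ^ 2 * y2 ^ 3 * x3 * y3 ^ 3 *
      z3 ^ 2 - a ^ 2 * x1 ^ 6 * x2 ^ 2 * y2 ^ 3 * x3 * z3 ^ 5 - a ^ 2 * x1 ^ 6 * x2 ^ 2 * z2 ^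
      3 * x3 * y3 ^ 3 * z3 ^ 2 + a ^ 2 * x1 ^ 6 * x2 * y2 ^ 2 * z2 ^ 2 * x3 ^ 2 * y3 * z3 ^ 3 +
      a ^ 2 * x1 ^ 4 * y1 * z1 * x2 ^ 5 * y3 ^ 5 * z3 + a ^ 2 * x1 ^ 4 * y1 * z1 * x2 ^ 5 * y3
      ^ 2 * z3 ^ 4 - a ^ 2 * x1 ^ 4 * y1 * z1 * x2 ^ 2 * z2 ^ 3 * x3 ^ 3 * y3 ^ 2 * z3 + a ^ 2
      * x1 ^ 4 * y1 * z1 * x2 * y2 ^ 2 * z2 ^ 2 * x3 ^ 4 * z3 ^ 2 - a ^ 2 * x1 ^ 4 * y1 * z1 *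
      y2 ^ 4 * z2 * x3 ^ 5 * y3 + a ^ 2 * x1 ^ 3 * y1 ^ 3 * x2 ^ 5 * x3 * y3 ^ 3 * z3 ^ 2 - a ^
      2 * x1 ^ 3 * y1 ^ 3 * x2 ^ 2 * y2 ^ 3 * x3 ^ 4 * z3 ^ 2 - 2 * a ^ 2 * x1 ^ 2 * y1 ^ 2 *
      z1 ^ 2 * x2 ^ 2 * y2 ^ 3 * x3 ^ 5 * y3 - a * x1 ^ 4 * y1 * z1 * x2 * y2 ^ 2 * z2 ^ 2 * x3
      * y3 ^ 3 * z3 ^ 2 - a * x1 ^ 4 * y1 * z1 * y2 ^ 4 * z2 * x3 ^ 2 * y3 ^ 4 - a * x1 ^ 4 *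
      y1 * z1 * y2 ^ 4 * z2 * x3 ^ 2 * y3 * z3 ^ 3 + a * x1 ^ 4 * y1 * z1 * y2 * z2 ^ 4 * x3 ^
      2 * y3 ^ 4 + a * x1 ^ 3 * y1 ^ 3 * x2 ^ 3 * y2 * z2 * y3 ^ 5 * z3 + a * x1 ^ 3 * y1 ^ 3 *
      x2 ^ 3 * y2 * z2 * y3 ^ 2 * z3 ^ 4 - a * x1 ^ 3 * y1 ^ 3 * x2 ^ 2 * y2 ^ 3 * x3 * y3 ^ 3
      * z3 ^ 2 - a * x1 ^ 3 * y1 ^ 3 * x2 ^ 2 * y2 ^ 3 * x3 * z3 ^ 5 - a * x1 ^ 3 * y1 ^ 3 * x2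
      ^ 2 * z2 ^ 3 * x3 * y3 ^ 3 * z3 ^ 2 + a * x1 ^ 3 * y1 ^ 3 * x2 * y2 ^ 2 * z2 ^ 2 * x3 ^ 2
      * y3 * z3 ^ 3 - 3 * a * x1 ^ 2 * y1 ^ 2 * z1 ^ 2 * x2 ^ 3 * y2 * z2 * x3 * y3 ^ 3 * z3 ^
      2 - 2 * a * x1 ^ 2 * y1 ^ 2 * z1 ^ 2 * x2 ^ 2 * y2 ^ 3 * x3 ^ 2 * y3 ^ 4 - a * x1 ^ 2 *
      y1 ^ 2 * z1 ^ 2 * x2 ^ 2 * y2 ^ 3 * x3 ^ 2 * y3 * z3 ^ 3 + a * x1 ^ 2 * y1 ^ 2 * z1 ^ 2 *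
      x2 ^ 2 * z2 ^ 3 * x3 ^ 2 * y3 ^ 4 + 2 * a * x1 ^ 2 * y1 ^ 2 * z1 ^ 2 * x2 * y2 ^ 2 * z2 ^
      2 * x3 ^ 3 * y3 ^ 2 * z3 - a * x1 ^ 2 * y1 ^ 2 * z1 ^ 2 * y2 ^ 4 * z2 * x3 ^ 4 * z3 ^ 2 -
      a * x1 * y1 ^ 4 * z1 * y2 ^ 4 * z2 * x3 ^ 5 * y3 - x1 * y1 ^ 4 * z1 * x2 * y2 ^ 2 * z2 ^
      2 * x3 * y3 ^ 3 * z3 ^ 2 - x1 * y1 ^ 4 * z1 * y2 ^ 4 * z2 * x3 ^ 2 * y3 ^ 4 - x1 * y1 ^ 4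
      * z1 * y2 ^ 4 * z2 * x3 ^ 2 * y3 * z3 ^ 3 + x1 * y1 ^ 4 * z1 * y2 * z2 ^ 4 * x3 ^ 2 * y3
      ^ 4) * h2 + (-a ^ 3 * x1 ^ 6 * x2 ^ 6 * y2 * z2 * y3 ^ 2 * z3 + a ^ 3 * x1 ^ 6 * x2 ^ 5 *
      y2 ^ 3 * x3 * z3 ^ 2 - a ^ 3 * x1 ^ 4 * y1 * z1 * x2 ^ 8 * y3 ^ 2 * z3 - a ^ 2 * x1 ^ 6 *
      x2 ^ 3 * y2 ^ 4 * z2 * y3 ^ 2 * z3 + a ^ 2 * x1 ^ 6 * x2 ^ 2 * y2 ^ 6 * x3 * z3 ^ 2 - a ^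
      2 * x1 ^ 4 * y1 * z1 * x2 ^ 5 * y2 ^ 3 * y3 ^ 2 * z3 - a ^ 2 * x1 ^ 4 * y1 * z1 * x2 ^ 4
      * y2 ^ 2 * z2 ^ 2 * x3 * z3 ^ 2 + a ^ 2 * x1 ^ 4 * y1 * z1 * x2 ^ 3 * y2 ^ 4 * z2 * x3 ^
      2 * y3 - 2 * a ^ 2 * x1 ^ 3 * y1 ^ 3 * x2 ^ 6 * y2 * z2 * y3 ^ 2 * z3 + a ^ 2 * x1 ^ 3 *
      y1 ^ 3 * x2 ^ 5 * y2 ^ 3 * x3 * z3 ^ 2 + a ^ 2 * x1 ^ 3 * y1 ^ 3 * x2 ^ 4 * y2 ^ 2 * z2 ^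
      2 * x3 ^ 2 * y3 + 2 * a ^ 2 * x1 ^ 2 * y1 ^ 2 * z1 ^ 2 * x2 ^ 5 * y2 ^ 3 * x3 ^ 2 * y3 +
      a * x1 ^ 4 * y1 * z1 * x2 * y2 ^ 5 * z2 ^ 2 * x3 * z3 ^ 2 + a * x1 ^ 4 * y1 * z1 * y2 ^ 7
      * z2 * x3 ^ 2 * y3 - a * x1 ^ 3 * y1 ^ 3 * x2 ^ 3 * y2 ^ 4 * z2 * y3 ^ 2 * z3 + a * x1 ^
      3 * y1 ^ 3 * x2 ^ 2 * y2 ^ 6 * x3 * z3 ^ 2 + a * x1 ^ 2 * y1 ^ 2 * z1 ^ 2 * x2 ^ 4 * y2 ^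
      2 * z2 ^ 2 * y3 ^ 2 * z3 + a * x1 ^ 2 * y1 ^ 2 * z1 ^ 2 * x2 ^ 3 * y2 ^ 4 * z2 * x3 * z3
      ^ 2 + 2 * a * x1 ^ 2 * y1 ^ 2 * z1 ^ 2 * x2 ^ 2 * y2 ^ 6 * x3 ^ 2 * y3 + a * x1 * y1 ^ 4
      * z1 * x2 ^ 3 * y2 ^ 4 * z2 * x3 ^ 2 * y3 + x1 * y1 ^ 4 * z1 * x2 * y2 ^ 5 * z2 ^ 2 * x3
      * z3 ^ 2 + x1 * y1 ^ 4 * z1 * y2 ^ 7 * z2 * x3 ^ 2 * y3) * h3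
  · linear_combination (-a * x1 ^ 2 * z1 * x2 ^ 3 * y2 ^ 2 * z2 ^ 3 * x3 ^ 2 * y3 ^ 2 * z3 ^ 2 +
      a * x1 ^ 2 * z1 * x2 ^ 2 * y2 ^ 4 * z2 ^ 2 * x3 ^ 3 * z3 ^ 3 + a * x1 ^ 2 * z1 * x2 ^ 2 *
      y2 * z2 ^ 5 * x3 ^ 3 * y3 ^ 3 - a * x1 ^ 2 * z1 * x2 * y2 ^ 3 * z2 ^ 4 * x3 ^ 4 * y3 * z3
      - 2 * a * x1 * y1 ^ 2 * x2 ^ 4 * y2 ^ 3 * z2 * x3 ^ 2 * y3 ^ 2 * z3 ^ 2 + a * x1 * y1 ^ 2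
      * x2 ^ 3 * y2 ^ 5 * x3 ^ 3 * z3 ^ 3 + a * x1 * y1 ^ 2 * x2 ^ 3 * y2 ^ 2 * z2 ^ 3 * x3 ^ 3
      * y3 ^ 3 + a * x1 * y1 ^ 2 * x2 ^ 2 * y2 ^ 4 * z2 ^ 2 * x3 ^ 4 * y3 * z3 - a * x1 * y1 ^
      2 * y2 ^ 5 * z2 ^ 3 * x3 ^ 6 + x1 ^ 2 * z1 * x2 ^ 2 * y2 * z2 ^ 5 * y3 ^ 6 + x1 ^ 2 * z1
      * x2 ^ 2 * y2 * z2 ^ 5 * y3 ^ 3 * z3 ^ 3 - 2 * x1 ^ 2 * z1 * x2 * y2 ^ 3 * z2 ^ 4 * x3 *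
      y3 ^ 4 * z3 - x1 ^ 2 * z1 * x2 * y2 ^ 3 * z2 ^ 4 * x3 * y3 * z3 ^ 4 - x1 ^ 2 * z1 * x2 *
      z2 ^ 7 * x3 * y3 ^ 4 * z3 + x1 ^ 2 * z1 * y2 ^ 5 * z2 ^ 3 * x3 ^ 2 * y3 ^ 2 * z3 ^ 2 + x1
      ^ 2 * z1 * y2 ^ 2 * z2 ^ 6 * x3 ^ 2 * y3 ^ 2 * z3 ^ 2 - x1 * y1 ^ 2 * x2 ^ 3 * y2 ^ 2 *
      z2 ^ 3 * y3 ^ 6 - x1 * y1 ^ 2 * x2 ^ 3 * y2 ^ 2 * z2 ^ 3 * y3 ^ 3 * z3 ^ 3 + 3 * x1 * y1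
      ^ 2 * x2 ^ 2 * y2 ^ 4 * z2 ^ 2 * x3 * y3 ^ 4 * z3 + 2 * x1 * y1 ^ 2 * x2 ^ 2 * y2 ^ 4 *
      z2 ^ 2 * x3 * y3 * z3 ^ 4 + x1 * y1 ^ 2 * x2 ^ 2 * y2 * z2 ^ 5 * x3 * y3 ^ 4 * z3 - 3 *
      x1 * y1 ^ 2 * x2 * y2 ^ 6 * z2 * x3 ^ 2 * y3 ^ 2 * z3 ^ 2 - 3 * x1 * y1 ^ 2 * x2 * y2 ^ 3
      * z2 ^ 4 * x3 ^ 2 * y3 ^ 2 * z3 ^ 2 + x1 * y1 ^ 2 * y2 ^ 8 * x3 ^ 3 * z3 ^ 3 + x1 * y1 ^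
      2 * y2 ^ 2 * z2 ^ 6 * x3 ^ 3 * y3 ^ 3 + y1 * z1 ^ 2 * x2 ^ 2 * y2 ^ 4 * z2 ^ 2 * x3 ^ 2 *
      y3 ^ 2 * z3 ^ 2 - y1 * z1 ^ 2 * x2 * y2 ^ 6 * z2 * x3 ^ 3 * z3 ^ 3 - y1 * z1 ^ 2 * x2 *
      y2 ^ 3 * z2 ^ 4 * x3 ^ 3 * y3 ^ 3 + y1 * z1 ^ 2 * y2 ^ 5 * z2 ^ 3 * x3 ^ 4 * y3 * z3) *
      h1 + (-a ^ 3 * x1 ^ 4 * y1 ^ 2 * x2 ^ 3 * y2 ^ 2 * x3 ^ 6 - a ^ 2 * x1 ^ 5 * z1 * x2 ^ 2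
      * y2 * z2 ^ 2 * x3 ^ 3 * y3 ^ 3 + a ^ 2 * x1 ^ 5 * z1 * x2 * y2 ^ 3 * z2 * x3 ^ 4 * y3 *
      z3 - a ^ 2 * x1 ^ 4 * y1 ^ 2 * x2 ^ 4 * z2 * x3 ^ 2 * y3 ^ 2 * z3 ^ 2 - a ^ 2 * x1 ^ 4 *
      y1 ^ 2 * x2 ^ 3 * y2 ^ 2 * x3 ^ 3 * z3 ^ 3 + a ^ 2 * x1 ^ 4 * y1 ^ 2 * x2 ^ 2 * y2 * z2 ^
      2 * x3 ^ 4 * y3 * z3 + a ^ 2 * x1 ^ 4 * y1 ^ 2 * y2 ^ 5 * x3 ^ 6 - a ^ 2 * x1 ^ 3 * y1 *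
      z1 ^ 2 * x2 ^ 4 * z2 * x3 ^ 3 * y3 ^ 3 + a ^ 2 * x1 ^ 3 * y1 * z1 ^ 2 * x2 * y2 ^ 3 * z2
      * x3 ^ 6 - a * x1 ^ 5 * z1 * x2 ^ 2 * y2 * z2 ^ 2 * y3 ^ 6 - a * x1 ^ 5 * z1 * x2 ^ 2 *
      y2 * z2 ^ 2 * y3 ^ 3 * z3 ^ 3 + a * x1 ^ 5 * z1 * x2 * y2 ^ 3 * z2 * x3 * y3 ^ 4 * z3 + a
      * x1 ^ 5 * z1 * x2 * y2 ^ 3 * z2 * x3 * y3 * z3 ^ 4 + a * x1 ^ 5 * z1 * x2 * z2 ^ 4 * x3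
      * y3 ^ 4 * z3 - a * x1 ^ 5 * z1 * y2 ^ 2 * z2 ^ 3 * x3 ^ 2 * y3 ^ 2 * z3 ^ 2 + a * x1 ^ 4
      * y1 ^ 2 * x2 ^ 3 * y2 ^ 2 * y3 ^ 6 + a * x1 ^ 4 * y1 ^ 2 * x2 ^ 3 * y2 ^ 2 * y3 ^ 3 * z3
      ^ 3 - a * x1 ^ 4 * y1 ^ 2 * x2 ^ 2 * y2 * z2 ^ 2 * x3 * y3 ^ 4 * z3 + 3 * a * x1 ^ 4 * y1
      ^ 2 * x2 * y2 ^ 3 * z2 * x3 ^ 2 * y3 ^ 2 * z3 ^ 2 + a * x1 ^ 4 * y1 ^ 2 * y2 ^ 5 * x3 ^ 3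
      * y3 ^ 3 - a * x1 ^ 4 * y1 ^ 2 * y2 ^ 2 * z2 ^ 3 * x3 ^ 3 * y3 ^ 3 - a * x1 ^ 3 * y1 * z1
      ^ 2 * x2 ^ 4 * z2 * y3 ^ 6 - a * x1 ^ 3 * y1 * z1 ^ 2 * x2 ^ 4 * z2 * y3 ^ 3 * z3 ^ 3 + 2
      * a * x1 ^ 3 * y1 * z1 ^ 2 * x2 ^ 2 * y2 * z2 ^ 2 * x3 ^ 2 * y3 ^ 2 * z3 ^ 2 + a * x1 ^ 3
      * y1 * z1 ^ 2 * x2 * y2 ^ 3 * z2 * x3 ^ 3 * y3 ^ 3 - a * x1 ^ 3 * y1 * z1 ^ 2 * y2 ^ 2 *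
      z2 ^ 3 * x3 ^ 4 * y3 * z3 + a * x1 ^ 2 * y1 ^ 3 * z1 * x2 ^ 3 * y2 ^ 2 * x3 ^ 2 * y3 ^ 2
      * z3 ^ 2 - 2 * a * x1 ^ 2 * y1 ^ 3 * z1 * x2 ^ 2 * y2 * z2 ^ 2 * x3 ^ 3 * y3 ^ 3 + a * x1
      ^ 2 * y1 ^ 3 * z1 * x2 * y2 ^ 3 * z2 * x3 ^ 4 * y3 * z3 + a * x1 * y1 ^ 5 * x2 ^ 3 * y2 ^
      2 * x3 ^ 3 * y3 ^ 3 + a * x1 * y1 ^ 5 * y2 ^ 5 * x3 ^ 6 - x1 ^ 2 * y1 ^ 3 * z1 * x2 ^ 2 *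
      y2 * z2 ^ 2 * y3 ^ 6 - x1 ^ 2 * y1 ^ 3 * z1 * x2 ^ 2 * y2 * z2 ^ 2 * y3 ^ 3 * z3 ^ 3 + x1
      ^ 2 * y1 ^ 3 * z1 * x2 * y2 ^ 3 * z2 * x3 * y3 ^ 4 * z3 + x1 ^ 2 * y1 ^ 3 * z1 * x2 * y2
      ^ 3 * z2 * x3 * y3 * z3 ^ 4 + x1 ^ 2 * y1 ^ 3 * z1 * x2 * z2 ^ 4 * x3 * y3 ^ 4 * z3 - x1
      ^ 2 * y1 ^ 3 * z1 * y2 ^ 2 * z2 ^ 3 * x3 ^ 2 * y3 ^ 2 * z3 ^ 2 + x1 * y1 ^ 5 * x2 ^ 3 *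
      y2 ^ 2 * y3 ^ 6 + x1 * y1 ^ 5 * x2 ^ 3 * y2 ^ 2 * y3 ^ 3 * z3 ^ 3 - x1 * y1 ^ 5 * x2 ^ 2
      * y2 * z2 ^ 2 * x3 * y3 ^ 4 * z3 + 3 * x1 * y1 ^ 5 * x2 * y2 ^ 3 * z2 * x3 ^ 2 * y3 ^ 2 *
      z3 ^ 2 + x1 * y1 ^ 5 * y2 ^ 5 * x3 ^ 3 * y3 ^ 3 - x1 * y1 ^ 5 * y2 ^ 2 * z2 ^ 3 * x3 ^ 3
      * y3 ^ 3) * h2 + (a ^ 3 * x1 ^ 4 * y1 ^ 2 * x2 ^ 6 * y2 ^ 2 * x3 ^ 3 + a ^ 2 * x1 ^ 5 *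
      z1 * x2 ^ 5 * y2 * z2 ^ 2 * y3 ^ 3 - a ^ 2 * x1 ^ 5 * z1 * x2 ^ 4 * y2 ^ 3 * z2 * x3 * y3
      * z3 - a ^ 2 * x1 ^ 4 * y1 ^ 2 * x2 ^ 6 * y2 ^ 2 * y3 ^ 3 + a ^ 2 * x1 ^ 4 * y1 ^ 2 * x2
      ^ 5 * y2 * z2 ^ 2 * x3 * y3 * z3 + a ^ 2 * x1 ^ 3 * y1 * z1 ^ 2 * x2 ^ 7 * z2 * y3 ^ 3 -
      a ^ 2 * x1 ^ 3 * y1 * z1 ^ 2 * x2 ^ 4 * y2 ^ 3 * z2 * x3 ^ 3 + a * x1 ^ 5 * z1 * x2 ^ 2 *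
      y2 ^ 4 * z2 ^ 2 * y3 ^ 3 - a * x1 ^ 5 * z1 * x2 * y2 ^ 6 * z2 * x3 * y3 * z3 - a * x1 ^ 4
      * y1 ^ 2 * x2 ^ 3 * y2 ^ 5 * y3 ^ 3 - 2 * a * x1 ^ 4 * y1 ^ 2 * x2 ^ 2 * y2 ^ 4 * z2 ^ 2
      * x3 * y3 * z3 - a * x1 ^ 4 * y1 ^ 2 * y2 ^ 8 * x3 ^ 3 + a * x1 ^ 3 * y1 * z1 ^ 2 * x2 ^
      4 * y2 ^ 3 * z2 * y3 ^ 3 - a * x1 ^ 3 * y1 * z1 ^ 2 * x2 * y2 ^ 6 * z2 * x3 ^ 3 + 2 * a *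
      x1 ^ 2 * y1 ^ 3 * z1 * x2 ^ 5 * y2 * z2 ^ 2 * y3 ^ 3 - 3 * a * x1 ^ 2 * y1 ^ 3 * z1 * x2
      ^ 4 * y2 ^ 3 * z2 * x3 * y3 * z3 + a * x1 ^ 2 * y1 ^ 3 * z1 * x2 ^ 2 * y2 ^ 4 * z2 ^ 2 *
      x3 ^ 3 - a * x1 * y1 ^ 5 * x2 ^ 6 * y2 ^ 2 * y3 ^ 3 - a * x1 * y1 ^ 5 * x2 ^ 3 * y2 ^ 5 *
      x3 ^ 3 + x1 ^ 2 * y1 ^ 3 * z1 * x2 ^ 2 * y2 ^ 4 * z2 ^ 2 * y3 ^ 3 - x1 ^ 2 * y1 ^ 3 * z1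
      * x2 * y2 ^ 6 * z2 * x3 * y3 * z3 - x1 * y1 ^ 5 * x2 ^ 3 * y2 ^ 5 * y3 ^ 3 - 2 * x1 * y1
      ^ 5 * x2 ^ 2 * y2 ^ 4 * z2 ^ 2 * x3 * y3 * z3 - x1 * y1 ^ 5 * y2 ^ 8 * x3 ^ 3) * h3
  · linear_combination (2 * a * x1 ^ 2 * y1 * x2 ^ 4 * y2 * z2 ^ 3 * x3 * y3 ^ 5 - 3 * a * x1 ^ 2
      * y1 * x2 ^ 3 * y2 ^ 3 * z2 ^ 2 * x3 ^ 2 * y3 ^ 3 * z3 - a * x1 ^ 2 * y1 * x2 ^ 3 * y2 ^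
      3 * z2 ^ 2 * x3 ^ 2 * z3 ^ 4 + a * x1 ^ 2 * y1 * x2 ^ 2 * y2 ^ 5 * z2 * x3 ^ 3 * y3 * z3
      ^ 2 + 2 * a * x1 ^ 2 * y1 * x2 ^ 2 * y2 ^ 2 * z2 ^ 4 * x3 ^ 3 * y3 * z3 ^ 2 - a * x1 ^ 2
      * y1 * x2 * y2 ^ 4 * z2 ^ 3 * x3 ^ 4 * y3 ^ 2 - a * x1 ^ 2 * y1 * x2 * y2 * z2 ^ 6 * x3 ^
      4 * y3 ^ 2 + a * x1 ^ 2 * y1 * y2 ^ 6 * z2 ^ 2 * x3 ^ 5 * z3 + x1 ^ 2 * y1 * x2 ^ 2 * y2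
      ^ 2 * z2 ^ 4 * y3 ^ 4 * z3 ^ 2 + x1 ^ 2 * y1 * x2 ^ 2 * y2 ^ 2 * z2 ^ 4 * y3 * z3 ^ 5 - 2
      * x1 ^ 2 * y1 * x2 * y2 ^ 4 * z2 ^ 3 * x3 * y3 ^ 2 * z3 ^ 3 - 2 * x1 ^ 2 * y1 * x2 * y2 *
      z2 ^ 6 * x3 * y3 ^ 2 * z3 ^ 3 + x1 ^ 2 * y1 * y2 ^ 6 * z2 ^ 2 * x3 ^ 2 * z3 ^ 4 + x1 ^ 2
      * y1 * z2 ^ 8 * x3 ^ 2 * y3 ^ 3 * z3 - x1 * z1 ^ 2 * x2 ^ 2 * y2 ^ 2 * z2 ^ 4 * x3 * y3 ^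
      5 + 2 * x1 * z1 ^ 2 * x2 * y2 ^ 4 * z2 ^ 3 * x3 ^ 2 * y3 ^ 3 * z3 - x1 * z1 ^ 2 * y2 ^ 6
      * z2 ^ 2 * x3 ^ 3 * y3 * z3 ^ 2 - y1 ^ 2 * z1 * x2 ^ 3 * y2 ^ 3 * z2 ^ 2 * x3 * y3 ^ 2 *
      z3 ^ 3 + y1 ^ 2 * z1 * x2 ^ 2 * y2 ^ 5 * z2 * x3 ^ 2 * z3 ^ 4 + y1 ^ 2 * z1 * x2 ^ 2 * y2
      ^ 2 * z2 ^ 4 * x3 ^ 2 * y3 ^ 3 * z3 - y1 ^ 2 * z1 * x2 * y2 ^ 4 * z2 ^ 3 * x3 ^ 3 * y3 *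
      z3 ^ 2) * h1 + (-2 * a ^ 3 * x1 ^ 5 * y1 * x2 ^ 4 * y2 * x3 ^ 4 * y3 ^ 2 - 2 * a ^ 2 * x1
      ^ 5 * y1 * x2 ^ 4 * y2 * x3 * y3 ^ 5 - 2 * a ^ 2 * x1 ^ 5 * y1 * x2 ^ 4 * y2 * x3 * y3 ^
      2 * z3 ^ 3 + a ^ 2 * x1 ^ 5 * y1 * x2 ^ 3 * z2 ^ 2 * x3 ^ 2 * y3 ^ 3 * z3 - 2 * a ^ 2 *
      x1 ^ 5 * y1 * x2 ^ 2 * y2 ^ 2 * z2 * x3 ^ 3 * y3 * z3 ^ 2 + a ^ 2 * x1 ^ 5 * y1 * x2 * y2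
      * z2 ^ 3 * x3 ^ 4 * y3 ^ 2 + a ^ 2 * x1 ^ 4 * z1 ^ 2 * x2 ^ 2 * y2 ^ 2 * z2 * x3 ^ 4 * y3
      ^ 2 - a ^ 2 * x1 ^ 4 * z1 ^ 2 * x2 * y2 ^ 4 * x3 ^ 5 * z3 - a ^ 2 * x1 ^ 3 * y1 ^ 2 * z1
      * x2 ^ 4 * y2 * x3 ^ 3 * y3 * z3 ^ 2 + a ^ 2 * x1 ^ 3 * y1 ^ 2 * z1 * x2 ^ 3 * z2 ^ 2 *
      x3 ^ 4 * y3 ^ 2 - 2 * a ^ 2 * x1 ^ 2 * y1 ^ 4 * x2 ^ 4 * y2 * x3 ^ 4 * y3 ^ 2 - a * x1 ^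
      5 * y1 * x2 ^ 2 * y2 ^ 2 * z2 * y3 ^ 4 * z3 ^ 2 - a * x1 ^ 5 * y1 * x2 ^ 2 * y2 ^ 2 * z2
      * y3 * z3 ^ 5 + 2 * a * x1 ^ 5 * y1 * x2 * y2 * z2 ^ 3 * x3 * y3 ^ 2 * z3 ^ 3 + a * x1 ^
      5 * y1 * y2 ^ 3 * z2 ^ 2 * x3 ^ 2 * y3 ^ 3 * z3 - a * x1 ^ 5 * y1 * z2 ^ 5 * x3 ^ 2 * y3
      ^ 3 * z3 + a * x1 ^ 4 * z1 ^ 2 * x2 ^ 2 * y2 ^ 2 * z2 * x3 * y3 ^ 5 + a * x1 ^ 4 * z1 ^ 2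
      * x2 ^ 2 * y2 ^ 2 * z2 * x3 * y3 ^ 2 * z3 ^ 3 - a * x1 ^ 4 * z1 ^ 2 * x2 * y2 ^ 4 * x3 ^
      2 * y3 ^ 3 * z3 - a * x1 ^ 4 * z1 ^ 2 * x2 * y2 ^ 4 * x3 ^ 2 * z3 ^ 4 - a * x1 ^ 4 * z1 ^
      2 * x2 * y2 * z2 ^ 3 * x3 ^ 2 * y3 ^ 3 * z3 + a * x1 ^ 4 * z1 ^ 2 * y2 ^ 3 * z2 ^ 2 * x3
      ^ 3 * y3 * z3 ^ 2 - a * x1 ^ 3 * y1 ^ 2 * z1 * x2 ^ 4 * y2 * y3 ^ 4 * z3 ^ 2 - a * x1 ^ 3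
      * y1 ^ 2 * z1 * x2 ^ 4 * y2 * y3 * z3 ^ 5 + a * x1 ^ 3 * y1 ^ 2 * z1 * x2 ^ 3 * z2 ^ 2 *
      x3 * y3 ^ 2 * z3 ^ 3 + a * x1 ^ 3 * y1 ^ 2 * z1 * x2 ^ 2 * y2 ^ 2 * z2 * x3 ^ 2 * y3 ^ 3
      * z3 + a * x1 ^ 3 * y1 ^ 2 * z1 * x2 ^ 2 * y2 ^ 2 * z2 * x3 ^ 2 * z3 ^ 4 - a * x1 ^ 3 *
      y1 ^ 2 * z1 * x2 * y2 * z2 ^ 3 * x3 ^ 3 * y3 * z3 ^ 2 - 2 * a * x1 ^ 2 * y1 ^ 4 * x2 ^ 4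
      * y2 * x3 * y3 ^ 5 - 3 * a * x1 ^ 2 * y1 ^ 4 * x2 ^ 4 * y2 * x3 * y3 ^ 2 * z3 ^ 3 + a *
      x1 ^ 2 * y1 ^ 4 * x2 ^ 3 * z2 ^ 2 * x3 ^ 2 * y3 ^ 3 * z3 - a * x1 ^ 2 * y1 ^ 4 * x2 ^ 2 *
      y2 ^ 2 * z2 * x3 ^ 3 * y3 * z3 ^ 2 + a * x1 ^ 2 * y1 ^ 4 * x2 * y2 * z2 ^ 3 * x3 ^ 4 * y3
      ^ 2 + a * x1 * y1 ^ 3 * z1 ^ 2 * x2 ^ 2 * y2 ^ 2 * z2 * x3 ^ 4 * y3 ^ 2 - x1 ^ 2 * y1 ^ 4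
      * x2 ^ 2 * y2 ^ 2 * z2 * y3 ^ 4 * z3 ^ 2 - x1 ^ 2 * y1 ^ 4 * x2 ^ 2 * y2 ^ 2 * z2 * y3 *
      z3 ^ 5 + 2 * x1 ^ 2 * y1 ^ 4 * x2 * y2 * z2 ^ 3 * x3 * y3 ^ 2 * z3 ^ 3 + x1 ^ 2 * y1 ^ 4
      * y2 ^ 3 * z2 ^ 2 * x3 ^ 2 * y3 ^ 3 * z3 - x1 ^ 2 * y1 ^ 4 * z2 ^ 5 * x3 ^ 2 * y3 ^ 3 *
      z3 + x1 * y1 ^ 3 * z1 ^ 2 * x2 ^ 2 * y2 ^ 2 * z2 * x3 * y3 ^ 5 + 3 * x1 * y1 ^ 3 * z1 ^ 2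
      * x2 ^ 2 * y2 ^ 2 * z2 * x3 * y3 ^ 2 * z3 ^ 3 - x1 * y1 ^ 3 * z1 ^ 2 * x2 * y2 ^ 4 * x3 ^
      2 * z3 ^ 4 - 2 * x1 * y1 ^ 3 * z1 ^ 2 * x2 * y2 * z2 ^ 3 * x3 ^ 2 * y3 ^ 3 * z3 + x1 * y1
      ^ 3 * z1 ^ 2 * y2 ^ 3 * z2 ^ 2 * x3 ^ 3 * y3 * z3 ^ 2) * h2 + (2 * a ^ 3 * x1 ^ 5 * y1 *
      x2 ^ 7 * y2 * x3 * y3 ^ 2 + a ^ 2 * x1 ^ 5 * y1 * x2 ^ 5 * y2 ^ 2 * z2 * y3 * z3 ^ 2 + 2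
      * a ^ 2 * x1 ^ 5 * y1 * x2 ^ 4 * y2 ^ 4 * x3 * y3 ^ 2 + a ^ 2 * x1 ^ 5 * y1 * x2 ^ 3 * y2
      ^ 3 * z2 ^ 2 * x3 ^ 2 * z3 - a ^ 2 * x1 ^ 4 * z1 ^ 2 * x2 ^ 5 * y2 ^ 2 * z2 * x3 * y3 ^ 2
      + a ^ 2 * x1 ^ 4 * z1 ^ 2 * x2 ^ 4 * y2 ^ 4 * x3 ^ 2 * z3 + a ^ 2 * x1 ^ 3 * y1 ^ 2 * z1
      * x2 ^ 7 * y2 * y3 * z3 ^ 2 - a ^ 2 * x1 ^ 3 * y1 ^ 2 * z1 * x2 ^ 6 * z2 ^ 2 * x3 * y3 ^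
      2 + 2 * a ^ 2 * x1 ^ 2 * y1 ^ 4 * x2 ^ 7 * y2 * x3 * y3 ^ 2 + a * x1 ^ 5 * y1 * x2 ^ 2 *
      y2 ^ 5 * z2 * y3 * z3 ^ 2 - a * x1 ^ 5 * y1 * y2 ^ 6 * z2 ^ 2 * x3 ^ 2 * z3 - a * x1 ^ 4
      * z1 ^ 2 * x2 ^ 2 * y2 ^ 5 * z2 * x3 * y3 ^ 2 + a * x1 ^ 4 * z1 ^ 2 * x2 * y2 ^ 7 * x3 ^
      2 * z3 + a * x1 ^ 3 * y1 ^ 2 * z1 * x2 ^ 4 * y2 ^ 4 * y3 * z3 ^ 2 - a * x1 ^ 3 * y1 ^ 2 *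
      z1 * x2 ^ 2 * y2 ^ 5 * z2 * x3 ^ 2 * z3 + 2 * a * x1 ^ 2 * y1 ^ 4 * x2 ^ 5 * y2 ^ 2 * z2
      * y3 * z3 ^ 2 + 2 * a * x1 ^ 2 * y1 ^ 4 * x2 ^ 4 * y2 ^ 4 * x3 * y3 ^ 2 - a * x1 * y1 ^ 3
      * z1 ^ 2 * x2 ^ 5 * y2 ^ 2 * z2 * x3 * y3 ^ 2 + x1 ^ 2 * y1 ^ 4 * x2 ^ 2 * y2 ^ 5 * z2 *
      y3 * z3 ^ 2 - x1 ^ 2 * y1 ^ 4 * y2 ^ 6 * z2 ^ 2 * x3 ^ 2 * z3 - x1 * y1 ^ 3 * z1 ^ 2 * x2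
      ^ 3 * y2 ^ 3 * z2 ^ 2 * y3 * z3 ^ 2 - x1 * y1 ^ 3 * z1 ^ 2 * x2 ^ 2 * y2 ^ 5 * z2 * x3 *
      y3 ^ 2) * h3

lemma assoc_2121 {a : B} {u v w : Fin 3 → B} (hu : FF a u = 0) (hv : FF a v = 0)
    (hw : FF a w = 0) : Par (law1 (law2 a u v) w) (law1 u (law2 a v w)) := by
  unfold FF at *
  apply Par.mk' <;> simp only [law1, law2, Matrix.cons_val] <;>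
  generalize u 0 = x1 at * <;>
  generalize u 1 = y1 at * <;>
  generalize u 2 = z1 at * <;>
  generalize v 0 = x2 at * <;>
  generalize v 1 = y2 at * <;>
  generalize v 2 = z2 at * <;>
  generalize w 0 = x3 at * <;>
  generalize w 1 = y3 at * <;>
  generalize w 2 = z3 at * <;>
  have h1 := hu <;>
  have h2 := hv <;>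
  have h3 := hw
  · linear_combination (2 * a ^ 3 * x1 ^ 2 * y1 * x2 ^ 6 * y2 * z2 * x3 ^ 3 * y3 * z3 ^ 2 - a ^ 2
      * x1 ^ 2 * y1 * x2 ^ 5 * z2 ^ 3 * x3 * y3 ^ 2 * z3 ^ 3 - 3 * a ^ 2 * x1 ^ 2 * y1 * x2 ^ 4
      * y2 ^ 2 * z2 ^ 2 * x3 ^ 2 * y3 ^ 3 * z3 - a ^ 2 * x1 ^ 2 * y1 * x2 ^ 4 * y2 ^ 2 * z2 ^ 2
      * x3 ^ 2 * z3 ^ 4 + 2 * a ^ 2 * x1 ^ 2 * y1 * x2 ^ 3 * y2 ^ 4 * z2 * x3 ^ 3 * y3 * z3 ^ 2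
      + a ^ 2 * x1 ^ 2 * y1 * x2 ^ 2 * y2 ^ 3 * z2 ^ 3 * x3 ^ 4 * y3 ^ 2 - a ^ 2 * x1 * z1 ^ 2
      * x2 ^ 4 * y2 ^ 2 * z2 ^ 2 * x3 ^ 3 * y3 * z3 ^ 2 + a * x1 ^ 2 * y1 * x2 ^ 3 * y2 * z2 ^
      4 * y3 ^ 4 * z3 ^ 2 + a * x1 ^ 2 * y1 * x2 ^ 2 * y2 ^ 3 * z2 ^ 3 * x3 * y3 ^ 5 - 2 * a *
      x1 ^ 2 * y1 * x2 * y2 ^ 5 * z2 ^ 2 * x3 ^ 2 * y3 ^ 3 * z3 - 2 * a * x1 ^ 2 * y1 * x2 * y2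
      ^ 2 * z2 ^ 5 * x3 ^ 2 * y3 ^ 3 * z3 + a * x1 * z1 ^ 2 * x2 ^ 3 * y2 * z2 ^ 4 * x3 * y3 ^
      2 * z3 ^ 3 + a * x1 * z1 ^ 2 * x2 ^ 2 * y2 ^ 3 * z2 ^ 3 * x3 ^ 2 * y3 ^ 3 * z3 - a * y1 ^
      2 * z1 * x2 ^ 4 * y2 ^ 2 * z2 ^ 2 * x3 * y3 ^ 2 * z3 ^ 3 + a * y1 ^ 2 * z1 * x2 ^ 3 * y2
      ^ 4 * z2 * x3 ^ 2 * y3 ^ 3 * z3 + a * y1 ^ 2 * z1 * x2 ^ 3 * y2 ^ 4 * z2 * x3 ^ 2 * z3 ^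
      4 - a * y1 ^ 2 * z1 * x2 ^ 2 * y2 ^ 6 * x3 ^ 3 * y3 * z3 ^ 2 + a * y1 ^ 2 * z1 * x2 ^ 2 *
      y2 ^ 3 * z2 ^ 3 * x3 ^ 3 * y3 * z3 ^ 2 - a * y1 ^ 2 * z1 * x2 * y2 ^ 5 * z2 ^ 2 * x3 ^ 4
      * y3 ^ 2 + x1 ^ 2 * y1 * y2 ^ 4 * z2 ^ 4 * y3 ^ 4 * z3 ^ 2 + x1 ^ 2 * y1 * y2 * z2 ^ 7 *
      y3 ^ 4 * z3 ^ 2 - x1 * z1 ^ 2 * x2 * y2 ^ 2 * z2 ^ 5 * y3 ^ 4 * z3 ^ 2 + y1 ^ 2 * z1 * x2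
      ^ 2 * y2 ^ 3 * z2 ^ 3 * y3 ^ 4 * z3 ^ 2 - y1 ^ 2 * z1 * x2 * y2 ^ 5 * z2 ^ 2 * x3 * y3 ^
      5 - y1 ^ 2 * z1 * x2 * y2 ^ 5 * z2 ^ 2 * x3 * y3 ^ 2 * z3 ^ 3 - y1 ^ 2 * z1 * x2 * y2 ^ 2
      * z2 ^ 5 * x3 * y3 ^ 2 * z3 ^ 3 + y1 ^ 2 * z1 * y2 ^ 7 * z2 * x3 ^ 2 * y3 ^ 3 * z3 + y1 ^
      2 * z1 * y2 ^ 4 * z2 ^ 4 * x3 ^ 2 * y3 ^ 3 * z3) * h1 + (-2 * a ^ 3 * x1 ^ 5 * y1 * x2 ^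
      3 * y2 * z2 * x3 ^ 3 * y3 * z3 ^ 2 - a ^ 3 * x1 ^ 5 * y1 * x2 ^ 2 * y2 ^ 3 * x3 ^ 4 * y3
      ^ 2 - a ^ 2 * x1 ^ 5 * y1 * x2 ^ 2 * y2 ^ 3 * x3 * y3 ^ 5 - a ^ 2 * x1 ^ 5 * y1 * x2 ^ 2
      * y2 ^ 3 * x3 * y3 ^ 2 * z3 ^ 3 + a ^ 2 * x1 ^ 5 * y1 * x2 ^ 2 * z2 ^ 3 * x3 * y3 ^ 2 *
      z3 ^ 3 + 2 * a ^ 2 * x1 ^ 5 * y1 * x2 * y2 ^ 2 * z2 ^ 2 * x3 ^ 2 * y3 ^ 3 * z3 + a ^ 2 *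
      x1 ^ 3 * y1 ^ 2 * z1 * x2 ^ 5 * y3 ^ 4 * z3 ^ 2 + a ^ 2 * x1 ^ 3 * y1 ^ 2 * z1 * x2 ^ 5 *
      y3 * z3 ^ 5 + 2 * a ^ 2 * x1 ^ 3 * y1 ^ 2 * z1 * x2 ^ 3 * y2 * z2 * x3 ^ 2 * y3 ^ 3 * z3
      + a ^ 2 * x1 ^ 3 * y1 ^ 2 * z1 * x2 ^ 3 * y2 * z2 * x3 ^ 2 * z3 ^ 4 + 2 * a ^ 2 * x1 ^ 3
      * y1 ^ 2 * z1 * x2 ^ 2 * y2 ^ 3 * x3 ^ 3 * y3 * z3 ^ 2 - a ^ 2 * x1 ^ 2 * y1 ^ 4 * x2 ^ 2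
      * y2 ^ 3 * x3 ^ 4 * y3 ^ 2 - a * x1 ^ 5 * y1 * y2 * z2 ^ 4 * y3 ^ 4 * z3 ^ 2 + a * x1 ^ 3
      * y1 ^ 2 * z1 * x2 ^ 2 * y2 ^ 3 * y3 ^ 4 * z3 ^ 2 + a * x1 ^ 3 * y1 ^ 2 * z1 * x2 ^ 2 *
      y2 ^ 3 * y3 * z3 ^ 5 - a * x1 ^ 3 * y1 ^ 2 * z1 * x2 ^ 2 * z2 ^ 3 * y3 ^ 4 * z3 ^ 2 - a *
      x1 ^ 3 * y1 ^ 2 * z1 * x2 ^ 2 * z2 ^ 3 * y3 * z3 ^ 5 - a * x1 ^ 3 * y1 ^ 2 * z1 * y2 ^ 4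
      * z2 * x3 ^ 2 * y3 ^ 3 * z3 + a * x1 ^ 2 * y1 ^ 4 * x2 ^ 3 * y2 * z2 * y3 ^ 4 * z3 ^ 2 +
      a * x1 ^ 2 * y1 ^ 4 * x2 ^ 3 * y2 * z2 * y3 * z3 ^ 5 - a * x1 ^ 2 * y1 ^ 4 * x2 ^ 2 * y2
      ^ 3 * x3 * y3 ^ 5 - a * x1 ^ 2 * y1 ^ 4 * x2 ^ 2 * y2 ^ 3 * x3 * y3 ^ 2 * z3 ^ 3 + 2 * a
      * x1 ^ 2 * y1 ^ 4 * x2 * y2 ^ 2 * z2 ^ 2 * x3 ^ 2 * y3 ^ 3 * z3 + a * x1 * y1 ^ 3 * z1 ^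
      2 * x2 ^ 3 * y2 * z2 * x3 * y3 ^ 2 * z3 ^ 3 - a * x1 * y1 ^ 3 * z1 ^ 2 * x2 ^ 2 * y2 ^ 3
      * x3 ^ 2 * y3 ^ 3 * z3 - a * x1 * y1 ^ 3 * z1 ^ 2 * x2 ^ 2 * y2 ^ 3 * x3 ^ 2 * z3 ^ 4 - a
      * y1 ^ 5 * z1 * x2 ^ 2 * y2 ^ 3 * x3 ^ 3 * y3 * z3 ^ 2 - x1 ^ 2 * y1 ^ 4 * y2 * z2 ^ 4 *
      y3 ^ 4 * z3 ^ 2 + x1 * y1 ^ 3 * z1 ^ 2 * x2 * y2 ^ 2 * z2 ^ 2 * y3 * z3 ^ 5 - y1 ^ 5 * z1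
      * x2 ^ 2 * y2 ^ 3 * y3 ^ 4 * z3 ^ 2 - y1 ^ 5 * z1 * x2 ^ 2 * y2 ^ 3 * y3 * z3 ^ 5 + y1 ^
      5 * z1 * x2 * y2 ^ 2 * z2 ^ 2 * x3 * y3 ^ 2 * z3 ^ 3 - y1 ^ 5 * z1 * y2 ^ 4 * z2 * x3 ^ 2
      * y3 ^ 3 * z3) * h2 + (a ^ 3 * x1 ^ 5 * y1 * x2 ^ 5 * y2 ^ 3 * x3 * y3 ^ 2 + a ^ 3 * x1 ^
      5 * y1 * x2 ^ 4 * y2 ^ 2 * z2 ^ 2 * x3 ^ 2 * z3 - a ^ 3 * x1 ^ 3 * y1 ^ 2 * z1 * x2 ^ 8 *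
      y3 * z3 ^ 2 + a ^ 2 * x1 ^ 5 * y1 * x2 ^ 2 * y2 ^ 6 * x3 * y3 ^ 2 - 2 * a ^ 2 * x1 ^ 3 *
      y1 ^ 2 * z1 * x2 ^ 5 * y2 ^ 3 * y3 * z3 ^ 2 - a ^ 2 * x1 ^ 3 * y1 ^ 2 * z1 * x2 ^ 4 * y2
      ^ 2 * z2 ^ 2 * x3 * y3 ^ 2 - 2 * a ^ 2 * x1 ^ 3 * y1 ^ 2 * z1 * x2 ^ 3 * y2 ^ 4 * z2 * x3
      ^ 2 * z3 - a ^ 2 * x1 ^ 2 * y1 ^ 4 * x2 ^ 6 * y2 * z2 * y3 * z3 ^ 2 + a ^ 2 * x1 ^ 2 * y1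
      ^ 4 * x2 ^ 5 * y2 ^ 3 * x3 * y3 ^ 2 - a * x1 ^ 3 * y1 ^ 2 * z1 * x2 ^ 2 * y2 ^ 6 * y3 *
      z3 ^ 2 + a * x1 ^ 3 * y1 ^ 2 * z1 * x2 * y2 ^ 5 * z2 ^ 2 * x3 * y3 ^ 2 - a * x1 ^ 2 * y1
      ^ 4 * x2 ^ 3 * y2 ^ 4 * z2 * y3 * z3 ^ 2 + a * x1 ^ 2 * y1 ^ 4 * x2 ^ 2 * y2 ^ 6 * x3 *
      y3 ^ 2 - a * x1 * y1 ^ 3 * z1 ^ 2 * x2 ^ 4 * y2 ^ 2 * z2 ^ 2 * y3 * z3 ^ 2 + a * x1 * y1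
      ^ 3 * z1 ^ 2 * x2 ^ 3 * y2 ^ 4 * z2 * x3 * y3 ^ 2 + a * x1 * y1 ^ 3 * z1 ^ 2 * x2 ^ 2 *
      y2 ^ 6 * x3 ^ 2 * z3 + a * y1 ^ 5 * z1 * x2 ^ 5 * y2 ^ 3 * y3 * z3 ^ 2 - x1 * y1 ^ 3 * z1
      ^ 2 * x2 * y2 ^ 5 * z2 ^ 2 * y3 * z3 ^ 2 + y1 ^ 5 * z1 * x2 ^ 2 * y2 ^ 6 * y3 * z3 ^ 2 +
      y1 ^ 5 * z1 * x2 * y2 ^ 5 * z2 ^ 2 * x3 * y3 ^ 2) * h3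
  · linear_combination (-a ^ 3 * x1 ^ 3 * x2 ^ 5 * y2 * z2 ^ 2 * x3 ^ 4 * z3 ^ 2 + a ^ 2 * x1 ^ 3
      * x2 ^ 4 * z2 ^ 4 * x3 ^ 2 * y3 * z3 ^ 3 + a ^ 2 * x1 ^ 3 * x2 ^ 3 * y2 ^ 2 * z2 ^ 3 * x3
      ^ 3 * y3 ^ 2 * z3 + a ^ 2 * x1 * y1 * z1 * x2 ^ 4 * y2 ^ 3 * z2 * x3 ^ 4 * z3 ^ 2 - a *
      x1 ^ 3 * x2 ^ 2 * y2 * z2 ^ 5 * x3 * y3 ^ 3 * z3 ^ 2 - 2 * a * x1 * y1 * z1 * x2 ^ 2 * y2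
      ^ 4 * z2 ^ 2 * x3 ^ 3 * y3 ^ 2 * z3 - a * y1 ^ 3 * x2 ^ 2 * y2 ^ 4 * z2 ^ 2 * x3 ^ 4 * z3
      ^ 2 + a * y1 ^ 3 * x2 * y2 ^ 6 * z2 * x3 ^ 5 * y3 - x1 * y1 * z1 * x2 ^ 2 * y2 * z2 ^ 5 *
      y3 ^ 2 * z3 ^ 4 + 2 * x1 * y1 * z1 * x2 * y2 ^ 3 * z2 ^ 4 * x3 * y3 ^ 3 * z3 ^ 2 + y1 ^ 3
      * x2 ^ 3 * y2 ^ 2 * z2 ^ 3 * y3 ^ 2 * z3 ^ 4 - 2 * y1 ^ 3 * x2 ^ 2 * y2 ^ 4 * z2 ^ 2 * x3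
      * y3 ^ 3 * z3 ^ 2 - y1 ^ 3 * x2 ^ 2 * y2 ^ 4 * z2 ^ 2 * x3 * z3 ^ 5 + y1 ^ 3 * x2 * y2 ^
      6 * z2 * x3 ^ 2 * y3 ^ 4 + 2 * y1 ^ 3 * x2 * y2 ^ 6 * z2 * x3 ^ 2 * y3 * z3 ^ 3 + y1 ^ 3
      * x2 * y2 ^ 3 * z2 ^ 4 * x3 ^ 2 * y3 * z3 ^ 3 - y1 ^ 3 * y2 ^ 8 * x3 ^ 3 * y3 ^ 2 * z3 -
      y1 ^ 3 * y2 ^ 5 * z2 ^ 3 * x3 ^ 3 * y3 ^ 2 * z3) * h1 + (-a ^ 2 * x1 ^ 4 * y1 * z1 * x2 ^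
      4 * z2 * x3 * y3 ^ 3 * z3 ^ 2 - a ^ 2 * x1 ^ 4 * y1 * z1 * x2 ^ 4 * z2 * x3 * z3 ^ 5 - 2
      * a ^ 2 * x1 ^ 3 * y1 ^ 3 * x2 ^ 3 * y2 ^ 2 * x3 ^ 3 * y3 ^ 2 * z3 + a ^ 2 * x1 ^ 2 * y1
      ^ 2 * z1 ^ 2 * x2 ^ 3 * y2 ^ 2 * x3 ^ 4 * z3 ^ 2 + a * x1 ^ 4 * y1 * z1 * x2 ^ 2 * y2 *
      z2 ^ 2 * y3 ^ 5 * z3 + a * x1 ^ 4 * y1 * z1 * x2 ^ 2 * y2 * z2 ^ 2 * y3 ^ 2 * z3 ^ 4 - a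
      * x1 ^ 3 * y1 ^ 3 * x2 ^ 3 * y2 ^ 2 * y3 ^ 5 * z3 - a * x1 ^ 3 * y1 ^ 3 * x2 ^ 3 * y2 ^ 2
      * y3 ^ 2 * z3 ^ 4 + a * x1 ^ 3 * y1 ^ 3 * x2 ^ 2 * y2 * z2 ^ 2 * x3 * y3 ^ 3 * z3 ^ 2 - a
      * x1 ^ 3 * y1 ^ 3 * x2 * y2 ^ 3 * z2 * x3 ^ 2 * y3 * z3 ^ 3 + a * x1 ^ 3 * y1 ^ 3 * y2 ^
      5 * x3 ^ 3 * y3 ^ 2 * z3 + 2 * a * x1 ^ 2 * y1 ^ 2 * z1 ^ 2 * x2 ^ 3 * y2 ^ 2 * x3 * y3 ^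
      3 * z3 ^ 2 + 2 * a * x1 ^ 2 * y1 ^ 2 * z1 ^ 2 * x2 ^ 3 * y2 ^ 2 * x3 * z3 ^ 5 - 2 * a *
      x1 ^ 2 * y1 ^ 2 * z1 ^ 2 * x2 ^ 2 * y2 * z2 ^ 2 * x3 ^ 2 * y3 * z3 ^ 3 + 2 * a * x1 ^ 2 *
      y1 ^ 2 * z1 ^ 2 * x2 * y2 ^ 3 * z2 * x3 ^ 3 * y3 ^ 2 * z3 + a * x1 * y1 ^ 4 * z1 * x2 ^ 3
      * y2 ^ 2 * x3 ^ 2 * y3 * z3 ^ 3 - x1 ^ 2 * y1 ^ 2 * z1 ^ 2 * x2 * y2 ^ 3 * z2 * y3 ^ 5 *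
      z3 - x1 ^ 2 * y1 ^ 2 * z1 ^ 2 * x2 * y2 ^ 3 * z2 * y3 ^ 2 * z3 ^ 4 + x1 ^ 2 * y1 ^ 2 * z1
      ^ 2 * x2 * z2 ^ 4 * y3 ^ 2 * z3 ^ 4 - x1 ^ 2 * y1 ^ 2 * z1 ^ 2 * y2 ^ 2 * z2 ^ 3 * x3 *
      y3 ^ 3 * z3 ^ 2 - x1 * y1 ^ 4 * z1 * x2 ^ 2 * y2 * z2 ^ 2 * y3 ^ 2 * z3 ^ 4 - y1 ^ 6 * x2
      * y2 ^ 3 * z2 * x3 ^ 2 * y3 * z3 ^ 3 + y1 ^ 6 * y2 ^ 5 * x3 ^ 3 * y3 ^ 2 * z3) * h2 + (a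
      ^ 3 * x1 ^ 4 * y1 * z1 * x2 ^ 7 * z2 * x3 * z3 ^ 2 - a ^ 2 * x1 ^ 4 * y1 * z1 * x2 ^ 5 *
      y2 * z2 ^ 2 * y3 ^ 2 * z3 + a ^ 2 * x1 ^ 4 * y1 * z1 * x2 ^ 4 * y2 ^ 3 * z2 * x3 * z3 ^ 2
      + a ^ 2 * x1 ^ 3 * y1 ^ 3 * x2 ^ 6 * y2 ^ 2 * y3 ^ 2 * z3 + a ^ 2 * x1 ^ 3 * y1 ^ 3 * x2
      ^ 4 * y2 ^ 3 * z2 * x3 ^ 2 * y3 - 2 * a ^ 2 * x1 ^ 2 * y1 ^ 2 * z1 ^ 2 * x2 ^ 6 * y2 ^ 2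
      * x3 * z3 ^ 2 - a * x1 ^ 4 * y1 * z1 * x2 ^ 2 * y2 ^ 4 * z2 ^ 2 * y3 ^ 2 * z3 + a * x1 ^
      3 * y1 ^ 3 * x2 ^ 3 * y2 ^ 5 * y3 ^ 2 * z3 + a * x1 ^ 3 * y1 ^ 3 * x2 ^ 2 * y2 ^ 4 * z2 ^
      2 * x3 * z3 ^ 2 - a * x1 ^ 3 * y1 ^ 3 * x2 * y2 ^ 6 * z2 * x3 ^ 2 * y3 + a * x1 ^ 2 * y1
      ^ 2 * z1 ^ 2 * x2 ^ 4 * y2 ^ 3 * z2 * y3 ^ 2 * z3 - 2 * a * x1 ^ 2 * y1 ^ 2 * z1 ^ 2 * x2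
      ^ 3 * y2 ^ 5 * x3 * z3 ^ 2 - a * x1 ^ 2 * y1 ^ 2 * z1 ^ 2 * x2 ^ 2 * y2 ^ 4 * z2 ^ 2 * x3
      ^ 2 * y3 - a * x1 * y1 ^ 4 * z1 * x2 ^ 3 * y2 ^ 5 * x3 ^ 2 * y3 + x1 ^ 2 * y1 ^ 2 * z1 ^
      2 * x2 * y2 ^ 6 * z2 * y3 ^ 2 * z3 + x1 * y1 ^ 4 * z1 * x2 ^ 2 * y2 ^ 4 * z2 ^ 2 * y3 ^ 2
      * z3 + y1 ^ 6 * x2 ^ 2 * y2 ^ 4 * z2 ^ 2 * x3 * z3 ^ 2 - y1 ^ 6 * x2 * y2 ^ 6 * z2 * x3 ^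
      2 * y3) * h3
  · linear_combination (a ^ 2 * x1 ^ 2 * z1 * x2 ^ 4 * y2 * z2 ^ 3 * x3 ^ 3 * z3 ^ 3 + a ^ 2 * x1
      * y1 ^ 2 * x2 ^ 5 * y2 ^ 2 * z2 * x3 ^ 3 * z3 ^ 3 - a ^ 2 * x1 * y1 ^ 2 * x2 ^ 4 * y2 ^ 4
      * x3 ^ 4 * y3 * z3 - a ^ 2 * x1 * y1 ^ 2 * x2 ^ 2 * y2 ^ 5 * z2 * x3 ^ 6 - a * x1 ^ 2 *
      z1 * x2 ^ 3 * z2 ^ 5 * x3 * y3 * z3 ^ 4 - a * x1 ^ 2 * z1 * x2 ^ 2 * y2 ^ 2 * z2 ^ 4 * x3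
      ^ 2 * y3 ^ 2 * z3 ^ 2 + a * x1 * y1 ^ 2 * x2 ^ 3 * y2 ^ 3 * z2 ^ 2 * x3 ^ 2 * y3 ^ 2 * z3
      ^ 2 - a * x1 * y1 ^ 2 * x2 ^ 2 * y2 ^ 5 * z2 * x3 ^ 3 * y3 ^ 3 + 2 * a * x1 * y1 ^ 2 * x2
      * y2 ^ 4 * z2 ^ 3 * x3 ^ 4 * y3 * z3 - a * y1 * z1 ^ 2 * x2 ^ 3 * y2 ^ 3 * z2 ^ 2 * x3 ^
      3 * z3 ^ 3 + a * y1 * z1 ^ 2 * x2 ^ 2 * y2 ^ 5 * z2 * x3 ^ 4 * y3 * z3 + x1 ^ 2 * z1 * x2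
      * y2 * z2 ^ 6 * y3 ^ 3 * z3 ^ 3 - 2 * x1 * y1 ^ 2 * x2 ^ 2 * y2 ^ 2 * z2 ^ 4 * y3 ^ 3 *
      z3 ^ 3 - x1 * y1 ^ 2 * x2 ^ 2 * y2 ^ 2 * z2 ^ 4 * z3 ^ 6 + 2 * x1 * y1 ^ 2 * x2 * y2 ^ 4
      * z2 ^ 3 * x3 * y3 ^ 4 * z3 + 2 * x1 * y1 ^ 2 * x2 * y2 ^ 4 * z2 ^ 3 * x3 * y3 * z3 ^ 4 -
      x1 * y1 ^ 2 * y2 ^ 6 * z2 ^ 2 * x3 ^ 2 * y3 ^ 2 * z3 ^ 2 - x1 * y1 ^ 2 * y2 ^ 3 * z2 ^ 5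
      * x3 ^ 2 * y3 ^ 2 * z3 ^ 2 + y1 * z1 ^ 2 * x2 ^ 2 * y2 ^ 2 * z2 ^ 4 * x3 * y3 * z3 ^ 4 -
      y1 * z1 ^ 2 * x2 * y2 ^ 4 * z2 ^ 3 * x3 ^ 2 * y3 ^ 2 * z3 ^ 2) * h1 + (2 * a ^ 3 * x1 ^ 4
      * y1 ^ 2 * x2 ^ 4 * y2 * x3 ^ 4 * y3 * z3 + a ^ 2 * x1 ^ 4 * y1 ^ 2 * x2 ^ 4 * y2 * x3 *
      y3 ^ 4 * z3 + a ^ 2 * x1 ^ 4 * y1 ^ 2 * x2 ^ 4 * y2 * x3 * y3 * z3 ^ 4 - a ^ 2 * x1 ^ 4 *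
      y1 ^ 2 * x2 ^ 3 * z2 ^ 2 * x3 ^ 2 * y3 ^ 2 * z3 ^ 2 - 2 * a ^ 2 * x1 ^ 4 * y1 ^ 2 * x2 *
      y2 ^ 4 * x3 ^ 4 * y3 * z3 - 3 * a ^ 2 * x1 ^ 3 * y1 * z1 ^ 2 * x2 ^ 2 * y2 ^ 2 * z2 * x3
      ^ 4 * y3 * z3 - a ^ 2 * x1 ^ 2 * y1 ^ 3 * z1 * x2 ^ 4 * y2 * x3 ^ 3 * z3 ^ 3 + a * x1 ^ 4
      * y1 ^ 2 * x2 ^ 2 * y2 ^ 2 * z2 * y3 ^ 3 * z3 ^ 3 + a * x1 ^ 4 * y1 ^ 2 * x2 ^ 2 * y2 ^ 2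
      * z2 * z3 ^ 6 - 2 * a * x1 ^ 4 * y1 ^ 2 * x2 * y2 ^ 4 * x3 * y3 ^ 4 * z3 - 2 * a * x1 ^ 4
      * y1 ^ 2 * x2 * y2 ^ 4 * x3 * y3 * z3 ^ 4 + a * x1 ^ 4 * y1 ^ 2 * y2 ^ 3 * z2 ^ 2 * x3 ^
      2 * y3 ^ 2 * z3 ^ 2 + a * x1 ^ 3 * y1 * z1 ^ 2 * x2 ^ 3 * z2 ^ 2 * y3 ^ 3 * z3 ^ 3 + a *
      x1 ^ 3 * y1 * z1 ^ 2 * x2 ^ 3 * z2 ^ 2 * z3 ^ 6 - 2 * a * x1 ^ 3 * y1 * z1 ^ 2 * x2 ^ 2 *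
      y2 ^ 2 * z2 * x3 * y3 ^ 4 * z3 - 2 * a * x1 ^ 3 * y1 * z1 ^ 2 * x2 ^ 2 * y2 ^ 2 * z2 * x3
      * y3 * z3 ^ 4 + 3 * a * x1 ^ 3 * y1 * z1 ^ 2 * x2 * y2 * z2 ^ 3 * x3 ^ 2 * y3 ^ 2 * z3 ^
      2 - a * x1 ^ 2 * y1 ^ 3 * z1 * x2 ^ 4 * y2 * y3 ^ 3 * z3 ^ 3 - a * x1 ^ 2 * y1 ^ 3 * z1 *
      x2 ^ 4 * y2 * z3 ^ 6 + a * x1 ^ 2 * y1 ^ 3 * z1 * x2 ^ 3 * z2 ^ 2 * x3 * y3 * z3 ^ 4 - 2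
      * a * x1 ^ 2 * y1 ^ 3 * z1 * x2 ^ 2 * y2 ^ 2 * z2 * x3 ^ 2 * y3 ^ 2 * z3 ^ 2 - 2 * a * x1
      * y1 ^ 5 * x2 * y2 ^ 4 * x3 ^ 4 * y3 * z3 - x1 ^ 3 * y1 * z1 ^ 2 * z2 ^ 5 * y3 ^ 3 * z3 ^
      3 + x1 ^ 2 * y1 ^ 3 * z1 * x2 * y2 * z2 ^ 3 * y3 ^ 3 * z3 ^ 3 + x1 * y1 ^ 5 * x2 ^ 2 * y2
      ^ 2 * z2 * y3 ^ 3 * z3 ^ 3 + x1 * y1 ^ 5 * x2 ^ 2 * y2 ^ 2 * z2 * z3 ^ 6 - 2 * x1 * y1 ^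
      5 * x2 * y2 ^ 4 * x3 * y3 ^ 4 * z3 - 2 * x1 * y1 ^ 5 * x2 * y2 ^ 4 * x3 * y3 * z3 ^ 4 +
      x1 * y1 ^ 5 * y2 ^ 3 * z2 ^ 2 * x3 ^ 2 * y3 ^ 2 * z3 ^ 2 - y1 ^ 4 * z1 ^ 2 * x2 ^ 2 * y2
      ^ 2 * z2 * x3 * y3 * z3 ^ 4 + y1 ^ 4 * z1 ^ 2 * x2 * y2 ^ 4 * x3 ^ 2 * y3 ^ 2 * z3 ^ 2) *
      h2 + (-a ^ 3 * x1 ^ 4 * y1 ^ 2 * x2 ^ 7 * y2 * x3 * y3 * z3 - a ^ 3 * x1 ^ 4 * y1 ^ 2 *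
      x2 ^ 5 * y2 ^ 2 * z2 * x3 ^ 3 - a ^ 2 * x1 ^ 4 * y1 ^ 2 * x2 ^ 5 * y2 ^ 2 * z2 * z3 ^ 3 +
      a ^ 2 * x1 ^ 4 * y1 ^ 2 * x2 ^ 4 * y2 ^ 4 * x3 * y3 * z3 + a ^ 2 * x1 ^ 4 * y1 ^ 2 * x2 ^
      2 * y2 ^ 5 * z2 * x3 ^ 3 - a ^ 2 * x1 ^ 3 * y1 * z1 ^ 2 * x2 ^ 6 * z2 ^ 2 * z3 ^ 3 + 2 *
      a ^ 2 * x1 ^ 3 * y1 * z1 ^ 2 * x2 ^ 5 * y2 ^ 2 * z2 * x3 * y3 * z3 + a ^ 2 * x1 ^ 3 * y1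
      * z1 ^ 2 * x2 ^ 3 * y2 ^ 3 * z2 ^ 2 * x3 ^ 3 + a ^ 2 * x1 ^ 2 * y1 ^ 3 * z1 * x2 ^ 7 * y2
      * z3 ^ 3 + a ^ 2 * x1 ^ 2 * y1 ^ 3 * z1 * x2 ^ 4 * y2 ^ 4 * x3 ^ 3 - a * x1 ^ 4 * y1 ^ 2
      * x2 ^ 2 * y2 ^ 5 * z2 * z3 ^ 3 + 2 * a * x1 ^ 4 * y1 ^ 2 * x2 * y2 ^ 7 * x3 * y3 * z3 -
      a * x1 ^ 3 * y1 * z1 ^ 2 * x2 ^ 3 * y2 ^ 3 * z2 ^ 2 * z3 ^ 3 + 2 * a * x1 ^ 3 * y1 * z1 ^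
      2 * x2 ^ 2 * y2 ^ 5 * z2 * x3 * y3 * z3 + a * x1 ^ 2 * y1 ^ 3 * z1 * x2 ^ 4 * y2 ^ 4 * z3
      ^ 3 - a * x1 * y1 ^ 5 * x2 ^ 5 * y2 ^ 2 * z2 * z3 ^ 3 + 2 * a * x1 * y1 ^ 5 * x2 ^ 4 * y2
      ^ 4 * x3 * y3 * z3 + a * x1 * y1 ^ 5 * x2 ^ 2 * y2 ^ 5 * z2 * x3 ^ 3 - x1 * y1 ^ 5 * x2 ^
      2 * y2 ^ 5 * z2 * z3 ^ 3 + 2 * x1 * y1 ^ 5 * x2 * y2 ^ 7 * x3 * y3 * z3 + y1 ^ 4 * z1 ^ 2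
      * x2 ^ 3 * y2 ^ 3 * z2 ^ 2 * z3 ^ 3 - y1 ^ 4 * z1 ^ 2 * x2 ^ 2 * y2 ^ 5 * z2 * x3 * y3 *
      z3) * h3

lemma assoc_2122 {a : B} {u v w : Fin 3 → B} (hu : FF a u = 0) (hv : FF a v = 0)
    (hw : FF a w = 0) : Par (law1 (law2 a u v) w) (law2 a u (law2 a v w)) := by
  unfold FF at *
  apply Par.mk' <;> simp only [law1, law2, Matrix.cons_val] <;>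
  generalize u 0 = x1 at * <;>
  generalize u 1 = y1 at * <;>
  generalize u 2 = z1 at * <;>
  generalize v 0 = x2 at * <;>
  generalize v 1 = y2 at * <;>
  generalize v 2 = z2 at * <;>
  generalize w 0 = x3 at * <;>
  generalize w 1 = y3 at * <;>
  generalize w 2 = z3 at * <;>
  have h1 := hu <;>
  have h2 := hv <;>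
  have h3 := hw
  · linear_combination (a ^ 3 * x1 ^ 3 * x2 ^ 4 * y2 * z2 ^ 3 * x3 ^ 3 * z3 ^ 3 - a ^ 3 * x1 ^ 3
      * x2 ^ 3 * y2 ^ 3 * z2 ^ 2 * x3 ^ 4 * y3 * z3 - 2 * a ^ 3 * x1 * y1 * z1 * x2 ^ 5 * y2 ^
      2 * z2 * x3 ^ 4 * y3 * z3 - a ^ 2 * x1 ^ 3 * x2 ^ 3 * z2 ^ 5 * x3 * y3 * z3 ^ 4 + a ^ 2 *
      x1 ^ 3 * x2 ^ 2 * y2 ^ 2 * z2 ^ 4 * x3 ^ 2 * y3 ^ 2 * z3 ^ 2 + a ^ 2 * x1 * y1 * z1 * x2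
      ^ 4 * y2 * z2 ^ 3 * x3 ^ 2 * y3 ^ 2 * z3 ^ 2 + 2 * a ^ 2 * x1 * y1 * z1 * x2 ^ 3 * y2 ^ 3
      * z2 ^ 2 * x3 ^ 3 * y3 ^ 3 - a ^ 2 * x1 * y1 * z1 * x2 ^ 3 * y2 ^ 3 * z2 ^ 2 * x3 ^ 3 *
      z3 ^ 3 + a ^ 2 * y1 ^ 3 * x2 ^ 5 * y2 ^ 2 * z2 * x3 ^ 2 * y3 ^ 2 * z3 ^ 2 - a ^ 2 * y1 ^
      3 * x2 ^ 3 * y2 ^ 3 * z2 ^ 2 * x3 ^ 4 * y3 * z3 + a ^ 2 * z1 ^ 3 * x2 ^ 3 * y2 ^ 3 * z2 ^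
      2 * x3 ^ 4 * y3 * z3 + 2 * a * x1 * y1 * z1 * x2 ^ 2 * y2 ^ 2 * z2 ^ 4 * x3 * y3 * z3 ^ 4
      - a * x1 * y1 * z1 * x2 * y2 ^ 4 * z2 ^ 3 * x3 ^ 2 * y3 ^ 2 * z3 ^ 2 + a * x1 * y1 * z1 *
      y2 ^ 6 * z2 ^ 2 * x3 ^ 3 * y3 ^ 3 - 2 * a * y1 ^ 3 * x2 ^ 3 * y2 ^ 3 * z2 ^ 2 * x3 * y3 ^
      4 * z3 - a * y1 ^ 3 * x2 ^ 3 * y2 ^ 3 * z2 ^ 2 * x3 * y3 * z3 ^ 4 + a * y1 ^ 3 * x2 ^ 2 *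
      y2 ^ 5 * z2 * x3 ^ 2 * y3 ^ 2 * z3 ^ 2 + a * y1 ^ 3 * x2 ^ 2 * y2 ^ 2 * z2 ^ 4 * x3 ^ 2 *
      y3 ^ 2 * z3 ^ 2 + a * y1 ^ 3 * x2 * y2 ^ 4 * z2 ^ 3 * x3 ^ 3 * y3 ^ 3 - a * z1 ^ 3 * x2 ^
      2 * y2 ^ 2 * z2 ^ 4 * x3 ^ 2 * y3 ^ 2 * z3 ^ 2 - a * z1 ^ 3 * x2 * y2 ^ 4 * z2 ^ 3 * x3 ^
      3 * y3 ^ 3 - x1 * y1 * z1 * y2 ^ 3 * z2 ^ 5 * y3 ^ 6 - x1 * y1 * z1 * y2 ^ 3 * z2 ^ 5 *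
      y3 ^ 3 * z3 ^ 3 + y1 ^ 3 * x2 * y2 ^ 4 * z2 ^ 3 * y3 ^ 6 + y1 ^ 3 * x2 * y2 ^ 4 * z2 ^ 3
      * y3 ^ 3 * z3 ^ 3 - y1 ^ 3 * y2 ^ 6 * z2 ^ 2 * x3 * y3 ^ 4 * z3 - y1 ^ 3 * y2 ^ 3 * z2 ^
      5 * x3 * y3 ^ 4 * z3 + z1 ^ 3 * y2 ^ 3 * z2 ^ 5 * x3 * y3 ^ 4 * z3) * h1 + (-a ^ 3 * x1 ^
      3 * y1 ^ 3 * x2 ^ 4 * y2 * x3 ^ 3 * z3 ^ 3 + a ^ 2 * x1 ^ 4 * y1 * z1 * x2 ^ 3 * z2 ^ 2 *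
      y3 ^ 3 * z3 ^ 3 + a ^ 2 * x1 ^ 4 * y1 * z1 * x2 ^ 3 * z2 ^ 2 * z3 ^ 6 - 2 * a ^ 2 * x1 ^
      4 * y1 * z1 * x2 ^ 2 * y2 ^ 2 * z2 * x3 * y3 ^ 4 * z3 - 2 * a ^ 2 * x1 ^ 4 * y1 * z1 * x2
      ^ 2 * y2 ^ 2 * z2 * x3 * y3 * z3 ^ 4 - a ^ 2 * x1 ^ 3 * y1 ^ 3 * x2 ^ 4 * y2 * y3 ^ 3 *
      z3 ^ 3 - a ^ 2 * x1 ^ 3 * y1 ^ 3 * x2 ^ 4 * y2 * z3 ^ 6 + a ^ 2 * x1 ^ 3 * y1 ^ 3 * x2 ^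
      3 * z2 ^ 2 * x3 * y3 * z3 ^ 4 - 2 * a ^ 2 * x1 ^ 3 * y1 ^ 3 * x2 ^ 2 * y2 ^ 2 * z2 * x3 ^
      2 * y3 ^ 2 * z3 ^ 2 - a ^ 2 * x1 ^ 3 * y1 ^ 3 * x2 * y2 ^ 4 * x3 ^ 3 * y3 ^ 3 - a ^ 2 *
      x1 ^ 2 * y1 ^ 2 * z1 ^ 2 * x2 ^ 4 * y2 * x3 * y3 ^ 4 * z3 - a ^ 2 * x1 ^ 2 * y1 ^ 2 * z1
      ^ 2 * x2 ^ 4 * y2 * x3 * y3 * z3 ^ 4 - a ^ 2 * x1 * y1 ^ 4 * z1 * x2 ^ 4 * y2 * x3 ^ 2 *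
      y3 ^ 2 * z3 ^ 2 + a * x1 ^ 4 * y1 * z1 * y2 ^ 3 * z2 ^ 2 * y3 ^ 6 + a * x1 ^ 4 * y1 * z1
      * y2 ^ 3 * z2 ^ 2 * y3 ^ 3 * z3 ^ 3 - a * x1 ^ 3 * y1 ^ 3 * x2 * y2 ^ 4 * y3 ^ 6 - a * x1
      ^ 3 * y1 ^ 3 * x2 * y2 ^ 4 * y3 ^ 3 * z3 ^ 3 + a * x1 ^ 3 * y1 ^ 3 * y2 ^ 3 * z2 ^ 2 * x3
      * y3 ^ 4 * z3 + a * x1 ^ 2 * y1 ^ 2 * z1 ^ 2 * x2 ^ 2 * y2 ^ 2 * z2 * y3 ^ 6 - a * x1 ^ 2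
      * y1 ^ 2 * z1 ^ 2 * x2 ^ 2 * y2 ^ 2 * z2 * z3 ^ 6 + a * x1 ^ 2 * y1 ^ 2 * z1 ^ 2 * x2 *
      y2 ^ 4 * x3 * y3 ^ 4 * z3 + a * x1 ^ 2 * y1 ^ 2 * z1 ^ 2 * x2 * y2 ^ 4 * x3 * y3 * z3 ^ 4
      - 2 * a * x1 * y1 ^ 4 * z1 * x2 ^ 2 * y2 ^ 2 * z2 * x3 * y3 * z3 ^ 4 + a * x1 * y1 ^ 4 *
      z1 * x2 * y2 ^ 4 * x3 ^ 2 * y3 ^ 2 * z3 ^ 2 - a * y1 ^ 6 * x2 ^ 2 * y2 ^ 2 * z2 * x3 ^ 2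
      * y3 ^ 2 * z3 ^ 2 - a * y1 ^ 6 * x2 * y2 ^ 4 * x3 ^ 3 * y3 ^ 3 + x1 * y1 ^ 4 * z1 * y2 ^
      3 * z2 ^ 2 * y3 ^ 6 + x1 * y1 ^ 4 * z1 * y2 ^ 3 * z2 ^ 2 * y3 ^ 3 * z3 ^ 3 - y1 ^ 6 * x2
      * y2 ^ 4 * y3 ^ 6 - y1 ^ 6 * x2 * y2 ^ 4 * y3 ^ 3 * z3 ^ 3 + y1 ^ 6 * y2 ^ 3 * z2 ^ 2 *
      x3 * y3 ^ 4 * z3) * h2 + (-a ^ 3 * x1 ^ 4 * y1 * z1 * x2 ^ 6 * z2 ^ 2 * z3 ^ 3 + 2 * a ^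
      3 * x1 ^ 4 * y1 * z1 * x2 ^ 5 * y2 ^ 2 * z2 * x3 * y3 * z3 + a ^ 3 * x1 ^ 3 * y1 ^ 3 * x2
      ^ 7 * y2 * z3 ^ 3 + a ^ 3 * x1 ^ 2 * y1 ^ 2 * z1 ^ 2 * x2 ^ 7 * y2 * x3 * y3 * z3 - a ^ 2
      * x1 ^ 4 * y1 * z1 * x2 ^ 3 * y2 ^ 3 * z2 ^ 2 * y3 ^ 3 - a ^ 2 * x1 ^ 4 * y1 * z1 * x2 ^
      3 * y2 ^ 3 * z2 ^ 2 * z3 ^ 3 + 2 * a ^ 2 * x1 ^ 4 * y1 * z1 * x2 ^ 2 * y2 ^ 5 * z2 * x3 *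
      y3 * z3 + a ^ 2 * x1 ^ 3 * y1 ^ 3 * x2 ^ 4 * y2 ^ 4 * y3 ^ 3 + a ^ 2 * x1 ^ 3 * y1 ^ 3 *
      x2 ^ 4 * y2 ^ 4 * z3 ^ 3 + 2 * a ^ 2 * x1 ^ 3 * y1 ^ 3 * x2 ^ 3 * y2 ^ 3 * z2 ^ 2 * x3 *
      y3 * z3 - a ^ 2 * x1 ^ 2 * y1 ^ 2 * z1 ^ 2 * x2 ^ 5 * y2 ^ 2 * z2 * y3 ^ 3 + a ^ 2 * x1 ^
      2 * y1 ^ 2 * z1 ^ 2 * x2 ^ 5 * y2 ^ 2 * z2 * z3 ^ 3 + 2 * a ^ 2 * x1 * y1 ^ 4 * z1 * x2 ^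
      5 * y2 ^ 2 * z2 * x3 * y3 * z3 - a * x1 ^ 4 * y1 * z1 * y2 ^ 6 * z2 ^ 2 * y3 ^ 3 + a * x1
      ^ 3 * y1 ^ 3 * x2 * y2 ^ 7 * y3 ^ 3 - a * x1 ^ 2 * y1 ^ 2 * z1 ^ 2 * x2 ^ 2 * y2 ^ 5 * z2
      * y3 ^ 3 + a * x1 ^ 2 * y1 ^ 2 * z1 ^ 2 * x2 ^ 2 * y2 ^ 5 * z2 * z3 ^ 3 - a * x1 ^ 2 * y1
      ^ 2 * z1 ^ 2 * x2 * y2 ^ 7 * x3 * y3 * z3 - 2 * a * x1 * y1 ^ 4 * z1 * x2 ^ 3 * y2 ^ 3 *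
      z2 ^ 2 * y3 ^ 3 + a * x1 * y1 ^ 4 * z1 * x2 ^ 3 * y2 ^ 3 * z2 ^ 2 * z3 ^ 3 + a * y1 ^ 6 *
      x2 ^ 4 * y2 ^ 4 * y3 ^ 3 + a * y1 ^ 6 * x2 ^ 3 * y2 ^ 3 * z2 ^ 2 * x3 * y3 * z3 - x1 * y1
      ^ 4 * z1 * y2 ^ 6 * z2 ^ 2 * y3 ^ 3 + y1 ^ 6 * x2 * y2 ^ 7 * y3 ^ 3) * h3
  · linear_combination (a ^ 3 * x1 ^ 2 * z1 * x2 ^ 4 * y2 ^ 2 * z2 ^ 2 * x3 ^ 5 * z3 + a ^ 3 * x1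
      * y1 ^ 2 * x2 ^ 5 * y2 ^ 3 * x3 ^ 5 * z3 - 2 * a ^ 2 * x1 ^ 2 * z1 * x2 ^ 3 * y2 * z2 ^ 4
      * x3 ^ 3 * y3 * z3 ^ 2 + a ^ 2 * x1 * y1 ^ 2 * x2 ^ 4 * y2 ^ 2 * z2 ^ 2 * x3 ^ 3 * y3 *
      z3 ^ 2 - 2 * a ^ 2 * x1 * y1 ^ 2 * x2 ^ 3 * y2 ^ 4 * z2 * x3 ^ 4 * y3 ^ 2 + a ^ 2 * x1 *
      y1 ^ 2 * x2 ^ 2 * y2 ^ 6 * x3 ^ 5 * z3 - a ^ 2 * y1 * z1 ^ 2 * x2 ^ 3 * y2 ^ 4 * z2 * x3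
      ^ 5 * z3 + a * x1 ^ 2 * z1 * x2 ^ 2 * z2 ^ 6 * x3 * y3 ^ 2 * z3 ^ 3 - a * x1 * y1 ^ 2 *
      x2 ^ 3 * y2 * z2 ^ 4 * x3 * y3 ^ 2 * z3 ^ 3 - a * x1 * y1 ^ 2 * x2 ^ 2 * y2 ^ 3 * z2 ^ 3
      * x3 ^ 2 * z3 ^ 4 - a * x1 * y1 ^ 2 * y2 ^ 7 * z2 * x3 ^ 4 * y3 ^ 2 + a * y1 * z1 ^ 2 *
      x2 ^ 2 * y2 ^ 3 * z2 ^ 3 * x3 ^ 3 * y3 * z3 ^ 2 + a * y1 * z1 ^ 2 * x2 * y2 ^ 5 * z2 ^ 2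
      * x3 ^ 4 * y3 ^ 2 + x1 * y1 ^ 2 * y2 ^ 4 * z2 ^ 4 * x3 * y3 ^ 5 + x1 * y1 ^ 2 * y2 ^ 4 *
      z2 ^ 4 * x3 * y3 ^ 2 * z3 ^ 3 - y1 * z1 ^ 2 * y2 ^ 4 * z2 ^ 4 * x3 ^ 2 * y3 ^ 3 * z3) *
      h1 + (a ^ 3 * x1 ^ 3 * y1 * z1 ^ 2 * x2 ^ 5 * x3 ^ 3 * y3 * z3 ^ 2 + a ^ 2 * x1 ^ 4 * y1
      ^ 2 * x2 ^ 2 * y2 ^ 3 * x3 ^ 2 * y3 ^ 3 * z3 + a ^ 2 * x1 ^ 4 * y1 ^ 2 * x2 ^ 2 * y2 ^ 3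
      * x3 ^ 2 * z3 ^ 4 + a ^ 2 * x1 ^ 3 * y1 * z1 ^ 2 * x2 ^ 5 * y3 ^ 4 * z3 ^ 2 + a ^ 2 * x1
      ^ 3 * y1 * z1 ^ 2 * x2 ^ 5 * y3 * z3 ^ 5 + a ^ 2 * x1 ^ 3 * y1 * z1 ^ 2 * x2 ^ 3 * y2 *
      z2 * x3 ^ 2 * y3 ^ 3 * z3 + a ^ 2 * x1 ^ 3 * y1 * z1 ^ 2 * x2 ^ 3 * y2 * z2 * x3 ^ 2 * z3
      ^ 4 + a ^ 2 * x1 ^ 3 * y1 * z1 ^ 2 * x2 ^ 2 * y2 ^ 3 * x3 ^ 3 * y3 * z3 ^ 2 + 2 * a ^ 2 *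
      x1 ^ 2 * y1 ^ 3 * z1 * x2 ^ 3 * y2 * z2 * x3 ^ 3 * y3 * z3 ^ 2 - a * x1 ^ 4 * y1 ^ 2 * y2
      ^ 4 * z2 * x3 * y3 ^ 5 - a * x1 ^ 4 * y1 ^ 2 * y2 ^ 4 * z2 * x3 * y3 ^ 2 * z3 ^ 3 + a *
      x1 ^ 3 * y1 * z1 ^ 2 * x2 ^ 2 * y2 ^ 3 * y3 ^ 4 * z3 ^ 2 + a * x1 ^ 3 * y1 * z1 ^ 2 * x2
      ^ 2 * y2 ^ 3 * y3 * z3 ^ 5 - a * x1 ^ 3 * y1 * z1 ^ 2 * x2 ^ 2 * z2 ^ 3 * y3 ^ 4 * z3 ^ 2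
      - a * x1 ^ 3 * y1 * z1 ^ 2 * x2 ^ 2 * z2 ^ 3 * y3 * z3 ^ 5 + 2 * a * x1 ^ 2 * y1 ^ 3 * z1
      * x2 ^ 3 * y2 * z2 * y3 ^ 4 * z3 ^ 2 + 2 * a * x1 ^ 2 * y1 ^ 3 * z1 * x2 ^ 3 * y2 * z2 *
      y3 * z3 ^ 5 - a * x1 ^ 2 * y1 ^ 3 * z1 * x2 ^ 2 * y2 ^ 3 * x3 * y3 ^ 5 - a * x1 ^ 2 * y1
      ^ 3 * z1 * x2 ^ 2 * y2 ^ 3 * x3 * y3 ^ 2 * z3 ^ 3 - a * x1 ^ 2 * y1 ^ 3 * z1 * x2 ^ 2 *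
      z2 ^ 3 * x3 * y3 ^ 2 * z3 ^ 3 + a * x1 * y1 ^ 5 * x2 ^ 3 * y2 * z2 * x3 * y3 ^ 2 * z3 ^ 3
      + a * x1 * y1 ^ 5 * x2 ^ 2 * y2 ^ 3 * x3 ^ 2 * z3 ^ 4 - a * y1 ^ 4 * z1 ^ 2 * x2 ^ 2 * y2
      ^ 3 * x3 ^ 3 * y3 * z3 ^ 2 - x1 * y1 ^ 5 * y2 ^ 4 * z2 * x3 * y3 ^ 5 - x1 * y1 ^ 5 * y2 ^
      4 * z2 * x3 * y3 ^ 2 * z3 ^ 3 + y1 ^ 4 * z1 ^ 2 * y2 ^ 4 * z2 * x3 ^ 2 * y3 ^ 3 * z3) *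
      h2 + (-a ^ 3 * x1 ^ 4 * y1 ^ 2 * x2 ^ 5 * y2 ^ 3 * x3 ^ 2 * z3 - a ^ 3 * x1 ^ 3 * y1 * z1
      ^ 2 * x2 ^ 8 * y3 * z3 ^ 2 - a ^ 3 * x1 ^ 3 * y1 * z1 ^ 2 * x2 ^ 6 * y2 * z2 * x3 ^ 2 *
      z3 + a ^ 2 * x1 ^ 4 * y1 ^ 2 * x2 ^ 3 * y2 ^ 4 * z2 * x3 * y3 ^ 2 - a ^ 2 * x1 ^ 4 * y1 ^
      2 * x2 ^ 2 * y2 ^ 6 * x3 ^ 2 * z3 - 2 * a ^ 2 * x1 ^ 3 * y1 * z1 ^ 2 * x2 ^ 5 * y2 ^ 3 *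
      y3 * z3 ^ 2 - a ^ 2 * x1 ^ 3 * y1 * z1 ^ 2 * x2 ^ 3 * y2 ^ 4 * z2 * x3 ^ 2 * z3 - 2 * a ^
      2 * x1 ^ 2 * y1 ^ 3 * z1 * x2 ^ 6 * y2 * z2 * y3 * z3 ^ 2 + a ^ 2 * x1 ^ 2 * y1 ^ 3 * z1
      * x2 ^ 5 * y2 ^ 3 * x3 * y3 ^ 2 - a ^ 2 * x1 ^ 2 * y1 ^ 3 * z1 * x2 ^ 4 * y2 ^ 2 * z2 ^ 2
      * x3 ^ 2 * z3 - a ^ 2 * x1 * y1 ^ 5 * x2 ^ 5 * y2 ^ 3 * x3 ^ 2 * z3 + a * x1 ^ 4 * y1 ^ 2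
      * y2 ^ 7 * z2 * x3 * y3 ^ 2 - a * x1 ^ 3 * y1 * z1 ^ 2 * x2 ^ 2 * y2 ^ 6 * y3 * z3 ^ 2 -
      2 * a * x1 ^ 2 * y1 ^ 3 * z1 * x2 ^ 3 * y2 ^ 4 * z2 * y3 * z3 ^ 2 + a * x1 ^ 2 * y1 ^ 3 *
      z1 * x2 ^ 2 * y2 ^ 6 * x3 * y3 ^ 2 - a * x1 * y1 ^ 5 * x2 ^ 4 * y2 ^ 2 * z2 ^ 2 * y3 * z3
      ^ 2 + 2 * a * x1 * y1 ^ 5 * x2 ^ 3 * y2 ^ 4 * z2 * x3 * y3 ^ 2 - a * x1 * y1 ^ 5 * x2 ^ 2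
      * y2 ^ 6 * x3 ^ 2 * z3 + a * y1 ^ 4 * z1 ^ 2 * x2 ^ 3 * y2 ^ 4 * z2 * x3 ^ 2 * z3 + x1 *
      y1 ^ 5 * y2 ^ 7 * z2 * x3 * y3 ^ 2 - y1 ^ 4 * z1 ^ 2 * x2 * y2 ^ 5 * z2 ^ 2 * x3 * y3 ^
      2) * h3
  · linear_combination (-a ^ 3 * x1 ^ 2 * y1 * x2 ^ 5 * y2 * z2 ^ 2 * x3 ^ 4 * z3 ^ 2 + 2 * a ^ 3
      * x1 ^ 2 * y1 * x2 ^ 4 * y2 ^ 3 * z2 * x3 ^ 5 * y3 + a ^ 2 * x1 ^ 2 * y1 * x2 ^ 4 * z2 ^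
      4 * x3 ^ 2 * y3 * z3 ^ 3 - 2 * a ^ 2 * x1 ^ 2 * y1 * x2 ^ 3 * y2 ^ 2 * z2 ^ 3 * x3 ^ 3 *
      y3 ^ 2 * z3 + a ^ 2 * x1 ^ 2 * y1 * x2 * y2 ^ 6 * z2 * x3 ^ 5 * y3 - a ^ 2 * x1 * z1 ^ 2
      * x2 ^ 2 * y2 ^ 4 * z2 ^ 2 * x3 ^ 5 * y3 + a ^ 2 * y1 ^ 2 * z1 * x2 ^ 4 * y2 ^ 3 * z2 *
      x3 ^ 4 * z3 ^ 2 - a * x1 ^ 2 * y1 * x2 * y2 ^ 3 * z2 ^ 4 * x3 ^ 2 * y3 ^ 4 - a * x1 ^ 2 *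
      y1 * x2 * y2 ^ 3 * z2 ^ 4 * x3 ^ 2 * y3 * z3 ^ 3 - a * x1 ^ 2 * y1 * y2 ^ 5 * z2 ^ 3 * x3
      ^ 3 * y3 ^ 2 * z3 + 2 * a * x1 * z1 ^ 2 * x2 * y2 ^ 3 * z2 ^ 4 * x3 ^ 3 * y3 ^ 2 * z3 - a
      * y1 ^ 2 * z1 * x2 ^ 3 * y2 ^ 2 * z2 ^ 3 * x3 ^ 2 * y3 * z3 ^ 3 - a * y1 ^ 2 * z1 * x2 ^
      2 * y2 ^ 4 * z2 ^ 2 * x3 ^ 3 * y3 ^ 2 * z3 + x1 ^ 2 * y1 * y2 ^ 2 * z2 ^ 6 * y3 ^ 5 * z3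
      + x1 ^ 2 * y1 * y2 ^ 2 * z2 ^ 6 * y3 ^ 2 * z3 ^ 4 - x1 * z1 ^ 2 * y2 ^ 2 * z2 ^ 6 * x3 *
      y3 ^ 3 * z3 ^ 2 + y1 ^ 2 * z1 * x2 * y2 ^ 3 * z2 ^ 4 * x3 * y3 ^ 3 * z3 ^ 2) * h1 + (a ^
      3 * x1 ^ 5 * y1 * x2 ^ 3 * y2 ^ 2 * x3 ^ 3 * y3 ^ 2 * z3 + a ^ 2 * x1 ^ 5 * y1 * x2 ^ 3 *
      y2 ^ 2 * y3 ^ 5 * z3 + a ^ 2 * x1 ^ 5 * y1 * x2 ^ 3 * y2 ^ 2 * y3 ^ 2 * z3 ^ 4 + a ^ 2 *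
      x1 ^ 5 * y1 * x2 * y2 ^ 3 * z2 * x3 ^ 2 * y3 ^ 4 + a ^ 2 * x1 ^ 5 * y1 * x2 * y2 ^ 3 * z2
      * x3 ^ 2 * y3 * z3 ^ 3 + a ^ 2 * x1 ^ 5 * y1 * y2 ^ 5 * x3 ^ 3 * y3 ^ 2 * z3 - a ^ 2 * x1
      ^ 3 * y1 ^ 2 * z1 * x2 ^ 4 * z2 * x3 * y3 ^ 3 * z3 ^ 2 - a ^ 2 * x1 ^ 3 * y1 ^ 2 * z1 *
      x2 ^ 4 * z2 * x3 * z3 ^ 5 + a ^ 2 * x1 ^ 3 * y1 ^ 2 * z1 * x2 ^ 3 * y2 ^ 2 * x3 ^ 2 * y3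
      ^ 4 + a ^ 2 * x1 ^ 3 * y1 ^ 2 * z1 * x2 ^ 3 * y2 ^ 2 * x3 ^ 2 * y3 * z3 ^ 3 - a ^ 2 * x1
      ^ 2 * y1 ^ 4 * x2 ^ 4 * z2 * x3 ^ 2 * y3 * z3 ^ 3 + 2 * a ^ 2 * x1 ^ 2 * y1 ^ 4 * x2 ^ 3
      * y2 ^ 2 * x3 ^ 3 * y3 ^ 2 * z3 + a * x1 ^ 5 * y1 * y2 ^ 5 * y3 ^ 5 * z3 + a * x1 ^ 5 *
      y1 * y2 ^ 5 * y3 ^ 2 * z3 ^ 4 - a * x1 ^ 5 * y1 * y2 ^ 2 * z2 ^ 3 * y3 ^ 5 * z3 - a * x1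
      ^ 5 * y1 * y2 ^ 2 * z2 ^ 3 * y3 ^ 2 * z3 ^ 4 + a * x1 ^ 2 * y1 ^ 4 * x2 ^ 3 * y2 ^ 2 * y3
      ^ 5 * z3 + a * x1 ^ 2 * y1 ^ 4 * x2 ^ 3 * y2 ^ 2 * y3 ^ 2 * z3 ^ 4 + a * x1 ^ 2 * y1 ^ 4
      * x2 * y2 ^ 3 * z2 * x3 ^ 2 * y3 ^ 4 + a * x1 ^ 2 * y1 ^ 4 * x2 * y2 ^ 3 * z2 * x3 ^ 2 *
      y3 * z3 ^ 3 + a * x1 ^ 2 * y1 ^ 4 * y2 ^ 5 * x3 ^ 3 * y3 ^ 2 * z3 + a * x1 * y1 ^ 3 * z1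
      ^ 2 * x2 ^ 3 * y2 ^ 2 * x3 * y3 ^ 3 * z3 ^ 2 + a * x1 * y1 ^ 3 * z1 ^ 2 * x2 ^ 3 * y2 ^ 2
      * x3 * z3 ^ 5 - 2 * a * x1 * y1 ^ 3 * z1 ^ 2 * x2 * y2 ^ 3 * z2 * x3 ^ 3 * y3 ^ 2 * z3 +
      a * y1 ^ 5 * z1 * x2 ^ 3 * y2 ^ 2 * x3 ^ 2 * y3 * z3 ^ 3 + x1 ^ 2 * y1 ^ 4 * y2 ^ 5 * y3
      ^ 5 * z3 + x1 ^ 2 * y1 ^ 4 * y2 ^ 5 * y3 ^ 2 * z3 ^ 4 - x1 ^ 2 * y1 ^ 4 * y2 ^ 2 * z2 ^ 3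
      * y3 ^ 5 * z3 - x1 ^ 2 * y1 ^ 4 * y2 ^ 2 * z2 ^ 3 * y3 ^ 2 * z3 ^ 4 - 2 * x1 * y1 ^ 3 *
      z1 ^ 2 * x2 * y2 ^ 3 * z2 * y3 ^ 5 * z3 - 2 * x1 * y1 ^ 3 * z1 ^ 2 * x2 * y2 ^ 3 * z2 *
      y3 ^ 2 * z3 ^ 4 + x1 * y1 ^ 3 * z1 ^ 2 * y2 ^ 2 * z2 ^ 3 * x3 * y3 ^ 3 * z3 ^ 2 - y1 ^ 5
      * z1 * x2 * y2 ^ 3 * z2 * x3 * y3 ^ 3 * z3 ^ 2) * h2 + (-a ^ 3 * x1 ^ 5 * y1 * x2 ^ 6 *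
      y2 ^ 2 * y3 ^ 2 * z3 - a ^ 3 * x1 ^ 5 * y1 * x2 ^ 4 * y2 ^ 3 * z2 * x3 ^ 2 * y3 + a ^ 3 *
      x1 ^ 3 * y1 ^ 2 * z1 * x2 ^ 7 * z2 * x3 * z3 ^ 2 - a ^ 3 * x1 ^ 3 * y1 ^ 2 * z1 * x2 ^ 6
      * y2 ^ 2 * x3 ^ 2 * y3 - 2 * a ^ 2 * x1 ^ 5 * y1 * x2 ^ 3 * y2 ^ 5 * y3 ^ 2 * z3 - a ^ 2
      * x1 ^ 5 * y1 * x2 * y2 ^ 6 * z2 * x3 ^ 2 * y3 + a ^ 2 * x1 ^ 3 * y1 ^ 2 * z1 * x2 ^ 4 *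
      y2 ^ 3 * z2 * x3 * z3 ^ 2 - a ^ 2 * x1 ^ 3 * y1 ^ 2 * z1 * x2 ^ 3 * y2 ^ 5 * x3 ^ 2 * y3
      - a ^ 2 * x1 ^ 2 * y1 ^ 4 * x2 ^ 6 * y2 ^ 2 * y3 ^ 2 * z3 + a ^ 2 * x1 ^ 2 * y1 ^ 4 * x2
      ^ 5 * y2 * z2 ^ 2 * x3 * z3 ^ 2 - 2 * a ^ 2 * x1 ^ 2 * y1 ^ 4 * x2 ^ 4 * y2 ^ 3 * z2 * x3
      ^ 2 * y3 - a ^ 2 * x1 * y1 ^ 3 * z1 ^ 2 * x2 ^ 6 * y2 ^ 2 * x3 * z3 ^ 2 - a * x1 ^ 5 * y1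
      * y2 ^ 8 * y3 ^ 2 * z3 - 2 * a * x1 ^ 2 * y1 ^ 4 * x2 ^ 3 * y2 ^ 5 * y3 ^ 2 * z3 - a * x1
      ^ 2 * y1 ^ 4 * x2 * y2 ^ 6 * z2 * x3 ^ 2 * y3 + 2 * a * x1 * y1 ^ 3 * z1 ^ 2 * x2 ^ 4 *
      y2 ^ 3 * z2 * y3 ^ 2 * z3 - a * x1 * y1 ^ 3 * z1 ^ 2 * x2 ^ 3 * y2 ^ 5 * x3 * z3 ^ 2 + a
      * x1 * y1 ^ 3 * z1 ^ 2 * x2 ^ 2 * y2 ^ 4 * z2 ^ 2 * x3 ^ 2 * y3 - a * y1 ^ 5 * z1 * x2 ^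
      4 * y2 ^ 3 * z2 * x3 * z3 ^ 2 - x1 ^ 2 * y1 ^ 4 * y2 ^ 8 * y3 ^ 2 * z3 + 2 * x1 * y1 ^ 3
      * z1 ^ 2 * x2 * y2 ^ 6 * z2 * y3 ^ 2 * z3 + y1 ^ 5 * z1 * x2 ^ 2 * y2 ^ 4 * z2 ^ 2 * y3 ^
      2 * z3) * h3

end Pool.Agent.W473
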