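import Pool.Agent.W473.Assoc1
import Pool.Agent.W473.Assoc2
import Pool.Agent.W473.Assoc3
import Pool.Agent.W473.Assoc4

namespace Pool.Agent.W473

variable {B : Type*} [CommRing B]

lemma assoc_all {a : B} (l m l2 m2 : Bool) {u v w : Fin 3 → B} (hu : FF a u = 0) (hv : FF a v = 0)
    (hw : FF a w = 0) :
    Par (law a m (law a l u v) w) (law a m2 u (law a l2 v w)) := by
  cases l <;> cases m <;> cases l2 <;> cases m2
  · exact assoc_2222 hu hv hw
  · exact assoc_2221 hu hv hw
  · exact assoc_2212 hu hv hw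
  · exact assoc_2211 hu hv hw
  · exact assoc_2122 hu hv hw
  · exact assoc_2121 hu hv hw
  · exact assoc_2112 hu hv hw
  · exact assoc_2111 hu hv hw
  · exact assoc_1222 hu hv hw
  · exact assoc_1221 hu hv hw
  · exact assoc_1212 hu hv hw
  · exact assoc_1211 hu hv hw
  · exact assoc_1122 hu hv hw
  · exact assoc_1121 hu hv hw
  · exact assoc_1112 hu hv hw
  · exact assoc_1111 hu hv hw

/-- coordinates of the neutral element -/
def e0 : Fin 3 → B := ![0, -1, 1]

lemma FF_e0 (a : B) : FF a e0 = 0 := by simp [FF, e0]; ring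

lemma law_e0_left (a : B) (l : Bool) (u : Fin 3 → B) : Par (law a l e0 u) u := by
  apply Par.mk' <;> cases l <;> simp [law, law1, law2, e0] <;> ring

lemma law_e0_right (a : B) (l : Bool) (u : Fin 3 → B) : Par (law a l u e0) u := by
  apply Par.mk' <;> cases l <;> simp [law, law1, law2, e0] <;> ring

/-- coordinates of the inverse -/
def ng (u : Fin 3 → B) : Fin 3 → B := ![u 0, u 2, u 1]

lemma law_ng_left (a : B) (l : Bool) (u : Fin 3 → B) : Par (law a l (ng u) u) e0 := by
  apply Par.mk' <;> cases l <;> simp [law, law1, law2, e0, ng] <;> ring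

lemma law_ng_right (a : B) (l : Bool) (u : Fin 3 → B) : Par (law a l u (ng u)) e0 := by
  apply Par.mk' <;> cases l <;> simp [law, law1, law2, e0, ng] <;> ring

end Pool.Agent.W473
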