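import Pool.Agent.W473.AbSch

/-!
The base curve `Spec k[t, 1/(t(t+1))]`.
-/

open AlgebraicGeometry CategoryTheory Limits

namespace Pool.Agent.W473

open Polynomial

section

variable (k : Type) [Field k]

/-- the ring `k[t, 1/(t(t+1))]` -/
abbrev Rb : Type := Localization.Away (X * (X + 1) : k[X])

lemma XX_ne_zero : (X * (X + 1) : k[X]) ≠ 0 := by
  apply mul_ne_zero X_ne_zero
  exact (monic_X_add_C (1 : k)).ne_zero

instance : IsDomain (Rb k) :=
  IsLocalization.isDomain_localization
    (powers_le_nonZeroDivisors_of_noZeroDivisors (XX_ne_zero k))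

instance : IsNoetherianRing (Rb k) :=
  IsLocalization.isNoetherianRing (Submonoid.powers (X * (X + 1) : k[X])) _ inferInstance

/-- the coordinate -/
noncomputable def tt : Rb k := algebraMap k[X] (Rb k) X

lemma isUnit_tt_mul : IsUnit (tt k * (tt k + 1)) := by
  have h := IsLocalization.Away.algebraMap_isUnit (S := Rb k) (X * (X + 1) : k[X])
  rw [map_mul, map_add, map_one] at h
  exact h

lemma isUnit_tt : IsUnit (tt k) := isUnit_of_mul_isUnit_left (isUnit_tt_mul k)

lemma isUnit_tt1 : IsUnit (tt k + 1) := isUnit_of_mul_isUnit_right (isUnit_tt_mul k)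

/-- the coefficients of the four curves -/
noncomputable def aa : Fin 4 → (Rb k)ˣ :=
  ![1, (isUnit_tt k).unit, - (isUnit_tt1 k).unit, - ((isUnit_tt k).unit * (isUnit_tt1 k).unit)]

end

section lift

variable {k : Type} [Field k] {C : Type} [CommRing C]

/-- universal property -/
noncomputable def rbLift (κ : k →+* C) (τ : C) (h : IsUnit (τ * (τ + 1))) : Rb k →+* C :=
  IsLocalization.Away.lift (X * (X + 1) : k[X]) (g := eval₂RingHom κ τ) (by simpa using h)

@[simp] lemma rbLift_tt (κ : k →+* C) (τ : C) (h : IsUnit (τ * (τ + 1))) :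
    rbLift κ τ h (tt k) = τ := by
  unfold rbLift tt
  rw [IsLocalization.Away.lift_eq]
  simp

@[simp] lemma rbLift_algebraMap (κ : k →+* C) (τ : C) (h : IsUnit (τ * (τ + 1))) (r : k) :
    rbLift κ τ h (algebraMap k (Rb k) r) = κ r := by
  unfold rbLift
  rw [IsScalarTower.algebraMap_apply k k[X] (Rb k), IsLocalization.Away.lift_eq]
  simp

lemma rb_hom_ext {f g : Rb k →+* C} (h1 : ∀ r, f (algebraMap k (Rb k) r) = g (algebraMap k (Rb k) r))
    (h2 : f (tt k) = g (tt k)) : f = g := by
  apply IsLocalization.ringHom_ext (Submonoid.powers (X * (X + 1) : k[X]))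
  apply Polynomial.ringHom_ext
  · intro r
    have := h1 r
    rw [IsScalarTower.algebraMap_apply k k[X] (Rb k)] at this
    exact this
  · exact h2

end lift

section pushout

variable {k k' : Type} [Field k] [Field k'] (φ : k →+* k')

/-- functoriality -/
noncomputable def rbMap : Rb k →+* Rb k' :=
  rbLift ((algebraMap k' (Rb k')).comp φ) (tt k') (isUnit_tt_mul k')

lemma rbMap_tt : rbMap φ (tt k) = tt k' := by simp [rbMap]

lemma rbMap_algebraMap (r : k) : rbMap φ (algebraMap k (Rb k) r) = algebraMap k' (Rb k') (φ r) := by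
  simp [rbMap]

lemma isPushout_rb : IsPushout (CommRingCat.ofHom (algebraMap k (Rb k)))
    (CommRingCat.ofHom φ) (CommRingCat.ofHom (rbMap φ))
    (CommRingCat.ofHom (algebraMap k' (Rb k'))) := by
  refine ⟨⟨?_⟩, ⟨?_⟩⟩
  · ext r
    exact rbMap_algebraMap φ r
  · have hu : ∀ s : PushoutCocone (CommRingCat.ofHom (algebraMap k (Rb k)))
        (CommRingCat.ofHom φ), IsUnit (s.inl.hom (tt k) * (s.inl.hom (tt k) + 1)) := by
      intro s
      have := (isUnit_tt_mul k).map s.inl.hom
      rwa [map_mul, map_add, map_one] at this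
    refine PushoutCocone.IsColimit.mk _ (fun s => CommRingCat.ofHom
      (rbLift s.inr.hom (s.inl.hom (tt k)) (hu s))) ?_ ?_ ?_
    · intro s
      ext x
      have h : (rbLift s.inr.hom (s.inl.hom (tt k)) (hu s)).comp (rbMap φ) = s.inl.hom := by
        apply rb_hom_ext
        · intro r
          rw [RingHom.comp_apply, rbMap_algebraMap, rbLift_algebraMap]
          have := congrArg (fun f => f.hom r) s.condition
          exact this.symm
        · rw [RingHom.comp_apply, rbMap_tt, rbLift_tt]
      exact DFunLike.congr_fun h x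
    · intro s
      ext x
      exact rbLift_algebraMap _ _ (hu s) _
    · intro s m h1 h2
      ext x
      have h : m.hom = rbLift s.inr.hom (s.inl.hom (tt k)) (hu s) := by
        apply rb_hom_ext
        · intro r
          rw [rbLift_algebraMap]
          exact congrArg (fun f => f.hom r) h2
        · rw [rbLift_tt, ← h1, ← rbMap_tt φ]
          rfl
      exact DFunLike.congr_fun h x

/-- the base curve -/
noncomputable abbrev Sb (k : Type) [Field k] : Scheme.{0} := Spec (.of (Rb k))

/-- the structure map of the base curve -/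
noncomputable abbrev pb (k : Type) [Field k] : Sb k ⟶ Spec (.of k) :=
  Spec.map (CommRingCat.ofHom (algebraMap k (Rb k)))

lemma isPullback_rb : IsPullback (Spec.map (CommRingCat.ofHom (rbMap φ))) (pb k') (pb k)
    (Spec.map (CommRingCat.ofHom φ)) :=
  isPullback_SpecMap_of_isPushout _ _ _ _ (isPushout_rb φ)

end pushout

end Pool.Agent.W473
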