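import Pool.Agent.W473.Add
import Pool.Agent.Helper198.SchG

/-!
The charts of the cubic curve `a X^3 + Y^3 + Z^3 = 0`.
-/

open AlgebraicGeometry CategoryTheory Limits

namespace Pool.Agent.W473

open Pool.Agent.Helper198.Sch

attribute [local instance] MvPolynomial.gradedAlgebra

/-- the coefficients of the diagonal cubic. -/
def cf {B : Type*} [CommRing B] (a : B) : Fin 3 → B := ![a, 1, 1]

lemma FF_sum {B : Type*} [CommRing B] (a : B) (u : Fin 3 → B) :
    FF a u = ∑ i, cf a i * u i ^ 3 := by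
  rw [Fin.sum_univ_three]
  simp [FF, cf]

lemma FF_tri {B : Type*} [CommRing B] (a : B) (u : Fin 3 → B) (t : Tri) :
    FF a u = cf a t.i * u t.i ^ 3 + cf a t.j * u t.j ^ 3 + cf a t.l * u t.l ^ 3 := by
  rw [FF_sum, t.sum]

lemma map_cf {B B' : Type*} [CommRing B] [CommRing B'] (φ : B →+* B') (a : B) (i : Fin 3) :
    φ (cf a i) = cf (φ a) i := by
  fin_cases i <;> simp [cf]

lemma cf_unit {B : Type*} [CommRing B] {a : B} (ha : IsUnit a) (i : Fin 3) : IsUnit (cf a i) := by
  fin_cases i <;> simp [cf, ha]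

open Polynomial

variable {R : Type} [CommRing R]

/-- the equation of the affine cubic as a monic polynomial over `R[z]`. -/
noncomputable def gp (b d : R) : R[X][X] := X ^ 3 + C (C b * X ^ 3 + C d)

lemma gp_monic (b d : R) : (gp b d).Monic := by
  unfold gp
  exact monic_X_pow_add_C _ (by norm_num)

/-- the model of the chart ring. -/
abbrev MC (b d : R) : Type := AdjoinRoot (gp b d)

lemma MC_rel (b d : R) : (AdjoinRoot.root (gp b d)) ^ 3 +
    (algebraMap R (MC b d) b * (AdjoinRoot.of (gp b d) X) ^ 3 + algebraMap R (MC b d) d) = 0 := by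
  have h := AdjoinRoot.eval₂_root (gp b d)
  have h1 : ∀ r : R, (AdjoinRoot.of (gp b d)) (C r) = algebraMap R (MC b d) r := fun r => rfl
  have h2 : eval₂ (AdjoinRoot.of (gp b d)) (AdjoinRoot.root (gp b d))
      (X ^ 3 + C (C b * X ^ 3 + C d)) = 0 := h
  simp only [eval₂_add, eval₂_pow, eval₂_X, eval₂_C] at h2
  rw [map_add, map_mul, map_pow, h1, h1] at h2
  exact h2

section chart

variable (a : R) (t : Tri) (v : R) (hv : v * cf a t.j = 1)

/-- coordinates on the model. -/
noncomputable def uM (b d : R) : Fin 3 → MC b d :=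
  fun q => t.ze (AdjoinRoot.root (gp b d)) (AdjoinRoot.of (gp b d) X) q

include hv in
lemma uM_FF : FF (algebraMap R (MC (v * cf a t.l) (v * cf a t.i)) a)
    (uM t (v * cf a t.l) (v * cf a t.i)) = 0 := by
  rw [FF_tri _ _ t]
  simp only [uM, Tri.ze_i, Tri.ze_j, Tri.ze_l]
  have h := MC_rel (v * cf a t.l) (v * cf a t.i)
  have h2 : algebraMap R (MC (v * cf a t.l) (v * cf a t.i)) (v * cf a t.j) = 1 := by
    rw [hv, map_one]
  rw [← map_cf, ← map_cf, ← map_cf]
  have h3 : algebraMap R (MC (v * cf a t.l) (v * cf a t.i)) (cf a t.j) *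
     ((AdjoinRoot.root (gp (v * cf a t.l) (v * cf a t.i))) ^ 3 +
    (algebraMap R (MC (v * cf a t.l) (v * cf a t.i)) (v * cf a t.l) *
      (AdjoinRoot.of (gp (v * cf a t.l) (v * cf a t.i)) X) ^ 3 +
      algebraMap R (MC (v * cf a t.l) (v * cf a t.i)) (v * cf a t.i))) = 0 := by
    rw [h, mul_zero]
  rw [map_mul] at h2
  simp only [map_mul] at h3
  generalize algebraMap R (MC (v * cf a t.l) (v * cf a t.i)) v = V at *
  generalize algebraMap R (MC (v * cf a t.l) (v * cf a t.i)) (cf a t.i) = Ci at *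
  generalize algebraMap R (MC (v * cf a t.l) (v * cf a t.i)) (cf a t.j) = Cj at *
  generalize algebraMap R (MC (v * cf a t.l) (v * cf a t.i)) (cf a t.l) = Cl at *
  generalize (AdjoinRoot.of (gp (v * cf a t.l) (v * cf a t.i)) X) = Z at *
  generalize (AdjoinRoot.root (gp (v * cf a t.l) (v * cf a t.i))) = W at *
  linear_combination h3 - (Ci + Cl * Z ^ 3) * h2

include hv in
lemma uM_sat : ∀ f ∈ (JF a).toIdeal,
    MvPolynomial.aeval (uM t (v * cf a t.l) (v * cf a t.i)) f = 0 :=
  fun f hf => (JF_iff a (algebraMap R _) _).2 (uM_FF a t v hv) f hf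

/-- forward map. -/
noncomputable def chTo : Ch (JF a) t.i →ₐ[R] MC (v * cf a t.l) (v * cf a t.i) :=
  chLift (JF a) t.i (uM t (v * cf a t.l) (v * cf a t.i)) (by simp [uM])
    (uM_sat a t v hv)

lemma chTo_frac (q : Fin 3) :
    chTo a t v hv (frac (JF a) t.i q) = uM t (v * cf a t.l) (v * cf a t.i) q := by
  rw [chTo, chLift_frac]

lemma frac_FF (c : Fin 3) : FF (algebraMap R (Ch (JF a) c) a) (frac (JF a) c) = 0 :=
  (JF_iff a (algebraMap R _) _).1 (fun f hf => aeval_frac_eq_zero (JF a) c f hf)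

include hv in
lemma from_rel : eval₂ (aeval (R := R) (frac (JF a) t.i t.l)) (frac (JF a) t.i t.j)
    (gp (v * cf a t.l) (v * cf a t.i)) = 0 := by
  have h := frac_FF a t.i
  rw [FF_tri _ _ t, frac_self, ← map_cf, ← map_cf, ← map_cf] at h
  have h2 : algebraMap R (Ch (JF a) t.i) (v * cf a t.j) = 1 := by
    rw [hv, map_one]
  rw [map_mul] at h2
  simp only [gp, eval₂_add, eval₂_pow, eval₂_X, eval₂_C, RingHom.coe_coe]
  simp only [map_add, map_mul, map_pow, aeval_X, aeval_C]
  generalize algebraMap R (Ch (JF a) t.i) v = V at *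
  linear_combination V * h - (frac (JF a) t.i t.j) ^ 3 * h2

/-- backward map. -/
noncomputable def chFrom : MC (v * cf a t.l) (v * cf a t.i) →ₐ[R] Ch (JF a) t.i :=
  AdjoinRoot.liftAlgHom (gp (v * cf a t.l) (v * cf a t.i)) (aeval (frac (JF a) t.i t.l))
    (frac (JF a) t.i t.j) (from_rel a t v hv)

lemma chFrom_root : chFrom a t v hv (AdjoinRoot.root _) = frac (JF a) t.i t.j := by
  simp [chFrom]

lemma chFrom_X : chFrom a t v hv (AdjoinRoot.of _ X) = frac (JF a) t.i t.l := by
  simp [chFrom]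

/-- the chart is the model. -/
noncomputable def chE : Ch (JF a) t.i ≃ₐ[R] MC (v * cf a t.l) (v * cf a t.i) :=
  AlgEquiv.ofAlgHom (chTo a t v hv) (chFrom a t v hv)
    (by
      apply AdjoinRoot.algHom_ext'
      · apply Polynomial.algHom_ext
        change chTo a t v hv (chFrom a t v hv (AdjoinRoot.of _ X)) = AdjoinRoot.of _ X
        rw [chFrom_X, chTo_frac]
        simp [uM]
      · change chTo a t v hv (chFrom a t v hv (AdjoinRoot.root _)) = AdjoinRoot.root _
        rw [chFrom_root, chTo_frac]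
        simp [uM])
    (by
      apply ch_algHom_ext
      intro q
      rw [AlgHom.comp_apply, AlgHom.id_apply, chTo_frac]
      rcases t.cases q with rfl | rfl | rfl
      · simp only [uM, Tri.ze_i, map_one]
        exact (frac_self _ _).symm
      · simp only [uM, Tri.ze_j, chFrom_root]
      · simp only [uM, Tri.ze_l, chFrom_X])

end chart

end Pool.Agent.W473
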