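import Pool.Agent.W473.Chart
import Pool.Agent.Helper834.EC.Dim1
import Pool.Agent.Helper198.SchO

/-!
The charts of the cubic curve: they are domains over fields, and their dimension.
-/

open AlgebraicGeometry CategoryTheory Limits

namespace Pool.Agent.W473

open Pool.Agent.Helper198.Sch

attribute [local instance] MvPolynomial.gradedAlgebra

open Polynomial

section field

variable {k : Type} [Field k]

lemma gp_irreducible (h3 : (3 : k) ≠ 0) {b d : k} (hb : b ≠ 0) (hd : d ≠ 0) :
    Irreducible (gp b d) := by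
  set g : k[X] := C b * X ^ 3 + C d with hg
  have hdeg : g.natDegree = 3 := by
    rw [hg]; compute_degree!
  have hg0 : g ≠ 0 := by
    intro h
    rw [h] at hdeg
    simp at hdeg
  have hgu : ¬ IsUnit g := by
    intro h
    have := Polynomial.natDegree_eq_zero_of_isUnit h
    omega
  have hsep : g.Separable := by
    refine ⟨C (d⁻¹), - C ((3 * d)⁻¹) * X, ?_⟩
    have h1 : derivative g = C (3 * b) * X ^ 2 := by
      rw [hg]
      simp only [derivative_add, derivative_mul, derivative_C, zero_mul, derivative_X_pow,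
        zero_add, add_zero, map_mul, Nat.cast_ofNat, map_ofNat]
      ring
    rw [h1, hg]
    have e1 : C (d⁻¹) * (C b * X ^ 3 + C d) + -C ((3 * d)⁻¹) * X * (C (3 * b) * X ^ 2) =
      C (d⁻¹ * b - (3 * d)⁻¹ * (3 * b)) * X ^ 3 + C (d⁻¹ * d) := by
      simp only [map_mul, map_sub]
      ring
    rw [e1]
    have e2 : d⁻¹ * b - (3 * d)⁻¹ * (3 * b) = 0 := by
      field_simp
      ring
    rw [e2, inv_mul_cancel₀ hd]
    simp
  obtain ⟨p, hp, hpg⟩ := WfDvdMonoid.exists_irreducible_factor hgu hg0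
  have hsq := hsep.squarefree
  have hgp : gp b d = X ^ 3 + C g := rfl
  have hmon := gp_monic b d
  have hnd : (gp b d).natDegree = 3 := by
    rw [hgp]
    exact natDegree_X_pow_add_C
  have hne : gp b d ≠ 0 := hmon.ne_zero
  apply irreducible_of_eisenstein_criterion (P := Ideal.span {p})
  · rw [Ideal.span_singleton_prime hp.ne_zero]
    exact hp.prime
  · rw [hmon.leadingCoeff]
    intro h
    rw [Ideal.mem_span_singleton] at h
    exact hp.not_isUnit (isUnit_of_dvd_one h)
  · intro n hn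
    rw [degree_eq_natDegree hne, hnd] at hn
    have hn' : n < 3 := by exact_mod_cast hn
    rw [Ideal.mem_span_singleton]
    rcases Nat.eq_zero_or_pos n with rfl | h
    · rw [hgp]
      simpa using hpg
    · rw [hgp, coeff_add, coeff_X_pow, coeff_C]
      rw [if_neg (by omega), if_neg (by omega)]
      simp
  · rw [degree_eq_natDegree hne, hnd]
    norm_num
  · have h0 : (gp b d).coeff 0 = g := by
      rw [hgp]; simp
    rw [h0, Ideal.span_singleton_pow, Ideal.mem_span_singleton]
    intro h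
    rw [pow_two] at h
    exact hp.not_isUnit (hsq p h)
  · exact hmon.isPrimitive

lemma domain_MC (h3 : (3 : k) ≠ 0) {b d : k} (hb : b ≠ 0) (hd : d ≠ 0) : IsDomain (MC b d) :=
  AdjoinRoot.isDomain_of_prime (gp_irreducible h3 hb hd).prime

lemma domain_Ch (h3 : (3 : k) ≠ 0) {a : k} (ha : a ≠ 0) (t : Tri) :
    IsDomain (Ch (JF a) t.i) := by
  have h := (cf_unit (isUnit_iff_ne_zero.2 ha) t.j)
  have hv : (cf a t.j)⁻¹ * cf a t.j = 1 := inv_mul_cancel₀ h.ne_zero
  have h1 : IsDomain (MC ((cf a t.j)⁻¹ * cf a t.l) ((cf a t.j)⁻¹ * cf a t.i)) := by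
    apply domain_MC h3
    · exact mul_ne_zero (inv_ne_zero h.ne_zero)
        (cf_unit (isUnit_iff_ne_zero.2 ha) t.l).ne_zero
    · exact mul_ne_zero (inv_ne_zero h.ne_zero)
        (cf_unit (isUnit_iff_ne_zero.2 ha) t.i).ne_zero
  exact (chE a t _ hv).toRingEquiv.toMulEquiv.isDomain _

end field

/-- a triple with given first index. -/
def triOf (c : Fin 3) : Tri := ⟨c, c + 1, c + 2, by revert c; decide, by revert c; decide,
  by revert c; decide⟩

lemma frac_ne_zero' {k : Type} [Field k] {a : k} (ha : a ≠ 0) (t : Tri) (q : Fin 3) :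
    frac (JF a) t.i q ≠ 0 := by
  have h := (cf_unit (isUnit_iff_ne_zero.2 ha) t.j)
  obtain ⟨v, hv⟩ := h.exists_left_inv
  intro h0
  have h1 : uM t (v * cf a t.l) (v * cf a t.i) q = 0 := by
    rw [← chTo_frac a t v hv q, h0, map_zero]
  generalize v * cf a t.l = b at h1
  generalize v * cf a t.i = d at h1
  have hmon := gp_monic b d
  have hdeg : (gp b d).degree = 3 := by
    unfold gp
    exact degree_X_pow_add_C (by norm_num) _
  have hnt : Nontrivial (MC b d) := AdjoinRoot.nontrivial _ (by rw [hdeg]; norm_num)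
  have hcase : q = t.i ∨ q = t.j ∨ q = t.l := t.cases q
  rcases hcase with h | h | h
  · rw [h, uM, Tri.ze_i] at h1
    exact one_ne_zero h1
  · rw [h, uM, Tri.ze_j] at h1
    have h2 : gp b d ∣ X := by
      rw [← AdjoinRoot.mk_eq_zero, AdjoinRoot.mk_X]
      exact h1
    refine hmon.not_dvd_of_degree_lt X_ne_zero ?_ h2
    rw [hdeg, degree_X]; norm_num
  · rw [h, uM, Tri.ze_l] at h1
    have h2 : gp b d ∣ C X := by
      rw [← AdjoinRoot.mk_eq_zero, AdjoinRoot.mk_C]
      exact h1
    have hX : (X : k[X]) ≠ 0 := X_ne_zero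
    refine hmon.not_dvd_of_degree_lt (C_ne_zero.2 hX) ?_ h2
    rw [hdeg, degree_C hX]; norm_num

lemma frac_ne_zero {k : Type} [Field k] {a : k} (ha : a ≠ 0) (c q : Fin 3) :
    frac (JF a) c q ≠ 0 := frac_ne_zero' ha (triOf c) q

lemma integral_EV {k : Type} [Field k] (h3 : (3 : k) ≠ 0) {a : k} (ha : a ≠ 0) :
    IsIntegral (EV a) := by
  have hd : ∀ c, IsDomain (Ch (JF a) c) := fun c => domain_Ch h3 ha (triOf c)
  have := hd 0
  let x0 : V (JF a) := V.chart (JF a) 0 (⟨⊥, Ideal.isPrime_bot⟩ : PrimeSpectrum (Ch (JF a) 0))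
  apply V.isIntegral_of_charts (JF a) (id : Fin 3 → Fin 3) (V.exists_mem_D (JF a)) hd x0
  intro c
  refine (V.chart_mem_D (JF a) 0 c _).2 ?_
  intro h
  exact frac_ne_zero ha 0 c h

lemma dim_Ch {R : Type} [CommRing R] [IsNoetherianRing R] {a : R} (ha : IsUnit a) (t : Tri) :
    ringKrullDim (Ch (JF a) t.i) ≤ ringKrullDim R + 1 := by
  obtain ⟨v, hv⟩ := (cf_unit ha t.j).exists_left_inv
  rw [ringKrullDim_eq_of_ringEquiv (chE a t v hv).toRingEquiv]
  rw [← Polynomial.ringKrullDim_of_isNoetherianRing]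
  generalize v * cf a t.l = b
  generalize v * cf a t.i = d
  have : Algebra.IsIntegral R[X] (MC b d) := by
    have := (gp_monic b d).finite_adjoinRoot
    infer_instance
  exact Helper834.EC.ringKrullDim_le_of_integral (R := R[X])

lemma dim_EV {R : Type} [CommRing R] [IsNoetherianRing R] {a : R} (ha : IsUnit a) :
    topologicalKrullDim (EV a) ≤ ringKrullDim R + 1 :=
  V.krullDim_le_of_charts (JF a) (id : Fin 3 → Fin 3) (V.exists_mem_D (JF a)) _
    (fun c => dim_Ch ha (triOf c))

end Pool.Agent.W473
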