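import Pool.Agent.W473.Base

/-!
The covering of the base curve: pairs `(α, β)` with `α^3 + β^3 + 1 = 0`, `α β ≠ 0`.
-/

open AlgebraicGeometry CategoryTheory Limits

namespace Pool.Agent.W473

open Pool.Agent.Helper198.Sch

attribute [local instance] MvPolynomial.gradedAlgebra

section

variable (k : Type) [Field k]

/-- the product of the two coordinates -/
noncomputable def gc : Ch (JF (1 : k)) 2 := frac (JF (1 : k)) 2 0 * frac (JF (1 : k)) 2 1

/-- the ring of the covering -/
abbrev Rc : Type := Localization.Away (gc k)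

lemma gc_rel : frac (JF (1 : k)) 2 0 ^ 3 + frac (JF (1 : k)) 2 1 ^ 3 + 1 = 0 := by
  have h := frac_FF (1 : k) 2
  rw [FF, map_one, frac_self] at h
  linear_combination h

/-- first cube root -/
noncomputable def al : Rc k := algebraMap _ _ (frac (JF (1 : k)) 2 0)

/-- second cube root -/
noncomputable def be : Rc k := algebraMap _ _ (frac (JF (1 : k)) 2 1)

lemma al_be_rel : al k ^ 3 + be k ^ 3 + 1 = 0 := by
  have h := congrArg (algebraMap (Ch (JF (1 : k)) 2) (Rc k)) (gc_rel k)
  rw [map_add, map_add, map_pow, map_pow, map_one, map_zero] at h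
  exact h

lemma isUnit_al_be : IsUnit (al k * be k) := by
  have h := IsLocalization.Away.algebraMap_isUnit (S := Rc k) (gc k)
  have h1 : algebraMap _ (Rc k) (gc k) = al k * be k := map_mul _ _ _
  rwa [h1] at h

lemma isUnit_al : IsUnit (al k) := isUnit_of_mul_isUnit_left (isUnit_al_be k)

lemma isUnit_be : IsUnit (be k) := isUnit_of_mul_isUnit_right (isUnit_al_be k)

lemma isUnit_cube : IsUnit (al k ^ 3 * (al k ^ 3 + 1)) := by
  have h : al k ^ 3 * (al k ^ 3 + 1) = - (al k * be k) ^ 3 := by
    linear_combination (al k ^ 3) * al_be_rel k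
  rw [h]
  exact ((isUnit_al_be k).pow 3).neg

/-- the covering map -/
noncomputable def thc : Rb k →+* Rc k := rbLift (algebraMap k (Rc k)) (al k ^ 3) (isUnit_cube k)

@[simp] lemma thc_tt : thc k (tt k) = al k ^ 3 := by simp [thc]

@[simp] lemma thc_algebraMap (r : k) : thc k (algebraMap k (Rb k) r) = algebraMap k (Rc k) r := by
  simp [thc]

theorem thc_integral : (thc k).IsIntegral := by
  let _ : Algebra (Rb k) (Rc k) := (thc k).toAlgebra
  have hal : al k ∈ integralClosure (Rb k) (Rc k) := by
    refine IsIntegral.of_pow (n := 3) (by norm_num) ?_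
    rw [← thc_tt k]
    exact isIntegral_algebraMap (R := Rb k)
  have hbe : be k ∈ integralClosure (Rb k) (Rc k) := by
    refine IsIntegral.of_pow (n := 3) (by norm_num) ?_
    have h : be k ^ 3 = thc k (-(tt k + 1)) := by
      rw [map_neg, map_add, thc_tt, map_one]
      linear_combination al_be_rel k
    rw [h]
    exact isIntegral_algebraMap (R := Rb k)
  have hk : ∀ r : k, algebraMap k (Rc k) r ∈ integralClosure (Rb k) (Rc k) := by
    intro r
    rw [← thc_algebraMap k]
    exact isIntegral_algebraMap (R := Rb k)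
  have hCh : ∀ y : Ch (JF (1 : k)) 2,
      algebraMap _ (Rc k) y ∈ integralClosure (Rb k) (Rc k) := by
    intro y
    obtain ⟨q, rfl⟩ := aeval_frac_surjective (JF (1 : k)) 2 y
    induction q using MvPolynomial.induction_on with
    | C r =>
      rw [MvPolynomial.aeval_C, ← IsScalarTower.algebraMap_apply]
      exact hk r
    | add p q hp hq =>
      rw [map_add, map_add]
      exact add_mem hp hq
    | mul_X p n hp =>
      rw [map_mul, map_mul, MvPolynomial.aeval_X]
      refine mul_mem hp ?_
      fin_cases n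
      · exact hal
      · exact hbe
      · change algebraMap _ (Rc k) (frac (JF (1 : k)) 2 2) ∈ _
        rw [frac_self, map_one]
        exact one_mem _
  -- the inverse of `al * be`
  obtain ⟨v, hv⟩ := (isUnit_tt_mul k).exists_right_inv
  have hinv : ∃ w ∈ integralClosure (Rb k) (Rc k), algebraMap _ (Rc k) (gc k) * w = 1 := by
    refine ⟨- (al k * be k) ^ 2 * thc k v, ?_, ?_⟩
    · refine mul_mem (neg_mem (pow_mem (mul_mem hal hbe) 2)) ?_
      exact isIntegral_algebraMap (R := Rb k)
    · have h1 : algebraMap _ (Rc k) (gc k) = al k * be k := map_mul _ _ _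
      have h2 := congrArg (thc k) hv
      rw [map_mul, map_mul, map_add, thc_tt, map_one] at h2
      rw [h1]
      linear_combination h2 - (al k ^ 3 * thc k v) * al_be_rel k
  obtain ⟨w, hw, hw1⟩ := hinv
  intro x
  obtain ⟨⟨y, ⟨_, n, rfl⟩⟩, h⟩ := IsLocalization.surj (Submonoid.powers (gc k)) x
  simp only at h
  have hx : x = algebraMap _ (Rc k) y * w ^ n := by
    rw [← h, map_pow, mul_assoc, ← mul_pow, hw1, one_pow, mul_one]
  rw [hx]
  exact mul_mem (hCh y) (pow_mem hw n)

end

section field

variable (k : Type) [Field k] (h3 : (3 : k) ≠ 0)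

include h3 in
lemma domain_Rc : IsDomain (Rc k) := by
  have : IsDomain (Ch (JF (1 : k)) 2) := domain_Ch h3 one_ne_zero (triOf 2)
  apply IsLocalization.isDomain_localization
  apply powers_le_nonZeroDivisors_of_noZeroDivisors
  exact mul_ne_zero (frac_ne_zero one_ne_zero 2 0) (frac_ne_zero one_ne_zero 2 1)

instance noeth_Ch (J : HI (Fin 3) k) (c : Fin 3) : IsNoetherianRing (Ch J c) :=
  isNoetherianRing_of_surjective _ _ _ (aeval_frac_surjective J c)

instance noeth_Rc : IsNoetherianRing (Rc k) :=
  IsLocalization.isNoetherianRing (Submonoid.powers (gc k)) _ inferInstance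

lemma dim_Rc : ringKrullDim (Rc k) ≤ 1 := by
  have h1 : ringKrullDim (Ch (JF (1 : k)) 2) ≤ ringKrullDim k + 1 :=
    dim_Ch isUnit_one (triOf 2)
  rw [ringKrullDim_eq_zero_of_field, zero_add] at h1
  refine le_trans ?_ h1
  have h2 := (PrimeSpectrum.localization_away_isOpenEmbedding (Rc k) (gc k)).isInducing
  have := h2.topologicalKrullDim_le
  rwa [PrimeSpectrum.topologicalKrullDim_eq_ringKrullDim,
    PrimeSpectrum.topologicalKrullDim_eq_ringKrullDim] at this

end field

end Pool.Agent.W473
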