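import Mathlib

open AlgebraicGeometry CategoryTheory Limits

namespace Pool.Agent.W473

/-- two morphisms which agree locally are equal -/
lemma hom_ext_local {W Z : Scheme.{0}} (r r' : W ⟶ Z)
    (h : ∀ w : W, ∃ (C : CommRingCat.{0}) (i : Spec C ⟶ W), IsOpenImmersion i ∧
      w ∈ Set.range i ∧ i ≫ r = i ≫ r') : r = r' := by
  choose C i hi hw he using h
  let 𝒰 : W.AffineOpenCover :=
    { I₀ := W
      X := C
      f := i
      idx := id
      covers := hw
      map_prop := hi }
  apply 𝒰.openCover.hom_ext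
  intro w
  exact he w

/-- gluing of local morphisms -/
theorem glue {W Z : Scheme.{0}} (P : ∀ (C : CommRingCat.{0}), (Spec C ⟶ W) → (Spec C ⟶ Z) → Prop)
    (hloc : ∀ w : W, ∃ (C : CommRingCat.{0}) (i : Spec C ⟶ W) (f : Spec C ⟶ Z),
      IsOpenImmersion i ∧ w ∈ Set.range i ∧ P C i f)
    (hcompat : ∀ (C C' : CommRingCat.{0}) (i : Spec C ⟶ W) (i' : Spec C' ⟶ W) (f : Spec C ⟶ Z)
      (f' : Spec C' ⟶ Z), P C i f → P C' i' f' → ∀ (D : CommRingCat.{0}) (j : Spec D ⟶ Spec C)
      (j' : Spec D ⟶ Spec C'), j ≫ i = j' ≫ i' → j ≫ f = j' ≫ f') :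
    ∃ r : W ⟶ Z, ∀ (C : CommRingCat.{0}) (i : Spec C ⟶ W) (f : Spec C ⟶ Z),
      P C i f → i ≫ r = f := by
  choose C i f hi hw hP using hloc
  let 𝒰 : W.AffineOpenCover :=
    { I₀ := W
      X := C
      f := i
      idx := id
      covers := hw
      map_prop := hi }
  let r : W ⟶ Z := 𝒰.openCover.glueMorphisms f (by
    intro (x : W) (y : W)
    change pullback.fst (i x) (i y) ≫ f x = pullback.snd (i x) (i y) ≫ f y
    apply hom_ext_local
    intro z
    obtain ⟨U, hU, hzU, -⟩ := exists_isAffineOpen_mem_and_subset (x := z) (U := ⊤) trivial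
    refine ⟨Γ(_, U), hU.fromSpec, inferInstance, ?_, ?_⟩
    · rw [hU.range_fromSpec]
      exact hzU
    · rw [← Category.assoc, ← Category.assoc]
      apply hcompat _ _ _ _ _ _ (hP x) (hP y)
      rw [Category.assoc, Category.assoc]
      congr 1
      exact pullback.condition)
  have hr : ∀ w, i w ≫ r = f w := fun w => 𝒰.openCover.ι_glueMorphisms _ _ w
  refine ⟨r, ?_⟩
  intro C' i' f' hP'
  apply hom_ext_local
  intro z
  let g := pullback.fst i' (i (i' z))
  have hg : IsOpenImmersion g := by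
    have := hi (i' z)
    infer_instance
  have hz : z ∈ Set.range g := by
    have := hi (i' z)
    rw [IsOpenImmersion.range_pullbackFst]
    exact hw (i' z)
  obtain ⟨z', hz'⟩ := hz
  obtain ⟨U, hU, hzU, -⟩ := exists_isAffineOpen_mem_and_subset (x := z') (U := ⊤) trivial
  refine ⟨Γ(_, U), hU.fromSpec ≫ g, inferInstance, ?_, ?_⟩
  · have h1 : z' ∈ Set.range hU.fromSpec := by
      rw [hU.range_fromSpec]
      exact hzU
    obtain ⟨y, hy⟩ := h1
    exact ⟨y, (congrArg g hy).trans hz'⟩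
  · have e1 : (hU.fromSpec ≫ g) ≫ i' = (hU.fromSpec ≫ pullback.snd i' (i (i' z))) ≫ i (i' z) := by
      rw [Category.assoc, Category.assoc]
      congr 1
      exact pullback.condition
    have e2 := hcompat _ _ _ _ _ _ hP' (hP (i' z)) _ (hU.fromSpec ≫ g)
      (hU.fromSpec ≫ pullback.snd i' (i (i' z))) e1
    rw [e2, ← hr (i' z), ← Category.assoc, ← Category.assoc, e1]

end Pool.Agent.W473
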