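import Mathlib

/-!
The two addition laws of the cubic curves `a X^3 + Y^3 + Z^3 = 0` (base point `(0 : -1 : 1)`),
and the polynomial identities which say that they define a group.
-/

namespace Pool.Agent.W473

section

variable {B : Type*} [CommRing B]

/-- the cubic form `a X^3 + Y^3 + Z^3`. -/
def FF (a : B) (u : Fin 3 → B) : B := a * u 0 ^ 3 + u 1 ^ 3 + u 2 ^ 3

/-- the first addition law. -/
def law1 (u v : Fin 3 → B) : Fin 3 → B :=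
  ![u 0 ^ 2 * v 1 * v 2 - v 0 ^ 2 * u 1 * u 2,
    u 2 ^ 2 * v 0 * v 1 - v 2 ^ 2 * u 0 * u 1,
    u 1 ^ 2 * v 0 * v 2 - v 1 ^ 2 * u 0 * u 2]

/-- the second addition law. -/
def law2 (a : B) (u v : Fin 3 → B) : Fin 3 → B :=
  ![v 2 ^ 2 * u 0 * u 2 - u 1 ^ 2 * v 0 * v 1,
    v 1 ^ 2 * u 1 * u 2 - a * u 0 ^ 2 * v 0 * v 2,
    a * v 0 ^ 2 * u 0 * u 1 - u 2 ^ 2 * v 1 * v 2]

/-- the addition laws. -/
def law (a : B) (l : Bool) (u v : Fin 3 → B) : Fin 3 → B :=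
  match l with
  | true => law1 u v
  | false => law2 a u v

/-- proportional vectors. -/
def Par (u v : Fin 3 → B) : Prop := ∀ i j, u i * v j = u j * v i

lemma Par.mk' {u v : Fin 3 → B} (h0 : u 1 * v 2 = u 2 * v 1) (h1 : u 2 * v 0 = u 0 * v 2)
    (h2 : u 0 * v 1 = u 1 * v 0) : Par u v := by
  have key : ∀ i j : Fin 3, (i = j) ∨ (i = 1 ∧ j = 2) ∨ (i = 2 ∧ j = 1) ∨ (i = 2 ∧ j = 0) ∨
      (i = 0 ∧ j = 2) ∨ (i = 0 ∧ j = 1) ∨ (i = 1 ∧ j = 0) := by decide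
  intro i j
  rcases key i j with rfl | ⟨rfl, rfl⟩ | ⟨rfl, rfl⟩ | ⟨rfl, rfl⟩ | ⟨rfl, rfl⟩ | ⟨rfl, rfl⟩ | ⟨rfl, rfl⟩
  · rfl
  · exact h0
  · exact h0.symm
  · exact h1
  · exact h1.symm
  · exact h2
  · exact h2.symm

lemma FF_law1 {a : B} {u v : Fin 3 → B} (hu : FF a u = 0) (hv : FF a v = 0) :
    FF a (law1 u v) = 0 := by
  unfold FF law1 at *
  simp only [Matrix.cons_val]
  generalize u 0 = x1 at *
  generalize u 1 = y1 at *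
  generalize u 2 = z1 at *
  generalize v 0 = x2 at *
  generalize v 1 = y2 at *
  generalize v 2 = z2 at *
  have h1 := hu
  have h2 := hv
  linear_combination (-a * x1 ^ 3 * x2 ^ 3 * y2 ^ 3 - a * y1 ^ 3 * x2 ^ 6 - x1 ^ 3 * y2 ^ 6 - 3
      * x1 * y1 * z1 * x2 ^ 2 * y2 ^ 2 * z2 ^ 2 - y1 ^ 3 * x2 ^ 3 * y2 ^ 3 + z1 ^ 3 * x2 ^ 3 *
      y2 ^ 3) * h1 + (a * x1 ^ 6 * y2 ^ 3 + a * x1 ^ 3 * y1 ^ 3 * x2 ^ 3 + x1 ^ 3 * y1 ^ 3 * y2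
      ^ 3 - x1 ^ 3 * y1 ^ 3 * z2 ^ 3 + 3 * x1 ^ 2 * y1 ^ 2 * z1 ^ 2 * x2 * y2 * z2 + y1 ^ 6 *
      x2 ^ 3) * h2

lemma FF_law2 {a : B} {u v : Fin 3 → B} (hu : FF a u = 0) (hv : FF a v = 0) :
    FF a (law2 a u v) = 0 := by
  unfold FF law2 at *
  simp only [Matrix.cons_val]
  generalize u 0 = x1 at *
  generalize u 1 = y1 at *
  generalize u 2 = z1 at *
  generalize v 0 = x2 at *
  generalize v 1 = y2 at *
  generalize v 2 = z2 at *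
  have h1 := hu
  have h2 := hv
  linear_combination (a * x1 ^ 3 * y2 ^ 3 * z2 ^ 3 + a * x1 ^ 3 * z2 ^ 6 + 3 * a * x1 * y1 * z1
      * x2 ^ 2 * y2 ^ 2 * z2 ^ 2 + y1 ^ 3 * y2 ^ 6 + y1 ^ 3 * y2 ^ 3 * z2 ^ 3 - z1 ^ 3 * y2 ^ 3
      * z2 ^ 3) * h1 + (-a ^ 2 * x1 ^ 6 * z2 ^ 3 + a ^ 2 * x1 ^ 3 * y1 ^ 3 * x2 ^ 3 - a * x1 ^
      3 * y1 ^ 3 * y2 ^ 3 - a * x1 ^ 3 * y1 ^ 3 * z2 ^ 3 - 3 * a * x1 ^ 2 * y1 ^ 2 * z1 ^ 2 *
      x2 * y2 * z2 - y1 ^ 6 * y2 ^ 3) * h2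

lemma par_law {a : B} {u v : Fin 3 → B} (hu : FF a u = 0) (hv : FF a v = 0) :
    Par (law1 u v) (law2 a u v) := by
  unfold FF at *
  apply Par.mk' <;> unfold law1 law2 <;> simp only [Matrix.cons_val] <;>
  generalize u 0 = x1 at * <;>
  generalize u 1 = y1 at * <;>
  generalize u 2 = z1 at * <;>
  generalize v 0 = x2 at * <;>
  generalize v 1 = y2 at * <;>
  generalize v 2 = z2 at * <;>
  have h1 := hu <;>
  have h2 := hv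
  · linear_combination (-z1 * x2 * y2 ^ 2 * z2) * h1 + (x1 * y1 * z1 ^ 2 * y2) * h2
  · linear_combination (-y1 * x2 ^ 2 * y2 * z2) * h1 + (x1 * y1 ^ 2 * z1 * x2) * h2
  · linear_combination (-x1 * x2 * y2 * z2 ^ 2) * h1 + (x1 ^ 2 * y1 * z1 * z2) * h2

end

end Pool.Agent.W473
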