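import Pool.Agent.W473.Pt3
import Pool.Agent.W473.Glue
import Pool.Agent.W473.Law

open MvPolynomial DirectSum AlgebraicGeometry CategoryTheory Limits

namespace Pool.Agent.W473

open Pool.Agent.Helper198.Sch

attribute [local instance] MvPolynomial.gradedAlgebra

section laws

variable {B : Type*} [CommRing B]

lemma law_scale (a : B) (l : Bool) (u v : Fin 3 → B) (s t : B) (i : Fin 3) :
    law a l (fun i => s * u i) (fun i => t * v i) i = s ^ 2 * t ^ 2 * law a l u v i := by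
  cases l <;> fin_cases i <;> simp [law, law1, law2] <;> ring

lemma law_map {B' : Type*} [CommRing B'] (φ : B →+* B') (a : B) (l : Bool) (u v : Fin 3 → B)
    (i : Fin 3) : law (φ a) l (fun i => φ (u i)) (fun i => φ (v i)) i = φ (law a l u v i) := by
  cases l <;> fin_cases i <;> simp [law, law1, law2]

lemma FF_law {a : B} (l : Bool) {u v : Fin 3 → B} (hu : FF a u = 0) (hv : FF a v = 0) :
    FF a (law a l u v) = 0 := by
  cases l
  · exact FF_law2 hu hv
  · exact FF_law1 hu hv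

lemma Par.symm {u v : Fin 3 → B} (h : Par u v) : Par v u := by
  intro i j
  rw [mul_comm (v i), mul_comm (v j)]
  exact (h j i)

lemma Par.refl (u : Fin 3 → B) : Par u u := fun i j => mul_comm _ _

lemma par_laws {a : B} (l l' : Bool) {u v : Fin 3 → B} (hu : FF a u = 0) (hv : FF a v = 0) :
    Par (law a l u v) (law a l' u v) := by
  cases l <;> cases l'
  · exact Par.refl _
  · exact (par_law hu hv).symm
  · exact par_law hu hv
  · exact Par.refl _

/-- the two laws are complete -/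
lemma law_complete {k : Type*} [Field k] (h3 : (3 : k) ≠ 0) {a : k} (ha : a ≠ 0)
    {u v : Fin 3 → k} (hu : FF a u = 0) (hv : FF a v = 0) (hu0 : ∃ c, u c ≠ 0)
    (hv0 : ∃ c, v c ≠ 0) : ∃ l c, law a l u v c ≠ 0 := by
  by_contra hcon
  push Not at hcon
  have A := hcon true 0
  have B := hcon true 1
  have C := hcon true 2
  have D := hcon false 0
  have E := hcon false 1
  have G := hcon false 2
  clear hcon
  simp only [law, law1, law2, Matrix.cons_val] at A B C D E G
  unfold FF at hu hv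
  have hu' : ¬ (u 0 = 0 ∧ u 1 = 0 ∧ u 2 = 0) := by
    rintro ⟨h0, h1, h2⟩
    obtain ⟨c, hc⟩ := hu0
    fin_cases c
    · exact hc h0
    · exact hc h1
    · exact hc h2
  have hv' : ¬ (v 0 = 0 ∧ v 1 = 0 ∧ v 2 = 0) := by
    rintro ⟨h0, h1, h2⟩
    obtain ⟨c, hc⟩ := hv0
    fin_cases c
    · exact hc h0
    · exact hc h1
    · exact hc h2
  clear hu0 hv0
  generalize u 0 = x1 at *
  generalize u 1 = y1 at *
  generalize u 2 = z1 at *
  generalize v 0 = x2 at *
  generalize v 1 = y2 at *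
  generalize v 2 = z2 at *
  -- no two coordinates vanish
  have key : ∀ x y z : k, a * x ^ 3 + y ^ 3 + z ^ 3 = 0 → ¬ (x = 0 ∧ y = 0 ∧ z = 0) →
      ¬ (x = 0 ∧ y = 0) ∧ ¬ (y = 0 ∧ z = 0) ∧ ¬ (x = 0 ∧ z = 0) := by
    intro x y z h hn
    refine ⟨?_, ?_, ?_⟩
    · rintro ⟨rfl, rfl⟩
      have : z ^ 3 = 0 := by linear_combination h
      exact hn ⟨rfl, rfl, by simpa using this⟩
    · rintro ⟨rfl, rfl⟩
      have : a * x ^ 3 = 0 := by linear_combination h
      have : x = 0 := by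
        rcases mul_eq_zero.1 this with h' | h'
        · exact absurd h' ha
        · simpa using h'
      exact hn ⟨this, rfl, rfl⟩
    · rintro ⟨rfl, rfl⟩
      have : y ^ 3 = 0 := by linear_combination h
      exact hn ⟨rfl, by simpa using this, rfl⟩
  obtain ⟨ku1, ku2, ku3⟩ := key x1 y1 z1 hu hu'
  obtain ⟨kv1, kv2, kv3⟩ := key x2 y2 z2 hv hv'
  have hx1 : x1 ≠ 0 := by
    rintro rfl
    have hy1 : y1 ≠ 0 := fun h => ku1 ⟨rfl, h⟩
    have hz1 : z1 ≠ 0 := fun h => ku3 ⟨rfl, h⟩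
    have e : x2 ^ 2 * (y1 * z1) = 0 := by linear_combination -A
    have hx2 : x2 = 0 := by
      rcases mul_eq_zero.1 e with h | h
      · simpa using h
      · exact absurd h (mul_ne_zero hy1 hz1)
    have hy2 : y2 ≠ 0 := fun h => kv1 ⟨hx2, h⟩
    have e2 : y2 ^ 2 * (y1 * z1) = 0 := by linear_combination E
    exact mul_ne_zero (pow_ne_zero 2 hy2) (mul_ne_zero hy1 hz1) e2
  have hx2 : x2 ≠ 0 := by
    rintro rfl
    have hy2 : y2 ≠ 0 := fun h => kv1 ⟨rfl, h⟩
    have hz2 : z2 ≠ 0 := fun h => kv3 ⟨rfl, h⟩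
    have e : x1 ^ 2 * (y2 * z2) = 0 := by linear_combination A
    exact mul_ne_zero (pow_ne_zero 2 hx1) (mul_ne_zero hy2 hz2) e
  have hz1 : z1 ≠ 0 := by
    rintro rfl
    have hy1 : y1 ≠ 0 := fun h => ku2 ⟨h, rfl⟩
    have e : z2 ^ 2 * (x1 * y1) = 0 := by linear_combination -B
    have hz2 : z2 = 0 := by
      rcases mul_eq_zero.1 e with h | h
      · simpa using h
      · exact absurd h (mul_ne_zero hx1 hy1)
    have hy2 : y2 ≠ 0 := fun h => kv2 ⟨h, hz2⟩
    have e2 : y1 ^ 2 * (x2 * y2) = 0 := by linear_combination -D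
    exact mul_ne_zero (pow_ne_zero 2 hy1) (mul_ne_zero hx2 hy2) e2
  have hz2 : z2 ≠ 0 := by
    rintro rfl
    have hy2 : y2 ≠ 0 := fun h => kv2 ⟨h, rfl⟩
    have e : z1 ^ 2 * (x2 * y2) = 0 := by linear_combination B
    exact mul_ne_zero (pow_ne_zero 2 hz1) (mul_ne_zero hx2 hy2) e
  have hy1 : y1 ≠ 0 := by
    rintro rfl
    have e : z2 ^ 2 * (x1 * z1) = 0 := by linear_combination D
    exact mul_ne_zero (pow_ne_zero 2 hz2) (mul_ne_zero hx1 hz1) e
  have hy2 : y2 ≠ 0 := by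
    rintro rfl
    have e : z2 ^ 2 * (x1 * z1) = 0 := by linear_combination D
    exact mul_ne_zero (pow_ne_zero 2 hz2) (mul_ne_zero hx1 hz1) e
  have e1 : y1 ^ 3 = z1 ^ 3 := by
    have : (z2 ^ 2 * x1) * (y1 ^ 3 - z1 ^ 3) = 0 := by
      linear_combination -y1 ^ 2 * B - z1 ^ 2 * D
    rcases mul_eq_zero.1 this with h | h
    · exact absurd h (mul_ne_zero (pow_ne_zero 2 hz2) hx1)
    · exact sub_eq_zero.1 h
  have e2 : a * x1 ^ 3 = z1 ^ 3 := by
    have : (x2 ^ 2 * y1) * (a * x1 ^ 3 - z1 ^ 3) = 0 := by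
      linear_combination x1 ^ 2 * G + z1 ^ 2 * A
    rcases mul_eq_zero.1 this with h | h
    · exact absurd h (mul_ne_zero (pow_ne_zero 2 hx2) hy1)
    · exact sub_eq_zero.1 h
  have e3 : 3 * z1 ^ 3 = 0 := by linear_combination hu - e1 - e2
  exact mul_ne_zero h3 (pow_ne_zero 3 hz1) e3

end laws

end Pool.Agent.W473
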