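import Pool.Agent.W473.Hom

/-!
Points over an algebraically closed field: the endomorphism `1 - ω` is surjective.
-/

open AlgebraicGeometry CategoryTheory Limits MonoidalCategory CartesianMonoidalCategory MonObj

namespace Pool.Agent.W473

open Pool.Agent.Helper198.Sch

attribute [local instance] MvPolynomial.gradedAlgebra

/-- points over fields have coordinates. -/
lemma exists_co_field {σ : Type} {R : Type} [CommRing R] {J : HI σ R} {F : Type} [Field F]
    (f : Spec (.of F) ⟶ V J) : ∃ y : Co J F, f = y.pt := by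
  let w : Spec (.of F) := IsLocalRing.closedPoint F
  obtain ⟨c, hc⟩ := V.exists_mem_D J (f w)
  have hr : Set.range f ⊆ Set.range (V.chart J c) := by
    rintro _ ⟨z, rfl⟩
    have hz : z = w := Subsingleton.elim (α := PrimeSpectrum F) _ _
    rw [V.mem_range_chart, hz]
    exact hc
  let g := IsOpenImmersion.lift (V.chart J c) f hr
  have hg : g ≫ V.chart J c = f := IsOpenImmersion.lift_fac _ _ _
  refine ⟨Co.ofHom c (Spec.preimage g).hom, ?_⟩
  rw [Co.ofHom_pt, ← hg]
  congr 1
  exact (Spec.map_preimage g).symm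

section alg

variable {F : Type} [Field F]

/-- the formula for `(1 - ω) P`. -/
def wv (ω : F) (v : Fin 3 → F) : Fin 3 → F :=
  ![(1 - ω ^ 2) * v 0 * v 1 * v 2, ω * v 2 ^ 3 - v 1 ^ 3, ω * v 1 ^ 3 - v 2 ^ 3]

lemma law_wv {ω : F} (hω : ω ^ 2 + ω + 1 = 0) {v : Fin 3 → F} (hv : FF 1 v = 0) (l : Bool) :
    law 1 l v (ng (sc ω v)) = fun i => (if l then v 0 else - ω * v 1) * wv ω v i := by
  have hv' : v 0 ^ 3 + v 1 ^ 3 + v 2 ^ 3 = 0 := by
    simpa [FF] using hv
  funext i
  cases l
  · fin_cases i
    · simp only [law, law2, sc, ng, wv]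
      simp
      linear_combination (v 1 ^ 2 * v 0 * v 2 * (1 - ω)) * hω
    · simp only [law, law2, sc, ng, wv]
      simp
      linear_combination (-(ω * v 1)) * hv' + (v 1 * v 2 ^ 3) * hω
    · simp only [law, law2, sc, ng, wv]
      simp
      linear_combination (ω ^ 2 * v 1) * hv' - (v 1 * v 2 ^ 3) * hω
  · fin_cases i
    · simp only [law, law1, sc, ng, wv]
      simp
      ring
    · simp only [law, law1, sc, ng, wv]
      simp
      ring
    · simp only [law, law1, sc, ng, wv]
      simp
      ring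

/-- surjectivity of the formula. -/
lemma exists_wv [IsAlgClosed F] {ω : F} (hω : ω ^ 2 + ω + 1 = 0) (h3 : (3 : F) ≠ 0)
    {u : Fin 3 → F} (hu : FF 1 u = 0) : ∃ v : Fin 3 → F, FF 1 v = 0 ∧ wv ω v = u := by
  have hu' : u 0 ^ 3 + u 1 ^ 3 + u 2 ^ 3 = 0 := by
    simpa [FF] using hu
  have hd : ω ^ 2 - 1 ≠ 0 := by
    intro h
    have h1 : ω = -2 := by linear_combination hω - h
    rw [h1] at h
    apply h3
    linear_combination h
  have hω0 : ω ^ 3 = 1 := by linear_combination (ω - 1) * hω
  obtain ⟨d, hdd⟩ : ∃ d : F, d * (ω ^ 2 - 1) = 1 := ⟨(ω ^ 2 - 1)⁻¹, inv_mul_cancel₀ hd⟩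
  set p : F := (u 1 + ω * u 2) * d with hp
  set q : F := (u 2 + ω * u 1) * d with hq
  obtain ⟨y, hy⟩ := IsAlgClosed.exists_pow_nat_eq p (n := 3) (by norm_num)
  obtain ⟨z, hz⟩ := IsAlgClosed.exists_pow_nat_eq q (n := 3) (by norm_num)
  -- the key relation
  have key : (1 - ω ^ 2) ^ 3 * (-(p + q)) * p * q = u 0 ^ 3 := by
    have e1 : (1 - ω ^ 2) ^ 3 * (-(p + q)) * p * q =
        (d * (ω ^ 2 - 1)) ^ 3 * ((u 1 + ω * u 2 + (u 2 + ω * u 1)) * (u 1 + ω * u 2) *
          (u 2 + ω * u 1)) := by
      rw [hp, hq]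
      ring
    rw [e1, hdd]
    have e2 : (u 1 + ω * u 2 + (u 2 + ω * u 1)) * (u 1 + ω * u 2) *
          (u 2 + ω * u 1) = - (u 1 ^ 3 + u 2 ^ 3) := by
      linear_combination ((u 1 ^ 3 + u 2 ^ 3) * 1 + (u 1 ^ 2 * u 2 + u 1 * u 2 ^ 2) * (ω + 1)) * hω
    rw [e2]
    linear_combination -hu'
  by_cases hyz : y * z = 0
  · have h0 : u 0 = 0 := by
      have : p * q = 0 := by
        rw [← hy, ← hz, ← mul_pow, hyz]
        norm_num
      have h1 : u 0 ^ 3 = 0 := by
        rw [← key]
        linear_combination ((1 - ω ^ 2) ^ 3 * (-(p + q))) * this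
      exact pow_eq_zero_iff (by norm_num) |>.1 h1
    obtain ⟨x, hx⟩ := IsAlgClosed.exists_pow_nat_eq (-(p + q)) (n := 3) (by norm_num)
    refine ⟨![x, y, z], ?_, ?_⟩
    · simp only [FF, Matrix.cons_val]
      linear_combination hx + hy + hz
    · funext i
      fin_cases i
      · simp only [wv]
        simp
        rw [h0]
        linear_combination ((1 - ω ^ 2) * x) * hyz
      · simp only [wv]
        simp
        rw [hy, hz, hp, hq]
        linear_combination (u 1) * hdd
      · simp only [wv]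
        simp
        rw [hy, hz, hp, hq]
        linear_combination (u 2) * hdd
  · set x : F := u 0 * (-d) * (y * z)⁻¹ with hx
    have hx1 : (1 - ω ^ 2) * x * (y * z) = u 0 := by
      rw [hx]
      have : (y * z)⁻¹ * (y * z) = 1 := inv_mul_cancel₀ hyz
      linear_combination (u 0 * d * (ω ^ 2 - 1)) * this + u 0 * hdd
    have hx3 : x ^ 3 = -(p + q) := by
      have h1 : (1 - ω ^ 2) ^ 3 * (y * z) ^ 3 * (x ^ 3 - -(p + q)) = 0 := by
        have h2 : ((1 - ω ^ 2) * x * (y * z)) ^ 3 = u 0 ^ 3 := by rw [hx1]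
        have h3 : (y * z) ^ 3 = p * q := by rw [mul_pow, hy, hz]
        rw [mul_pow, mul_pow] at h2
        linear_combination h2 - key + ((1 - ω ^ 2) ^ 3 * (p + q)) * h3
      have h4 : (1 - ω ^ 2) ^ 3 * (y * z) ^ 3 ≠ 0 := by
        apply mul_ne_zero
        · apply pow_ne_zero
          intro h
          apply hd
          linear_combination -h
        · exact pow_ne_zero _ hyz
      have h5 := (mul_eq_zero.1 h1).resolve_left h4
      linear_combination h5
    refine ⟨![x, y, z], ?_, ?_⟩
    · simp only [FF, Matrix.cons_val]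
      linear_combination hx3 + hy + hz
    · funext i
      fin_cases i
      · simp only [wv]
        simp
        linear_combination hx1
      · simp only [wv]
        simp
        rw [hy, hz, hp, hq]
        linear_combination (u 1) * hdd
      · simp only [wv]
        simp
        rw [hy, hz, hp, hq]
        linear_combination (u 2) * hdd

end alg

end Pool.Agent.W473
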