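import Pool.Agent.W473.CovRing

/-!
Base change and scaling maps between cubic curves.
-/

open AlgebraicGeometry CategoryTheory Limits

namespace Pool.Agent.W473

open Pool.Agent.Helper198.Sch

attribute [local instance] MvPolynomial.gradedAlgebra

variable {R R' : Type} [CommRing R] [CommRing R']

namespace Co

/-- coordinates over a smaller base. -/
@[simps] def comap {σ : Type} (φ : R →+* R') {J : HI σ R} {J' : HI σ R'} (h : V.Rel φ J J')
    {C : Type} [CommRing C] (y : Co J' C) : Co J C where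
  ρ := y.ρ.comp φ
  u := y.u
  c := y.c
  hc := y.hc
  hu f hf := by
    have h1 := y.hu _ (h hf)
    rwa [MvPolynomial.eval₂_map] at h1

lemma pt_Vmap {σ : Type} (φ : R →+* R') {J : HI σ R} {J' : HI σ R'} (h : V.Rel φ J J')
    {C : Type} [CommRing C] (y : Co J' C) : y.pt ≫ V.map φ J J' h = (y.comap φ h).pt := by
  rw [pt, pt, Category.assoc, V.chart_map, ← Category.assoc, ← Spec.map_comp,
    ← CommRingCat.ofHom_comp]
  have e : y.hom.comp (V.chMap φ J J' h y.c) = (y.comap φ h).hom := by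
    apply ch_ringHom_ext
    · intro r
      rw [RingHom.comp_apply, V.chMap_algebraMap]
      exact (y.hom_algebraMap (φ r)).trans ((y.comap φ h).hom_algebraMap r).symm
    · intro a
      rw [RingHom.comp_apply, V.chMap_frac]
      exact (y.hom_frac a).trans ((y.comap φ h).hom_frac a).symm
  rw [e]
  rfl

end Co

section scale

variable (θ : R →+* R') (a : R') (b : R) (α : R'ˣ) (h : θ b * (α : R') ^ 3 = a)

/-- the scaling map. -/
noncomputable abbrev scm : EV a ⟶ EV b := (scaleOp θ a b α h).hom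

lemma scm_str : scm θ a b α h ≫ V.str (JF b) = V.str (JF a) ≫ Spec.map (CommRingCat.ofHom θ) :=
  (scaleOp θ a b α h).hom_str

/-- the coordinates of a scaled point. -/
noncomputable def scCo {C : Type} [CommRing C] (y : Co (JF a) C) : Co (JF b) C :=
  (scaleOp θ a b α h).co y

lemma scCo_ρ {C : Type} [CommRing C] (y : Co (JF a) C) : (scCo θ a b α h y).ρ = y.ρ.comp θ := rfl

lemma scCo_u {C : Type} [CommRing C] (y : Co (JF a) C) :
    (scCo θ a b α h y).u = sc (y.ρ α) y.u := rfl

lemma pt_scm {C : Type} [CommRing C] (y : Co (JF a) C) :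
    y.pt ≫ scm θ a b α h = (scCo θ a b α h y).pt := (scaleOp θ a b α h).pt_hom' y

include h in
/-- inverse relation -/
lemma sc_inv_rel : (RingHom.id R') a * ((α⁻¹ : R'ˣ) : R') ^ 3 = θ b := by
  subst h
  rw [RingHom.id_apply, mul_assoc, ← mul_pow]
  simp

include h in
lemma sc_rel' : (RingHom.id R') (θ b) * ((α : R'ˣ) : R') ^ 3 = a := h

/-- the scaling isomorphism. -/
noncomputable def scIso : EV a ≅ EV (θ b) where
  hom := scm (RingHom.id R') a (θ b) α (sc_rel' θ a b α h)
  inv := scm (RingHom.id R') (θ b) a α⁻¹ (sc_inv_rel θ a b α h)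
  hom_inv_id := by
    apply hom_ext_co
    intro C _ y
    rw [Category.comp_id, ← Category.assoc, pt_scm, pt_scm]
    apply Co.pt_congr
    · rfl
    · intro i j
      rw [scCo_u, scCo_u, sc_mul]
      have e : ((scCo (RingHom.id R') a (θ b) α (sc_rel' θ a b α h) y).ρ ((α⁻¹ : R'ˣ) : R')) *
          y.ρ α = 1 := by
        change y.ρ ((α⁻¹ : R'ˣ) : R') * y.ρ α = 1
        rw [← map_mul]
        simp
      rw [e, sc_one, mul_comm]
  inv_hom_id := by
    apply hom_ext_co
    intro C _ y
    rw [Category.comp_id, ← Category.assoc, pt_scm, pt_scm]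
    apply Co.pt_congr
    · rfl
    · intro i j
      rw [scCo_u, scCo_u, sc_mul]
      have e : ((scCo (RingHom.id R') (θ b) a α⁻¹ (sc_inv_rel θ a b α h) y).ρ ((α : R'ˣ) : R')) *
          y.ρ ((α⁻¹ : R'ˣ) : R') = 1 := by
        change y.ρ ((α : R'ˣ) : R') * y.ρ ((α⁻¹ : R'ˣ) : R') = 1
        rw [← map_mul]
        simp
      rw [e, sc_one, mul_comm]

lemma scIso_hom : (scIso θ a b α h).hom =
    scm (RingHom.id R') a (θ b) α (sc_rel' θ a b α h) := rfl

lemma scIso_inv : (scIso θ a b α h).inv =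
    scm (RingHom.id R') (θ b) a α⁻¹ (sc_inv_rel θ a b α h) := rfl

lemma scm_eq : scm θ a b α h =
    scm (RingHom.id R') a (θ b) α (sc_rel' θ a b α h) ≫
      V.map θ (JF b) (JF (θ b)) (rel_JF θ b) := by
  apply hom_ext_co
  intro C _ y
  rw [← Category.assoc, pt_scm, pt_scm, Co.pt_Vmap]
  apply Co.pt_congr
  · rw [Co.comap_ρ, scCo_ρ, scCo_ρ]
    rfl
  · intro i j
    have e : (Co.comap θ (rel_JF θ b) (scCo (RingHom.id R') a (θ b) α (sc_rel' θ a b α h) y)).u =
      sc (y.ρ α) y.u := rfl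
    rw [e, scCo_u, mul_comm]

/-- the scaling map is a base change. -/
theorem isPullback_scm : IsPullback (scm θ a b α h) (V.str (JF a)) (V.str (JF b))
    (Spec.map (CommRingCat.ofHom θ)) := by
  refine IsPullback.of_iso (isPullback_EV θ b) (scIso θ a b α h).symm (Iso.refl _) (Iso.refl _)
    (Iso.refl _) ?_ ?_ ?_ ?_
  · rw [scm_eq, ← scIso_hom θ a b α h]
    simp
  · have e : (scIso θ a b α h).inv ≫ V.str (JF a) = V.str (JF (θ b)) := by
      rw [scIso_inv]
      have h2 := scm_str (RingHom.id R') (θ b) a α⁻¹ (sc_inv_rel θ a b α h)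
      refine h2.trans ?_
      exact (congrArg _ (Spec.map_id _)).trans (Category.comp_id _)
    simp only [Iso.refl_hom, Category.comp_id, Iso.symm_hom]
    exact e.symm
  · simp
  · simp

end scale

/-- composition of scaling maps. -/
lemma scm_comp {R'' : Type} [CommRing R''] (θ : R →+* R') (θ' : R' →+* R'') (a : R'') (b : R')
    (c : R) (α : R'ˣ) (α' : R''ˣ) (h : θ c * (α : R') ^ 3 = b)
    (h' : θ' b * (α' : R'') ^ 3 = a) (β : R''ˣ) (hβ : (β : R'') = θ' α * α')
    (h'' : (θ'.comp θ) c * (β : R'') ^ 3 = a) :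
    scm θ' a b α' h' ≫ scm θ b c α h = scm (θ'.comp θ) a c β h'' := by
  apply hom_ext_co
  intro C _ y
  rw [← Category.assoc, pt_scm, pt_scm, pt_scm]
  apply Co.pt_congr
  · rfl
  · intro i j
    rw [scCo_u, scCo_u, scCo_u, sc_mul]
    have e : (scCo θ' a b α' h' y).ρ α * y.ρ α' = y.ρ β := by
      rw [scCo_ρ, RingHom.comp_apply, hβ, map_mul]
    rw [e, mul_comm]

end Pool.Agent.W473
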