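import Pool.Agent.W473.Divis
import Pool.Agent.W473.Scale

/-!
Points over an algebraically closed field: the endomorphism `1 - ω` is surjective.
-/

open AlgebraicGeometry CategoryTheory Limits MonoidalCategory CartesianMonoidalCategory MonObj

namespace Pool.Agent.W473

open Pool.Agent.Helper198.Sch

attribute [local instance] MvPolynomial.gradedAlgebra

section pt

variable {R R' : Type} [CommRing R] [CommRing R']

/-- the map on points of a scaling. -/
noncomputable def scPt (θ : R →+* R') (a : R'ˣ) (b : Rˣ) (α : R'ˣ)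
    (h : θ b * (α : R') ^ 3 = a) {T : Scheme.{0}} {t : T ⟶ Spec (.of R')} {u : T ⟶ Spec (.of R)}
    (hu : t ≫ Spec.map (CommRingCat.ofHom θ) = u) (x : Over.mk t ⟶ Eo a) : Over.mk u ⟶ Eo b :=
  Over.homMk (x.left ≫ scm θ (a : R') (b : R) α h) (by
    have h1 : x.left ≫ V.str (JF (a : R')) = t := Over.w x
    change (x.left ≫ scm θ (a : R') (b : R) α h) ≫ V.str (JF (b : R)) = u
    rw [Category.assoc, scm_str, ← Category.assoc, h1, hu])

@[simp] lemma scPt_left (θ : R →+* R') (a : R'ˣ) (b : Rˣ) (α : R'ˣ)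
    (h : θ b * (α : R') ^ 3 = a) {T : Scheme.{0}} {t : T ⟶ Spec (.of R')} {u : T ⟶ Spec (.of R)}
    (hu : t ≫ Spec.map (CommRingCat.ofHom θ) = u) (x : Over.mk t ⟶ Eo a) :
    (scPt θ a b α h hu x).left = x.left ≫ scm θ (a : R') (b : R) α h := rfl

lemma scPt_mul [Three R] [Three R'] (θ : R →+* R') (a : R'ˣ) (b : Rˣ) (α : R'ˣ)
    (h : θ b * (α : R') ^ 3 = a) {T : Scheme.{0}} {t : T ⟶ Spec (.of R')} {u : T ⟶ Spec (.of R)}
    (hu : t ≫ Spec.map (CommRingCat.ofHom θ) = u) (x y : Over.mk t ⟶ Eo a) :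
    scPt θ a b α h hu (x * y) = scPt θ a b α h hu x * scPt θ a b α h hu y := by
  subst hu
  exact opPt_scale_mul θ a b α h t x y

lemma scPt_surjective (θ : R →+* R') (a : R'ˣ) (b : Rˣ) (α : R'ˣ)
    (h : θ b * (α : R') ^ 3 = a) {T : Scheme.{0}} {t : T ⟶ Spec (.of R')} {u : T ⟶ Spec (.of R)}
    (hu : t ≫ Spec.map (CommRingCat.ofHom θ) = u) (y : Over.mk u ⟶ Eo b) :
    ∃ x : Over.mk t ⟶ Eo a, scPt θ a b α h hu x = y := by
  have hy : y.left ≫ V.str (JF (b : R)) = u := Over.w y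
  have hP := isPullback_scm θ (a : R') (b : R) α h
  refine ⟨Over.homMk (hP.lift y.left t (by rw [hy, hu])) (hP.lift_snd _ _ _), ?_⟩
  apply hom_ext_over
  rw [scPt_left]
  exact hP.lift_fst _ _ _

end pt

section field

variable (F : Type) [Field F]

/-- the group of points over the field. -/
abbrev Mg : Type := Over.mk (𝟙 (Spec (.of F))) ⟶ Eo (1 : Fˣ)

lemma id_comp_id : 𝟙 (Spec (.of F)) ≫ Spec.map (CommRingCat.ofHom (RingHom.id F)) =
    𝟙 (Spec (.of F)) := by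
  rw [Category.id_comp]
  exact Spec.map_id _

variable {F}

lemma om_rel (w : Fˣ) (hw : (w : F) ^ 2 + w + 1 = 0) :
    (RingHom.id F) ((1 : Fˣ) : F) * (w : F) ^ 3 = ((1 : Fˣ) : F) := by
  simp only [RingHom.id_apply, Units.val_one, one_mul]
  linear_combination ((w : F) - 1) * hw

/-- the action of the cube root of unity. -/
noncomputable def om (w : Fˣ) (hw : (w : F) ^ 2 + w + 1 = 0) (x : Mg F) : Mg F :=
  scPt (RingHom.id F) 1 1 w (om_rel w hw) (id_comp_id F) x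

variable [Three F]

lemma om_mul (w : Fˣ) (hw : (w : F) ^ 2 + w + 1 = 0) (x y : Mg F) :
    om w hw (x * y) = om w hw x * om w hw y := scPt_mul _ _ _ _ _ _ x y

lemma three_ne : (3 : F) ≠ 0 := (Three.isUnit (R := F)).ne_zero

theorem one_sub_surjective [IsAlgClosed F] (w : Fˣ) (hw : (w : F) ^ 2 + w + 1 = 0)
    (y : Mg F) : ∃ x : Mg F, x * (om w hw x)⁻¹ = y := by
  obtain ⟨y0, hy0⟩ := exists_co_field (J := JF ((1 : Fˣ) : F)) y.left
  have hρ : y0.ρ = RingHom.id F := by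
    have h1 := y0.pt_str
    have h2 : y.left ≫ V.str (JF ((1 : Fˣ) : F)) = 𝟙 _ := Over.w y
    rw [← hy0, h2] at h1
    have h3 : Spec.map (CommRingCat.ofHom y0.ρ) = Spec.map (CommRingCat.ofHom (RingHom.id F)) := by
      rw [← h1]
      exact (Spec.map_id _).symm
    exact congrArg (fun f => f.hom) (Spec.map_injective h3)
  have hu : FF 1 y0.u = 0 := by
    have h1 := y0.FF_eq
    have h2 : y0.ρ ((1 : Fˣ) : F) = 1 := map_one y0.ρ
    rwa [h2] at h1
  obtain ⟨v, hv, hvw⟩ := exists_wv hw three_ne hu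
  -- `v` is not zero
  have hv01 : v 0 ≠ 0 ∨ v 1 ≠ 0 := by
    by_contra hcon
    push Not at hcon
    have h2 : v 2 = 0 := by
      have : v 2 ^ 3 = 0 := by
        have := hv
        rw [FF, hcon.1, hcon.2] at this
        simpa using this
      exact pow_eq_zero_iff (by norm_num) |>.1 this
    have h4 : y0.u = 0 := by
      rw [← hvw]
      funext i
      fin_cases i <;> simp [wv, hcon.1, hcon.2, h2]
    have h5 := y0.hc
    rw [h4] at h5
    simp at h5
  have hvc : ∃ c, IsUnit (v c) := by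
    rcases hv01 with h | h
    · exact ⟨0, isUnit_iff_ne_zero.2 h⟩
    · exact ⟨1, isUnit_iff_ne_zero.2 h⟩
  obtain ⟨c, hc⟩ := hvc
  have hv1 : FF ((RingHom.id F) ((1 : Fˣ) : F)) v = 0 := by
    rw [RingHom.id_apply, Units.val_one]
    exact hv
  let x0 : Co (JF ((1 : Fˣ) : F)) F := Co.mkF ((1 : Fˣ) : F) (RingHom.id F) v c hc hv1
  let x : Mg F := Over.homMk x0.pt (by
    change x0.pt ≫ V.str (JF ((1 : Fˣ) : F)) = 𝟙 _
    rw [Co.pt_str]
    exact Spec.map_id _)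
  refine ⟨x, ?_⟩
  -- coordinates of `om x`
  let x1 : Co (JF ((1 : Fˣ) : F)) F := scCo (RingHom.id F) ((1 : Fˣ) : F) ((1 : Fˣ) : F) w
    (om_rel w hw) x0
  have hx1 : 𝟙 (Spec (.of F)) ≫ (om w hw x).left = x1.pt := by
    rw [Category.id_comp]
    exact pt_scm _ _ _ _ _ x0
  have hx1u : x1.u = sc (w : F) v := rfl
  let x2 : Co (JF ((1 : Fˣ) : F)) F := ngCo x1
  have hx2 : 𝟙 (Spec (.of F)) ≫ (om w hw x ≫ invMap (1 : Fˣ)).left = x2.pt :=
    inv_coord (om w hw x) (𝟙 _) x1 x2 hx1 rfl rfl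
  have hx2u : x2.u = ng (sc (w : F) v) := rfl
  obtain ⟨l, hl⟩ : ∃ l : Bool, (if l then v 0 else - (w : F) * v 1) ≠ 0 := by
    rcases hv01 with h | h
    · exact ⟨true, h⟩
    · exact ⟨false, mul_ne_zero (neg_ne_zero.2 w.ne_zero) h⟩
  have hlaw : law (x0.ρ ((1 : Fˣ) : F)) l x0.u x2.u =
      fun i => (if l then v 0 else - (w : F) * v 1) * y0.u i := by
    have h1 := law_wv hw hv l
    rw [hvw] at h1
    rw [← h1, hx2u]
    have e : x0.ρ ((1 : Fˣ) : F) = 1 := by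
      change (RingHom.id F) ((1 : Fˣ) : F) = 1
      simp
    rw [e]
    rfl
  let x3 : Co (JF ((1 : Fˣ) : F)) F := Co.mkF ((1 : Fˣ) : F) (RingHom.id F)
    (law (x0.ρ ((1 : Fˣ) : F)) l x0.u x2.u) y0.c (by
      rw [hlaw]
      exact (isUnit_iff_ne_zero.2 hl).mul y0.hc) (by
      apply FF_law
      · exact hv1
      · exact x2.FF_eq)
  have hmul : 𝟙 (Spec (.of F)) ≫ (lift x (om w hw x ≫ invMap (1 : Fˣ)) ≫ mulMap (1 : Fˣ)).left =
      x3.pt :=
    lift_mulMap x (om w hw x ≫ invMap (1 : Fˣ)) (C := .of F) (𝟙 _) x0 x2 x3 l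
      (Category.id_comp _) hx2 rfl rfl rfl
  have hfin : x * (om w hw x)⁻¹ = lift x (om w hw x ≫ invMap (1 : Fˣ)) ≫ mulMap (1 : Fˣ) := rfl
  rw [hfin]
  apply hom_ext_over
  rw [Category.id_comp] at hmul
  rw [hy0, hmul]
  apply Co.pt_congr
  · rw [hρ]
    rfl
  · intro i j
    change law (x0.ρ ((1 : Fˣ) : F)) l x0.u x2.u i * y0.u j =
      law (x0.ρ ((1 : Fˣ) : F)) l x0.u x2.u j * y0.u i
    rw [hlaw]
    ring

end field

end Pool.Agent.W473
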