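import Mathlib

/-!
Products of four group objects.
-/

open CategoryTheory Limits MonoidalCategory CartesianMonoidalCategory MonObj

namespace Pool.Agent.W473

universe v u

variable {C : Type u} [Category.{v} C] [CartesianMonoidalCategory C] (E : Fin 4 → C)

/-- the product of four objects -/
def P4 : C := E 0 ⊗ (E 1 ⊗ (E 2 ⊗ E 3))

/-- the projections -/
def pr : (i : Fin 4) → (P4 E ⟶ E i)
  | 0 => fst (E 0) (E 1 ⊗ (E 2 ⊗ E 3))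
  | 1 => snd (E 0) (E 1 ⊗ (E 2 ⊗ E 3)) ≫ fst (E 1) (E 2 ⊗ E 3)
  | 2 => snd (E 0) (E 1 ⊗ (E 2 ⊗ E 3)) ≫ snd (E 1) (E 2 ⊗ E 3) ≫ fst (E 2) (E 3)
  | 3 => snd (E 0) (E 1 ⊗ (E 2 ⊗ E 3)) ≫ snd (E 1) (E 2 ⊗ E 3) ≫ snd (E 2) (E 3)

variable {E} {T : C}

/-- the morphism with given components -/
def mk4 (f : (i : Fin 4) → (T ⟶ E i)) : T ⟶ P4 E :=
  lift (f 0) (lift (f 1) (lift (f 2) (f 3)))

lemma mk4_pr (f : (i : Fin 4) → (T ⟶ E i)) (i : Fin 4) : mk4 f ≫ pr E i = f i := by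
  fin_cases i
  · exact lift_fst _ _
  · change lift (f 0) (lift (f 1) (lift (f 2) (f 3))) ≫ snd (E 0) (E 1 ⊗ (E 2 ⊗ E 3)) ≫
      fst (E 1) (E 2 ⊗ E 3) = f 1
    rw [← Category.assoc, lift_snd, lift_fst]
  · change lift (f 0) (lift (f 1) (lift (f 2) (f 3))) ≫ snd (E 0) (E 1 ⊗ (E 2 ⊗ E 3)) ≫
      snd (E 1) (E 2 ⊗ E 3) ≫ fst (E 2) (E 3) = f 2
    rw [← Category.assoc, lift_snd, ← Category.assoc, lift_snd, lift_fst]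
  · change lift (f 0) (lift (f 1) (lift (f 2) (f 3))) ≫ snd (E 0) (E 1 ⊗ (E 2 ⊗ E 3)) ≫
      snd (E 1) (E 2 ⊗ E 3) ≫ snd (E 2) (E 3) = f 3
    rw [← Category.assoc, lift_snd, ← Category.assoc, lift_snd, lift_snd]

lemma ext4' {f g : T ⟶ E 0 ⊗ (E 1 ⊗ (E 2 ⊗ E 3))}
    (h0 : f ≫ fst (E 0) (E 1 ⊗ (E 2 ⊗ E 3)) = g ≫ fst (E 0) (E 1 ⊗ (E 2 ⊗ E 3)))
    (h1 : f ≫ snd (E 0) (E 1 ⊗ (E 2 ⊗ E 3)) ≫ fst (E 1) (E 2 ⊗ E 3) =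
      g ≫ snd (E 0) (E 1 ⊗ (E 2 ⊗ E 3)) ≫ fst (E 1) (E 2 ⊗ E 3))
    (h2 : f ≫ snd (E 0) (E 1 ⊗ (E 2 ⊗ E 3)) ≫ snd (E 1) (E 2 ⊗ E 3) ≫ fst (E 2) (E 3) =
      g ≫ snd (E 0) (E 1 ⊗ (E 2 ⊗ E 3)) ≫ snd (E 1) (E 2 ⊗ E 3) ≫ fst (E 2) (E 3))
    (h3 : f ≫ snd (E 0) (E 1 ⊗ (E 2 ⊗ E 3)) ≫ snd (E 1) (E 2 ⊗ E 3) ≫ snd (E 2) (E 3) =
      g ≫ snd (E 0) (E 1 ⊗ (E 2 ⊗ E 3)) ≫ snd (E 1) (E 2 ⊗ E 3) ≫ snd (E 2) (E 3)) :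
    f = g := by
  apply CartesianMonoidalCategory.hom_ext
  · exact h0
  apply CartesianMonoidalCategory.hom_ext
  · simpa only [Category.assoc] using h1
  apply CartesianMonoidalCategory.hom_ext
  · simpa only [Category.assoc] using h2
  · simpa only [Category.assoc] using h3

lemma ext4 {f g : T ⟶ P4 E} (h : ∀ i, f ≫ pr E i = g ≫ pr E i) : f = g :=
  ext4' (h 0) (h 1) (h 2) (h 3)

lemma comp_mk4 {T' : C} (r : T' ⟶ T) (f : (i : Fin 4) → (T ⟶ E i)) :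
    r ≫ mk4 f = mk4 (fun i => r ≫ f i) := by
  apply ext4
  intro i
  rw [Category.assoc, mk4_pr, mk4_pr]

variable [BraidedCategory C] [∀ i, GrpObj (E i)]

instance grpP4 : GrpObj (P4 E) := inferInstanceAs (GrpObj (E 0 ⊗ (E 1 ⊗ (E 2 ⊗ E 3))))

instance isMonHom_pr (i : Fin 4) : IsMonHom (pr E i) := by
  fin_cases i
  · exact inferInstanceAs (IsMonHom (fst (E 0) (E 1 ⊗ (E 2 ⊗ E 3))))
  · exact inferInstanceAs (IsMonHom (snd (E 0) (E 1 ⊗ (E 2 ⊗ E 3)) ≫ fst (E 1) (E 2 ⊗ E 3)))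
  · exact inferInstanceAs (IsMonHom (snd (E 0) (E 1 ⊗ (E 2 ⊗ E 3)) ≫
      snd (E 1) (E 2 ⊗ E 3) ≫ fst (E 2) (E 3)))
  · exact inferInstanceAs (IsMonHom (snd (E 0) (E 1 ⊗ (E 2 ⊗ E 3)) ≫
      snd (E 1) (E 2 ⊗ E 3) ≫ snd (E 2) (E 3)))

lemma mk4_mul (f g : (i : Fin 4) → (T ⟶ E i)) :
    mk4 (fun i => f i * g i) = mk4 f * mk4 g := by
  apply ext4
  intro i
  rw [mk4_pr, MonObj.mul_comp, mk4_pr, mk4_pr]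

end Pool.Agent.W473
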