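import Pool.Agent.W473.PinkDefs
import Pool.Agent.Helper834.EC.Dim1

/-!
General lemmas for the disproof.
-/

open AlgebraicGeometry CategoryTheory Limits MonObj

namespace Pool.Agent.W473.Pink

section sub

variable {S S' : Scheme.{0}} (A : Over S) (q : S' ⟶ S) (E : Over S')
    (φ : E.left ⟶ A.left) (hφ : φ ≫ A.hom = E.hom ≫ q)

/-- the map on points -/
noncomputable def ptMap {T : Scheme.{0}} (t : T ⟶ S') (x : Over.mk t ⟶ E) :
    Over.mk (t ≫ q) ⟶ A :=
  Over.homMk (x.left ≫ φ) (by
    have h : x.left ≫ E.hom = t := Over.w x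
    change (x.left ≫ φ) ≫ A.hom = t ≫ q
    rw [Category.assoc, hφ, ← Category.assoc, h])

@[simp] lemma ptMap_left {T : Scheme.{0}} (t : T ⟶ S') (x : Over.mk t ⟶ E) :
    (ptMap A q E φ hφ t x).left = x.left ≫ φ := rfl

/-- The image of a homomorphism which is a closed immersion is a closed subgroup. -/
theorem isClosedSubgroup_of_hom [GrpObj A] [GrpObj E]
    (hmul : ∀ (T : Scheme.{0}) (t : T ⟶ S') (x y : Over.mk t ⟶ E),
      ptMap A q E φ hφ t (x * y) = ptMap A q E φ hφ t x * ptMap A q E φ hφ t y)
    (hcl : IsClosedImmersion (pullback.lift φ E.hom hφ)) :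
    IsClosedSubgroup A q (pullback.lift φ E.hom hφ) := by
  refine ⟨hcl, fun T t => ⟨(MonoidHom.mk' (ptMap A q E φ hφ t) (hmul T t)).range, fun a => ?_⟩⟩
  rw [MonoidHom.mem_range]
  constructor
  · rintro ⟨x, rfl⟩
    refine ⟨x.left, ?_⟩
    have h : x.left ≫ E.hom = t := Over.w x
    apply pullback.hom_ext
    · rw [Category.assoc, pullback.lift_fst, pullback.lift_fst]
      rfl
    · rw [Category.assoc, pullback.lift_snd, pullback.lift_snd, h]
  · rintro ⟨b, hb⟩
    have h1 : b ≫ φ = a.left := by
      have := congrArg (fun f => f ≫ pullback.fst A.hom q) hb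
      simp only [Category.assoc] at this
      rwa [pullback.lift_fst, pullback.lift_fst] at this
    have h2 : b ≫ E.hom = t := by
      have := congrArg (fun f => f ≫ pullback.snd A.hom q) hb
      simp only [Category.assoc] at this
      rwa [pullback.lift_snd, pullback.lift_snd] at this
    refine ⟨Over.homMk b h2, ?_⟩
    apply Over.OverMorphism.ext
    exact h1

end sub

section top

open TopologicalSpace

/-- irreducible closed sets lift along closed maps. -/
lemma exists_lift_irreducible {Y X : Type*} [TopologicalSpace Y] [TopologicalSpace X]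
    [NoetherianSpace Y] {g : Y → X} (hg : Continuous g) (hc : IsClosedMap g) {C : Set Y}
    (hC : IsClosed C) {Z : Set X} (hZ : IsIrreducible Z) (hZc : IsClosed Z) (hZC : Z ⊆ g '' C) :
    ∃ W : Set Y, IsClosed W ∧ IsIrreducible W ∧ W ⊆ C ∧ g '' W = Z := by
  obtain ⟨S, hS, hcl, hirr, hsup⟩ := NoetherianSpace.exists_finite_set_isClosed_irreducible
    (hC.inter (hZc.preimage hg))
  have hfin : ((fun W => g '' W) '' S).Finite := hS.image _
  obtain ⟨T, hT, hZT⟩ := isIrreducible_iff_sUnion_isClosed.1 hZ hfin.toFinset (by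
    intro T hT
    rw [Set.Finite.mem_toFinset] at hT
    obtain ⟨W, hW, rfl⟩ := hT
    exact hc _ (hcl W hW)) (by
    rw [Set.Finite.coe_toFinset]
    intro z hz
    obtain ⟨y, hy, rfl⟩ := hZC hz
    have h1 : y ∈ ⋃₀ S := by
      rw [← hsup]
      exact ⟨hy, hz⟩
    obtain ⟨W, hW, hyW⟩ := h1
    exact ⟨g '' W, ⟨W, hW, rfl⟩, ⟨y, hyW, rfl⟩⟩)
  rw [Set.Finite.mem_toFinset] at hT
  obtain ⟨W, hW, rfl⟩ := hT
  have hWsub : W ⊆ C ∩ g ⁻¹' Z := by
    rw [hsup]
    exact Set.subset_sUnion_of_mem hW
  refine ⟨W, hcl W hW, hirr W hW, fun w hw => (hWsub hw).1, ?_⟩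
  apply Set.Subset.antisymm
  · rintro _ ⟨w, hw, rfl⟩
    exact (hWsub hw).2
  · exact hZT

/-- A closed continuous surjection from a Noetherian space does not raise the dimension. -/
theorem topologicalKrullDim_le_of_closed_surjective {Y X : Type*} [TopologicalSpace Y]
    [TopologicalSpace X] [NoetherianSpace Y] (g : Y → X) (hg : Continuous g)
    (hc : IsClosedMap g) (hs : Function.Surjective g) :
    topologicalKrullDim X ≤ topologicalKrullDim Y := by
  let π : IrreducibleCloseds Y → IrreducibleCloseds X := fun W =>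
    ⟨g '' W.carrier, W.isIrreducible'.image g hg.continuousOn, hc _ W.isClosed'⟩
  apply Helper834.EC.krullDim_le_of_lift_down π
  · intro Z
    obtain ⟨W, h1, h2, h3, h4⟩ := exists_lift_irreducible hg hc isClosed_univ Z.isIrreducible'
      Z.isClosed' (by rw [Set.image_univ, hs.range_eq]; exact Set.subset_univ _)
    exact ⟨⟨W, h2, h1⟩, SetLike.coe_injective h4⟩
  · intro W Z hZ
    have hle : Z.carrier ⊆ g '' W.carrier := hZ.le
    obtain ⟨W', h1, h2, h3, h4⟩ := exists_lift_irreducible hg hc W.isClosed' Z.isIrreducible'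
      Z.isClosed' hle
    have h5 : π ⟨W', h2, h1⟩ = Z := SetLike.coe_injective h4
    refine ⟨⟨W', h2, h1⟩, lt_of_le_of_ne h3 ?_, h5⟩
    intro h
    rw [h] at h5
    exact hZ.ne h5.symm

/-- A closed continuous image of a Noetherian space has no larger dimension. -/
theorem topologicalKrullDim_range_le {Y Z : Type*} [TopologicalSpace Y] [TopologicalSpace Z]
    [NoetherianSpace Y] (f : Y → Z) (hf : Continuous f) (hc : IsClosedMap f) :
    topologicalKrullDim (Set.range f) ≤ topologicalKrullDim Y := by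
  apply topologicalKrullDim_le_of_closed_surjective (Set.rangeFactorization f)
  · exact hf.subtype_mk _
  · intro s hs
    have h1 := hc s hs
    have : Set.rangeFactorization f '' s = Subtype.val ⁻¹' (f '' s) := by
      ext ⟨y, z, rfl⟩
      constructor
      · rintro ⟨w, hw, hw2⟩
        exact ⟨w, hw, congrArg Subtype.val hw2⟩
      · rintro ⟨w, hw, hw2⟩
        exact ⟨w, hw, Subtype.ext hw2⟩
    rw [this]
    exact h1.preimage continuous_subtype_val
  · exact Set.rangeFactorization_surjective

end top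

end Pool.Agent.W473.Pink
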