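import Pool.Agent.W473.Scale
import Pool.Agent.W473.PinkGen
import Pool.Agent.W473.Four

/-!
The scaled diagonal embeddings of a cubic curve into the product of four twisted curves.
-/

open AlgebraicGeometry CategoryTheory Limits MonoidalCategory CartesianMonoidalCategory MonObj

namespace Pool.Agent.W473

open Pool.Agent.Helper198.Sch Pink

attribute [local instance] MvPolynomial.gradedAlgebra

/-- the abelian scheme -/
noncomputable abbrev AP {R : Type} [CommRing R] (a : Fin 4 → Rˣ) : Over (Spec (.of R)) :=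
  P4 (fun i => Eo (a i))

lemma abSch_AP {R : Type} [CommRing R] [Three R] (a : Fin 4 → Rˣ) : AbSch 4 (AP a) := abSch_A4 a

section

variable {R C : Type} [CommRing R] [CommRing C] (a : Fin 4 → Rˣ) (θ : R →+* C) (gm : Fin 4 → Cˣ)
  (h : ∀ i, θ (a i) * (gm i : C) ^ 3 = ((1 : Cˣ) : C))

/-- the components -/
noncomputable def cmp (i : Fin 4) :
    Over.mk (V.str (JF ((1 : Cˣ) : C)) ≫ Spec.map (CommRingCat.ofHom θ)) ⟶ Eo (a i) :=
  Over.homMk (scm θ ((1 : Cˣ) : C) (a i : R) (gm i) (h i))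
    (scm_str θ ((1 : Cˣ) : C) (a i : R) (gm i) (h i))

@[simp] lemma cmp_left (i : Fin 4) :
    (cmp a θ gm h i).left = scm θ ((1 : Cˣ) : C) (a i : R) (gm i) (h i) := rfl

/-- the scaled diagonal -/
noncomputable def phi : (Eo (1 : Cˣ)).left ⟶ (AP a).left :=
  (mk4 (E := fun i => Eo (a i)) (cmp a θ gm h)).left

lemma phi_w : phi a θ gm h ≫ (AP a).hom = (Eo (1 : Cˣ)).hom ≫ Spec.map (CommRingCat.ofHom θ) :=
  Over.w (mk4 (E := fun i => Eo (a i)) (cmp a θ gm h))

lemma phi_pr (i : Fin 4) : phi a θ gm h ≫ (pr (fun i => Eo (a i)) i).left =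
    scm θ ((1 : Cˣ) : C) (a i : R) (gm i) (h i) := by
  have h1 := congrArg (fun f => f.left) (mk4_pr (E := fun i => Eo (a i)) (cmp a θ gm h) i)
  exact h1

lemma ptMap_pr {T : Scheme.{0}} (t : T ⟶ Spec (.of C)) (x : Over.mk t ⟶ Eo (1 : Cˣ))
    (i : Fin 4) :
    ptMap (AP a) (Spec.map (CommRingCat.ofHom θ)) (Eo (1 : Cˣ)) (phi a θ gm h) (phi_w a θ gm h) t x ≫
      pr (fun i => Eo (a i)) i =
    opPt (scaleOp θ ((1 : Cˣ) : C) (a i : R) (gm i) (h i)) t x := by
  apply hom_ext_over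
  rw [Over.comp_left, ptMap_left, Category.assoc, phi_pr]
  rfl

variable [Three R] [Three C]

lemma ptMap_mul {T : Scheme.{0}} (t : T ⟶ Spec (.of C)) (x y : Over.mk t ⟶ Eo (1 : Cˣ)) :
    ptMap (AP a) (Spec.map (CommRingCat.ofHom θ)) (Eo (1 : Cˣ)) (phi a θ gm h) (phi_w a θ gm h) t
      (x * y) =
    ptMap (AP a) (Spec.map (CommRingCat.ofHom θ)) (Eo (1 : Cˣ)) (phi a θ gm h) (phi_w a θ gm h) t x *
    ptMap (AP a) (Spec.map (CommRingCat.ofHom θ)) (Eo (1 : Cˣ)) (phi a θ gm h) (phi_w a θ gm h) t y := by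
  apply ext4
  intro i
  rw [MonObj.mul_comp, ptMap_pr, ptMap_pr, ptMap_pr]
  exact opPt_scale_mul θ (1 : Cˣ) (a i) (gm i) (h i) t x y

omit [Three C] in
lemma closed_phi : IsClosedImmersion (pullback.lift (phi a θ gm h) (Eo (1 : Cˣ)).hom
    (phi_w a θ gm h) : (Eo (1 : Cˣ)).left ⟶ baseChange (AP a) (Spec.map (CommRingCat.ofHom θ))) := by
  have hA := abSch_AP a
  have hp : IsProper (AP a).hom := hA.proper
  let r : baseChange (AP a) (Spec.map (CommRingCat.ofHom θ)) ⟶
      pullback (V.str (JF (a 0 : R))) (Spec.map (CommRingCat.ofHom θ)) :=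
    pullback.lift (pullback.fst _ _ ≫ (pr (fun i => Eo (a i)) 0).left) (pullback.snd _ _) (by
      have e : (pr (fun i => Eo (a i)) 0).left ≫ V.str (JF (a 0 : R)) = (AP a).hom :=
        Over.w (pr (fun i => Eo (a i)) 0)
      rw [Category.assoc, e, pullback.condition])
  have hr1 : r ≫ pullback.snd _ _ = pullback.snd _ _ := pullback.lift_snd _ _ _
  have hsep : IsSeparated (r ≫ pullback.snd _ _) := by
    rw [hr1]
    infer_instance
  have hsep2 : IsSeparated r := IsSeparated.of_comp r (pullback.snd _ _)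
  have hiso : (pullback.lift (phi a θ gm h) (Eo (1 : Cˣ)).hom (phi_w a θ gm h)) ≫ r =
      (isPullback_scm θ ((1 : Cˣ) : C) (a 0 : R) (gm 0) (h 0)).isoPullback.hom := by
    apply pullback.hom_ext
    · rw [IsPullback.isoPullback_hom_fst, Category.assoc]
      change _ ≫ r ≫ pullback.fst _ _ = _
      have e1 : r ≫ pullback.fst (V.str (JF (a 0 : R))) (Spec.map (CommRingCat.ofHom θ)) =
        pullback.fst _ _ ≫ (pr (fun i => Eo (a i)) 0).left := pullback.lift_fst _ _ _
      rw [e1, ← Category.assoc, pullback.lift_fst, phi_pr]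
    · rw [IsPullback.isoPullback_hom_snd, Category.assoc, hr1, pullback.lift_snd]
      rfl
  have h1 : IsClosedImmersion ((pullback.lift (phi a θ gm h) (Eo (1 : Cˣ)).hom (phi_w a θ gm h)) ≫ r) := by
    rw [hiso]
    infer_instance
  exact IsClosedImmersion.of_comp _ r

/-- The scaled diagonal is a closed subgroup. -/
theorem isClosedSubgroup_phi : IsClosedSubgroup (AP a) (Spec.map (CommRingCat.ofHom θ))
    (pullback.lift (phi a θ gm h) (Eo (1 : Cˣ)).hom (phi_w a θ gm h)) :=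
  isClosedSubgroup_of_hom (AP a) _ (Eo (1 : Cˣ)) (phi a θ gm h) (phi_w a θ gm h)
    (fun _ t x y => ptMap_mul a θ gm h t x y) (closed_phi a θ gm h)

end

end Pool.Agent.W473
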