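import Pool.Agent.W473.Unary
import Pool.Agent.W473.AssocAll

open MvPolynomial DirectSum AlgebraicGeometry CategoryTheory Limits MonoidalCategory
  CartesianMonoidalCategory

namespace Pool.Agent.W473

open Pool.Agent.Helper198.Sch

attribute [local instance] MvPolynomial.gradedAlgebra

variable {R : Type} [CommRing R]

/-- `3` is invertible. -/
class Three (R : Type) [CommRing R] : Prop where
  isUnit : IsUnit (3 : R)

/-- the projective cubic curve over `Spec R`, as an object over `Spec R` -/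
noncomputable abbrev Eo (a : Rˣ) : Over (Spec (.of R)) := Over.mk (V.str (JF (a : R)))

variable {a : Rˣ}

/-- the local sum -/
lemma exists_sum [h3 : Three R] {C : Type} [CommRing C] (y z : Co (JF (a : R)) C) (h : z.ρ = y.ρ)
    (w : PrimeSpectrum C) : ∃ (D : Type) (_ : CommRing D) (φ : C →+* D) (x : Co (JF (a : R)) D)
      (l : Bool), IsOpenImmersion (Spec.map (CommRingCat.ofHom φ)) ∧
      w ∈ Set.range (PrimeSpectrum.comap φ) ∧ x.ρ = φ.comp y.ρ ∧
      x.u = law (φ (y.ρ a)) l (fun i => φ (y.u i)) (fun i => φ (z.u i)) := by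
  have h3' : IsUnit (3 : C) := by
    have := h3.isUnit.map y.ρ
    rwa [map_ofNat] at this
  have hv : FF (y.ρ a) z.u = 0 := by
    rw [← h]
    exact z.FF_eq
  obtain ⟨l, c, hlc⟩ := law_notMem w.asIdeal h3' (a.isUnit.map y.ρ) y.FF_eq hv ⟨y.c, y.hc⟩
    ⟨z.c, z.hc⟩
  set g : C := law (y.ρ a) l y.u z.u c with hg
  let L := Localization.Away g
  refine ⟨L, inferInstance, algebraMap C L, Co.mkF (a : R) ((algebraMap C L).comp y.ρ)
    (law (algebraMap C L (y.ρ a)) l (fun i => algebraMap C L (y.u i))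
      (fun i => algebraMap C L (z.u i))) c ?_ ?_, l, ?_, ?_, rfl, rfl⟩
  · rw [law_map]
    exact IsLocalization.Away.algebraMap_isUnit g
  · apply FF_law
    · have := congrArg (algebraMap C L) y.FF_eq
      simpa [FF] using this
    · have := congrArg (algebraMap C L) hv
      simpa [FF] using this
  · exact IsOpenImmersion.of_isLocalization g
  · rw [PrimeSpectrum.localization_away_comap_range L g]
    exact hlc

section two

variable {T : Over (Spec (.of R))}

/-- local coordinates of a family of two morphisms. -/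
lemma exists_local₂ (f g : T ⟶ Eo a) (w : T.left) :
    ∃ (C : CommRingCat.{0}) (i : Spec C ⟶ T.left) (_ : IsOpenImmersion i) (y z : Co (JF (a : R)) C),
      w ∈ Set.range i ∧ i ≫ f.left = y.pt ∧ i ≫ g.left = z.pt ∧ z.ρ = y.ρ := by
  obtain ⟨C, i, hi, y, ⟨w1, rfl⟩, hy⟩ := exists_local f.left w
  obtain ⟨D, j, hj, z, ⟨w2, rfl⟩, hz⟩ := exists_local (i ≫ g.left) w1
  have hy1 : j ≫ i ≫ f.left = (y.map (Spec.preimage j).hom).pt := by
    rw [← Co.map_pt, ← hy]
    congr 1
    exact (Spec.map_preimage j).symm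
  refine ⟨D, j ≫ i, inferInstance, y.map (Spec.preimage j).hom, z, ⟨w2, rfl⟩, ?_, ?_, ?_⟩
  · rw [Category.assoc]; exact hy1
  · rw [Category.assoc]; exact hz
  · have h1 := z.pt_str
    have h2 := (y.map (Spec.preimage j).hom).pt_str
    have hf : f.left ≫ V.str (JF (a : R)) = T.hom := Over.w f
    have hg : g.left ≫ V.str (JF (a : R)) = T.hom := Over.w g
    rw [← hz, Category.assoc, Category.assoc, hg] at h1
    rw [← hy1, Category.assoc, Category.assoc, hf, h1] at h2
    exact congrArg (fun f => f.hom) (Spec.map_injective h2)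

lemma exists_local₃ (f g h : T ⟶ Eo a) (w : T.left) :
    ∃ (C : CommRingCat.{0}) (i : Spec C ⟶ T.left) (_ : IsOpenImmersion i)
      (y z t : Co (JF (a : R)) C), w ∈ Set.range i ∧ i ≫ f.left = y.pt ∧ i ≫ g.left = z.pt ∧
      i ≫ h.left = t.pt ∧ z.ρ = y.ρ ∧ t.ρ = y.ρ := by
  obtain ⟨C, i, hi, y, z, ⟨w1, rfl⟩, hy, hz, hyz⟩ := exists_local₂ f g w
  obtain ⟨D, j, hj, t, ⟨w2, rfl⟩, ht⟩ := exists_local (i ≫ h.left) w1
  have hy1 : j ≫ i ≫ f.left = (y.map (Spec.preimage j).hom).pt := by
    rw [← Co.map_pt, ← hy]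
    congr 1
    exact (Spec.map_preimage j).symm
  have hz1 : j ≫ i ≫ g.left = (z.map (Spec.preimage j).hom).pt := by
    rw [← Co.map_pt, ← hz]
    congr 1
    exact (Spec.map_preimage j).symm
  refine ⟨D, j ≫ i, inferInstance, y.map (Spec.preimage j).hom, z.map (Spec.preimage j).hom, t,
    ⟨w2, rfl⟩, ?_, ?_, ?_, ?_, ?_⟩
  · rw [Category.assoc]; exact hy1
  · rw [Category.assoc]; exact hz1
  · rw [Category.assoc]; exact ht
  · simp [hyz]
  · have h1 := t.pt_str
    have h2 := (y.map (Spec.preimage j).hom).pt_str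
    have hf : f.left ≫ V.str (JF (a : R)) = T.hom := Over.w f
    have hg : h.left ≫ V.str (JF (a : R)) = T.hom := Over.w h
    rw [← ht, Category.assoc, Category.assoc, hg] at h1
    rw [← hy1, Category.assoc, Category.assoc, hf, h1] at h2
    exact congrArg (fun f => f.hom) (Spec.map_injective h2)

end two

section mul

variable [h3 : Three R]

/-- the addition morphism of the curve -/
noncomputable def mulLeft (a : Rˣ) : pullback (V.str (JF (a : R))) (V.str (JF (a : R))) ⟶
    EV (a : R) :=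
  (exists_add h3.isUnit a.isUnit (pullback.fst _ _) (pullback.snd _ _) pullback.condition).choose

lemma mulLeft_spec (C : CommRingCat.{0})
    (i : Spec C ⟶ pullback (V.str (JF (a : R))) (V.str (JF (a : R)))) (f : Spec C ⟶ EV (a : R))
    (h : AddRel (a : R) (C := C) (i ≫ pullback.fst _ _) (i ≫ pullback.snd _ _) f) :
    i ≫ mulLeft a = f :=
  (exists_add h3.isUnit a.isUnit (pullback.fst _ _) (pullback.snd _ _)
    pullback.condition).choose_spec C i f h

lemma mulLeft_str (a : Rˣ) :
    mulLeft a ≫ V.str (JF (a : R)) = pullback.fst _ _ ≫ V.str (JF (a : R)) := by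
  apply hom_ext_local
  intro w
  obtain ⟨C, i, f, hi, hw, hf⟩ := exists_addRel h3.isUnit a.isUnit (pullback.fst _ _)
    (pullback.snd _ _) pullback.condition w
  refine ⟨C, i, hi, hw, ?_⟩
  rw [← Category.assoc, mulLeft_spec C i f hf]
  obtain ⟨y, z, x, l, hz, hx, hp, hq, hr, hu⟩ := hf
  rw [hr, ← Category.assoc, hp, Co.pt_str, Co.pt_str, hx]

/-- the multiplication -/
noncomputable def mulMap (a : Rˣ) : Eo a ⊗ Eo a ⟶ Eo a :=
  Over.homMk (mulLeft a) (mulLeft_str a)

/-- the neutral element -/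
noncomputable def oneCo (a : Rˣ) : Co (JF (a : R)) R :=
  Co.mkF (a : R) (RingHom.id R) e0 2 (by simp [e0]) (FF_e0 _)

/-- the neutral element -/
noncomputable def oneMap (a : Rˣ) : 𝟙_ (Over (Spec (.of R))) ⟶ Eo a :=
  Over.homMk (oneCo a).pt (by
    change (oneCo a).pt ≫ V.str (JF (a : R)) = 𝟙 _
    rw [Co.pt_str]
    exact Spec.map_id _)

/-- the inverse -/
noncomputable def invMap (a : Rˣ) : Eo a ⟶ Eo a :=
  Over.homMk (negOp (a : R)).hom (by
    change (negOp (a : R)).hom ≫ V.str (JF (a : R)) = V.str (JF (a : R))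
    rw [Op.hom_str]
    exact (congrArg _ (Spec.map_id _)).trans (Category.comp_id _))

lemma lift_mulMap {T : Over (Spec (.of R))} (f g : T ⟶ Eo a) {C : CommRingCat.{0}}
    (i : Spec C ⟶ T.left) (y z x : Co (JF (a : R)) C) (l : Bool) (hy : i ≫ f.left = y.pt)
    (hz : i ≫ g.left = z.pt) (hρ : z.ρ = y.ρ) (hx : x.ρ = y.ρ)
    (hu : x.u = law (y.ρ a) l y.u z.u) : i ≫ (lift f g ≫ mulMap a).left = x.pt := by
  rw [Over.comp_left, ← Category.assoc]
  apply mulLeft_spec
  refine ⟨y, z, x, l, hρ, hx, ?_, ?_, rfl, hu⟩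
  · rw [← hy, Category.assoc]
    congr 1
    exact congrArg (fun k => k.left) (lift_fst f g)
  · rw [← hz, Category.assoc]
    congr 1
    exact congrArg (fun k => k.left) (lift_snd f g)

end mul

end Pool.Agent.W473
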