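import Pool.Agent.W473.Group

open MvPolynomial DirectSum AlgebraicGeometry CategoryTheory Limits MonoidalCategory
  CartesianMonoidalCategory

namespace Pool.Agent.W473

open Pool.Agent.Helper198.Sch

attribute [local instance] MvPolynomial.gradedAlgebra

variable {R : Type} [CommRing R] {a : Rˣ} {T : Over (Spec (.of R))}

lemma hom_ext_over {f g : T ⟶ Eo a} (h : f.left = g.left) : f = g := Over.OverMorphism.ext h

/-- the structure map on a chart with coordinates -/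
lemma str_of_coord (f : T ⟶ Eo a) {C : CommRingCat.{0}} (i : Spec C ⟶ T.left)
    (y : Co (JF (a : R)) C) (hy : i ≫ f.left = y.pt) :
    i ≫ T.hom = Spec.map (CommRingCat.ofHom y.ρ) := by
  have hf : f.left ≫ V.str (JF (a : R)) = T.hom := Over.w f
  rw [← hf, ← Category.assoc, hy, Co.pt_str]

/-- the neutral element in coordinates -/
lemma one_coord {C : CommRingCat.{0}} (i : Spec C ⟶ T.left) (ρ : R →+* C)
    (hi : i ≫ T.hom = Spec.map (CommRingCat.ofHom ρ)) :
    i ≫ (toUnit T ≫ oneMap a).left = ((oneCo a).map ρ).pt := by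
  rw [← Co.map_pt, ← hi]
  rfl

/-- the inverse in coordinates -/
lemma inv_coord (f : T ⟶ Eo a) {C : CommRingCat.{0}} (i : Spec C ⟶ T.left)
    (y x : Co (JF (a : R)) C) (hy : i ≫ f.left = y.pt) (hx : x.ρ = y.ρ) (hu : x.u = ng y.u) :
    i ≫ (f ≫ invMap a).left = x.pt := by
  rw [Over.comp_left, ← Category.assoc, hy]
  exact (negOp (a : R)).pt_hom y x (by rw [hx]; rfl) hu

/-- refinement of an open immersion -/
lemma comp_range {W : Scheme.{0}} {C : CommRingCat.{0}} {D : Type} [CommRing D] (i : Spec C ⟶ W)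
    (φ : C →+* D) (w : PrimeSpectrum C) (h : w ∈ Set.range (PrimeSpectrum.comap φ)) :
    i w ∈ Set.range (Spec.map (CommRingCat.ofHom φ) ≫ i) := by
  obtain ⟨z, hz⟩ := h
  exact ⟨z, congrArg i hz⟩

lemma coord_map {Z : Scheme.{0}} {σ : Type} {J : HI σ R} {f : Z ⟶ V J} {C : CommRingCat.{0}}
    {i : Spec C ⟶ Z} {y : Co J C} (hy : i ≫ f = y.pt) {D : Type} [CommRing D] (φ : C →+* D) :
    (Spec.map (CommRingCat.ofHom φ) ≫ i) ≫ f = (y.map φ).pt := by
  rw [Category.assoc, hy, Co.map_pt]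

variable [h3 : Three R]

theorem one_mul' (f : T ⟶ Eo a) : lift (toUnit T ≫ oneMap a) f ≫ mulMap a = f := by
  apply hom_ext_over
  apply hom_ext_local
  intro w
  obtain ⟨C, i, hi, z, ⟨w1, rfl⟩, hz⟩ := exists_local f.left w
  have h1 := one_coord (a := a) i z.ρ (str_of_coord f i z hz)
  obtain ⟨D, _, φ, x, l, hφ, hw, hxρ, hxu⟩ := exists_sum ((oneCo a).map z.ρ) z rfl w1
  have hφ' := hφ
  refine ⟨.of D, Spec.map (CommRingCat.ofHom φ) ≫ i, inferInstance, comp_range i φ w1 hw, ?_⟩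
  have h2 := lift_mulMap (toUnit T ≫ oneMap a) f (Spec.map (CommRingCat.ofHom φ) ≫ i)
    (((oneCo a).map z.ρ).map φ) (z.map φ) x l (coord_map h1 φ) (coord_map hz φ) rfl hxρ hxu
  rw [h2, coord_map hz φ]
  apply Co.pt_congr
  · exact hxρ
  · rw [hxu]
    have e : (fun i => φ (((oneCo a).map z.ρ).u i)) = (e0 : Fin 3 → D) := by
      funext i
      fin_cases i <;> simp [oneCo, e0]
    rw [e]
    exact law_e0_left _ l _

theorem mul_one' (f : T ⟶ Eo a) : lift f (toUnit T ≫ oneMap a) ≫ mulMap a = f := by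
  apply hom_ext_over
  apply hom_ext_local
  intro w
  obtain ⟨C, i, hi, z, ⟨w1, rfl⟩, hz⟩ := exists_local f.left w
  have h1 := one_coord (a := a) i z.ρ (str_of_coord f i z hz)
  obtain ⟨D, _, φ, x, l, hφ, hw, hxρ, hxu⟩ := exists_sum z ((oneCo a).map z.ρ) rfl w1
  refine ⟨.of D, Spec.map (CommRingCat.ofHom φ) ≫ i, inferInstance, comp_range i φ w1 hw, ?_⟩
  have h2 := lift_mulMap f (toUnit T ≫ oneMap a) (Spec.map (CommRingCat.ofHom φ) ≫ i)
    (z.map φ) (((oneCo a).map z.ρ).map φ) x l (coord_map hz φ) (coord_map h1 φ) rfl hxρ hxu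
  rw [h2, coord_map hz φ]
  apply Co.pt_congr
  · exact hxρ
  · rw [hxu]
    have e : (fun i => φ (((oneCo a).map z.ρ).u i)) = (e0 : Fin 3 → D) := by
      funext i
      fin_cases i <;> simp [oneCo, e0]
    rw [e]
    exact law_e0_right _ l _

/-- coordinates of the inverse -/
noncomputable def ngCo {C : Type} [CommRing C] (y : Co (JF (a : R)) C) : Co (JF (a : R)) C :=
  (negOp (a : R)).co y

theorem inv_mul' (f : T ⟶ Eo a) :
    lift (f ≫ invMap a) f ≫ mulMap a = toUnit T ≫ oneMap a := by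
  apply hom_ext_over
  apply hom_ext_local
  intro w
  obtain ⟨C, i, hi, z, ⟨w1, rfl⟩, hz⟩ := exists_local f.left w
  have h1 := one_coord (a := a) i z.ρ (str_of_coord f i z hz)
  have h0 := inv_coord f i z (ngCo z) hz rfl rfl
  obtain ⟨D, _, φ, x, l, hφ, hw, hxρ, hxu⟩ := exists_sum (ngCo z) z rfl w1
  refine ⟨.of D, Spec.map (CommRingCat.ofHom φ) ≫ i, inferInstance, comp_range i φ w1 hw, ?_⟩
  have h2 := lift_mulMap (f ≫ invMap a) f (Spec.map (CommRingCat.ofHom φ) ≫ i)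
    ((ngCo z).map φ) (z.map φ) x l (coord_map h0 φ) (coord_map hz φ) rfl hxρ hxu
  rw [h2, coord_map h1 φ]
  apply Co.pt_congr
  · exact hxρ
  · rw [hxu]
    have e : (((oneCo a).map z.ρ).map φ).u = (e0 : Fin 3 → D) := by
      funext i
      fin_cases i <;> simp [oneCo, e0]
    have e2 : (fun i => φ ((ngCo z).u i)) = ng (fun i => φ (z.u i)) := by
      funext i
      fin_cases i <;> rfl
    rw [e, e2]
    exact law_ng_left _ l _

theorem mul_inv' (f : T ⟶ Eo a) :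
    lift f (f ≫ invMap a) ≫ mulMap a = toUnit T ≫ oneMap a := by
  apply hom_ext_over
  apply hom_ext_local
  intro w
  obtain ⟨C, i, hi, z, ⟨w1, rfl⟩, hz⟩ := exists_local f.left w
  have h1 := one_coord (a := a) i z.ρ (str_of_coord f i z hz)
  have h0 := inv_coord f i z (ngCo z) hz rfl rfl
  obtain ⟨D, _, φ, x, l, hφ, hw, hxρ, hxu⟩ := exists_sum z (ngCo z) rfl w1
  refine ⟨.of D, Spec.map (CommRingCat.ofHom φ) ≫ i, inferInstance, comp_range i φ w1 hw, ?_⟩
  have h2 := lift_mulMap f (f ≫ invMap a) (Spec.map (CommRingCat.ofHom φ) ≫ i)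
    (z.map φ) ((ngCo z).map φ) x l (coord_map hz φ) (coord_map h0 φ) rfl hxρ hxu
  rw [h2, coord_map h1 φ]
  apply Co.pt_congr
  · exact hxρ
  · rw [hxu]
    have e : (((oneCo a).map z.ρ).map φ).u = (e0 : Fin 3 → D) := by
      funext i
      fin_cases i <;> simp [oneCo, e0]
    have e2 : (fun i => φ ((ngCo z).u i)) = ng (fun i => φ (z.u i)) := by
      funext i
      fin_cases i <;> rfl
    rw [e, e2]
    exact law_ng_right _ l _

lemma law_map' {B B' : Type*} [CommRing B] [CommRing B'] (φ : B →+* B') (a : B) (l : Bool)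
    (u v : Fin 3 → B) : (fun i => φ (law a l u v i)) =
      law (φ a) l (fun i => φ (u i)) (fun i => φ (v i)) := by
  funext i
  exact (law_map φ a l u v i).symm

theorem assoc' (f g h : T ⟶ Eo a) :
    lift (lift f g ≫ mulMap a) h ≫ mulMap a = lift f (lift g h ≫ mulMap a) ≫ mulMap a := by
  apply hom_ext_over
  apply hom_ext_local
  intro w
  obtain ⟨C, i, hi, y, z, t, ⟨w1, rfl⟩, hy, hz, ht, hyz, hyt⟩ := exists_local₃ f g h w
  -- first sum
  obtain ⟨D1, _, φ1, x1, l1, hφ1, ⟨w2, rfl⟩, hx1ρ, hx1u⟩ := exists_sum y z hyz w1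
  have s1 := lift_mulMap f g (C := .of D1) (Spec.map (CommRingCat.ofHom φ1) ≫ i) (y.map φ1)
    (z.map φ1) x1 l1
    (coord_map hy φ1) (coord_map hz φ1) (by simp [hyz]) hx1ρ hx1u
  have hy1 := coord_map hy φ1
  have hz1 := coord_map hz φ1
  have ht1 := coord_map ht φ1
  -- second sum
  obtain ⟨D2, _, φ2, x2, l2, hφ2, ⟨w3, rfl⟩, hx2ρ, hx2u⟩ := exists_sum x1 (t.map φ1)
    (by simp [hyt, hx1ρ]) w2
  have s2 := lift_mulMap (lift f g ≫ mulMap a) h (C := .of D2)
    (Spec.map (CommRingCat.ofHom φ2) ≫ (Spec.map (CommRingCat.ofHom φ1) ≫ i)) (x1.map φ2)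
    ((t.map φ1).map φ2) x2 l2
    (coord_map s1 φ2) (coord_map ht1 φ2) (by simp [hyt, hx1ρ]) hx2ρ hx2u
  have hy2 := coord_map hy1 φ2
  have hz2 := coord_map hz1 φ2
  have ht2 := coord_map ht1 φ2
  -- third sum
  obtain ⟨D3, _, φ3, x3, l3, hφ3, ⟨w4, rfl⟩, hx3ρ, hx3u⟩ := exists_sum ((z.map φ1).map φ2)
    ((t.map φ1).map φ2) (by simp [hyt, hyz]) w3
  have s3 := lift_mulMap g h (C := .of D3)
    (Spec.map (CommRingCat.ofHom φ3) ≫ (Spec.map (CommRingCat.ofHom φ2) ≫
      (Spec.map (CommRingCat.ofHom φ1) ≫ i))) (((z.map φ1).map φ2).map φ3)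
    (((t.map φ1).map φ2).map φ3) x3 l3
    (coord_map hz2 φ3) (coord_map ht2 φ3) (by simp [hyt, hyz]) hx3ρ hx3u
  have hy3 := coord_map hy2 φ3
  have s23 := coord_map s2 φ3
  -- fourth sum
  obtain ⟨D4, _, φ4, x4, l4, hφ4, ⟨w5, rfl⟩, hx4ρ, hx4u⟩ := exists_sum
    (((y.map φ1).map φ2).map φ3) x3 (by simp [hx3ρ, hyz]) w4
  have s4 := lift_mulMap f (lift g h ≫ mulMap a) (C := .of D4)
    (Spec.map (CommRingCat.ofHom φ4) ≫ (Spec.map (CommRingCat.ofHom φ3) ≫
      (Spec.map (CommRingCat.ofHom φ2) ≫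
      (Spec.map (CommRingCat.ofHom φ1) ≫ i)))) ((((y.map φ1).map φ2).map φ3).map φ4)
    (x3.map φ4) x4 l4
    (coord_map hy3 φ4) (coord_map s3 φ4) (by simp [hx3ρ, hyz]) hx4ρ hx4u
  have s234 := coord_map s23 φ4
  refine ⟨.of D4, _, ?_, ?_, s234.trans (Eq.trans ?_ s4.symm)⟩
  · infer_instance
  · exact ⟨w5, rfl⟩
  · apply Co.pt_congr
    · simp [hx2ρ, hx1ρ, hx4ρ]
    · have e1 : ((x2.map φ3).map φ4).u = fun i => φ4 (φ3 (x2.u i)) := rfl
      rw [e1, hx4u, hx2u]
      have e2 : (fun i => φ2 (x1.u i)) = fun i => φ2 (law (φ1 (y.ρ a)) l1 (fun i => φ1 (y.u i))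
        (fun i => φ1 (z.u i)) i) := by rw [hx1u]
      have e3 : (fun i => φ4 (x3.u i)) = fun i => φ4 (law (φ3 (((z.map φ1).map φ2).ρ a)) l3
        (fun i => φ3 (((z.map φ1).map φ2).u i)) (fun i => φ3 (((t.map φ1).map φ2).u i)) i) := by
        rw [hx3u]
      rw [e2, e3]
      simp only [← law_map, Co.map_u, Co.map_ρ, RingHom.comp_apply, hx1ρ, hyz]
      refine assoc_all (B := D4) l1 l2 l3 l4 ?_ ?_ ?_
      · have := congrArg (fun s => φ4 (φ3 (φ2 (φ1 s)))) y.FF_eq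
        simpa [FF] using this
      · have := congrArg (fun s => φ4 (φ3 (φ2 (φ1 s)))) z.FF_eq
        rw [hyz] at this
        simpa [FF] using this
      · have := congrArg (fun s => φ4 (φ3 (φ2 (φ1 s)))) t.FF_eq
        rw [hyt] at this
        simpa [FF] using this

/-- The group structure of the cubic curve. -/
noncomputable instance grpEo (a : Rˣ) : GrpObj (Eo a) where
  one := oneMap a
  mul := mulMap a
  inv := invMap a
  one_mul := by
    have h := one_mul' (a := a) (snd (𝟙_ _) (Eo a))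
    rw [leftUnitor_hom]
    refine Eq.trans ?_ h
    congr 1
  mul_one := by
    have h := mul_one' (a := a) (fst (Eo a) (𝟙_ _))
    rw [rightUnitor_hom]
    refine Eq.trans ?_ h
    congr 1
    ext1
    · rw [whiskerLeft_fst, lift_fst]
    · rw [whiskerLeft_snd, lift_snd, toUnit_unique (toUnit _) (snd _ _)]
  mul_assoc := by
    have h := assoc' (a := a) (fst (Eo a ⊗ Eo a) (Eo a) ≫ fst (Eo a) (Eo a))
      (fst (Eo a ⊗ Eo a) (Eo a) ≫ snd (Eo a) (Eo a)) (snd (Eo a ⊗ Eo a) (Eo a))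
    have e1 : lift (fst (Eo a ⊗ Eo a) (Eo a) ≫ fst (Eo a) (Eo a))
        (fst (Eo a ⊗ Eo a) (Eo a) ≫ snd (Eo a) (Eo a)) = fst (Eo a ⊗ Eo a) (Eo a) := by
      ext1 <;> simp
    rw [e1] at h
    have e2 : mulMap a ▷ Eo a = lift (fst (Eo a ⊗ Eo a) (Eo a) ≫ mulMap a)
        (snd (Eo a ⊗ Eo a) (Eo a)) := by
      ext1 <;> simp
    rw [e2, h, ← Category.assoc]
    congr 1
    ext1
    · simp
    · simp only [lift_snd, Category.assoc, whiskerLeft_snd]
      rw [← Category.assoc]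
      congr 1
      ext1 <;> simp
  left_inv := by
    have h := inv_mul' (a := a) (𝟙 (Eo a))
    rwa [Category.id_comp] at h
  right_inv := by
    have h := mul_inv' (a := a) (𝟙 (Eo a))
    rwa [Category.id_comp] at h

end Pool.Agent.W473
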