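import Mathlib

/-!
A generation lemma for the fourth power of a group with an endomorphism `om` such that
`x ↦ x * (om x)⁻¹` is surjective.
-/

namespace Pool.Agent.W473

/-- Elements of the fourth power of a group. -/
abbrev v4 {M : Type*} (a b c d : M) : Fin 4 → M := ![a, b, c, d]

lemma v4_mul {M : Type*} [Group M] (a b c d a' b' c' d' : M) :
    v4 a b c d * v4 a' b' c' d' = v4 (a * a') (b * b') (c * c') (d * d') := by
  funext i
  fin_cases i <;> rfl

lemma v4_inv {M : Type*} [Group M] (a b c d : M) :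
    (v4 a b c d)⁻¹ = v4 a⁻¹ b⁻¹ c⁻¹ d⁻¹ := by
  funext i
  fin_cases i <;> rfl

theorem group_gen {M : Type*} [Group M] (om : M → M) (hom : ∀ x y, om (x * y) = om x * om y)
    (hD : ∀ y, ∃ x, x * (om x)⁻¹ = y) (D : Subgroup (Fin 4 → M))
    (h1 : ∀ P, v4 P P P P ∈ D) (h2 : ∀ P, v4 P (om P) P (om P) ∈ D)
    (h3 : ∀ P, v4 P P (om P) (om P) ∈ D)
    (h4 : ∀ P, v4 P (om P) (om P) (om (om P)) ∈ D) : D = ⊤ := by
  have hinv : ∀ x, om x⁻¹ = (om x)⁻¹ := fun x => map_inv (MonoidHom.mk' om hom) x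
  have A1 : ∀ y, v4 1 y 1 y ∈ D := by
    intro y
    obtain ⟨P, rfl⟩ := hD y
    have h := D.mul_mem (h1 P) (D.inv_mem (h2 P))
    rw [v4_inv, v4_mul, mul_inv_cancel] at h
    exact h
  have A2 : ∀ y, v4 1 y 1 (om y) ∈ D := by
    intro y
    obtain ⟨P, rfl⟩ := hD y
    have h := D.mul_mem (h3 P) (D.inv_mem (h4 P))
    rw [v4_inv, v4_mul, mul_inv_cancel, mul_inv_cancel] at h
    rw [hom, hinv]
    exact h
  have A3 : ∀ y, v4 1 1 1 y ∈ D := by
    intro y
    obtain ⟨P, rfl⟩ := hD y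
    have h := D.mul_mem (A1 P) (D.inv_mem (A2 P))
    rw [v4_inv, v4_mul, mul_inv_cancel, mul_inv_cancel] at h
    exact h
  have A4 : ∀ y, v4 1 y 1 1 ∈ D := by
    intro y
    have h := D.mul_mem (A1 y) (D.inv_mem (A3 y))
    rw [v4_inv, v4_mul, mul_inv_cancel, mul_inv_cancel, inv_one, mul_one] at h
    exact h
  have A5 : ∀ y, v4 1 1 y y ∈ D := by
    intro y
    obtain ⟨P, rfl⟩ := hD y
    have h := D.mul_mem (h1 P) (D.inv_mem (h3 P))
    rw [v4_inv, v4_mul, mul_inv_cancel] at h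
    exact h
  have A6 : ∀ y, v4 1 1 y 1 ∈ D := by
    intro y
    have h := D.mul_mem (A5 y) (D.inv_mem (A3 y))
    rw [v4_inv, v4_mul, mul_inv_cancel, mul_inv_cancel, inv_one, mul_one] at h
    exact h
  have A7 : ∀ y, v4 y 1 1 1 ∈ D := by
    intro y
    have h := D.mul_mem (D.mul_mem (D.mul_mem (h1 y) (D.inv_mem (A4 y))) (D.inv_mem (A6 y)))
      (D.inv_mem (A3 y))
    rw [v4_inv, v4_inv, v4_inv, v4_mul, v4_mul, v4_mul] at h
    simp only [inv_one, mul_one, mul_inv_cancel] at h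
    exact h
  rw [eq_top_iff]
  intro m _
  have h := D.mul_mem (D.mul_mem (D.mul_mem (A7 (m 0)) (A4 (m 1))) (A6 (m 2))) (A3 (m 3))
  rw [v4_mul, v4_mul, v4_mul] at h
  simp only [one_mul, mul_one] at h
  have e : v4 (m 0) (m 1) (m 2) (m 3) = m := by
    funext i
    fin_cases i <;> rfl
  rwa [e] at h

end Pool.Agent.W473
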