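import Pool.Agent.W473.Base
import Pool.Agent.Helper198.SchP

/-!
The base curve is quasi-projective.
-/

open AlgebraicGeometry CategoryTheory Limits

namespace Pool.Agent.W473

open Pool.Agent.Helper198.Sch

attribute [local instance] MvPolynomial.gradedAlgebra

open Polynomial

section

variable (k : Type) [Field k]

/-- the zero ideal -/
noncomputable def J0 : HI (Fin 2) k := HI.ofSet ∅ (fun f hf => hf.elim)

lemma J0_sat {E : Type*} [CommRing E] [Algebra k E] (u : Fin 2 → E) :
    ∀ f ∈ (J0 k).toIdeal, MvPolynomial.aeval u f = 0 :=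
  aeval_ofSet (R := k) (E := E) u (fun f hf => hf.elim)

/-- forward -/
noncomputable def c0To : Ch (J0 k) 1 →ₐ[k] k[X] :=
  chLift (J0 k) 1 ![X, 1] (by simp) (J0_sat k _)

/-- backward -/
noncomputable def c0From : k[X] →ₐ[k] Ch (J0 k) 1 := aeval (frac (J0 k) 1 0)

/-- the affine line is a chart of the projective line. -/
noncomputable def c0E : Ch (J0 k) 1 ≃ₐ[k] k[X] :=
  AlgEquiv.ofAlgHom (c0To k) (c0From k)
    (by
      apply Polynomial.algHom_ext
      rw [AlgHom.comp_apply, c0From, aeval_X, c0To, chLift_frac]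
      rfl)
    (by
      apply ch_algHom_ext
      intro q
      rw [AlgHom.comp_apply, c0To, chLift_frac, AlgHom.id_apply]
      fin_cases q
      · simp [c0From]
      · simp only [Fin.mk_one, Matrix.cons_val_one, Matrix.cons_val_zero, map_one]
        exact (frac_self _ _).symm)

/-- the base curve as an open subscheme of a chart. -/
noncomputable def toChart : Sb k ⟶ Spec (.of (Ch (J0 k) 1)) :=
  Spec.map (CommRingCat.ofHom (algebraMap k[X] (Rb k))) ≫
    Spec.map (CommRingCat.ofHom (c0E k).toRingEquiv.toRingHom)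

instance : IsOpenImmersion (toChart k) := by
  have h1 : IsOpenImmersion (Spec.map (CommRingCat.ofHom (algebraMap k[X] (Rb k)))) :=
    IsOpenImmersion.of_isLocalization (X * (X + 1) : k[X])
  have h2 : IsIso (CommRingCat.ofHom (c0E k).toRingEquiv.toRingHom) :=
    (inferInstance : IsIso ((c0E k).toRingEquiv.toCommRingCatIso).hom)
  unfold toChart
  infer_instance

/-- The quasi-projective embedding. -/
noncomputable def qemb : Sb k ⟶ Proj (MvPolynomial.homogeneousSubmodule (Fin 2) k) :=
  (toChart k ≫ V.chart (J0 k) 1) ≫ emb (J0 k) (Equiv.refl _)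

instance : IsImmersion (qemb k) := by
  unfold qemb
  infer_instance

lemma qemb_str : qemb k ≫ (Proj.toSpecZero (MvPolynomial.homogeneousSubmodule (Fin 2) k) ≫
    Spec.map (CommRingCat.ofHom
      (algebraMap k (MvPolynomial.homogeneousSubmodule (Fin 2) k 0)))) = pb k := by
  rw [qemb, Category.assoc, emb_str, Category.assoc, V.chart_str, toChart, ← Spec.map_comp,
    ← Spec.map_comp, ← CommRingCat.ofHom_comp, ← CommRingCat.ofHom_comp]
  congr 2
  ext r
  change algebraMap k[X] (Rb k) ((c0E k) (algebraMap k _ r)) = _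
  rw [(c0E k).commutes, ← IsScalarTower.algebraMap_apply]

end

end Pool.Agent.W473
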