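import Pool.Agent.W473.Fib
import Pool.Agent.W473.QProj

/-!
The counterexample: the covering family and its map to the abelian scheme.
-/

open AlgebraicGeometry CategoryTheory Limits MonoidalCategory CartesianMonoidalCategory MonObj

namespace Pool.Agent.W473

open Pool.Agent.Helper198.Sch Pink

attribute [local instance] MvPolynomial.gradedAlgebra

section three

variable (k : Type) [Field k] [CharZero k]

instance threeField : Three k := ⟨isUnit_iff_ne_zero.2 (by norm_num)⟩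

lemma three_of_algebra (B : Type) [CommRing B] [Algebra k B] : Three B := by
  constructor
  have h := ((threeField k).isUnit).map (algebraMap k B)
  rwa [map_ofNat] at h

instance threeRb : Three (Rb k) := three_of_algebra k _

instance threeRc : Three (Rc k) := three_of_algebra k _

end three

section gam

variable {C : Type} [CommRing C] (α β : Cˣ)

/-- the scaling factors. -/
def gam : Fin 4 → Cˣ := ![1, α⁻¹, β⁻¹, (α * β)⁻¹]

variable {K : Type} [Field K]

lemma gam_rel (θ : Rb K →+* C) (hα : (α : C) ^ 3 = θ (tt K))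
    (hβ : (β : C) ^ 3 = - (θ (tt K) + 1)) (i : Fin 4) :
    θ (aa K i) * (gam α β i : C) ^ 3 = ((1 : Cˣ) : C) := by
  have e1 : (α : C) * ((α⁻¹ : Cˣ) : C) = 1 := α.mul_inv
  have e2 : (β : C) * ((β⁻¹ : Cˣ) : C) = 1 := β.mul_inv
  fin_cases i
  · change θ ((1 : (Rb K)ˣ) : Rb K) * (((1 : Cˣ) : C)) ^ 3 = ((1 : Cˣ) : C)
    simp
  · change θ (tt K) * ((α⁻¹ : Cˣ) : C) ^ 3 = ((1 : Cˣ) : C)
    rw [← hα, ← mul_pow, e1, one_pow]
    rfl
  · change θ (-(tt K + 1)) * ((β⁻¹ : Cˣ) : C) ^ 3 = ((1 : Cˣ) : C)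
    rw [map_neg, map_add, map_one, ← hβ, ← mul_pow, e2, one_pow]
    rfl
  · change θ (-(tt K * (tt K + 1))) * (((α * β)⁻¹ : Cˣ) : C) ^ 3 = ((1 : Cˣ) : C)
    have e3 : ((α * β : Cˣ) : C) * (((α * β)⁻¹ : Cˣ) : C) = 1 := (α * β).mul_inv
    rw [map_neg, map_mul, map_add, map_one]
    have e4 : -(θ (tt K) * (θ (tt K) + 1)) = ((α * β : Cˣ) : C) ^ 3 := by
      rw [Units.val_mul, mul_pow, hα, hβ]
      ring
    rw [e4, ← mul_pow, e3, one_pow]
    rfl

lemma gam_map {C' : Type} [CommRing C'] (σ : C →+* C') (α' β' : C'ˣ) (hα : σ α = α')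
    (hβ : σ β = β') (i : Fin 4) : (gam α' β' i : C') = σ (gam α β i) * ((1 : C'ˣ) : C') := by
  have hα' : Units.map (σ : C →* C') α = α' := Units.ext hα
  have hβ' : Units.map (σ : C →* C') β = β' := Units.ext hβ
  subst hα' hβ'
  rw [Units.val_one, _root_.mul_one]
  fin_cases i
  · change (((1 : C'ˣ)) : C') = σ ((1 : Cˣ) : C)
    simp
  · change (((Units.map (σ : C →* C') α)⁻¹ : C'ˣ) : C') = σ ((α⁻¹ : Cˣ) : C)
    rw [← map_inv]
    rfl
  · change (((Units.map (σ : C →* C') β)⁻¹ : C'ˣ) : C') = σ ((β⁻¹ : Cˣ) : C)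
    rw [← map_inv]
    rfl
  · change (((Units.map (σ : C →* C') α * Units.map (σ : C →* C') β)⁻¹ : C'ˣ) : C') =
      σ (((α * β)⁻¹ : Cˣ) : C)
    rw [← map_mul, ← map_inv]
    rfl

end gam

section ext

variable {R : Type} [CommRing R] (a : Fin 4 → Rˣ)

lemma left_ext4 {Z : Scheme.{0}} {r r' : Z ⟶ (AP a).left}
    (h : ∀ i, r ≫ (pr (fun i => Eo (a i)) i).left = r' ≫ (pr (fun i => Eo (a i)) i).left) :
    r = r' := by
  have hw : ∀ i, (pr (fun i => Eo (a i)) i).left ≫ V.str (JF (a i : R)) = (AP a).hom :=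
    fun i => Over.w (pr (fun i => Eo (a i)) i)
  have h0 : r ≫ (AP a).hom = r' ≫ (AP a).hom := by
    rw [← hw 0, ← Category.assoc, h 0, Category.assoc]
  let f : Over.mk (r ≫ (AP a).hom) ⟶ AP a := Over.homMk r rfl
  let f' : Over.mk (r ≫ (AP a).hom) ⟶ AP a := Over.homMk r' h0.symm
  have hf : f = f' := by
    apply ext4
    intro i
    apply Over.OverMorphism.ext
    exact h i
  exact congrArg (fun g => g.left) hf

end ext

section compat

variable {K : Type} [Field K] {C C' : Type} [CommRing C] [CommRing C'] (θ : Rb K →+* C)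
  (σ : C →+* C') (α β : Cˣ) (α' β' : C'ˣ)

lemma one_rel : σ ((1 : Cˣ) : C) * ((1 : C'ˣ) : C') ^ 3 = ((1 : C'ˣ) : C') := by simp

lemma phi_comp (hα : (α : C) ^ 3 = θ (tt K)) (hβ : (β : C) ^ 3 = - (θ (tt K) + 1))
    (θ' : Rb K →+* C') (hα' : (α' : C') ^ 3 = θ' (tt K)) (hβ' : (β' : C') ^ 3 = - (θ' (tt K) + 1))
    (hθ : σ.comp θ = θ') (h1 : σ α = α') (h2 : σ β = β') :
    scm σ ((1 : C'ˣ) : C') ((1 : Cˣ) : C) 1 (one_rel σ) ≫
      phi (aa K) θ (gam α β) (gam_rel α β θ hα hβ) =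
      phi (aa K) θ' (gam α' β') (gam_rel α' β' θ' hα' hβ') := by
  subst hθ
  apply left_ext4
  intro i
  rw [Category.assoc, phi_pr, phi_pr]
  exact scm_comp θ σ _ _ _ _ _ _ _ _ (gam_map α β σ α' β' h1 h2 i) _

end compat

end Pool.Agent.W473
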