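import Pool.Agent.W473.Main1

/-!
The counterexample: the family `Y` and its map to the abelian scheme over `K̄`.
-/

open AlgebraicGeometry CategoryTheory Limits MonoidalCategory CartesianMonoidalCategory MonObj

namespace Pool.Agent.W473

open Pool.Agent.Helper198.Sch Pink

attribute [local instance] MvPolynomial.gradedAlgebra

section

variable (K : Type) [Field K]

/-- the map from the base ring to the covering ring. -/
noncomputable def thY : Rb K →+* Rc (AlgebraicClosure K) :=
  (thc (AlgebraicClosure K)).comp (rbMap (algebraMap K (AlgebraicClosure K)))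

lemma thY_tt : thY K (tt K) = al (AlgebraicClosure K) ^ 3 := by
  rw [thY, RingHom.comp_apply, rbMap_tt, thc_tt]

/-- first cube root -/
noncomputable def alU : (Rc (AlgebraicClosure K))ˣ := (isUnit_al (AlgebraicClosure K)).unit

/-- second cube root -/
noncomputable def beU : (Rc (AlgebraicClosure K))ˣ := (isUnit_be (AlgebraicClosure K)).unit

lemma alU_rel : (alU K : Rc (AlgebraicClosure K)) ^ 3 = thY K (tt K) := (thY_tt K).symm

lemma beU_rel : (beU K : Rc (AlgebraicClosure K)) ^ 3 = - (thY K (tt K) + 1) := by
  rw [thY_tt]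
  have h := al_be_rel (AlgebraicClosure K)
  change be (AlgebraicClosure K) ^ 3 = _
  linear_combination h

/-- the family `Y`. -/
noncomputable abbrev Ysch : Scheme.{0} := (Eo (1 : (Rc (AlgebraicClosure K))ˣ)).left

/-- the base over the algebraic closure. -/
noncomputable def eb : Sb (AlgebraicClosure K) ≅ pullback (pb K) (specBar K) :=
  (isPullback_rb (algebraMap K (AlgebraicClosure K))).isoPullback

lemma eb_fst : (eb K).hom ≫ fromBar (pb K) =
    Spec.map (CommRingCat.ofHom (rbMap (algebraMap K (AlgebraicClosure K)))) :=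
  IsPullback.isoPullback_hom_fst _

lemma eb_snd : (eb K).hom ≫ pullback.snd (pb K) (specBar K) = pb (AlgebraicClosure K) :=
  IsPullback.isoPullback_hom_snd _

/-- the map of `Y` to the base. -/
noncomputable def qY : Ysch K ⟶ pullback (pb K) (specBar K) :=
  (Eo (1 : (Rc (AlgebraicClosure K))ˣ)).hom ≫
    Spec.map (CommRingCat.ofHom (thc (AlgebraicClosure K))) ≫ (eb K).hom

/-- the map of `Y` to the abelian scheme. -/
noncomputable def phiY : Ysch K ⟶ (AP (aa K)).left :=
  phi (aa K) (thY K) (gam (alU K) (beU K))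
    (gam_rel (alU K) (beU K) (thY K) (alU_rel K) (beU_rel K))

lemma phiY_w : phiY K ≫ (AP (aa K)).hom = qY K ≫ fromBar (pb K) := by
  rw [phiY, phi_w, qY, Category.assoc, Category.assoc, eb_fst, thY, CommRingCat.ofHom_comp,
    Spec.map_comp]

/-- the map of `Y` to the total space over the algebraic closure. -/
noncomputable def phiBar : Ysch K ⟶ total (pb K) (AP (aa K)) :=
  pullback.lift (phiY K) (qY K) (phiY_w K)

lemma phiBar_fst : phiBar K ≫ pullback.fst (AP (aa K)).hom (fromBar (pb K)) = phiY K :=
  pullback.lift_fst _ _ _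

lemma phiBar_snd : phiBar K ≫ pullback.snd (AP (aa K)).hom (fromBar (pb K)) = qY K :=
  pullback.lift_snd _ _ _

variable [CharZero K]

instance charZero_bar : CharZero (AlgebraicClosure K) :=
  charZero_of_injective_algebraMap (algebraMap K (AlgebraicClosure K)).injective

lemma universallyClosed_qY : UniversallyClosed (qY K) := by
  have h1 : IsProper (Eo (1 : (Rc (AlgebraicClosure K))ˣ)).hom :=
    (abSch_Eo (1 : (Rc (AlgebraicClosure K))ˣ)).proper
  have h2 : IsIntegralHom (Spec.map (CommRingCat.ofHom (thc (AlgebraicClosure K)))) :=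
    IsIntegralHom.SpecMap_iff.2 (thc_integral (AlgebraicClosure K))
  have h3 : UniversallyClosed (Spec.map (CommRingCat.ofHom (thc (AlgebraicClosure K)))) :=
    inferInstance
  unfold qY
  infer_instance

lemma universallyClosed_phiBar : UniversallyClosed (phiBar K) := by
  have h0 := universallyClosed_qY K
  rw [← phiBar_snd] at h0
  have h1 : IsProper (AP (aa K)).hom := (abSch_AP (aa K)).proper
  exact UniversallyClosed.of_comp_of_isSeparated (phiBar K)
    (pullback.snd (AP (aa K)).hom (fromBar (pb K)))

lemma isClosedMap_phiBar : IsClosedMap (phiBar K) := by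
  have := universallyClosed_phiBar K
  exact (phiBar K).isClosedMap

lemma integral_Spec_Rc : IsIntegral (Spec (.of (Rc (AlgebraicClosure K)))) := by
  have : IsDomain (Rc (AlgebraicClosure K)) := domain_Rc (AlgebraicClosure K)
    (threeField (AlgebraicClosure K)).isUnit.ne_zero
  infer_instance

lemma integral_Y : IsIntegral (Ysch K) := by
  have h0 := integral_Spec_Rc K
  have h1 : IsLocallyNoetherian (Spec (.of (Rc (AlgebraicClosure K)))) :=
    isLocallyNoetherian_spec _
  have hE := abSch_Eo (1 : (Rc (AlgebraicClosure K))ˣ)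
  have h2 := hE.integral
  have h3 : Smooth (Eo (1 : (Rc (AlgebraicClosure K))ˣ)).hom := hE.smooth.smooth
  exact GeometricallyIntegral.isIntegral_of_isLocallyNoetherian
    (Eo (1 : (Rc (AlgebraicClosure K))ˣ)).hom

lemma noetherian_Y : IsNoetherian (Ysch K) := by
  have h1 : IsLocallyNoetherian (Spec (.of (Rc (AlgebraicClosure K)))) :=
    isLocallyNoetherian_spec _
  have hE := abSch_Eo (1 : (Rc (AlgebraicClosure K))ˣ)
  have h2 : IsProper (Eo (1 : (Rc (AlgebraicClosure K))ˣ)).hom := hE.proper
  have h3 : IsLocallyNoetherian (Ysch K) :=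
    LocallyOfFiniteType.isLocallyNoetherian (Eo (1 : (Rc (AlgebraicClosure K))ˣ)).hom
  have h4 : CompactSpace (Ysch K) :=
    QuasiCompact.compactSpace_of_compactSpace (Eo (1 : (Rc (AlgebraicClosure K))ˣ)).hom
  exact {}

lemma dim_Y : topologicalKrullDim (Ysch K) ≤ 2 := by
  have h1 := dim_EV (R := Rc (AlgebraicClosure K)) (a := ((1 : (Rc (AlgebraicClosure K))ˣ) : _))
    (Units.isUnit _)
  have h2 := dim_Rc (AlgebraicClosure K)
  refine le_trans h1 ?_
  calc ringKrullDim (Rc (AlgebraicClosure K)) + 1 ≤ 1 + 1 := by gcongr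
    _ = 2 := by norm_num

end

end Pool.Agent.W473
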