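import Pool.Agent.W473.Main2

/-!
The counterexample: every closed point of the image of `Y` lies in a one-dimensional subgroup.
-/

open AlgebraicGeometry CategoryTheory Limits MonoidalCategory CartesianMonoidalCategory MonObj

namespace Pool.Agent.W473

open Pool.Agent.Helper198.Sch Pink

attribute [local instance] MvPolynomial.gradedAlgebra

section

variable (K : Type) [Field K]

/-- The structure map of the covering ring. -/
noncomputable abbrev strRc : Spec (.of (Rc (AlgebraicClosure K))) ⟶ Spec (.of (AlgebraicClosure K)) :=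
  Spec.map (CommRingCat.ofHom (algebraMap (AlgebraicClosure K) (Rc (AlgebraicClosure K))))

/-- The structure map of `Y` -/
noncomputable abbrev strY : Ysch K ⟶ Spec (.of (AlgebraicClosure K)) :=
  (Eo (1 : (Rc (AlgebraicClosure K))ˣ)).hom ≫ strRc K

lemma qY_snd : qY K ≫ pullback.snd (pb K) (specBar K) = strY K := by
  rw [qY, Category.assoc, Category.assoc, eb_snd]
  congr 1
  rw [← Spec.map_comp, ← CommRingCat.ofHom_comp]
  congr 2
  ext r
  exact thc_algebraMap _ r

lemma locallyOfFiniteType_strRc : LocallyOfFiniteType (strRc K) := by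
  have h1 : strRc K = Spec.map (CommRingCat.ofHom (algebraMap
      (Ch (JF (1 : AlgebraicClosure K)) 2) (Rc (AlgebraicClosure K)))) ≫
      V.chart (JF (1 : AlgebraicClosure K)) 2 ≫ V.str (JF (1 : AlgebraicClosure K)) := by
    rw [V.chart_str, ← Spec.map_comp, ← CommRingCat.ofHom_comp]
  have h2 : IsOpenImmersion (Spec.map (CommRingCat.ofHom (algebraMap
      (Ch (JF (1 : AlgebraicClosure K)) 2) (Rc (AlgebraicClosure K))))) :=
    IsOpenImmersion.of_isLocalization (gc (AlgebraicClosure K))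
  rw [h1]
  infer_instance

section point

variable (σ : Rc (AlgebraicClosure K) →+* AlgebraicClosure K)
  (hσ : σ.comp (algebraMap (AlgebraicClosure K) (Rc (AlgebraicClosure K))) = RingHom.id _)

/-- the point of the base -/
noncomputable abbrev sPt : Spec (.of (AlgebraicClosure K)) ⟶ Sb K :=
  Spec.map (CommRingCat.ofHom (σ.comp (thY K)))

include hσ in
lemma sPt_pb : sPt K σ ≫ pb K = specBar K := by
  rw [← Spec.map_comp, ← CommRingCat.ofHom_comp]
  congr 2
  ext r
  change σ (thY K (algebraMap K (Rb K) r)) = _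
  rw [thY, RingHom.comp_apply, rbMap_algebraMap, thc_algebraMap]
  exact DFunLike.congr_fun hσ _

lemma sPt_eq : Spec.map (CommRingCat.ofHom σ) ≫
    Spec.map (CommRingCat.ofHom (thc (AlgebraicClosure K))) ≫ (eb K).hom =
      toBar (pb K) (sPt K σ) (sPt_pb K σ hσ) := by
  apply pullback.hom_ext
  · rw [pullback.lift_fst, Category.assoc, Category.assoc, eb_fst, ← Spec.map_comp,
      ← Spec.map_comp, ← CommRingCat.ofHom_comp, ← CommRingCat.ofHom_comp]
    rfl
  · rw [pullback.lift_snd, Category.assoc, Category.assoc, eb_snd, ← Spec.map_comp,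
      ← Spec.map_comp, ← CommRingCat.ofHom_comp, ← CommRingCat.ofHom_comp]
    have e : σ.comp ((thc (AlgebraicClosure K)).comp (algebraMap (AlgebraicClosure K)
        (Rb (AlgebraicClosure K)))) = RingHom.id _ := by
      rw [← hσ]
      ext r
      exact congrArg σ (thc_algebraMap _ r)
    rw [e]
    exact Spec.map_id _

/-- the cube roots at the point -/
noncomputable abbrev alP : (AlgebraicClosure K)ˣ := Units.map (σ : _ →* _) (alU K)

/-- the cube roots at the point -/
noncomputable abbrev beP : (AlgebraicClosure K)ˣ := Units.map (σ : _ →* _) (beU K)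

lemma alP_rel : ((alP K σ : (AlgebraicClosure K)ˣ) : AlgebraicClosure K) ^ 3 =
    (σ.comp (thY K)) (tt K) := by
  rw [RingHom.comp_apply, ← alU_rel, map_pow]
  rfl

lemma beP_rel : ((beP K σ : (AlgebraicClosure K)ˣ) : AlgebraicClosure K) ^ 3 =
    - ((σ.comp (thY K)) (tt K) + 1) := by
  have h := congrArg σ (beU_rel K)
  rw [map_neg, map_add, map_one, map_pow] at h
  exact h

/-- the curve in the fibre -/
noncomputable abbrev phiP : (Eo (1 : (AlgebraicClosure K)ˣ)).left ⟶ (AP (aa K)).left :=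
  phi (aa K) (σ.comp (thY K)) (gam (alP K σ) (beP K σ))
    (gam_rel (alP K σ) (beP K σ) _ (alP_rel K σ) (beP_rel K σ))

lemma scm_phiY : scm σ ((1 : (AlgebraicClosure K)ˣ) : AlgebraicClosure K)
    ((1 : (Rc (AlgebraicClosure K))ˣ) : Rc (AlgebraicClosure K)) 1 (one_rel σ) ≫ phiY K =
      phiP K σ :=
  phi_comp (thY K) σ (alU K) (beU K) (alP K σ) (beP K σ) (alU_rel K) (beU_rel K) _
    (alP_rel K σ) (beP_rel K σ) rfl rfl rfl

/-- the inclusion of the curve in the fibre -/
noncomputable abbrev jP : (Eo (1 : (AlgebraicClosure K)ˣ)).left ⟶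
    baseChange (AP (aa K)) (sPt K σ) :=
  pullback.lift (phiP K σ) (Eo (1 : (AlgebraicClosure K)ˣ)).hom (phi_w _ _ _ _)

lemma point_comp (P : Spec (.of (AlgebraicClosure K)) ⟶ (Eo (1 : (AlgebraicClosure K)ˣ)).left)
    (hP : P ≫ (Eo (1 : (AlgebraicClosure K)ˣ)).hom = 𝟙 _) :
    P ≫ jP K σ ≫ fibreInclusion (pb K) (AP (aa K)) (sPt K σ) (sPt_pb K σ hσ) =
      (P ≫ scm σ ((1 : (AlgebraicClosure K)ˣ) : AlgebraicClosure K)
        ((1 : (Rc (AlgebraicClosure K))ˣ) : Rc (AlgebraicClosure K)) 1 (one_rel σ)) ≫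
        phiBar K := by
  apply pullback.hom_ext
  · simp only [Category.assoc, pullback.lift_fst]
    rw [phiBar_fst, scm_phiY]
  · simp only [Category.assoc, pullback.lift_snd]
    have hj : jP K σ ≫ pullback.snd (AP (aa K)).hom (sPt K σ) =
      (Eo (1 : (AlgebraicClosure K)ˣ)).hom := pullback.lift_snd _ _ _
    rw [phiBar_snd, ← Category.assoc, ← Category.assoc, Category.assoc P, hj, hP,
      Category.id_comp, ← sPt_eq K σ hσ, qY]
    have h1 : scm σ ((1 : (AlgebraicClosure K)ˣ) : AlgebraicClosure K)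
        ((1 : (Rc (AlgebraicClosure K))ˣ) : Rc (AlgebraicClosure K)) 1 (one_rel σ) ≫
        (Eo (1 : (Rc (AlgebraicClosure K))ˣ)).hom =
        (Eo (1 : (AlgebraicClosure K)ˣ)).hom ≫ Spec.map (CommRingCat.ofHom σ) :=
      scm_str _ _ _ _ _
    simp only [← Category.assoc]
    congr 2
    rw [Category.assoc, h1, ← Category.assoc, hP, Category.id_comp]

end point

variable [CharZero K]

lemma locallyOfFiniteType_strY : LocallyOfFiniteType (strY K) := by
  have h1 := locallyOfFiniteType_strRc K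
  have h2 : IsProper (Eo (1 : (Rc (AlgebraicClosure K))ˣ)).hom :=
    (abSch_Eo (1 : (Rc (AlgebraicClosure K))ˣ)).proper
  infer_instance

lemma dim_fibre : topologicalKrullDim (Eo (1 : (AlgebraicClosure K)ˣ)).left ≤ 1 := by
  have h1 := dim_EV (R := AlgebraicClosure K) (a := ((1 : (AlgebraicClosure K)ˣ) : _))
    (Units.isUnit _)
  rw [ringKrullDim_eq_zero_of_field, zero_add] at h1
  exact h1

lemma mem_highCodim (d : ℕ) (hd : d ≤ 2) (y : Ysch K) (hy : IsClosed {y}) :
    phiBar K y ∈ highCodim (pb K) (AP (aa K)) 4 d := by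
  have hft := locallyOfFiniteType_strY K
  refine ⟨?_, ?_⟩
  · have h := isClosedMap_phiBar K _ hy
    rwa [Set.image_singleton] at h
  let yh := pointOfClosedPoint (strY K) y hy
  have hyh : yh ≫ strY K = 𝟙 _ := pointOfClosedPoint_comp (strY K) y hy
  let σ : Rc (AlgebraicClosure K) →+* AlgebraicClosure K :=
    (Spec.preimage (yh ≫ (Eo (1 : (Rc (AlgebraicClosure K))ˣ)).hom)).hom
  have hσ1 : Spec.map (CommRingCat.ofHom σ) =
      yh ≫ (Eo (1 : (Rc (AlgebraicClosure K))ˣ)).hom := Spec.map_preimage _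
  have hσ : σ.comp (algebraMap (AlgebraicClosure K) (Rc (AlgebraicClosure K))) =
      RingHom.id _ := by
    have h1 : Spec.map (CommRingCat.ofHom (σ.comp (algebraMap (AlgebraicClosure K)
        (Rc (AlgebraicClosure K))))) = Spec.map (CommRingCat.ofHom (RingHom.id _)) := by
      rw [CommRingCat.ofHom_comp, Spec.map_comp, hσ1, Category.assoc, hyh]
      exact (Spec.map_id _).symm
    exact congrArg (fun f => f.hom) (Spec.map_injective h1)
  have hP := isPullback_scm σ ((1 : (AlgebraicClosure K)ˣ) : AlgebraicClosure K)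
    ((1 : (Rc (AlgebraicClosure K))ˣ) : Rc (AlgebraicClosure K)) 1 (one_rel σ)
  let P : Spec (.of (AlgebraicClosure K)) ⟶ (Eo (1 : (AlgebraicClosure K)ˣ)).left :=
    hP.lift yh (𝟙 _) (by rw [hσ1, Category.id_comp]; rfl)
  have hP1 : P ≫ scm σ _ _ 1 (one_rel σ) = yh := hP.lift_fst _ _ _
  have hP2 : P ≫ (Eo (1 : (AlgebraicClosure K)ˣ)).hom = 𝟙 _ := hP.lift_snd _ _ _
  refine ⟨sPt K σ, sPt_pb K σ hσ, _, jP K σ, isClosedSubgroup_phi _ _ _ _, ?_, ?_⟩
  · have h1 := dim_fibre K
    have h2 : ((d : ℕ) : WithBot ℕ∞) ≤ 2 := by exact_mod_cast hd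
    calc topologicalKrullDim (Eo (1 : (AlgebraicClosure K)ˣ)).left + (d : WithBot ℕ∞)
        ≤ 1 + 2 := by gcongr
      _ < ((4 : ℕ) : WithBot ℕ∞) := by
        have : (1 + 2 : WithBot ℕ∞) = ((3 : ℕ) : WithBot ℕ∞) := by norm_num
        rw [this]
        exact_mod_cast (by norm_num : (3 : ℕ) < 4)
  · have h1 := point_comp K σ hσ P hP2
    rw [hP1] at h1
    let w : Spec (.of (AlgebraicClosure K)) := IsLocalRing.closedPoint (AlgebraicClosure K)
    refine ⟨P w, ?_⟩
    have h2 := congrArg (fun f => f w) h1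
    change (P ≫ jP K σ ≫ fibreInclusion (pb K) (AP (aa K)) (sPt K σ) (sPt_pb K σ hσ)) w =
      phiBar K y
    rw [h1]
    change phiBar K (yh w) = phiBar K y
    congr 1
    exact pointOfClosedPoint_apply (strY K) y hy w

theorem dense_X (d : ℕ) (hd : d ≤ 2) : Set.range (phiBar K) ⊆
    closure (Set.range (phiBar K) ∩ highCodim (pb K) (AP (aa K)) 4 d) := by
  have hft := locallyOfFiniteType_strY K
  have hJ : JacobsonSpace (Ysch K) := LocallyOfFiniteType.jacobsonSpace (strY K)
  have h1 : phiBar K '' (closedPoints (Ysch K)) ⊆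
      Set.range (phiBar K) ∩ highCodim (pb K) (AP (aa K)) 4 d := by
    rintro _ ⟨y, hy, rfl⟩
    exact ⟨⟨y, rfl⟩, mem_highCodim K d hd y hy⟩
  have h2 := closure_mono h1
  refine Set.Subset.trans ?_ h2
  rw [← Set.image_univ, ← closure_closedPoints (X := Ysch K)]
  exact image_closure_subset_closure_image (phiBar K).continuous

end

end Pool.Agent.W473
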