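import Pool.Agent.W473.Main3
import Pool.Agent.W473.Divis2
import Pool.Agent.W473.GroupGen

/-!
The counterexample: no strict closed subgroup scheme contains the image of `Y`.
-/

open AlgebraicGeometry CategoryTheory Limits MonoidalCategory CartesianMonoidalCategory MonObj

namespace Pool.Agent.W473

open Pool.Agent.Helper198.Sch Pink

attribute [local instance] MvPolynomial.gradedAlgebra

section lift

variable {k : Type} [Field k] {C : Type} [CommRing C]

lemma rc_sat (κ : k →+* C) (u v : C) (h : u ^ 3 + v ^ 3 + 1 = 0) :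
    ∀ f ∈ (JF (1 : k)).toIdeal, MvPolynomial.eval₂ κ ![u, v, 1] f = 0 := by
  rw [JF_iff, FF, map_one]
  simp only [Matrix.cons_val]
  linear_combination h

lemma vec_two (u v : C) : (![u, v, 1] : Fin 3 → C) 2 = 1 := by simp

/-- the map of the chart ring -/
noncomputable def chL1 (κ : k →+* C) (u v : C) (h : u ^ 3 + v ^ 3 + 1 = 0) :
    Ch (JF (1 : k)) 2 →+* C :=
  chL (JF (1 : k)) 2 κ ![u, v, 1] (vec_two u v) (rc_sat κ u v h)

lemma chL1_zero (κ : k →+* C) (u v : C) (h : u ^ 3 + v ^ 3 + 1 = 0) :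
    chL1 κ u v h (frac (JF (1 : k)) 2 0) = u := by
  rw [chL1, chL_frac]
  rfl

lemma chL1_one (κ : k →+* C) (u v : C) (h : u ^ 3 + v ^ 3 + 1 = 0) :
    chL1 κ u v h (frac (JF (1 : k)) 2 1) = v := by
  rw [chL1, chL_frac]
  rfl

lemma chL1_algebraMap (κ : k →+* C) (u v : C) (h : u ^ 3 + v ^ 3 + 1 = 0) (r : k) :
    chL1 κ u v h (algebraMap k _ r) = κ r := by
  rw [chL1, chL_algebraMap]

lemma chL1_gc (κ : k →+* C) (u v : C) (h : u ^ 3 + v ^ 3 + 1 = 0) :
    chL1 κ u v h (gc k) = u * v := by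
  have e : gc k = frac (JF (1 : k)) 2 0 * frac (JF (1 : k)) 2 1 := rfl
  rw [e, map_mul, chL1_zero, chL1_one]

/-- the universal property of the covering ring. -/
noncomputable def rcLift (κ : k →+* C) (u v : C) (h : u ^ 3 + v ^ 3 + 1 = 0)
    (hu : IsUnit (u * v)) : Rc k →+* C :=
  IsLocalization.Away.lift (gc k) (g := chL1 κ u v h) (by rw [chL1_gc]; exact hu)

lemma rcLift_al (κ : k →+* C) (u v : C) (h : u ^ 3 + v ^ 3 + 1 = 0) (hu : IsUnit (u * v)) :
    rcLift κ u v h hu (al k) = u := by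
  rw [rcLift, al, IsLocalization.Away.lift_eq, chL1_zero]

lemma rcLift_be (κ : k →+* C) (u v : C) (h : u ^ 3 + v ^ 3 + 1 = 0) (hu : IsUnit (u * v)) :
    rcLift κ u v h hu (be k) = v := by
  rw [rcLift, be, IsLocalization.Away.lift_eq, chL1_one]

lemma rcLift_algebraMap (κ : k →+* C) (u v : C) (h : u ^ 3 + v ^ 3 + 1 = 0)
    (hu : IsUnit (u * v)) (r : k) : rcLift κ u v h hu (algebraMap k (Rc k) r) = κ r := by
  rw [rcLift, IsScalarTower.algebraMap_apply k (Ch (JF (1 : k)) 2) (Rc k),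
    IsLocalization.Away.lift_eq, chL1_algebraMap]

end lift

section factor

/-- A point of a scheme over a field factors through a closed subscheme containing its image. -/
lemma exists_factor {F : Type} [Field F] {Z G : Scheme.{0}} (f : Spec (.of F) ⟶ Z) (j : G ⟶ Z)
    [IsClosedImmersion j] (h : Set.range f ⊆ Set.range j) : ∃ b : Spec (.of F) ⟶ G, b ≫ j = f := by
  have hs : Surjective (pullback.fst f j) := by
    constructor
    intro w
    obtain ⟨g, hg⟩ := h ⟨w, rfl⟩
    obtain ⟨z, hz, -⟩ := Scheme.Pullback.exists_preimage_pullback w g hg.symm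
    exact ⟨z, hz⟩
  have hi : IsIso (pullback.fst f j) :=
    isIso_of_isClosedImmersion_of_surjective (pullback.fst f j)
  refine ⟨inv (pullback.fst f j) ≫ pullback.snd f j, ?_⟩
  rw [Category.assoc, ← pullback.condition, IsIso.inv_hom_id_assoc]

end factor

section point

variable (K : Type) [Field K]

/-- the components of a point of the product coming from points of the Fermat cubic. -/
noncomputable def Fmap (θ : Rb K →+* AlgebraicClosure K) (α β : (AlgebraicClosure K)ˣ)
    (hα : (α : AlgebraicClosure K) ^ 3 = θ (tt K))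
    (hβ : (β : AlgebraicClosure K) ^ 3 = - (θ (tt K) + 1))
    {u : Spec (.of (AlgebraicClosure K)) ⟶ Sb K}
    (hu : 𝟙 _ ≫ Spec.map (CommRingCat.ofHom θ) = u) (m : Fin 4 → Mg (AlgebraicClosure K)) :
    Over.mk u ⟶ AP (aa K) :=
  mk4 (E := fun i => Eo (aa K i)) (fun i => scPt θ (1 : (AlgebraicClosure K)ˣ) (aa K i)
    (gam α β i) (gam_rel α β θ hα hβ i) hu (m i))

variable {K} (θ : Rb K →+* AlgebraicClosure K) (α β : (AlgebraicClosure K)ˣ)
    (hα : (α : AlgebraicClosure K) ^ 3 = θ (tt K))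
    (hβ : (β : AlgebraicClosure K) ^ 3 = - (θ (tt K) + 1))
    {u : Spec (.of (AlgebraicClosure K)) ⟶ Sb K}
    (hu : 𝟙 _ ≫ Spec.map (CommRingCat.ofHom θ) = u)

lemma Fmap_pr (m : Fin 4 → Mg (AlgebraicClosure K)) (i : Fin 4) :
    Fmap K θ α β hα hβ hu m ≫ pr (fun i => Eo (aa K i)) i =
      scPt θ (1 : (AlgebraicClosure K)ˣ) (aa K i) (gam α β i) (gam_rel α β θ hα hβ i) hu (m i) :=
  mk4_pr _ _

lemma Fmap_surjective : Function.Surjective (Fmap K θ α β hα hβ hu) := by
  intro a
  choose m hm using fun i => scPt_surjective θ (1 : (AlgebraicClosure K)ˣ) (aa K i)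
    (gam α β i) (gam_rel α β θ hα hβ i) hu (a ≫ pr (fun i => Eo (aa K i)) i)
  refine ⟨m, ?_⟩
  apply ext4
  intro i
  rw [Fmap_pr, hm]

/-- the diagonal point -/
lemma Fmap_diag_left (P : Mg (AlgebraicClosure K)) :
    (Fmap K θ α β hα hβ hu (fun _ => P)).left =
      P.left ≫ phi (aa K) θ (gam α β) (gam_rel α β θ hα hβ) := by
  apply left_ext4
  intro i
  rw [Category.assoc, phi_pr]
  have h := congrArg (fun f => f.left) (Fmap_pr θ α β hα hβ hu (fun _ => P) i)
  exact h

variable [CharZero K]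

lemma Fmap_mul (m m' : Fin 4 → Mg (AlgebraicClosure K)) :
    Fmap K θ α β hα hβ hu (m * m') = Fmap K θ α β hα hβ hu m * Fmap K θ α β hα hβ hu m' := by
  rw [Fmap, Fmap, Fmap, ← mk4_mul]
  congr 1
  funext i
  exact scPt_mul _ _ _ _ _ _ _ _

end point

end Pool.Agent.W473
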