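import Pool.Agent.W473.Main4

/-!
The counterexample: no strict closed subgroup scheme contains the image of `Y`.
-/

open AlgebraicGeometry CategoryTheory Limits MonoidalCategory CartesianMonoidalCategory MonObj

namespace Pool.Agent.W473

open Pool.Agent.Helper198.Sch Pink

attribute [local instance] MvPolynomial.gradedAlgebra

section point

variable {K : Type} [Field K] (θ : Rb K →+* AlgebraicClosure K) (α β : (AlgebraicClosure K)ˣ)
    (hα : (α : AlgebraicClosure K) ^ 3 = θ (tt K))
    (hβ : (β : AlgebraicClosure K) ^ 3 = - (θ (tt K) + 1))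

include hα hβ in
lemma ab_rel : (α : AlgebraicClosure K) ^ 3 + (β : AlgebraicClosure K) ^ 3 + 1 = 0 := by
  rw [hα, hβ]
  ring

/-- the point of the covering -/
noncomputable def sigma : Rc (AlgebraicClosure K) →+* AlgebraicClosure K :=
  rcLift (RingHom.id _) (α : AlgebraicClosure K) (β : AlgebraicClosure K)
    (ab_rel θ α β hα hβ) (α * β).isUnit

lemma sigma_alg (r : AlgebraicClosure K) :
    sigma θ α β hα hβ (algebraMap _ (Rc (AlgebraicClosure K)) r) = r :=
  rcLift_algebraMap _ _ _ _ _ r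

lemma sigma_al : sigma θ α β hα hβ (alU K) = α := rcLift_al _ _ _ _ _

lemma sigma_be : sigma θ α β hα hβ (beU K) = β := rcLift_be _ _ _ _ _

lemma sigma_comp (hθ : ∀ r : K, θ (algebraMap K (Rb K) r) = algebraMap K (AlgebraicClosure K) r) :
    (sigma θ α β hα hβ).comp (thY K) = θ := by
  apply rb_hom_ext
  · intro r
    rw [RingHom.comp_apply, thY, RingHom.comp_apply, rbMap_algebraMap, thc_algebraMap,
      sigma_alg, hθ]
  · rw [RingHom.comp_apply, ← alU_rel, map_pow, sigma_al, hα]

variable (t : Spec (.of (AlgebraicClosure K)) ⟶ pullback (pb K) (specBar K))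
  (ht : t ≫ pullback.snd (pb K) (specBar K) = 𝟙 _)
  (hu : 𝟙 _ ≫ Spec.map (CommRingCat.ofHom θ) = t ≫ fromBar (pb K))

include ht hu in
lemma theta_alg (r : K) : θ (algebraMap K (Rb K) r) = algebraMap K (AlgebraicClosure K) r := by
  have h1 : Spec.map (CommRingCat.ofHom (θ.comp (algebraMap K (Rb K)))) = specBar K := by
    rw [CommRingCat.ofHom_comp, Spec.map_comp]
    rw [Category.id_comp] at hu
    rw [hu, Category.assoc, pullback.condition, ← Category.assoc, ht, Category.id_comp]
  have h2 := congrArg (fun f => f.hom) (Spec.map_injective h1)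
  exact DFunLike.congr_fun h2 r

include ht in
lemma diag_point (P : Mg (AlgebraicClosure K)) :
    ∃ f : Spec (.of (AlgebraicClosure K)) ⟶ Ysch K, f ≫ phiBar K =
      pullback.lift (Fmap K θ α β hα hβ hu (fun _ => P)).left t (Over.w _) := by
  have hθ := theta_alg θ t ht hu
  set σ := sigma θ α β hα hβ with hσ
  have hP : P.left ≫ (Eo (1 : (AlgebraicClosure K)ˣ)).hom = 𝟙 _ := Over.w P
  refine ⟨P.left ≫ scm σ ((1 : (AlgebraicClosure K)ˣ) : AlgebraicClosure K)
        ((1 : (Rc (AlgebraicClosure K))ˣ) : Rc (AlgebraicClosure K)) 1 (one_rel σ), ?_⟩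
  apply pullback.hom_ext
  · rw [pullback.lift_fst, Category.assoc, phiBar_fst, Fmap_diag_left, Category.assoc]
    congr 1
    exact phi_comp (thY K) σ (alU K) (beU K) α β (alU_rel K) (beU_rel K) θ hα hβ
      (sigma_comp θ α β hα hβ hθ) (sigma_al θ α β hα hβ) (sigma_be θ α β hα hβ)
  · rw [pullback.lift_snd, Category.assoc, phiBar_snd, qY]
    have h1 : scm σ ((1 : (AlgebraicClosure K)ˣ) : AlgebraicClosure K)
        ((1 : (Rc (AlgebraicClosure K))ˣ) : Rc (AlgebraicClosure K)) 1 (one_rel σ) ≫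
        (Eo (1 : (Rc (AlgebraicClosure K))ˣ)).hom =
        (Eo (1 : (AlgebraicClosure K)ˣ)).hom ≫ Spec.map (CommRingCat.ofHom σ) :=
      scm_str _ _ _ _ _
    have h2 : (P.left ≫ scm σ ((1 : (AlgebraicClosure K)ˣ) : AlgebraicClosure K)
        ((1 : (Rc (AlgebraicClosure K))ˣ) : Rc (AlgebraicClosure K)) 1 (one_rel σ)) ≫
        (Eo (1 : (Rc (AlgebraicClosure K))ˣ)).hom = Spec.map (CommRingCat.ofHom σ) := by
      rw [Category.assoc, h1, ← Category.assoc, hP, Category.id_comp]
    rw [← Category.assoc, h2]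
    apply pullback.hom_ext
    · rw [Category.assoc, Category.assoc, eb_fst, ← Spec.map_comp,
        ← Spec.map_comp, ← CommRingCat.ofHom_comp, ← CommRingCat.ofHom_comp, ← hu,
        Category.id_comp]
      have h3 := sigma_comp θ α β hα hβ hθ
      rw [thY] at h3
      rw [← h3]
    · rw [Category.assoc, Category.assoc, eb_snd, ht, ← Spec.map_comp,
        ← Spec.map_comp, ← CommRingCat.ofHom_comp, ← CommRingCat.ofHom_comp]
      have e : σ.comp ((thc (AlgebraicClosure K)).comp (algebraMap (AlgebraicClosure K)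
          (Rb (AlgebraicClosure K)))) = RingHom.id _ := by
        ext r
        change σ (thc _ (algebraMap _ _ r)) = r
        rw [thc_algebraMap]
        exact sigma_alg θ α β hα hβ r
      rw [e]
      exact Spec.map_id _

end point

section roots

variable {F : Type} [Field F]

/-- changing the cube roots by a cube root of unity. -/
lemma root_rel (w α : Fˣ) (hw : (w : F) ^ 2 + w + 1 = 0) {c : F} (h : (α : F) ^ 3 = c) :
    ((α * w⁻¹ : Fˣ) : F) ^ 3 = c := by
  have h1 : w ^ 3 = 1 := by
    ext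
    rw [Units.val_pow_eq_pow_val, Units.val_one]
    linear_combination ((w : F) - 1) * hw
  have h2 : (α * w⁻¹) ^ 3 = α ^ 3 := by
    rw [mul_pow, inv_pow, h1, inv_one, _root_.mul_one]
  rw [← Units.val_pow_eq_pow_val, h2, Units.val_pow_eq_pow_val, h]

/-- scaling after the action of the cube root of unity. -/
lemma scPt_om {R : Type} [CommRing R] (θ : R →+* F) (b : Rˣ) (γ' γ'' : Fˣ)
    (h : θ b * (γ' : F) ^ 3 = ((1 : Fˣ) : F)) (h' : θ b * (γ'' : F) ^ 3 = ((1 : Fˣ) : F))
    (w : Fˣ) (hw : (w : F) ^ 2 + w + 1 = 0) (hg : γ'' = γ' * w)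
    {u : Spec (.of F) ⟶ Spec (.of R)} (hu : 𝟙 _ ≫ Spec.map (CommRingCat.ofHom θ) = u)
    (P : Mg F) : scPt θ 1 b γ' h hu (om w hw P) = scPt θ 1 b γ'' h' hu P := by
  apply hom_ext_over
  rw [scPt_left, scPt_left, om, scPt_left, Category.assoc]
  congr 1
  exact scm_comp θ (RingHom.id F) _ _ _ γ' w h (om_rel w hw) γ'' (by rw [hg]; rfl) h'

end roots

end Pool.Agent.W473
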