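import Pool.Agent.W473.Main5

/-!
The counterexample: no strict closed subgroup scheme contains the image of `Y`.
-/

open AlgebraicGeometry CategoryTheory Limits MonoidalCategory CartesianMonoidalCategory MonObj

namespace Pool.Agent.W473

open Pool.Agent.Helper198.Sch Pink

attribute [local instance] MvPolynomial.gradedAlgebra

section

variable {F : Type} [Field F] {R : Type} [CommRing R]

lemma scPt_congr (θ : R →+* F) (b : Rˣ) (γ' γ'' : Fˣ)
    (h : θ b * (γ' : F) ^ 3 = ((1 : Fˣ) : F)) (h' : θ b * (γ'' : F) ^ 3 = ((1 : Fˣ) : F))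
    (hg : γ' = γ'') {u : Spec (.of F) ⟶ Spec (.of R)}
    (hu : 𝟙 _ ≫ Spec.map (CommRingCat.ofHom θ) = u) (P : Mg F) :
    scPt θ 1 b γ' h hu P = scPt θ 1 b γ'' h' hu P := by
  subst hg
  rfl

end

section

variable {K : Type} [Field K] [CharZero K] (θ : Rb K →+* AlgebraicClosure K)
  {u : Spec (.of (AlgebraicClosure K)) ⟶ Sb K}
  (hu : 𝟙 _ ≫ Spec.map (CommRingCat.ofHom θ) = u)

lemma exists_w : ∃ w : (AlgebraicClosure K)ˣ, (w : AlgebraicClosure K) ^ 2 + w + 1 = 0 := by
  obtain ⟨w, hw⟩ := IsAlgClosed.exists_root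
    (Polynomial.X ^ 2 + Polynomial.X + Polynomial.C 1 : Polynomial (AlgebraicClosure K)) (by
      have : (Polynomial.X ^ 2 + Polynomial.X + Polynomial.C 1 :
        Polynomial (AlgebraicClosure K)).degree = 2 := by compute_degree!
      rw [this]
      norm_num)
  have h : w ^ 2 + w + 1 = 0 := by
    simpa [Polynomial.IsRoot] using hw
  have h0 : w ≠ 0 := by
    rintro rfl
    simp at h
  exact ⟨Units.mk0 w h0, h⟩

lemma exists_roots : ∃ α β : (AlgebraicClosure K)ˣ, (α : AlgebraicClosure K) ^ 3 = θ (tt K) ∧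
    (β : AlgebraicClosure K) ^ 3 = - (θ (tt K) + 1) := by
  have h1 : IsUnit (θ (tt K)) := (isUnit_tt K).map θ
  have h2 : IsUnit (θ (tt K) + 1) := by
    have := (isUnit_tt1 K).map θ
    rwa [map_add, map_one] at this
  obtain ⟨α, hα⟩ := IsAlgClosed.exists_pow_nat_eq (θ (tt K)) (n := 3) (by norm_num)
  obtain ⟨β, hβ⟩ := IsAlgClosed.exists_pow_nat_eq (-(θ (tt K) + 1)) (n := 3) (by norm_num)
  have h3 : α ≠ 0 := by
    rintro rfl
    rw [zero_pow (by norm_num)] at hα
    exact h1.ne_zero hα.symm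
  have h4 : β ≠ 0 := by
    rintro rfl
    rw [zero_pow (by norm_num)] at hβ
    exact h2.neg.ne_zero hβ.symm
  exact ⟨Units.mk0 α h3, Units.mk0 β h4, hα, hβ⟩

theorem subgroup_eq_top (G : Subgroup (Over.mk u ⟶ AP (aa K)))
    (hG : ∀ (α β : (AlgebraicClosure K)ˣ) (hα : (α : AlgebraicClosure K) ^ 3 = θ (tt K))
      (hβ : (β : AlgebraicClosure K) ^ 3 = - (θ (tt K) + 1)) (P : Mg (AlgebraicClosure K)),
      Fmap K θ α β hα hβ hu (fun _ => P) ∈ G) : G = ⊤ := by
  obtain ⟨w, hw⟩ := exists_w (K := K)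
  obtain ⟨α, β, hα, hβ⟩ := exists_roots θ
  have hα' := root_rel w α hw hα
  have hβ' := root_rel w β hw hβ
  let D : Subgroup (Fin 4 → Mg (AlgebraicClosure K)) :=
    G.comap (MonoidHom.mk' (Fmap K θ α β hα hβ hu) (Fmap_mul θ α β hα hβ hu))
  have hD : D = ⊤ := by
    apply group_gen (om w hw) (om_mul w hw) (one_sub_surjective w hw) D
    · intro P
      change Fmap K θ α β hα hβ hu (v4 P P P P) ∈ G
      have e : (v4 P P P P) = fun _ => P := by
        funext i
        fin_cases i <;> rfl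
      rw [e]
      exact hG α β hα hβ P
    · intro P
      change Fmap K θ α β hα hβ hu (v4 P (om w hw P) P (om w hw P)) ∈ G
      have e : Fmap K θ α β hα hβ hu (v4 P (om w hw P) P (om w hw P)) =
          Fmap K θ (α * w⁻¹) β hα' hβ hu (fun _ => P) := by
        apply ext4
        intro i
        rw [Fmap_pr, Fmap_pr]
        fin_cases i
        · exact scPt_congr _ _ _ _ _ _ rfl hu P
        · refine scPt_om θ _ _ _ _ _ w hw ?_ hu P
          change (α * w⁻¹)⁻¹ = α⁻¹ * w
          rw [mul_inv, inv_inv]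
        · exact scPt_congr _ _ _ _ _ _ rfl hu P
        · refine scPt_om θ _ _ _ _ _ w hw ?_ hu P
          change (α * w⁻¹ * β)⁻¹ = (α * β)⁻¹ * w
          rw [mul_inv, mul_inv, mul_inv, inv_inv]
          exact mul_right_comm _ _ _
      rw [e]
      exact hG _ _ _ _ P
    · intro P
      change Fmap K θ α β hα hβ hu (v4 P P (om w hw P) (om w hw P)) ∈ G
      have e : Fmap K θ α β hα hβ hu (v4 P P (om w hw P) (om w hw P)) =
          Fmap K θ α (β * w⁻¹) hα hβ' hu (fun _ => P) := by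
        apply ext4
        intro i
        rw [Fmap_pr, Fmap_pr]
        fin_cases i
        · exact scPt_congr _ _ _ _ _ _ rfl hu P
        · exact scPt_congr _ _ _ _ _ _ rfl hu P
        · refine scPt_om θ _ _ _ _ _ w hw ?_ hu P
          change (β * w⁻¹)⁻¹ = β⁻¹ * w
          rw [mul_inv, inv_inv]
        · refine scPt_om θ _ _ _ _ _ w hw ?_ hu P
          change (α * (β * w⁻¹))⁻¹ = (α * β)⁻¹ * w
          rw [← _root_.mul_assoc, mul_inv, inv_inv]
      rw [e]
      exact hG _ _ _ _ P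
    · intro P
      change Fmap K θ α β hα hβ hu (v4 P (om w hw P) (om w hw P) (om w hw (om w hw P))) ∈ G
      have e : Fmap K θ α β hα hβ hu (v4 P (om w hw P) (om w hw P) (om w hw (om w hw P))) =
          Fmap K θ (α * w⁻¹) (β * w⁻¹) hα' hβ' hu (fun _ => P) := by
        apply ext4
        intro i
        rw [Fmap_pr, Fmap_pr]
        fin_cases i
        · exact scPt_congr _ _ _ _ _ _ rfl hu P
        · refine scPt_om θ _ _ _ _ _ w hw ?_ hu P
          change (α * w⁻¹)⁻¹ = α⁻¹ * w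
          rw [mul_inv, inv_inv]
        · refine scPt_om θ _ _ _ _ _ w hw ?_ hu P
          change (β * w⁻¹)⁻¹ = β⁻¹ * w
          rw [mul_inv, inv_inv]
        · have hr := gam_rel (α * w⁻¹) β θ hα' hβ 3
          have e1 : scPt θ 1 (aa K 3) (gam α β 3) (gam_rel α β θ hα hβ 3) hu
              (om w hw (om w hw P)) =
              scPt θ 1 (aa K 3) (gam (α * w⁻¹) β 3) hr hu (om w hw P) := by
            refine scPt_om θ _ _ _ _ _ w hw ?_ hu _
            change (α * w⁻¹ * β)⁻¹ = (α * β)⁻¹ * w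
            rw [mul_inv, mul_inv, mul_inv, inv_inv]
            exact mul_right_comm _ _ _
          refine e1.trans ?_
          refine scPt_om θ _ _ _ _ _ w hw ?_ hu P
          change (α * w⁻¹ * (β * w⁻¹))⁻¹ = (α * w⁻¹ * β)⁻¹ * w
          rw [← _root_.mul_assoc (α * w⁻¹) β, mul_inv (α * w⁻¹ * β), inv_inv]
      rw [e]
      exact hG _ _ _ _ P
  rw [eq_top_iff]
  intro a _
  obtain ⟨m, rfl⟩ := Fmap_surjective θ α β hα hβ hu a
  have hm : m ∈ D := by rw [hD]; trivial
  exact hm

end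

end Pool.Agent.W473
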