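import Pool.Agent.W473.Main6

/-!
The counterexample: conclusion.
-/

open AlgebraicGeometry CategoryTheory Limits MonoidalCategory CartesianMonoidalCategory MonObj

namespace Pool.Agent.W473

open Pool.Agent.Helper198.Sch Pink

attribute [local instance] MvPolynomial.gradedAlgebra

variable (K : Type) [Field K] [CharZero K]

/-- structure map of the total space -/
noncomputable abbrev strTot : total (pb K) (AP (aa K)) ⟶ Spec (.of (AlgebraicClosure K)) :=
  pullback.snd (AP (aa K)).hom (fromBar (pb K)) ≫ pullback.snd (pb K) (specBar K)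

lemma integral_total : IsIntegral (total (pb K) (AP (aa K))) := by
  have hA := abSch_AP (aa K)
  have h1 := hA.integral
  have h2 : Smooth (AP (aa K)).hom := hA.smooth.smooth
  have hD : IsIntegral (Sb (AlgebraicClosure K)) := inferInstance
  have hN : IsLocallyNoetherian (Sb (AlgebraicClosure K)) := isLocallyNoetherian_spec _
  have h5 : Nonempty (Sb (AlgebraicClosure K)) := inferInstance
  have h6 : Nonempty (pullback (pb K) (specBar K) : Scheme) := ⟨(eb K).hom h5.some⟩
  have h3 : IsIntegral (pullback (pb K) (specBar K)) :=
    isIntegral_of_isOpenImmersion (eb K).inv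
  have h4 : IsLocallyNoetherian (pullback (pb K) (specBar K)) :=
    isLocallyNoetherian_of_isOpenImmersion (eb K).inv
  infer_instance

lemma locallyOfFiniteType_strTot : LocallyOfFiniteType (strTot K) := by
  have hA := abSch_AP (aa K)
  have h1 : IsProper (AP (aa K)).hom := hA.proper
  have h2 : LocallyOfFiniteType (pb K) := by
    have e : pb K = Spec.map (CommRingCat.ofHom (algebraMap (Polynomial K) (Rb K))) ≫
        Spec.map (CommRingCat.ofHom (algebraMap K (Polynomial K))) := by
      rw [← Spec.map_comp, ← CommRingCat.ofHom_comp, ← IsScalarTower.algebraMap_eq]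
    have h3 : IsOpenImmersion (Spec.map (CommRingCat.ofHom
        (algebraMap (Polynomial K) (Rb K)))) :=
      IsOpenImmersion.of_isLocalization (Polynomial.X * (Polynomial.X + 1) : Polynomial K)
    have h4 : LocallyOfFiniteType (Spec.map (CommRingCat.ofHom
        (algebraMap K (Polynomial K)))) := by
      rw [HasRingHomProperty.Spec_iff (P := @LocallyOfFiniteType)]
      have : Algebra.FiniteType K (Polynomial K) := inferInstance
      exact RingHom.finiteType_algebraMap.2 this
    rw [e]
    infer_instance
  infer_instance

theorem not_strict (G : Scheme.{0}) (j : G ⟶ total (pb K) (AP (aa K)))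
    (hj : IsClosedSubgroup (AP (aa K)) (fromBar (pb K)) j)
    (hX : Set.range (phiBar K) ⊆ Set.range j) : IsIso j := by
  have hcl := hj.1
  have hint := integral_total K
  have hft := locallyOfFiniteType_strTot K
  have hJac : JacobsonSpace (total (pb K) (AP (aa K))) :=
    LocallyOfFiniteType.jacobsonSpace (strTot K)
  have hclosed : IsClosed (Set.range j) := j.isClosedEmbedding.isClosed_range
  have key : closedPoints (total (pb K) (AP (aa K))) ⊆ Set.range j := by
    intro x hx
    let xh := pointOfClosedPoint (strTot K) x hx
    have hxh : xh ≫ strTot K = 𝟙 _ := pointOfClosedPoint_comp (strTot K) x hx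
    let t : Spec (.of (AlgebraicClosure K)) ⟶ pullback (pb K) (specBar K) :=
      xh ≫ pullback.snd (AP (aa K)).hom (fromBar (pb K))
    have ht : t ≫ pullback.snd (pb K) (specBar K) = 𝟙 _ := by
      rw [Category.assoc]
      exact hxh
    let θ : Rb K →+* AlgebraicClosure K := (Spec.preimage (t ≫ fromBar (pb K))).hom
    have hu : 𝟙 _ ≫ Spec.map (CommRingCat.ofHom θ) = t ≫ fromBar (pb K) := by
      rw [Category.id_comp]
      exact Spec.map_preimage _
    obtain ⟨Γ', hΓ⟩ := hj.2 (Spec (.of (AlgebraicClosure K))) t
    have htop : Γ' = ⊤ := by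
      apply subgroup_eq_top θ hu
      intro α β hα hβ P
      rw [hΓ]
      obtain ⟨f, hf⟩ := diag_point θ α β hα hβ t ht hu P
      apply exists_factor
      rw [← hf]
      refine Set.Subset.trans ?_ hX
      rintro _ ⟨w, rfl⟩
      exact ⟨f w, rfl⟩
    let a : Over.mk (t ≫ fromBar (pb K)) ⟶ AP (aa K) :=
      Over.homMk (xh ≫ pullback.fst (AP (aa K)).hom (fromBar (pb K))) (by
        change (xh ≫ pullback.fst (AP (aa K)).hom (fromBar (pb K))) ≫ (AP (aa K)).hom =
          (xh ≫ pullback.snd (AP (aa K)).hom (fromBar (pb K))) ≫ fromBar (pb K)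
        rw [Category.assoc, Category.assoc, pullback.condition])
    have ha : a ∈ Γ' := by rw [htop]; trivial
    obtain ⟨b, hb⟩ := (hΓ a).1 ha
    have hlift : pullback.lift a.left t (Over.w a) = xh := by
      apply pullback.hom_ext
      · rw [pullback.lift_fst]
        rfl
      · rw [pullback.lift_snd]
    rw [hlift] at hb
    let w : Spec (.of (AlgebraicClosure K)) := IsLocalRing.closedPoint (AlgebraicClosure K)
    have hw : xh w = x := pointOfClosedPoint_apply (strTot K) x hx w
    refine ⟨b w, ?_⟩
    rw [← hw, ← hb]
    rfl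
  have huniv : Set.range j = Set.univ := by
    rw [Set.eq_univ_iff_forall]
    intro x
    have h1 : x ∈ closure (closedPoints (total (pb K) (AP (aa K)))) := by
      rw [closure_closedPoints]
      trivial
    exact closure_minimal key hclosed h1
  have hs : Surjective j := ⟨Set.range_eq_univ.1 huniv⟩
  exact isIso_of_isClosedImmersion_of_surjective j

lemma geometricallyConnected_of_integral {X Y : Scheme.{0}} (f : X ⟶ Y)
    [h : GeometricallyIntegral f] : GeometricallyConnected f := by
  constructor
  intro F _ y Z p q hZ
  have := h.geometrically_isIntegral y p q hZ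
  have h2 : IrreducibleSpace Z := inferInstance
  exact inferInstanceAs (ConnectedSpace Z)

lemma exists_nat_eq {a : WithBot ℕ∞} (h0 : 0 ≤ a) (h2 : a ≤ 2) : ∃ d : ℕ, a = d ∧ d ≤ 2 := by
  induction a using WithBot.recBotCoe with
  | bot => simp at h0
  | coe a =>
    induction a using ENat.recTopCoe with
    | top =>
      exact absurd h2 (by decide)
    | coe n =>
      refine ⟨n, rfl, ?_⟩
      have h3 : ((n : ℕ) : WithBot ℕ∞) ≤ ((2 : ℕ) : WithBot ℕ∞) := h2
      exact_mod_cast h3

/-- The main theorem. -/
theorem not_conjecture (K : Type) [Field K] [NumberField K] : ¬ Conjecture K := by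
  intro hC
  have hA := abSch_AP (aa K)
  have hAb : IsAbelianScheme 4 (AP (aa K)) := by
    refine ⟨hA.proper, hA.smooth, ?_⟩
    have := hA.integral
    exact geometricallyConnected_of_integral _
  have hQ : IsQuasiProjectiveVariety (pb K) := by
    refine ⟨inferInstance, 1, qemb K, inferInstance, qemb_str K⟩
  have hY := integral_Y K
  have hN := noetherian_Y K
  have hdim : topologicalKrullDim (Set.range (phiBar K)) ≤ 2 :=
    (topologicalKrullDim_range_le (phiBar K) (phiBar K).continuous
      (isClosedMap_phiBar K)).trans (dim_Y K)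
  have hirr : IsIrreducible (Set.range (phiBar K)) := by
    rw [← Set.image_univ]
    exact (IrreducibleSpace.isIrreducible_univ (Ysch K)).image _
      (phiBar K).continuous.continuousOn
  have hcl : IsClosed (Set.range (phiBar K)) := (isClosedMap_phiBar K).isClosed_range
  have hpos : 0 ≤ topologicalKrullDim (Set.range (phiBar K)) := by
    have h1 : IrreducibleSpace (Set.range (phiBar K)) :=
      Subtype.irreducibleSpace hirr
    have : Nonempty (TopologicalSpace.IrreducibleCloseds (Set.range (phiBar K))) :=
      ⟨⟨Set.univ, IrreducibleSpace.isIrreducible_univ _, isClosed_univ⟩⟩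
    exact Order.krullDim_nonneg
  obtain ⟨d, hd, hd2⟩ := exists_nat_eq hpos hdim
  exact hC (Sb K) (pb K) 4 (AP (aa K)) (Set.range (phiBar K)) d hQ hAb hcl hirr hd
    (fun G j hj hX => not_strict K G j hj hX) (dense_X K d hd2)

end Pool.Agent.W473

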