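import Mathlib
import Pool.Agent.W811.Nd.Stm

/-!
The children of a node of type `true`.
-/

set_option autoImplicit false

open Set Pool.Agent.W811.Stu Pool.Agent.W811.Nd

namespace Pool.Agent.W473.ND

lemma cc_big {lam : ℝ} (h : Big lam) : 5 * 10 ^ 7 ≤ cc (lam / 2) := by
  have h1 := cc_sq (lam / 2)
  have h2 := cc_pos (lam / 2)
  unfold Big at h
  by_contra hc
  push Not at hc
  nlinarith

lemma tpow {t : ℝ} (h : |t| ≤ 1 / 2000) : 0 ≤ t ^ 2 ∧ t ^ 2 ≤ 1 / 4000000 ∧
    -(1 / 8000000000) ≤ t ^ 3 ∧ t ^ 3 ≤ 1 / 8000000000 ∧ 0 ≤ t ^ 4 ∧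
    t ^ 4 ≤ 1 / 16000000000000 := by
  have h2 : |t| ^ 2 ≤ (1 / 2000) ^ 2 := pow_le_pow_left₀ (abs_nonneg _) h 2
  have h3 : |t| ^ 3 ≤ (1 / 2000) ^ 3 := pow_le_pow_left₀ (abs_nonneg _) h 3
  have h4 : |t| ^ 4 ≤ (1 / 2000) ^ 4 := pow_le_pow_left₀ (abs_nonneg _) h 4
  rw [← abs_pow] at h2 h3 h4
  have h3' := abs_le.1 h3
  have h2' := abs_le.1 h2
  have h4' := abs_le.1 h4
  norm_num at h2' h3' h4'
  refine ⟨by positivity, h2'.2, ?_, h3'.2, by positivity, h4'.2⟩
  have := h3'.1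
  linarith

lemma step3 (d : ℕ → ℕ) (m : ℕ) (hm : d m = 3) (p : P3) :
    (orb d p (m+1)).y = (8*(orb d p m).y^3-4*(orb d p m).y)*(orb d p m).z
      - (4*(orb d p m).y^2-1)*(2 * (orb d p m).y * (orb d p m).z - (orb d p m).x) ∧
    (orb d p (m+1)).x = (16*(orb d p m).y^4-12*(orb d p m).y^2+1)*(orb d p m).z
      - (8*(orb d p m).y^3-4*(orb d p m).y)*(2 * (orb d p m).y * (orb d p m).z - (orb d p m).x) := by
  have h0 := tf_zero d m p
  have h1 := tf_one d m p
  have h2 : tf d m 2 p = 2 * (orb d p m).y * tf d m 1 p - tf d m 0 p := tf_rec d m 0 p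
  have h3 : tf d m 3 p = 2 * (orb d p m).y * tf d m 2 p - tf d m 1 p := tf_rec d m 1 p
  have h4 : tf d m 4 p = 2 * (orb d p m).y * tf d m 3 p - tf d m 2 p := tf_rec d m 2 p
  rw [orb_succ_y, orb_succ_x, hm]
  constructor
  · rw [h3, h2, h1, h0]; ring
  · show tf d m 4 p = _
    rw [h4, h3, h2, h1, h0]; ring

lemma sgn_pos {c A z r : ℝ} (hc : 5*10^7 ≤ c) (hA : 1/1000 ≤ A) (hr : |r| ≤ 4)
    (hz : 9/10*c ≤ z) : 1 < A*z - r := by
  have h1 := (abs_le.1 hr).2
  have h2 : 1/1000 * (9/10*c) ≤ A * z := mul_le_mul hA hz (by positivity) (by linarith)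
  norm_num at hc
  linarith

/-- opposite signs -/
lemma opp {c A A' z z' r r' : ℝ} (hc : 5*10^7 ≤ c)
    (hA : (1/1000 ≤ A ∧ A' ≤ -(1/1000)) ∨ (A ≤ -(1/1000) ∧ 1/1000 ≤ A'))
    (hz : (9/10*c ≤ z ∧ 9/10*c ≤ z') ∨ (z ≤ -(9/10*c) ∧ z' ≤ -(9/10*c)))
    (hr : |r| ≤ 4) (hr' : |r'| ≤ 4) :
    (A*z - r < -1 ∧ 1 < A'*z' - r') ∨ (1 < A*z - r ∧ A'*z' - r' < -1) := by
  have hrn : |(-r)| ≤ 4 := by rwa [abs_neg]
  have hrn' : |(-r')| ≤ 4 := by rwa [abs_neg]
  rcases hA with ⟨a1, a2⟩ | ⟨a1, a2⟩ <;> rcases hz with ⟨z1, z2⟩ | ⟨z1, z2⟩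
  · right
    have h1 := sgn_pos hc a1 hr z1
    have h2 := sgn_pos (A := -A') hc (by linarith) hrn' z2
    exact ⟨h1, by linarith⟩
  · left
    have h1 := sgn_pos (z := -z) hc a1 hrn (by linarith)
    have h2 := sgn_pos (A := -A') (z := -z') hc (by linarith) hr' (by linarith)
    exact ⟨by linarith, by linarith⟩
  · left
    have h1 := sgn_pos (A := -A) hc (by linarith) hrn z1
    have h2 := sgn_pos hc a2 hr' z2
    exact ⟨by linarith, by linarith⟩
  · right
    have h1 := sgn_pos (A := -A) (z := -z) hc (by linarith) hr (by linarith)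
    have h2 := sgn_pos (z := -z') hc a2 hrn' (by linarith)
    exact ⟨by linarith, by linarith⟩

lemma U3b {s : ℝ} (hs : |s| ≤ 1) : |8*s^3-4*s| ≤ 4 := by
  have h := abs_le.1 hs
  have h1 : 0 ≤ (1 - s) := by linarith
  have h2 : 0 ≤ (1 + s) := by linarith
  rw [abs_le]
  constructor
  · nlinarith [mul_nonneg h2 (sq_nonneg (2*s-1)), mul_nonneg h2 (sq_nonneg s)]
  · nlinarith [mul_nonneg h1 (sq_nonneg (2*s+1)), mul_nonneg h1 (sq_nonneg s)]

lemma V2b {s : ℝ} (hs : |s| ≤ 1) : |4*s^2-1| ≤ 3 := by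
  have h := sq_le_one_iff_abs_le_one s |>.2 hs
  rw [abs_le]
  constructor <;> nlinarith [sq_nonneg s]

/-! ### the polynomials near the centers -/

/-- `U3` near a zero -/
def QF (q : ℝ) : Prop := |q| + 1 / 2000 < 1 ∧
  (∀ s : ℝ, |s - q| ≤ 1 / 2000 → |8*s^3-4*s| ≤ 1/100) ∧
  ((1/1000 ≤ 8*(q - 1/2000)^3 - 4*(q - 1/2000) ∧ 8*(q + 1/2000)^3 - 4*(q + 1/2000) ≤ -(1/1000)) ∨
   (8*(q - 1/2000)^3 - 4*(q - 1/2000) ≤ -(1/1000) ∧ 1/1000 ≤ 8*(q + 1/2000)^3 - 4*(q + 1/2000)))

/-- `U4` near a zero -/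
def QT (q : ℝ) : Prop := |q| + 1 / 2000 < 1 ∧
  (∀ s : ℝ, |s - q| ≤ 1 / 2000 → |16*s^4-12*s^2+1| ≤ 1/50 ∧ 95/100 ≤ |8*s^3-4*s| ∧
    |8*s^3-4*s| ≤ 105/100) ∧
  ((1/1000 ≤ 16*(q - 1/2000)^4 - 12*(q - 1/2000)^2+1 ∧
      16*(q + 1/2000)^4 - 12*(q + 1/2000)^2 + 1 ≤ -(1/1000)) ∨
   (16*(q - 1/2000)^4 - 12*(q - 1/2000)^2+1 ≤ -(1/1000) ∧
      1/1000 ≤ 16*(q + 1/2000)^4 - 12*(q + 1/2000)^2 + 1))

lemma qf0 : QF 0 := by
  refine ⟨by norm_num, fun s hs => ?_, by norm_num⟩
  rw [sub_zero] at hs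
  obtain ⟨h1, h2, h3, h4, h5, h6⟩ := tpow hs
  have h := abs_le.1 hs
  rw [abs_le]; constructor <;> linarith

lemma qf1 : QF (7071/10000) := by
  refine ⟨by norm_num [abs_of_pos], fun s hs => ?_, by norm_num⟩
  obtain ⟨t, rfl⟩ : ∃ t, s = 7071/10000 + t := ⟨s - 7071/10000, by ring⟩
  rw [add_sub_cancel_left] at hs
  obtain ⟨h1, h2, h3, h4, h5, h6⟩ := tpow hs
  have h := abs_le.1 hs
  have e : 8*(7071/10000 + t)^3-4*(7071/10000 + t) =
    8*(7071/10000)^3 - 4*(7071/10000) + (24*(7071/10000)^2 - 4) * t + 24 * (7071/10000) * t^2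
      + 8*t^3 := by ring
  rw [e, abs_le]; constructor <;> norm_num <;> linarith

lemma qf_neg {q : ℝ} (h : QF q) : QF (-q) := by
  obtain ⟨h1, h2, h3⟩ := h
  refine ⟨by rwa [abs_neg], fun s hs => ?_, ?_⟩
  · have h4 := h2 (-s) (by rw [← abs_neg]; convert hs using 2; ring)
    rw [← abs_neg]; convert h4 using 2; ring
  · have e1 : 8*(-q - 1/2000)^3 - 4*(-q - 1/2000) = -(8*(q + 1/2000)^3 - 4*(q + 1/2000)) := by ring
    have e2 : 8*(-q + 1/2000)^3 - 4*(-q + 1/2000) = -(8*(q - 1/2000)^3 - 4*(q - 1/2000)) := by ring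
    rw [e1, e2]
    rcases h3 with ⟨a, b⟩ | ⟨a, b⟩
    · left; constructor <;> linarith
    · right; constructor <;> linarith

lemma qt1 : QT (809/1000) := by
  refine ⟨by norm_num [abs_of_pos], fun s hs => ?_, by norm_num⟩
  obtain ⟨t, rfl⟩ : ∃ t, s = 809/1000 + t := ⟨s - 809/1000, by ring⟩
  rw [add_sub_cancel_left] at hs
  obtain ⟨h1, h2, h3, h4, h5, h6⟩ := tpow hs
  have h := abs_le.1 hs
  have e : 8*(809/1000 + t)^3-4*(809/1000 + t) =
    8*(809/1000)^3 - 4*(809/1000) + (24*(809/1000)^2 - 4) * t + 24 * (809/1000) * t^2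
      + 8*t^3 := by ring
  have e' : 16*(809/1000 + t)^4-12*(809/1000 + t)^2+1 =
    16*(809/1000)^4 - 12*(809/1000)^2+1 + (64*(809/1000)^3 - 24*(809/1000)) * t
      + (96 * (809/1000)^2 - 12) * t^2 + 64*(809/1000)*t^3 + 16*t^4 := by ring
  have hp : 95/100 ≤ 8*(809/1000 + t)^3-4*(809/1000 + t) := by
    rw [e]; norm_num; linarith
  rw [abs_of_nonneg (le_trans (by norm_num) hp)]
  refine ⟨?_, hp, ?_⟩
  · rw [e', abs_le]; constructor <;> norm_num <;> linarith
  · rw [e]; norm_num; linarith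

lemma qt2 : QT (309/1000) := by
  refine ⟨by norm_num [abs_of_pos], fun s hs => ?_, by norm_num⟩
  obtain ⟨t, rfl⟩ : ∃ t, s = 309/1000 + t := ⟨s - 309/1000, by ring⟩
  rw [add_sub_cancel_left] at hs
  obtain ⟨h1, h2, h3, h4, h5, h6⟩ := tpow hs
  have h := abs_le.1 hs
  have e : 8*(309/1000 + t)^3-4*(309/1000 + t) =
    8*(309/1000)^3 - 4*(309/1000) + (24*(309/1000)^2 - 4) * t + 24 * (309/1000) * t^2
      + 8*t^3 := by ring
  have e' : 16*(309/1000 + t)^4-12*(309/1000 + t)^2+1 =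
    16*(309/1000)^4 - 12*(309/1000)^2+1 + (64*(309/1000)^3 - 24*(309/1000)) * t
      + (96 * (309/1000)^2 - 12) * t^2 + 64*(309/1000)*t^3 + 16*t^4 := by ring
  have hp : 8*(309/1000 + t)^3-4*(309/1000 + t) ≤ -(95/100) := by
    rw [e]; norm_num; linarith
  rw [abs_of_nonpos (le_trans hp (by norm_num))]
  refine ⟨?_, by linarith, ?_⟩
  · rw [e', abs_le]; constructor <;> norm_num <;> linarith
  · rw [e]; norm_num; linarith

lemma qt_neg {q : ℝ} (h : QT q) : QT (-q) := by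
  obtain ⟨h1, h2, h3⟩ := h
  refine ⟨by rwa [abs_neg], fun s hs => ?_, ?_⟩
  · obtain ⟨h4, h5, h6⟩ := h2 (-s) (by rw [← abs_neg]; convert hs using 2; ring)
    have e1 : 16*(-s)^4-12*(-s)^2+1 = 16*s^4-12*s^2+1 := by ring
    have e2 : |8*(-s)^3-4*(-s)| = |8*s^3-4*s| := by rw [← abs_neg]; congr 1; ring
    rw [e1] at h4; rw [e2] at h5 h6
    exact ⟨h4, h5, h6⟩
  · have e1 : 16*(-q - 1/2000)^4 - 12*(-q - 1/2000)^2+1 =
      16*(q + 1/2000)^4 - 12*(q + 1/2000)^2+1 := by ring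
    have e2 : 16*(-q + 1/2000)^4 - 12*(-q + 1/2000)^2+1 =
      16*(q - 1/2000)^4 - 12*(q - 1/2000)^2+1 := by ring
    rw [e1, e2]
    rcases h3 with ⟨a, b⟩ | ⟨a, b⟩
    · right; exact ⟨b, a⟩
    · left; exact ⟨b, a⟩

/-! ### the zeros -/

lemma zero3pos {s : ℝ} (h0 : 0 ≤ s) (h : |8*s^3-4*s| ≤ 1/10^6) :
    |s - 0| ≤ 1/2000 ∨ |s - 7071/10000| ≤ 1/2000 := by
  by_contra hc
  push Not at hc
  obtain ⟨h1, h2⟩ := hc
  rw [sub_zero, abs_of_nonneg h0] at h1
  have hh := abs_le.1 h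
  norm_num at hh
  rcases lt_abs.1 h2 with h3 | h3
  · nlinarith [mul_pos (show 0 < s by linarith) (show 0 < s - 7071/10000 - 1/2000 by linarith)]
  · nlinarith [mul_pos (show 0 < s by linarith) (show 0 < s - 1/2000 by linarith),
      mul_pos (show 0 < s - 1/2000 by linarith) (show 0 < 7071/10000 - 1/2000 - s by linarith)]

lemma zero4pos {s : ℝ} (h0 : 0 ≤ s) (h : |16*s^4-12*s^2+1| ≤ 1/10^6) :
    |s - 309/1000| ≤ 1/2000 ∨ |s - 809/1000| ≤ 1/2000 := by
  by_contra hc
  push Not at hc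
  obtain ⟨h1, h2⟩ := hc
  have hh := abs_le.1 h
  norm_num at hh
  have e : 16*s^4-12*s^2+1 = (4*s^2+2*s-1)*(4*s^2-2*s-1) := by ring
  rw [e] at hh
  rcases lt_abs.1 h2 with h3 | h3
  · have a1 : 1/1000 ≤ 4*s^2-2*s-1 := by nlinarith
    have a2 : 1 ≤ 4*s^2+2*s-1 := by nlinarith
    nlinarith [mul_le_mul a2 a1 (by norm_num) (by linarith)]
  · rcases lt_abs.1 h1 with h4 | h4
    · have a1 : 4*s^2-2*s-1 ≤ -(2/1000) := by nlinarith
      have a2 : 2/1000 ≤ 4*s^2+2*s-1 := by nlinarith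
      nlinarith [mul_nonneg (show 0 ≤ -(2/1000) - (4*s^2-2*s-1) by linarith)
        (show 0 ≤ (4*s^2+2*s-1) - 2/1000 by linarith)]
    · have a1 : 4*s^2-2*s-1 ≤ -(9/10) := by nlinarith
      have a2 : 4*s^2+2*s-1 ≤ -(2/1000) := by nlinarith
      nlinarith [mul_nonneg (show 0 ≤ -(9/10) - (4*s^2-2*s-1) by linarith)
        (show 0 ≤ -(2/1000) - (4*s^2+2*s-1) by linarith)]

/-- the centers -/
noncomputable def qq : Fin 7 → ℝ :=
  ![-(809/1000), -(7071/10000), -(309/1000), 0, 309/1000, 7071/10000, 809/1000]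

/-- the types -/
def bb : Fin 7 → Bool := ![true, false, true, false, true, false, true]

lemma qq_sep : ∀ i j : Fin 7, i ≠ j → 101 / 1000 ≤ |qq i - qq j| := by
  intro i j hij
  fin_cases i <;> fin_cases j <;> simp [qq] at hij ⊢ <;> rw [le_abs] <;> norm_num

lemma qq_t : ∀ i, bb i = true → QT (qq i) := by
  intro i hi
  fin_cases i <;> simp [bb] at hi <;> simp [qq]
  · exact qt_neg qt1
  · exact qt_neg qt2
  · exact qt2
  · exact qt1

lemma qq_f : ∀ i, bb i = false → QF (qq i) := by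
  intro i hi
  fin_cases i <;> simp [bb] at hi <;> simp [qq]
  · exact qf_neg qf1
  · exact qf0
  · exact qf1

lemma zero3 {s : ℝ} (h : |8*s^3-4*s| ≤ 1/10^6) :
    ∃ i, bb i = false ∧ |s - qq i| ≤ 1/2000 := by
  rcases le_total 0 s with h0 | h0
  · rcases zero3pos h0 h with h1 | h1
    · exact ⟨3, rfl, by simpa [qq] using h1⟩
    · exact ⟨5, rfl, by simpa [qq] using h1⟩
  · have h' : |8*(-s)^3-4*(-s)| ≤ 1/10^6 := by
      rw [← abs_neg]; convert h using 2; ring
    rcases zero3pos (s := -s) (by linarith) h' with h1 | h1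
    · refine ⟨3, rfl, ?_⟩
      rw [← abs_neg] at h1
      simpa [qq] using h1
    · refine ⟨1, rfl, ?_⟩
      rw [← abs_neg] at h1
      simp only [qq, Matrix.cons_val_one, Matrix.cons_val_zero]
      convert h1 using 2
      simp; ring

lemma zero4 {s : ℝ} (h : |16*s^4-12*s^2+1| ≤ 1/10^6) :
    ∃ i, bb i = true ∧ |s - qq i| ≤ 1/2000 := by
  rcases le_total 0 s with h0 | h0
  · rcases zero4pos h0 h with h1 | h1
    · exact ⟨4, rfl, by simpa [qq] using h1⟩
    · exact ⟨6, rfl, by simpa [qq] using h1⟩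
  · have h' : |16*(-s)^4-12*(-s)^2+1| ≤ 1/10^6 := by
      convert h using 2; ring
    rcases zero4pos (s := -s) (by linarith) h' with h1 | h1
    · refine ⟨2, rfl, ?_⟩
      rw [← abs_neg] at h1
      simp only [qq]
      convert h1 using 2
      simp; ring
    · refine ⟨0, rfl, ?_⟩
      rw [← abs_neg] at h1
      simp only [qq]
      convert h1 using 2
      simp; ring

lemma cont_z (lam : ℝ) (d : ℕ → ℕ) (m : ℕ) : Continuous fun e => (orb d (lin lam e) m).z := by
  have h := cont_toL_z ((cont_orb d m).comp (cont_lin lam))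
  simpa [Function.comp_def] using h

lemma z_sign {lam : ℝ} {d : ℕ → ℕ} {m : ℕ} {u v c : ℝ} (hc : 0 < c)
    (h : ∀ e ∈ Icc u v, c ≤ |(orb d (lin lam e) m).z|) :
    (∀ e ∈ Icc u v, c ≤ (orb d (lin lam e) m).z) ∨
    (∀ e ∈ Icc u v, (orb d (lin lam e) m).z ≤ -c) := by
  by_contra hc'
  push Not at hc'
  obtain ⟨⟨e, he, h1⟩, ⟨e', he', h2⟩⟩ := hc'
  have h1' : (orb d (lin lam e) m).z ≤ 0 := by
    rcases le_abs.1 (h e he) with h3 | h3
    · linarith
    · linarith
  have h2' : 0 ≤ (orb d (lin lam e') m).z := by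
    rcases le_abs.1 (h e' he') with h3 | h3
    · linarith
    · linarith
  obtain ⟨x, hx, hx0⟩ := isPreconnected_Icc.intermediate_value he he'
    (cont_z lam d m).continuousOn (show (0:ℝ) ∈ Icc _ _ from ⟨h1', h2'⟩)
  have := h x hx
  simp only at hx0
  rw [hx0, abs_zero] at this
  linarith

/-- (CH2) -/
theorem ch2 (hs : TSq) (ha : TKA) (hb : TKB) (hc : TKC) : TCH2 := by
  intro lam d m u v hB hd hd0 hd1 hN
  set c := cc (lam / 2) with hcdef
  have hc5 : 5 * 10 ^ 7 ≤ c := cc_big hB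
  have hc0 : 0 < c := cc_pos _
  have ht := hN.t2 rfl
  have hy := hN.y1
  have hseg : seg (u, v, true) = Icc u v := rfl
  rw [hseg] at ht hy
  have hsgn := z_sign (c := 9/10*c) (by positivity) (fun e he => (ht e he).1)
  have st := fun e => step3 d m hd0 (lin lam e)
  have hzz : ∀ e ∈ Icc u v, ∀ e' ∈ Icc u v,
      (9/10*c ≤ (orb d (lin lam e) m).z ∧ 9/10*c ≤ (orb d (lin lam e') m).z) ∨
      ((orb d (lin lam e) m).z ≤ -(9/10*c) ∧ (orb d (lin lam e') m).z ≤ -(9/10*c)) := by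
    intro e he e' he'
    rcases hsgn with h | h
    · exact Or.inl ⟨h e he, h e' he'⟩
    · exact Or.inr ⟨h e he, h e' he'⟩
  have hrF : ∀ e ∈ Icc u v, |(4*(orb d (lin lam e) m).y^2-1)*
      (2 * (orb d (lin lam e) m).y * (orb d (lin lam e) m).z - (orb d (lin lam e) m).x)| ≤ 3 := by
    intro e he
    rw [abs_mul]
    calc _ ≤ 3 * 1 := mul_le_mul (V2b (hy e he)) (ht e he).2.2 (abs_nonneg _) (by norm_num)
      _ = 3 := by norm_num
  have hrT : ∀ e ∈ Icc u v, |(8*(orb d (lin lam e) m).y^3-4*(orb d (lin lam e) m).y)*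
      (2 * (orb d (lin lam e) m).y * (orb d (lin lam e) m).z - (orb d (lin lam e) m).x)| ≤ 4 := by
    intro e he
    rw [abs_mul]
    calc _ ≤ 4 * 1 := mul_le_mul (U3b (hy e he)) (ht e he).2.2 (abs_nonneg _) (by norm_num)
      _ = 4 := by norm_num
  have key : ∀ i : Fin 7, ∃ C : ℕ × Nod, C.2.2.2 = bb i ∧ m < C.1 ∧ IsNode lam d C.1 C.2 ∧
      seg C.2 ⊆ seg (u, v, true) ∧ (∀ e ∈ seg C.2, |(orb d (lin lam e) m).y - qq i| ≤ 1 / 2000) ∧
      (bb i = false → ∀ e ∈ seg (u, v, true), |(orb d (lin lam e) m).y - qq i| ≤ 1 / 2000 →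
        |(orb d (lin lam e) (m + 1)).y| ≤ 1 → e ∈ seg C.2) ∧
      (bb i = true → ∀ e ∈ seg (u, v, true), |(orb d (lin lam e) m).y - qq i| ≤ 1 / 2000 →
        |(orb d (lin lam e) (m + 2)).y| ≤ 1 → e ∈ seg C.2) := by
    intro i
    cases hbi : bb i with
    | false =>
      obtain ⟨q1, q2, q3⟩ := qq_f i hbi
      obtain ⟨C, c1, c2, c3, c4, c5⟩ := ha lam d m (u, v, true) (qq i) hB hd hN q1
        (by
          intro e he hq
          rw [hseg] at he
          rw [(st e).1, ← hcdef]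
          have a1 := q2 _ hq
          have a2 := hrF e he
          have a3 := (ht e he).2.1
          have a4 : |(8*(orb d (lin lam e) m).y^3-4*(orb d (lin lam e) m).y)
              *(orb d (lin lam e) m).z| ≤ 1/100 * (11/10*c) := by
            rw [abs_mul]
            exact mul_le_mul a1 a3 (abs_nonneg _) (by norm_num)
          calc _ ≤ _ + _ := abs_sub _ _
            _ ≤ 1/100 * (11/10*c) + 3 := add_le_add a4 a2
            _ < c := by norm_num at hc5 ⊢; linarith)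
        (by
          intro e he e' he' hq hq'
          rw [hseg] at he he'
          rw [(st e).1, (st e').1]
          refine opp hc5 ?_ (hzz e he e' he') ((hrF e he).trans (by norm_num))
            ((hrF e' he').trans (by norm_num))
          rw [hq, hq']
          exact q3)
      exact ⟨(m + 1, C), c1, by simp, c2, c3, c4, fun _ => c5, fun h => by simp at h⟩
    | true =>
      obtain ⟨q1, q2, q3⟩ := qq_t i hbi
      obtain ⟨C, c1, c2, c3, c4, c5⟩ := hb lam d m (u, v, true) (qq i) hB hd hd1 hN q1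
        (by
          intro e he hq
          rw [hseg] at he
          rw [(st e).1, (st e).2, ← hcdef]
          obtain ⟨a1, a1', a1''⟩ := q2 _ hq
          have a2 := hrF e he
          have a2' := hrT e he
          have a3 := (ht e he).2.1
          have a3' := (ht e he).1
          have a4 : |(16*(orb d (lin lam e) m).y^4-12*(orb d (lin lam e) m).y^2+1)
              *(orb d (lin lam e) m).z| ≤ 1/50 * (11/10*c) := by
            rw [abs_mul]
            exact mul_le_mul a1 a3 (abs_nonneg _) (by norm_num)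
          have a5 : |(8*(orb d (lin lam e) m).y^3-4*(orb d (lin lam e) m).y)
              *(orb d (lin lam e) m).z| ≤ 105/100 * (11/10*c) := by
            rw [abs_mul]
            exact mul_le_mul a1'' a3 (abs_nonneg _) (by norm_num)
          have a6 : 95/100 * (9/10*c) ≤ |(8*(orb d (lin lam e) m).y^3-4*(orb d (lin lam e) m).y)
              *(orb d (lin lam e) m).z| := by
            rw [abs_mul]
            exact mul_le_mul a1' a3' (by positivity) (abs_nonneg _)
          refine ⟨?_, ?_, ?_⟩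
          · refine le_trans ?_ (abs_sub_abs_le_abs_sub _ _)
            norm_num at hc5
            linarith
          · calc _ ≤ _ + _ := abs_sub _ _
              _ ≤ 105/100 * (11/10*c) + 3 := add_le_add a5 a2
              _ ≤ _ := by norm_num at hc5 ⊢; linarith
          · calc _ ≤ _ + _ := abs_sub _ _
              _ ≤ 1/50 * (11/10*c) + 4 := add_le_add a4 a2'
              _ < _ := by norm_num at hc5 ⊢; linarith)
        (by
          intro e he e' he' hq hq'
          rw [hseg] at he he'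
          rw [(st e).2, (st e').2]
          have := opp hc5 (A := 16*(orb d (lin lam e) m).y^4-12*(orb d (lin lam e) m).y^2+1)
            (A' := 16*(orb d (lin lam e') m).y^4-12*(orb d (lin lam e') m).y^2+1)
            (by rw [hq, hq']; exact q3) (hzz e he e' he') (hrT e he) (hrT e' he')
          rcases this with ⟨h1, h2⟩ | ⟨h1, h2⟩
          · left; constructor <;> linarith
          · right; constructor <;> linarith)
      exact ⟨(m + 2, C), c1, by simp, c2, c3, c4, fun h => by simp at h, fun _ => c5⟩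
  choose C hC using key
  refine hc lam d m (u, v, true) 7 qq C hB hd hN qq_sep
    (fun i => ⟨(hC i).2.1, (hC i).2.2.1, (hC i).2.2.2.1, (hC i).2.2.2.2.1⟩) ?_ ?_ ?_
  · intro e he hes
    have hes' : e ∈ Icc u v := hes
    have a3 := (ht e hes').2.1
    have a3' := (ht e hes').1
    by_cases h1 : |(orb d (lin lam e) (m + 1)).y| ≤ 1
    · have b1 : |(8*(orb d (lin lam e) m).y^3-4*(orb d (lin lam e) m).y)
              *(orb d (lin lam e) m).z| ≤ 4 := by
        have := (st e).1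
        have h2 := hrF e hes'
        rw [this] at h1
        have := abs_le.1 h1
        have := abs_le.1 h2
        rw [abs_le]; constructor <;> linarith
      rw [abs_mul] at b1
      have b2 : |8*(orb d (lin lam e) m).y^3-4*(orb d (lin lam e) m).y| ≤ 1/10^6 := by
        by_contra hcon
        push Not at hcon
        have := mul_le_mul hcon.le a3' (by positivity) (abs_nonneg _)
        norm_num at this hc5
        linarith
      obtain ⟨i, hi, hi2⟩ := zero3 b2
      exact ⟨i, (hC i).2.2.2.2.2.1 hi e hes hi2 h1⟩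
    · have h2 : |(orb d (lin lam e) (m + 1 + 1)).y| ≤ 1 := by
        rcases he (m + 1) with h | h
        · exact absurd h h1
        · exact h
      have h3 := hs (lam / 2) (orb d (lin lam e) (m + 1)) (by unfold Big at hB; linarith)
        ((onS_lin lam e).orb d (m + 1)) (by rw [orb_succ_z]; exact hy e hes') (by
          push Not at h1; exact h1) (by
          rw [orb_succ_y, hd1] at h2; exact h2)
      have h4 := h3.1
      rw [(st e).2] at h4
      have b1 : |(16*(orb d (lin lam e) m).y^4-12*(orb d (lin lam e) m).y^2+1)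
              *(orb d (lin lam e) m).z| ≤ 5 := by
        have h5 := hrT e hes'
        have h6 := abs_le.1 h4
        have h7 := abs_le.1 h5
        norm_num at h6
        rw [abs_le]; constructor <;> linarith
      rw [abs_mul] at b1
      have b2 : |16*(orb d (lin lam e) m).y^4-12*(orb d (lin lam e) m).y^2+1| ≤ 1/10^6 := by
        by_contra hcon
        push Not at hcon
        have := mul_le_mul hcon.le a3' (by positivity) (abs_nonneg _)
        norm_num at this hc5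
        linarith
      obtain ⟨i, hi, hi2⟩ := zero4 b2
      exact ⟨i, (hC i).2.2.2.2.2.2 hi e hes hi2 h2⟩
  · simp only [fun i => (hC i).1]
    rfl
  · simp only [fun i => (hC i).1]
    rfl

end Pool.Agent.W473.ND
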