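import Mathlib

/-!
The objects of the conjecture on unlikely intersections in abelian schemes: abelian schemes,
closed subgroup schemes, the set `A^{[>d]}`.
-/

open AlgebraicGeometry CategoryTheory Limits MonObj

namespace Pool.Agent.W473.Pink

attribute [local instance] MvPolynomial.gradedAlgebra

/-- Projective `n`-space over the field `K`. -/
noncomputable abbrev projSpace (n : ℕ) (K : Type) [Field K] : Scheme.{0} :=
  Proj (MvPolynomial.homogeneousSubmodule (Fin (n + 1)) K)

/-- The structure morphism of projective space. -/
noncomputable abbrev projSpaceStr (n : ℕ) (K : Type) [Field K] :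
    projSpace n K ⟶ Spec (.of K) :=
  Proj.toSpecZero (MvPolynomial.homogeneousSubmodule (Fin (n + 1)) K) ≫
    Spec.map (CommRingCat.ofHom
      (algebraMap K (MvPolynomial.homogeneousSubmodule (Fin (n + 1)) K 0)))

/-- `p : S ⟶ Spec K` makes `S` an irreducible (and reduced) quasi-projective variety over `K`:
`S` is integral and is a locally closed subscheme of some projective space over `K`. -/
structure IsQuasiProjectiveVariety {K : Type} [Field K] {S : Scheme.{0}}
    (p : S ⟶ Spec (.of K)) : Prop where
  isIntegral : IsIntegral S
  exists_immersion : ∃ (n : ℕ) (i : S ⟶ projSpace n K), IsImmersion i ∧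
    i ≫ projSpaceStr n K = p

/-- An abelian scheme of relative dimension `g` over `S`: a group scheme over `S` which is proper
and smooth of relative dimension `g`, with geometrically connected fibres. -/
structure IsAbelianScheme (g : ℕ) {S : Scheme.{0}} (A : Over S) [GrpObj A] : Prop where
  isProper : IsProper A.hom
  smooth : SmoothOfRelativeDimension g A.hom
  geometricallyConnected : GeometricallyConnected A.hom

/-- The base change `A ×_S S'` of `A` along `q : S' ⟶ S`. -/
noncomputable abbrev baseChange {S S' : Scheme.{0}} (A : Over S) (q : S' ⟶ S) : Scheme.{0} :=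
  pullback A.hom q

/-- `j : G ⟶ A ×_S S'` is (the inclusion of) a closed subgroup scheme of the group scheme
`A ×_S S'` over `S'`: it is a closed immersion and for every `S'`-scheme `T` the `T`-points
which factor through `j` form a subgroup of the group of all `T`-points of `A ×_S S'`; this group
is the group of `S`-morphisms from `T` to `A`. -/
def IsClosedSubgroup {S S' : Scheme.{0}} (A : Over S) [GrpObj A] (q : S' ⟶ S)
    {G : Scheme.{0}} (j : G ⟶ baseChange A q) : Prop :=
  IsClosedImmersion j ∧ ∀ (T : Scheme.{0}) (t : T ⟶ S'),
    ∃ Γ : Subgroup (Over.mk (t ≫ q) ⟶ A), ∀ a : Over.mk (t ≫ q) ⟶ A,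
      a ∈ Γ ↔ ∃ b : T ⟶ G, b ≫ j = pullback.lift a.left t (Over.w a)

section number

variable {K : Type} [Field K]

/-- `Spec K̄ ⟶ Spec K` for the algebraic closure `K̄` of `K`. -/
noncomputable abbrev specBar (K : Type) [Field K] :
    Spec (.of (AlgebraicClosure K)) ⟶ Spec (.of K) :=
  Spec.map (CommRingCat.ofHom (algebraMap K (AlgebraicClosure K)))

variable {S : Scheme.{0}} (p : S ⟶ Spec (.of K))

/-- The projection `S_K̄ ⟶ S`, where `S_K̄ = S ×_K K̄`. -/
noncomputable abbrev fromBar : pullback p (specBar K) ⟶ S := pullback.fst p (specBar K)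

/-- The variety `A_K̄ = A ×_S S_K̄` over `K̄`. -/
noncomputable abbrev total (A : Over S) : Scheme.{0} := baseChange A (fromBar p)

/-- A geometric point `s : Spec K̄ ⟶ S` over `K` as a `K̄`-point of `S_K̄`. -/
noncomputable abbrev toBar (s : Spec (.of (AlgebraicClosure K)) ⟶ S) (hs : s ≫ p = specBar K) :
    Spec (.of (AlgebraicClosure K)) ⟶ pullback p (specBar K) :=
  pullback.lift s (𝟙 _) (by rw [hs, Category.id_comp])

/-- The inclusion of the fibre `A_s` at a geometric point `s ∈ S(K̄)` into `A_K̄`. -/
noncomputable abbrev fibreInclusion (A : Over S) (s : Spec (.of (AlgebraicClosure K)) ⟶ S)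
    (hs : s ≫ p = specBar K) : baseChange A s ⟶ total p A :=
  pullback.lift (pullback.fst A.hom s) (pullback.snd A.hom s ≫ toBar p s hs) (by
    rw [Category.assoc, pullback.lift_fst, pullback.condition])

/-- The set `A^{[>d]}` of closed points (that is, `K̄`-points) of `A_K̄` which lie in a closed
algebraic subgroup `H` of some fibre `A_s`, `s ∈ S(K̄)`, with `codim H = g - dim H > d`. -/
def highCodim (A : Over S) [GrpObj A] (g d : ℕ) : Set (total p A) :=
  {x | IsClosed {x} ∧ ∃ (s : Spec (.of (AlgebraicClosure K)) ⟶ S) (hs : s ≫ p = specBar K)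
    (H : Scheme.{0}) (j : H ⟶ baseChange A s), IsClosedSubgroup A s j ∧
      topologicalKrullDim H + d < g ∧ x ∈ Set.range (j ≫ fibreInclusion p A s hs)}

end number

/-- The statement of the question over a fixed number field `K`: for every irreducible
quasi-projective variety `S` over `K`, every abelian scheme `A` over `S` of relative dimension `g`
and every irreducible closed subset `X` of `A_K̄` of dimension `d` which is not contained in a
closed subgroup scheme `G` of `A_K̄` over `S_K̄` other than `A_K̄` itself,
`X ∩ A^{[>d]}` is not Zariski dense in `X`. -/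
def Conjecture (K : Type) [Field K] [NumberField K] : Prop :=
  ∀ (S : Scheme.{0}) (p : S ⟶ Spec (.of K)) (g : ℕ) (A : Over S) [GrpObj A]
    (X : Set (total p A)) (d : ℕ),
    IsQuasiProjectiveVariety p → IsAbelianScheme g A →
    IsClosed X → IsIrreducible X → topologicalKrullDim X = d →
    (∀ (G : Scheme.{0}) (j : G ⟶ total p A), IsClosedSubgroup A (fromBar p) j →
      X ⊆ Set.range j → IsIso j) →
    ¬ X ⊆ closure (X ∩ highCodim p A g d)

end Pool.Agent.W473.Pink
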