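import Pool.Agent.W473.Add

open MvPolynomial DirectSum AlgebraicGeometry CategoryTheory Limits

namespace Pool.Agent.W473

open Pool.Agent.Helper198.Sch

attribute [local instance] MvPolynomial.gradedAlgebra

variable {σ : Type} {R : Type} [CommRing R]

lemma algebraMap_zero_surjective (J : HI σ R) :
    Function.Surjective (algebraMap R (qgrad J.toIdeal 0)) := by
  rintro ⟨x, hx⟩
  obtain ⟨f, hf, rfl⟩ := mem_qgrad.1 hx
  refine ⟨coeff 0 f, ?_⟩
  apply Subtype.ext
  have h1 : f = C (coeff 0 f) := by
    have h2 : f.totalDegree = 0 := Nat.le_zero.1 hf.totalDegree_le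
    exact totalDegree_eq_zero_iff_eq_C.1 h2
  change Ideal.Quotient.mk J.toIdeal (C (coeff 0 f)) = _
  rw [← h1]

lemma finiteType_zero [Finite σ] (J : HI σ R) :
    Algebra.FiniteType (qgrad J.toIdeal 0) (MvPolynomial σ R ⧸ J.toIdeal) := by
  have h1 : Algebra.FiniteType R (MvPolynomial σ R ⧸ J.toIdeal) := inferInstance
  obtain ⟨s, hs⟩ := h1.out
  refine ⟨s, ?_⟩
  rw [eq_top_iff]
  intro x _
  have hx : x ∈ Algebra.adjoin R (s : Set (MvPolynomial σ R ⧸ J.toIdeal)) := by
    rw [hs]; trivial
  induction hx using Algebra.adjoin_induction with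
  | mem x hx => exact Algebra.subset_adjoin hx
  | algebraMap r =>
    have : algebraMap R (MvPolynomial σ R ⧸ J.toIdeal) r =
        algebraMap (qgrad J.toIdeal 0) (MvPolynomial σ R ⧸ J.toIdeal)
          (algebraMap R (qgrad J.toIdeal 0) r) := rfl
    rw [this]
    exact Subalgebra.algebraMap_mem _ _
  | add x y _ _ hx hy => exact Subalgebra.add_mem _ (hx trivial) (hy trivial)
  | mul x y _ _ hx hy => exact Subalgebra.mul_mem _ (hx trivial) (hy trivial)

instance isProper_str [Finite σ] (J : HI σ R) : IsProper (V.str J) := by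
  have h2 := finiteType_zero J
  have h3 : IsProper (Proj.toSpecZero (qgrad J.toIdeal)) := inferInstance
  have h4 : IsClosedImmersion (Spec.map (CommRingCat.ofHom (algebraMap R (qgrad J.toIdeal 0)))) :=
    IsClosedImmersion.spec_of_surjective _ (algebraMap_zero_surjective J)
  have h5 : IsProper (Spec.map (CommRingCat.ofHom (algebraMap R (qgrad J.toIdeal 0)))) :=
    inferInstance
  exact MorphismProperty.comp_mem @IsProper _ _ h3 h5

end Pool.Agent.W473
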