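import Pool.Agent.Helper198.SchO

/-!
Coordinates for points of projective schemes `V J` with values in rings, and gluing of morphisms.
-/

open MvPolynomial DirectSum AlgebraicGeometry CategoryTheory Limits

namespace Pool.Agent.W473

open Pool.Agent.Helper198.Sch

attribute [local instance] MvPolynomial.gradedAlgebra

variable {σ : Type} {R : Type} [CommRing R]

/-- ring maps out of the chart rings. -/
noncomputable def chL (J : HI σ R) (c : σ) {C : Type} [CommRing C] (ρ : R →+* C) (u : σ → C)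
    (hc : u c = 1) (hu : ∀ f ∈ J.toIdeal, eval₂ ρ u f = 0) : Ch J c →+* C :=
  letI := ρ.toAlgebra
  (chLift J c u hc (fun f hf => hu f hf) : Ch J c →ₐ[R] C).toRingHom

lemma chL_frac (J : HI σ R) (c : σ) {C : Type} [CommRing C] (ρ : R →+* C) (u : σ → C)
    (hc : u c = 1) (hu : ∀ f ∈ J.toIdeal, eval₂ ρ u f = 0) (s : σ) :
    chL J c ρ u hc hu (frac J c s) = u s := by
  let _ := ρ.toAlgebra
  exact chLift_frac J c u hc (fun f hf => hu f hf) s

lemma chL_algebraMap (J : HI σ R) (c : σ) {C : Type} [CommRing C] (ρ : R →+* C) (u : σ → C)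
    (hc : u c = 1) (hu : ∀ f ∈ J.toIdeal, eval₂ ρ u f = 0) (r : R) :
    chL J c ρ u hc hu (algebraMap R (Ch J c) r) = ρ r := by
  let _ := ρ.toAlgebra
  exact (chLift J c u hc (fun f hf => hu f hf) : Ch J c →ₐ[R] C).commutes r

/-- homogeneous coordinates with a unit coordinate. -/
structure Co (J : HI σ R) (C : Type) [CommRing C] where
  /-- the base map -/
  ρ : R →+* C
  /-- the coordinates -/
  u : σ → C
  /-- the index of the unit coordinate -/
  c : σ
  hc : IsUnit (u c)
  hu : ∀ f ∈ J.toIdeal, eval₂ ρ u f = 0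

lemma eval₂_scale {C : Type*} [CommRing C] (ρ : R →+* C) {f : MvPolynomial σ R} {n : ℕ}
    (hf : f.IsHomogeneous n) (u : σ → C) (w : C) :
    eval₂ ρ (fun a => w * u a) f = w ^ n * eval₂ ρ u f := by
  let _ := ρ.toAlgebra
  exact aeval_scale hf u w

lemma eval₂_scale_eq_zero {C : Type} [CommRing C] (J : HI σ R) (ρ : R →+* C) (u : σ → C)
    (hu : ∀ f ∈ J.toIdeal, eval₂ ρ u f = 0) (w : C) :
    ∀ f ∈ J.toIdeal, eval₂ ρ (fun a => w * u a) f = 0 := by
  classical
  intro f hf
  rw [← DirectSum.sum_support_decompose (homogeneousSubmodule σ R) f, eval₂_sum]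
  refine Finset.sum_eq_zero (fun n _ => ?_)
  rw [eval₂_scale ρ (DirectSum.decompose (homogeneousSubmodule σ R) f n).2,
    hu _ (J.isHomogeneous n hf), mul_zero]

namespace Co

variable {J : HI σ R} {C : Type} [CommRing C]

/-- the normalised coordinates -/
noncomputable def nu (x : Co J C) : σ → C := fun a => ((x.hc.unit⁻¹ : Cˣ) : C) * x.u a

lemma nu_c (x : Co J C) : x.nu x.c = 1 := x.hc.val_inv_mul

lemma u_nu (x : Co J C) (a : σ) : x.u x.c * x.nu a = x.u a := by
  unfold nu
  rw [← mul_assoc, IsUnit.mul_val_inv, one_mul]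

/-- the ring map -/
noncomputable def hom (x : Co J C) : Ch J x.c →+* C :=
  chL J x.c x.ρ x.nu x.nu_c (eval₂_scale_eq_zero J x.ρ x.u x.hu _)

lemma hom_frac (x : Co J C) (a : σ) : x.hom (frac J x.c a) = x.nu a := chL_frac _ _ _ _ _ _ _

lemma hom_algebraMap (x : Co J C) (r : R) : x.hom (algebraMap R _ r) = x.ρ r :=
  chL_algebraMap _ _ _ _ _ _ _

/-- the morphism defined by homogeneous coordinates -/
noncomputable def pt (x : Co J C) : Spec (.of C) ⟶ V J :=
  Spec.map (CommRingCat.ofHom x.hom) ≫ V.chart J x.c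

lemma pt_str (x : Co J C) : x.pt ≫ V.str J = Spec.map (CommRingCat.ofHom x.ρ) := by
  rw [pt, Category.assoc, V.chart_str, ← Spec.map_comp, ← CommRingCat.ofHom_comp]
  congr 2
  ext r
  exact x.hom_algebraMap r

/-- base change of coordinates -/
@[simps] def map (x : Co J C) {D : Type} [CommRing D] (φ : C →+* D) : Co J D where
  ρ := φ.comp x.ρ
  u a := φ (x.u a)
  c := x.c
  hc := x.hc.map φ
  hu f hf := by
    have := congrArg φ (x.hu f hf)
    rw [hom_eval₂, map_zero] at this
    exact this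

lemma nu_map (x : Co J C) {D : Type} [CommRing D] (φ : C →+* D) (a : σ) :
    (x.map φ).nu a = φ (x.nu a) := by
  have h1 := (x.map φ).u_nu a
  have h2 := congrArg φ (x.u_nu a)
  rw [map_mul] at h2
  exact (x.map φ).hc.mul_left_cancel (h1.trans h2.symm)

lemma map_pt (x : Co J C) {D : Type} [CommRing D] (φ : C →+* D) :
    Spec.map (CommRingCat.ofHom φ) ≫ x.pt = (x.map φ).pt := by
  rw [pt, pt, ← Category.assoc, ← Spec.map_comp, ← CommRingCat.ofHom_comp]
  congr 3
  apply ch_ringHom_ext
  · intro r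
    rw [RingHom.comp_apply, hom_algebraMap]
    exact ((x.map φ).hom_algebraMap r).symm
  · intro a
    rw [RingHom.comp_apply, hom_frac]
    exact (((x.map φ).hom_frac a).trans (x.nu_map φ a)).symm

end Co

end Pool.Agent.W473
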