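import Pool.Agent.W473.Pt

open MvPolynomial DirectSum AlgebraicGeometry CategoryTheory Limits

namespace Pool.Agent.W473

open Pool.Agent.Helper198.Sch

attribute [local instance] MvPolynomial.gradedAlgebra

set_option backward.isDefEq.respectTransparency false

variable {σ : Type} {R : Type} [CommRing R]

namespace Co

variable {J : HI σ R} {C : Type} [CommRing C]

section congr

variable (x y : Co J C) (h : ∀ i j, x.u i * y.u j = x.u j * y.u i)

include h in
lemma isUnit_of_par : IsUnit (x.u y.c) := by
  have h1 : IsUnit (x.u x.c * y.u y.c) := x.hc.mul y.hc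
  rw [h] at h1
  exact isUnit_of_mul_isUnit_left h1

include h in
lemma isUnit_nu_of_par : IsUnit (x.nu y.c) := by
  have h1 := x.isUnit_of_par y h
  rw [← x.u_nu] at h1
  exact isUnit_of_mul_isUnit_right h1

include h in
lemma nu_par (a : σ) : y.nu a * x.nu y.c = x.nu a := by
  apply (x.hc.mul y.hc).mul_left_cancel
  have h1 := x.u_nu a
  have h2 := x.u_nu y.c
  have h3 := y.u_nu a
  calc x.u x.c * y.u y.c * (y.nu a * x.nu y.c) = (x.u x.c * x.nu y.c) * (y.u y.c * y.nu a) := by
        ring
    _ = x.u y.c * y.u a := by rw [h2, h3]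
    _ = x.u a * y.u y.c := by rw [h]
    _ = x.u x.c * y.u y.c * x.nu a := by rw [← h1]; ring

/-- the lift of the normalised coordinates to the quotient ring -/
noncomputable def q (x : Co J C) : (MvPolynomial σ R ⧸ J.toIdeal) →+* C :=
  Ideal.Quotient.lift J.toIdeal (eval₂Hom x.ρ x.nu)
    (eval₂_scale_eq_zero J x.ρ x.u x.hu _)

lemma q_gen (x : Co J C) (a : σ) : x.q (gen J a) = x.nu a := by
  refine (Ideal.Quotient.lift_mk _ _ _).trans ?_
  simp

lemma q_C (x : Co J C) (r : R) : x.q (algebraMap R _ r) = x.ρ r := by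
  refine (Ideal.Quotient.lift_mk _ _ _).trans ?_
  simp

/-- computation of maps out of the localization -/
lemma loc_frac {c : σ} {a : σ} (f : Localization.Away (gen J c) →+* C)
    (g : (MvPolynomial σ R ⧸ J.toIdeal) →+* C) (hg : ∀ x, f (algebraMap _ _ x) = g x) :
    g (gen J c) * f (chVal J c (frac J c a)) = g (gen J a) := by
  have := congrArg f (chVal_frac J c a)
  rw [map_mul, hg, hg] at this
  exact this

lemma loc_alg {c : σ} (f : Localization.Away (gen J c) →+* C)
    (g : (MvPolynomial σ R ⧸ J.toIdeal) →+* C) (hg : ∀ x, f (algebraMap _ _ x) = g x) (r : R) :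
    f (chVal J c (algebraMap R _ r)) = g (algebraMap R _ r) := by
  rw [AlgHom.commutes]
  have : algebraMap R (Localization.Away (gen J c)) r =
      algebraMap (MvPolynomial σ R ⧸ J.toIdeal) (Localization.Away (gen J c))
        (algebraMap R (MvPolynomial σ R ⧸ J.toIdeal) r) := by
    rw [← IsScalarTower.algebraMap_apply]
  rw [this, hg]

include h in
lemma q_unit : IsUnit (x.q (gen J x.c * gen J y.c)) := by
  rw [map_mul, q_gen, q_gen, nu_c, one_mul]
  exact x.isUnit_nu_of_par y h

/-- the lift to the overlap of two charts -/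
noncomputable def L : Localization.Away (gen J x.c * gen J y.c) →+* C :=
  Localization.awayLift x.q _ (x.q_unit y h)

lemma L_alg (z) : L x y h (algebraMap _ _ z) = x.q z :=
  IsLocalization.Away.lift_eq _ (x.q_unit y h) _

/-- the lift to the overlap of two charts -/
noncomputable def L' :
    HomogeneousLocalization.Away (qgrad J.toIdeal) (gen J x.c * gen J y.c) →+* C :=
  (L x y h).comp (algebraMap _ _)

lemma L'_awayMap {c d : σ} (hx : gen J x.c * gen J y.c = gen J c * gen J d)
    (z : HomogeneousLocalization.Away (qgrad J.toIdeal) (gen J c)) :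
    L' x y h (HomogeneousLocalization.awayMap (qgrad J.toIdeal) (gen_mem J d) hx z) =
      ((L x y h).comp (Localization.awayLift
        (algebraMap (MvPolynomial σ R ⧸ J.toIdeal) (Localization.Away (gen J x.c * gen J y.c)))
        (gen J c) (isUnit_of_dvd_unit (map_dvd _ ⟨_, hx⟩)
          (IsLocalization.Away.algebraMap_isUnit _)))) (chVal J c z) := by
  unfold L'
  rw [RingHom.comp_apply, RingHom.comp_apply]
  congr 1
  exact HomogeneousLocalization.val_awayMap _ _ _ _

lemma L'_frac {c d : σ} (hx : gen J x.c * gen J y.c = gen J c * gen J d) (a : σ) :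
    x.nu c * L' x y h (HomogeneousLocalization.awayMap (qgrad J.toIdeal) (gen_mem J d) hx
      (frac J c a)) = x.nu a := by
  rw [L'_awayMap x y h hx, ← q_gen, ← q_gen]
  apply loc_frac
  intro z
  rw [RingHom.comp_apply, IsLocalization.Away.lift_eq, L_alg]

lemma L'_algebraMap {c d : σ} (hx : gen J x.c * gen J y.c = gen J c * gen J d) (r : R) :
    L' x y h (HomogeneousLocalization.awayMap (qgrad J.toIdeal) (gen_mem J d) hx
      (algebraMap R (Ch J c) r)) = x.ρ r := by
  rw [L'_awayMap, ← q_C]
  apply loc_alg
  intro z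
  rw [RingHom.comp_apply, IsLocalization.Away.lift_eq, L_alg]

end congr

/-- proportional coordinates define the same point -/
lemma pt_congr (x y : Co J C) (hρ : x.ρ = y.ρ) (h : ∀ i j, x.u i * y.u j = x.u j * y.u i) :
    x.pt = y.pt := by
  have h1 : x.hom = (L' x y h).comp
      (HomogeneousLocalization.awayMap (qgrad J.toIdeal) (gen_mem J y.c) rfl) := by
    apply ch_ringHom_ext
    · intro r
      rw [hom_algebraMap]
      exact (L'_algebraMap x y h rfl r).symm
    · intro a
      rw [hom_frac]
      have := L'_frac x y h (c := x.c) rfl a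
      rw [nu_c, one_mul] at this
      exact this.symm
  have h2 : y.hom = (L' x y h).comp
      (HomogeneousLocalization.awayMap (qgrad J.toIdeal) (gen_mem J x.c) (mul_comm _ _)) := by
    apply ch_ringHom_ext
    · intro r
      rw [hom_algebraMap, ← hρ]
      exact (L'_algebraMap x y h (mul_comm _ _) r).symm
    · intro a
      rw [hom_frac]
      have h3 := L'_frac x y h (c := y.c) (mul_comm _ _) a
      apply (x.isUnit_nu_of_par y h).mul_left_cancel
      rw [mul_comm, x.nu_par y h a]
      exact h3.symm
  rw [pt, pt, h1, h2]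
  have e1 : Spec.map (CommRingCat.ofHom (HomogeneousLocalization.awayMap (qgrad J.toIdeal)
      (gen_mem J y.c) (f := gen J x.c) rfl)) ≫ V.chart J x.c = _ :=
    Proj.SpecMap_awayMap_awayι (𝒜 := qgrad J.toIdeal) (gen_mem J x.c) one_pos (gen_mem J y.c) rfl
  have e2 : Spec.map (CommRingCat.ofHom (HomogeneousLocalization.awayMap (qgrad J.toIdeal)
      (gen_mem J x.c) (f := gen J y.c) (mul_comm _ _))) ≫ V.chart J y.c = _ :=
    Proj.SpecMap_awayMap_awayι (𝒜 := qgrad J.toIdeal) (gen_mem J y.c) one_pos (gen_mem J x.c)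
      (mul_comm (gen J x.c) (gen J y.c))
  rw [CommRingCat.ofHom_comp, CommRingCat.ofHom_comp, Spec.map_comp, Spec.map_comp,
    Category.assoc, Category.assoc]
  congr 1
  exact e1.trans e2.symm

end Co

end Pool.Agent.W473
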