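import Pool.Agent.W473.Pt2

open MvPolynomial DirectSum AlgebraicGeometry CategoryTheory Limits

namespace Pool.Agent.W473

open Pool.Agent.Helper198.Sch

attribute [local instance] MvPolynomial.gradedAlgebra

variable {σ : Type} {R : Type} [CommRing R]

namespace Co

variable {J : HI σ R} {C : Type} [CommRing C]

/-- coordinates from a ring map out of a chart ring -/
@[simps] noncomputable def ofHom (c : σ) (φ : Ch J c →+* C) : Co J C where
  ρ := φ.comp (algebraMap R (Ch J c))
  u a := φ (frac J c a)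
  c := c
  hc := by rw [frac_self, map_one]; exact isUnit_one
  hu f hf := by
    have h := congrArg φ (aeval_frac_eq_zero J c f hf)
    rw [map_zero, aeval_def, hom_eval₂] at h
    exact h

lemma ofHom_nu (c : σ) (φ : Ch J c →+* C) (a : σ) : (ofHom c φ).nu a = φ (frac J c a) := by
  have h := (ofHom c φ).u_nu a
  simp only [ofHom_u, ofHom_c, frac_self, map_one, one_mul] at h
  exact h

lemma ofHom_pt (c : σ) (φ : Ch J c →+* C) :
    (ofHom c φ).pt = Spec.map (CommRingCat.ofHom φ) ≫ V.chart J c := by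
  rw [pt]
  congr 3
  apply ch_ringHom_ext
  · intro r
    rw [hom_algebraMap]
    rfl
  · intro a
    exact ((ofHom c φ).hom_frac a).trans (ofHom_nu c φ a)

lemma isUnit_of_forall_prime {C : Type*} [CommRing C] {f : C}
    (h : ∀ x : PrimeSpectrum C, f ∉ x.asIdeal) : IsUnit f := by
  by_contra hf
  obtain ⟨m, hm, hfm⟩ := exists_max_ideal_of_mem_nonunits hf
  exact h ⟨m, hm.isPrime⟩ hfm

lemma pt_mem_D (x : Co J C) (c : σ) (w : Spec (.of C)) :
    x.pt w ∈ V.D J c ↔ x.nu c ∉ w.asIdeal := by
  have h1 : x.pt w = V.chart J x.c (Spec.map (CommRingCat.ofHom x.hom) w) := by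
    rw [pt]; rfl
  rw [h1, V.chart_mem_D, ← x.hom_frac c]
  exact Iff.rfl

lemma pt_mem_D_self (x : Co J C) (w : Spec (.of C)) : x.pt w ∈ V.D J x.c := by
  rw [pt_mem_D, x.nu_c]
  intro h
  exact w.isPrime.ne_top ((Ideal.eq_top_iff_one _).2 h)

/-- equal points have proportional coordinates -/
lemma par_of_pt_eq (x y : Co J C) (h : x.pt = y.pt) :
    x.ρ = y.ρ ∧ ∀ i j, x.u i * y.u j = x.u j * y.u i := by
  constructor
  · have h1 := x.pt_str
    rw [h, y.pt_str] at h1
    have h2 := Spec.map_injective h1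
    have h3 := congrArg (fun f => f.hom) h2
    exact h3.symm
  · have h1 : IsUnit (y.nu x.c) := by
      apply isUnit_of_forall_prime
      intro w
      refine (y.pt_mem_D x.c w).1 ?_
      rw [← h]
      exact x.pt_mem_D_self w
    have h2 : IsUnit (y.u x.c) := by
      rw [← y.u_nu]
      exact y.hc.mul h1
    let y' : Co J C := { y with c := x.c, hc := h2 }
    have h3 : y'.pt = y.pt := pt_congr y' y rfl (fun i j => mul_comm _ _)
    have h4 : Spec.map (CommRingCat.ofHom x.hom) ≫ V.chart J x.c =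
        Spec.map (CommRingCat.ofHom y'.hom) ≫ V.chart J x.c := h.trans h3.symm
    rw [cancel_mono] at h4
    have h5 := congrArg (fun f => f.hom) (Spec.map_injective h4)
    have h5' : x.hom = y'.hom := h5
    have h6 : ∀ a, x.nu a = y'.nu a := by
      intro a
      rw [← x.hom_frac a, h5']
      exact y'.hom_frac a
    intro i j
    have e1 := x.u_nu i
    have e2 := x.u_nu j
    have e3 := y'.u_nu i
    have e4 := y'.u_nu j
    have e5 : y'.u = y.u := rfl
    have e6 : y'.c = x.c := rfl
    rw [e5, e6, ← h6] at e3 e4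
    rw [← e1, ← e2, ← e3, ← e4]
    ring

end Co

/-- every morphism to `V J` has local coordinates. -/
lemma exists_local {J : HI σ R} {W : Scheme.{0}} (p : W ⟶ V J) (w : W) :
    ∃ (C : CommRingCat.{0}) (i : Spec C ⟶ W) (_ : IsOpenImmersion i) (x : Co J C),
      w ∈ Set.range i ∧ i ≫ p = x.pt := by
  obtain ⟨c, hc⟩ := V.exists_mem_D J (p w)
  obtain ⟨U, hU, hwU, hUV⟩ := exists_isAffineOpen_mem_and_subset (x := w) (U := p ⁻¹ᵁ V.D J c) hc
  have hr : Set.range (hU.fromSpec ≫ p) ⊆ Set.range (V.chart J c) := by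
    rintro _ ⟨z, rfl⟩
    rw [V.mem_range_chart]
    have : hU.fromSpec z ∈ U := by
      rw [← SetLike.mem_coe, ← hU.range_fromSpec]
      exact ⟨z, rfl⟩
    exact hUV this
  let g := IsOpenImmersion.lift (V.chart J c) (hU.fromSpec ≫ p) hr
  have hg : g ≫ V.chart J c = hU.fromSpec ≫ p := IsOpenImmersion.lift_fac _ _ _
  refine ⟨Γ(W, U), hU.fromSpec, inferInstance, Co.ofHom c (Spec.preimage g).hom, ?_, ?_⟩
  · rw [hU.range_fromSpec]
    exact hwU
  · rw [Co.ofHom_pt, ← hg]
    congr 1
    exact (Spec.map_preimage g).symm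

end Pool.Agent.W473
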