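import Pool.Agent.W473.Chart2

/-!
The cubic curves are smooth of relative dimension one, with geometrically integral fibres.
-/

open AlgebraicGeometry CategoryTheory Limits

namespace Pool.Agent.W473

open Pool.Agent.Helper198.Sch

attribute [local instance] MvPolynomial.gradedAlgebra

open Polynomial

section poly

variable (R : Type) [CommRing R]

/-- the empty family of relations -/
def noRel : Empty → MvPolynomial PUnit.{1} R := fun x => x.elim

/-- the presentation of the affine line. -/
noncomputable def presLine : Algebra.PreSubmersivePresentation R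
    (MvPolynomial PUnit.{1} R ⧸ Ideal.span (Set.range (noRel R))) PUnit.{1} Empty :=
  Algebra.PreSubmersivePresentation.naive (v := noRel R) (fun x => x.elim)
    (fun x => x.elim)

lemma smooth_line_aux : Algebra.IsStandardSmoothOfRelativeDimension 1 R
    (MvPolynomial PUnit.{1} R ⧸ Ideal.span (Set.range (noRel R))) := by
  let P : Algebra.SubmersivePresentation R
      (MvPolynomial PUnit.{1} R ⧸ Ideal.span (Set.range (noRel R))) PUnit.{1} Empty :=
    { presLine R with
      jacobian_isUnit := by
        rw [Algebra.PreSubmersivePresentation.jacobian_eq_jacobiMatrix_det]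
        rw [Matrix.det_isEmpty, map_one]
        exact isUnit_one }
  apply P.isStandardSmoothOfRelativeDimension
  simp [Algebra.Presentation.dimension]

lemma smooth_line : Algebra.IsStandardSmoothOfRelativeDimension 1 R R[X] := by
  have := smooth_line_aux R
  have h0 : Ideal.span (Set.range (noRel R)) = ⊥ := by
    rw [Set.range_eq_empty, Ideal.span_empty]
  let e1 : (MvPolynomial PUnit.{1} R ⧸ Ideal.span (Set.range (noRel R))) ≃ₐ[R]
    MvPolynomial PUnit.{1} R :=
    (Ideal.quotientEquivAlgOfEq R h0).trans (AlgEquiv.quotientBot R _)
  exact Algebra.IsStandardSmoothOfRelativeDimension.of_algEquiv 1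
    (e1.trans (MvPolynomial.uniqueAlgEquiv R PUnit.{1}))

end poly

section chart

variable {R : Type} [CommRing R]

/-- The standard etale pair of the chart. -/
noncomputable def pairM (w : R) (h : w * 3 = 1) (b d : R) : StandardEtalePair R[X] where
  f := gp b d
  monic_f := gp_monic b d
  g := X
  cond := by
    refine ⟨C (C w), 0, 2, ?_⟩
    have h1 : derivative (gp b d) = 3 * X ^ 2 := by
      unfold gp
      simp only [derivative_add, derivative_X_pow, derivative_C, add_zero, Nat.cast_ofNat,
        map_ofNat]
    rw [h1, mul_zero, add_zero]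
    have h2 : (C (C w) : R[X][X]) * 3 = 1 := by
      have : (C (C (3 : R)) : R[X][X]) = 3 := by rw [map_ofNat, map_ofNat]
      rw [← this, ← C_mul, ← C_mul, h, C_1, C_1]
    linear_combination X ^ 2 * h2

lemma smooth_pair (w : R) (h : w * 3 = 1) (b d : R) :
    Algebra.IsStandardSmoothOfRelativeDimension 1 R
      (Localization.Away (AdjoinRoot.root (gp b d))) := by
  have h1 := smooth_line R
  have hS : Algebra.IsStandardEtale R[X] (pairM w h b d).Ring := inferInstance
  have h2 : Algebra.IsStandardSmoothOfRelativeDimension 0 R[X] (pairM w h b d).Ring := by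
    obtain ⟨⟨P⟩⟩ := hS
    apply P.toSubmersivePresentation.isStandardSmoothOfRelativeDimension
    simp [Algebra.Presentation.dimension]
  have h3 := Algebra.IsStandardSmoothOfRelativeDimension.of_algEquiv 0
    (pairM w h b d).equivAwayAdjoinRoot
  have h4 : Algebra.IsStandardSmoothOfRelativeDimension 0 R[X]
      (Localization.Away (AdjoinRoot.mk (gp b d) X)) := h3
  rw [AdjoinRoot.mk_X] at h4
  exact Algebra.IsStandardSmoothOfRelativeDimension.trans 1 0 R R[X] _

/-- the pivot coordinate gives a standard smooth localization. -/
lemma smooth_frac {a : R} (h3 : IsUnit (3 : R)) (ha : IsUnit a) (t : Tri) :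
    Algebra.IsStandardSmoothOfRelativeDimension 1 R
      (Localization.Away (frac (JF a) t.i t.j)) := by
  obtain ⟨v, hv⟩ := (cf_unit ha t.j).exists_left_inv
  obtain ⟨w, hw⟩ := h3.exists_left_inv
  have h1 := smooth_pair w hw (v * cf a t.l) (v * cf a t.i)
  let e := chE a t v hv
  have he : e (frac (JF a) t.i t.j) = AdjoinRoot.root _ := by
    change chTo a t v hv (frac (JF a) t.i t.j) = _
    rw [chTo_frac]
    simp [uM]
  let e2 : Localization.Away (frac (JF a) t.i t.j) ≃ₐ[R]
      Localization.Away (AdjoinRoot.root (gp (v * cf a t.l) (v * cf a t.i))) :=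
    { IsLocalization.ringEquivOfRingEquiv (M := Submonoid.powers (frac (JF a) t.i t.j))
        (T := Submonoid.powers (AdjoinRoot.root (gp (v * cf a t.l) (v * cf a t.i))))
        (Localization.Away (frac (JF a) t.i t.j))
        (Localization.Away (AdjoinRoot.root (gp (v * cf a t.l) (v * cf a t.i))))
        e.toRingEquiv (by
          rw [Submonoid.map_powers]
          exact congrArg Submonoid.powers he) with
      commutes' := by
        intro r
        change IsLocalization.map _ _ _ (algebraMap R (Localization.Away (frac (JF a) t.i t.j)) r) = _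
        rw [IsScalarTower.algebraMap_apply R (Ch (JF a) t.i) (Localization.Away (frac (JF a) t.i t.j)),
          IsLocalization.map_eq]
        change algebraMap _ _ (e (algebraMap R (Ch (JF a) t.i) r)) = _
        rw [e.commutes, ← IsScalarTower.algebraMap_apply] }
  exact Algebra.IsStandardSmoothOfRelativeDimension.of_algEquiv 1 e2.symm

end chart

end Pool.Agent.W473
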