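import Pool.Agent.W473.Smooth
import Pool.Agent.W473.Proper
import Pool.Agent.W473.Group2

/-!
The cubic curves are smooth of relative dimension one, with geometrically integral fibres.
-/

open AlgebraicGeometry CategoryTheory Limits

namespace Pool.Agent.W473

open Pool.Agent.Helper198.Sch

attribute [local instance] MvPolynomial.gradedAlgebra

variable {R : Type} [CommRing R]

/-- swapping the two last indices. -/
def swapTri (t : Tri) : Tri := ⟨t.i, t.l, t.j, t.hil, t.hij, t.hjl.symm⟩

lemma locally_smooth {a : R} (h3 : IsUnit (3 : R)) (ha : IsUnit a) (t : Tri) :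
    RingHom.Locally (RingHom.IsStandardSmoothOfRelativeDimension 1)
      (algebraMap R (Ch (JF a) t.i)) := by
  refine ⟨{frac (JF a) t.i t.j, frac (JF a) t.i t.l}, ?_, ?_⟩
  · rw [Ideal.eq_top_iff_one]
    have h := frac_FF a t.i
    rw [FF_tri _ _ t, frac_self] at h
    obtain ⟨v, hv⟩ := (cf_unit (ha.map (algebraMap R (Ch (JF a) t.i))) t.i).exists_left_inv
    have e : (1 : Ch (JF a) t.i) = (-v * cf (algebraMap R (Ch (JF a) t.i) a) t.j *
        frac (JF a) t.i t.j ^ 2) * frac (JF a) t.i t.j +
        (-v * cf (algebraMap R (Ch (JF a) t.i) a) t.l *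
        frac (JF a) t.i t.l ^ 2) * frac (JF a) t.i t.l := by
      linear_combination v * h - hv
    rw [e]
    apply Ideal.add_mem
    · exact Ideal.mul_mem_left _ _ (Ideal.subset_span (by simp))
    · exact Ideal.mul_mem_left _ _ (Ideal.subset_span (by simp))
  · intro g hg
    simp only [Set.mem_insert_iff, Set.mem_singleton_iff] at hg
    have h1 : (algebraMap (Ch (JF a) t.i) (Localization.Away g)).comp
        (algebraMap R (Ch (JF a) t.i)) = algebraMap R (Localization.Away g) := by
      rw [← IsScalarTower.algebraMap_eq]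
    rw [h1, RingHom.isStandardSmoothOfRelativeDimension_algebraMap]
    rcases hg with rfl | rfl
    · exact smooth_frac h3 ha t
    · exact smooth_frac h3 ha (swapTri t)

set_option backward.isDefEq.respectTransparency.types false in
lemma smooth_EV {a : R} (h3 : IsUnit (3 : R)) (ha : IsUnit a) :
    SmoothOfRelativeDimension 1 (V.str (JF a)) := by
  apply IsZariskiLocalAtSource.of_openCover (V.cover (JF a)).openCover
  intro (c : Fin 3)
  change SmoothOfRelativeDimension 1 (V.chart (JF a) c ≫ V.str (JF a))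
  rw [V.chart_str, HasRingHomProperty.Spec_iff (P := @SmoothOfRelativeDimension 1)]
  exact locally_smooth h3 ha (triOf c)

lemma map_fF {R' : Type} [CommRing R'] (φ : R →+* R') (a : R) :
    MvPolynomial.map φ (fF a) = fF (φ a) := by
  simp [fF]

lemma rel_JF {R' : Type} [CommRing R'] (φ : R →+* R') (a : R) : V.Rel φ (JF a) (JF (φ a)) := by
  rw [V.Rel, JF, HI.ofSet_toIdeal, Ideal.span_le]
  rintro f rfl
  rw [SetLike.mem_coe, Ideal.mem_comap, map_fF]
  exact mem_ofSet rfl

lemma rel_JF' {R' : Type} [CommRing R'] (φ : R →+* R') (a : R) :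
    (JF (φ a)).toIdeal ≤ (JF a).toIdeal.map (MvPolynomial.map φ) := by
  rw [JF, HI.ofSet_toIdeal, Ideal.span_le]
  rintro f rfl
  rw [SetLike.mem_coe, ← map_fF]
  exact Ideal.mem_map_of_mem _ (mem_ofSet rfl)

lemma isPullback_EV {R' : Type} [CommRing R'] (φ : R →+* R') (a : R) :
    IsPullback (V.map φ (JF a) (JF (φ a)) (rel_JF φ a)) (V.str (JF (φ a))) (V.str (JF a))
      (Spec.map (CommRingCat.ofHom φ)) :=
  V.isPullback_map φ _ _ (rel_JF φ a) (rel_JF' φ a)

lemma geomIntegral_EV {a : R} (h3 : IsUnit (3 : R)) (ha : IsUnit a) :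
    GeometricallyIntegral (V.str (JF a)) := by
  constructor
  intro K _ y Z f g h
  obtain ⟨φ, rfl⟩ := Spec.map_surjective y
  have h1 := isPullback_EV φ.hom a
  have h2 : IsIntegral (EV (φ.hom a)) := by
    apply integral_EV
    · have := (h3.map φ.hom).ne_zero
      rwa [map_ofNat] at this
    · exact (ha.map φ.hom).ne_zero
  have h3 : IsPullback (V.map φ.hom (JF a) (JF (φ.hom a)) (rel_JF φ.hom a))
      (V.str (JF (φ.hom a))) (V.str (JF a)) (Spec.map φ) := h1
  have h4 : Nonempty (EV (φ.hom a)) := inferInstance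
  have h5 : Nonempty Z := ⟨(h.isoIsPullback _ _ h3).inv h4.some⟩
  exact isIntegral_of_isOpenImmersion (h.isoIsPullback _ _ h3).hom

end Pool.Agent.W473
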