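import Pool.Agent.W473.Add

open MvPolynomial DirectSum AlgebraicGeometry CategoryTheory Limits

namespace Pool.Agent.W473

open Pool.Agent.Helper198.Sch

attribute [local instance] MvPolynomial.gradedAlgebra

variable {R R' : Type} [CommRing R] [CommRing R']

/-- The data of a natural linear operation on coordinates, from the curve of `a : R'` to the curve
of `b : R`. -/
structure Op (a : R') (b : R) where
  /-- the base map -/
  θ : R →+* R'
  /-- the operation -/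
  Φ : ∀ (B : Type) [CommRing B], (R' →+* B) → (Fin 3 → B) → (Fin 3 → B)
  map' : ∀ (B B' : Type) [CommRing B] [CommRing B'] (φ : B →+* B') (ρ : R' →+* B) (u : Fin 3 → B)
    (i : Fin 3), Φ B' (φ.comp ρ) (fun j => φ (u j)) i = φ (Φ B ρ u i)
  scale : ∀ (B : Type) [CommRing B] (ρ : R' →+* B) (u : Fin 3 → B) (s : B) (i : Fin 3),
    Φ B ρ (fun j => s * u j) i = s * Φ B ρ u i
  ff : ∀ (B : Type) [CommRing B] (ρ : R' →+* B) (u : Fin 3 → B), FF (ρ a) u = 0 →
    FF (ρ (θ b)) (Φ B ρ u) = 0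
  unit : ∀ (B : Type) [CommRing B] (ρ : R' →+* B) (u : Fin 3 → B), (∃ c, IsUnit (u c)) →
    ∃ c, IsUnit (Φ B ρ u c)

namespace Op

variable {a : R'} {b : R} (T : Op a b)

/-- the relation -/
def Rel {C : Type} [CommRing C] (p : Spec (.of C) ⟶ EV a) (r : Spec (.of C) ⟶ EV b) : Prop :=
  ∃ (y : Co (JF a) C) (x : Co (JF b) C), x.ρ = y.ρ.comp T.θ ∧ p = y.pt ∧ r = x.pt ∧
    x.u = T.Φ C y.ρ y.u

variable {T} in
lemma Rel.unique {C : Type} [CommRing C] {p : Spec (.of C) ⟶ EV a} {r r' : Spec (.of C) ⟶ EV b}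
    (h : T.Rel p r) (h' : T.Rel p r') : r = r' := by
  obtain ⟨y, x, hx, hp, hr, hu⟩ := h
  obtain ⟨y', x', hx', hp', hr', hu'⟩ := h'
  obtain ⟨e1, e2⟩ := Co.par_of_pt_eq y y' (hp.symm.trans hp')
  rw [hr, hr']
  apply Co.pt_congr
  · rw [hx, hx', e1]
  · obtain ⟨s, hs⟩ := Co.exists_smul y y' e2
    intro i j
    rw [hu', hu, ← e1, hs, T.scale, T.scale]
    ring

variable {T} in
lemma Rel.map {C : Type} [CommRing C] {p : Spec (.of C) ⟶ EV a} {r : Spec (.of C) ⟶ EV b}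
    (h : T.Rel p r) {D : Type} [CommRing D] (φ : C →+* D) :
    T.Rel (Spec.map (CommRingCat.ofHom φ) ≫ p) (Spec.map (CommRingCat.ofHom φ) ≫ r) := by
  obtain ⟨y, x, hx, hp, hr, hu⟩ := h
  refine ⟨y.map φ, x.map φ, ?_, ?_, ?_, ?_⟩
  · simp [hx, RingHom.comp_assoc]
  · rw [hp, Co.map_pt]
  · rw [hr, Co.map_pt]
  · funext i
    change φ (x.u i) = T.Φ D (φ.comp y.ρ) (fun i => φ (y.u i)) i
    rw [hu, T.map']

theorem exists_hom : ∃ r : EV a ⟶ EV b, ∀ (C : CommRingCat.{0}) (i : Spec C ⟶ EV a)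
    (f : Spec C ⟶ EV b), T.Rel (C := C) i f → i ≫ r = f := by
  apply glue (fun C i f => T.Rel (C := C) i f)
  · intro w
    obtain ⟨C, i, hi, y, hw, hy⟩ := exists_local (𝟙 (EV a)) w
    rw [Category.comp_id] at hy
    obtain ⟨c, hc⟩ := T.unit C y.ρ y.u ⟨y.c, y.hc⟩
    exact ⟨C, i, (Co.mkF b (y.ρ.comp T.θ) (T.Φ C y.ρ y.u) c hc (T.ff C y.ρ y.u y.FF_eq)).pt, hi,
      hw, y, _, rfl, hy, rfl, rfl⟩
  · intro C C' i i' f f' h h' D j j' hj
    have h1 := h.map (Spec.preimage j).hom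
    have h2 := h'.map (Spec.preimage j').hom
    have e1 : Spec.map (CommRingCat.ofHom (Spec.preimage j).hom) = j := Spec.map_preimage j
    have e2 : Spec.map (CommRingCat.ofHom (Spec.preimage j').hom) = j' := Spec.map_preimage j'
    rw [e1] at h1
    rw [e2] at h2
    rw [← hj] at h2
    exact Rel.unique h1 h2

/-- the morphism of a linear operation -/
noncomputable def hom : EV a ⟶ EV b := T.exists_hom.choose

lemma pt_hom {C : Type} [CommRing C] (y : Co (JF a) C) (x : Co (JF b) C)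
    (h1 : x.ρ = y.ρ.comp T.θ) (h2 : x.u = T.Φ C y.ρ y.u) : y.pt ≫ T.hom = x.pt :=
  T.exists_hom.choose_spec (.of C) y.pt x.pt ⟨y, x, h1, rfl, rfl, h2⟩

/-- the transformed coordinates -/
noncomputable def co {C : Type} [CommRing C] (y : Co (JF a) C) : Co (JF b) C :=
  Co.mkF b (y.ρ.comp T.θ) (T.Φ C y.ρ y.u) (T.unit C y.ρ y.u ⟨y.c, y.hc⟩).choose
    (T.unit C y.ρ y.u ⟨y.c, y.hc⟩).choose_spec (T.ff C y.ρ y.u y.FF_eq)

lemma co_ρ {C : Type} [CommRing C] (y : Co (JF a) C) : (T.co y).ρ = y.ρ.comp T.θ := rfl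

lemma co_u {C : Type} [CommRing C] (y : Co (JF a) C) : (T.co y).u = T.Φ C y.ρ y.u := rfl

lemma pt_hom' {C : Type} [CommRing C] (y : Co (JF a) C) : y.pt ≫ T.hom = (T.co y).pt :=
  T.pt_hom y _ rfl rfl

/-- extensionality for morphisms out of `V J` -/
lemma _root_.Pool.Agent.W473.hom_ext_co {σ : Type} {J : HI σ R} {Z : Scheme.{0}} (r r' : V J ⟶ Z)
    (h : ∀ (C : Type) [CommRing C] (y : Co J C), y.pt ≫ r = y.pt ≫ r') : r = r' := by
  apply hom_ext_local
  intro w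
  obtain ⟨C, i, hi, y, hw, hy⟩ := exists_local (𝟙 (V J)) w
  rw [Category.comp_id] at hy
  exact ⟨C, i, hi, hw, by rw [hy]; exact h C y⟩

lemma hom_str : T.hom ≫ V.str (JF b) = V.str (JF a) ≫ Spec.map (CommRingCat.ofHom T.θ) := by
  apply hom_ext_co
  intro C _ y
  rw [← Category.assoc, ← Category.assoc, pt_hom', Co.pt_str, Co.pt_str, ← Spec.map_comp,
    ← CommRingCat.ofHom_comp]
  rfl

end Op

/-- negation -/
def negOp (a : R) : Op a a where
  θ := RingHom.id R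
  Φ B _ _ u := ![u 0, u 2, u 1]
  map' B B' _ _ φ ρ u i := by fin_cases i <;> rfl
  scale B _ ρ u s i := by fin_cases i <;> rfl
  ff B _ ρ u h := by
    unfold FF at *
    simp only [Matrix.cons_val, RingHom.id_apply]
    linear_combination h
  unit B _ ρ u h := by
    obtain ⟨c, hc⟩ := h
    fin_cases c
    · exact ⟨0, hc⟩
    · exact ⟨2, hc⟩
    · exact ⟨1, hc⟩

/-- scaling of the first coordinate -/
def scaleOp (θ : R →+* R') (a : R') (b : R) (α : R'ˣ) (h : θ b * (α : R') ^ 3 = a) : Op a b where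
  θ := θ
  Φ B _ ρ u := ![ρ α * u 0, u 1, u 2]
  map' B B' _ _ φ ρ u i := by fin_cases i <;> simp
  scale B _ ρ u s i := by
    fin_cases i
    · simp; ring
    · rfl
    · rfl
  ff B _ ρ u hu := by
    unfold FF at *
    rw [← h, map_mul, map_pow] at hu
    simp only [Matrix.cons_val]
    linear_combination hu
  unit B _ ρ u hu := by
    obtain ⟨c, hc⟩ := hu
    fin_cases c
    · exact ⟨0, (α.isUnit.map ρ).mul hc⟩
    · exact ⟨1, hc⟩
    · exact ⟨2, hc⟩

end Pool.Agent.W473
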